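import Pool.Agent.Work.MP_9d4f6b_lc.AG.Defs

/-!
MODULE ABS (size S-M). An integer valued function with mean ≤ 1 + η, second factorial moment ≥ 3/4 and bounded third
moment vanishes with positive probability.

PROOF. Let K = 4 C. For every n : ℕ, real numbers: n (n - 1) ≤ K * (n - 1)^+ + n^3 / K, where (n-1)^+ = max (n-1) 0:
if n ≤ K then n (n-1) ≤ K (n-1)^+; if n > K then n (n-1) ≤ n^2 ≤ n^3 / K. Sum over Ω:
(3/4) |Ω| ≤ K ∑ (N-1)^+ + C |Ω| / K = K ∑ (N-1)^+ + |Ω|/4, so ∑ (N-1)^+ ≥ |Ω| / (2K) = |Ω| / (8 C).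
And (N-1)^+ = (N - 1) + [N = 0], so ∑ (N-1)^+ = ∑ N - |Ω| + #{N = 0} ≤ η |Ω| + #{N = 0}. Hence
#{N = 0} ≥ (1/(8C) - η) |Ω| ≥ |Ω| / (16 C).
-/

set_option linter.unusedVariables false
set_option linter.style.longLine false
set_option autoImplicit false

namespace Pool.Agent.Work.MP_9d4f6b_lc.AG

private theorem key (C : ℝ) (hC : 1 ≤ C) (n : ℕ) :
    (n : ℝ) * ((n : ℝ) - 1) ≤
      4 * C * (((n : ℝ) - 1) + (if n = 0 then 1 else 0)) + (n : ℝ) ^ 3 / (4 * C) := by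
  have hC0 : (0 : ℝ) < 4 * C := by linarith
  rcases Nat.eq_zero_or_pos n with h | h
  · subst h
    simp
  · have hn1 : (1 : ℝ) ≤ n := by exact_mod_cast h
    have hne : n ≠ 0 := by omega
    rw [if_neg hne, add_zero]
    have h3 : 0 ≤ (n : ℝ) ^ 3 / (4 * C) := by positivity
    rcases le_total (n : ℝ) (4 * C) with h4 | h4
    · have : (n : ℝ) * ((n : ℝ) - 1) ≤ 4 * C * ((n : ℝ) - 1) :=
        mul_le_mul_of_nonneg_right h4 (by linarith)
      linarith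
    · have h5 : (n : ℝ) * ((n : ℝ) - 1) ≤ (n : ℝ) ^ 3 / (4 * C) := by
        rw [le_div_iff₀ hC0]
        have h6 : (n : ℝ) * ((n : ℝ) - 1) * (4 * C) ≤ (n : ℝ) * ((n : ℝ) - 1) * n :=
          mul_le_mul_of_nonneg_left h4 (by nlinarith)
        nlinarith
      have h7 : 0 ≤ 4 * C * ((n : ℝ) - 1) := by
        apply mul_nonneg <;> linarith
      linarith

theorem abs3 {Ω : Type} [Fintype Ω] (N : Ω → ℕ) (C η : ℝ) (hC : 1 ≤ C) (hη : η ≤ 1 / (16 * C))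
    (h1 : ∑ w, (N w : ℝ) ≤ (1 + η) * Fintype.card Ω)
    (h2 : (3 / 4 : ℝ) * Fintype.card Ω ≤ ∑ w, (N w : ℝ) * ((N w : ℝ) - 1))
    (h3 : ∑ w, (N w : ℝ) ^ 3 ≤ C * Fintype.card Ω) :
    1 / (16 * C) * Fintype.card Ω ≤ Nat.card {w : Ω // N w = 0} := by
  classical
  have hcard : (Nat.card {w : Ω // N w = 0} : ℝ) = ∑ w, (if N w = 0 then (1 : ℝ) else 0) := by
    rw [Nat.card_eq_fintype_card, Fintype.card_subtype, Finset.sum_boole]
  have hC0 : (0 : ℝ) < 4 * C := by linarith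
  set W : ℝ := (Fintype.card Ω : ℝ) with hW
  have hW0 : 0 ≤ W := by rw [hW]; positivity
  set Z : ℝ := (Nat.card {w : Ω // N w = 0} : ℝ) with hZ
  have hone : ∑ w : Ω, (1 : ℝ) = W := by simp [hW]
  have hsum := Finset.sum_le_sum (fun (w : Ω) (_ : w ∈ Finset.univ) => key C hC (N w))
  rw [Finset.sum_add_distrib, ← Finset.mul_sum, ← Finset.sum_div, Finset.sum_add_distrib,
    Finset.sum_sub_distrib, hone, ← hcard] at hsum
  have h5 : (∑ w, (N w : ℝ) ^ 3) / (4 * C) ≤ W / 4 := by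
    rw [div_le_iff₀ hC0]
    linarith
  have h6 : (3 / 4 : ℝ) * W ≤ 4 * C * (∑ w, (N w : ℝ) - W + Z) + W / 4 := by linarith
  have h7 : 4 * C * (∑ w, (N w : ℝ) - W + Z) ≤ 4 * C * (η * W + Z) := by
    apply mul_le_mul_of_nonneg_left _ hC0.le
    linarith
  have h8 : η * W ≤ 1 / (16 * C) * W := mul_le_mul_of_nonneg_right hη hW0
  have h9 : W / 2 ≤ 4 * C * (1 / (16 * C) * W + Z) := by
    have : 4 * C * (η * W + Z) ≤ 4 * C * (1 / (16 * C) * W + Z) := by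
      apply mul_le_mul_of_nonneg_left _ hC0.le
      linarith
    linarith
  have h10 : 4 * C * (1 / (16 * C) * W + Z) = W / 4 + 4 * C * Z := by
    field_simp
    ring
  rw [h10] at h9
  have h11 : 1 / (16 * C) * W ≤ Z := by
    rw [div_mul_eq_mul_div, one_mul, div_le_iff₀ (by linarith)]
    linarith
  exact h11

end Pool.Agent.Work.MP_9d4f6b_lc.AG
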