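import Pool.Agent.Work.MP_9d4f6b_lc.AG.Defs
import Pool.Agent.Work.MP_9d4f6b_lc.Poly

/-!
MODULE BBD (size S-M). The bound of the weights is below the bound BB of the coding.

PROOF. intB K m n = 2 (1 + ...) (detB (2K+1) m * detB (2K+1) n)^2 ≥ detB (2K+1) m and ≥ detB (2K+1) n (both detB are ≥ 1 as
2K+1 ≥ 1: one_le_detB). In bd M m n the first argument is K = QQ M m n * M + M ≥ M, so 2K+1 ≥ M+1 and
detB (2K+1) m ≥ detB (M+1) m (powers are monotone: unfold detB). BB M l m n = bd M m n + bd M l n + bd M m l.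
-/

set_option linter.unusedVariables false
set_option linter.style.longLine false
set_option autoImplicit false

namespace Pool.Agent.Work.MP_9d4f6b_lc.AG

private theorem detB_mono {K K' : ℕ} (h : K ≤ K') (n : ℕ) : detB K n ≤ detB K' n := by
  unfold detB
  exact Nat.mul_le_mul_left _ (Nat.pow_le_pow_left h n)

private theorem le_bd (M m n : ℕ) : detB (M + 1) m ≤ bd M m n ∧ detB (M + 1) n ≤ bd M m n := by
  unfold bd
  set K : ℕ := QQ M m n * M + M with hK
  have hKM : M + 1 ≤ 2 * K + 1 := by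
    have : 0 ≤ QQ M m n * M := Nat.zero_le _
    omega
  have h1 : 1 ≤ detB (2 * K + 1) m := one_le_detB (by omega) m
  have h2 : 1 ≤ detB (2 * K + 1) n := one_le_detB (by omega) n
  have m1 : detB (M + 1) m ≤ detB (2 * K + 1) m := detB_mono hKM m
  have m2 : detB (M + 1) n ≤ detB (2 * K + 1) n := detB_mono hKM n
  set P : ℕ := detB (2 * K + 1) m * detB (2 * K + 1) n with hP
  have p1 : detB (2 * K + 1) m ≤ P := Nat.le_mul_of_pos_right _ h2
  have p2 : detB (2 * K + 1) n ≤ P := Nat.le_mul_of_pos_left _ h1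
  have hP1 : 1 ≤ P := le_trans h1 p1
  have p3 : P ≤ P ^ 2 := by
    rw [pow_two]
    exact Nat.le_mul_of_pos_right _ hP1
  have p4 : P ^ 2 ≤ intB K m n := by
    unfold intB
    rw [← hP]
    refine Nat.le_mul_of_pos_left _ ?_
    positivity
  constructor <;> omega

theorem detB_le_BB (M l m n : ℕ) :
    detB (M + 1) l ≤ BB M l m n ∧ detB (M + 1) m ≤ BB M l m n ∧ detB (M + 1) n ≤ BB M l m n := by
  have h1 := le_bd M m n
  have h2 := le_bd M l n
  unfold BB
  refine ⟨?_, ?_, ?_⟩
  · have := h2.1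
    omega
  · have := h1.1
    omega
  · have := h1.2
    omega

end Pool.Agent.Work.MP_9d4f6b_lc.AG
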