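import Pool.Agent.Work.MP_9d4f6b_lc.AG.Ker

/-!
MODULE BLK (size M). A block w of e bilinear forms; conditions bf (w i) (y t) (z t) = 0 for all i and all t in τ.

PROOF. The conditions for different i are independent: the subtype is equivalent to
Fin e → {m : J → K → F // ∀ t, bf m (y t) (z t) = 0} (Equiv.subtypePiEquivPi after exchanging the quantifiers), so
its card is the e-th power (Nat.card_pi / Nat.card_fun). By currying (Equiv.curry) {m // ...} is
{w : J × K → F // ∀ t, ∑ k, w k * v t k = 0} with v t (j, k) = y t j * z t k (Fintype.sum_prod_type), so ker_ge and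
ker_eq with κ = J × K give card * q^(card τ) ≥ q^(card J * card K), resp. =; take e-th powers.
-/

set_option linter.unusedVariables false
set_option linter.style.longLine false
set_option autoImplicit false

namespace Pool.Agent.Work.MP_9d4f6b_lc.AG

private theorem card_blk {F : Type} [Field F] [Fintype F] {J K τ : Type} [Fintype J] [Fintype K]
    [Fintype τ] (e : ℕ) (y : τ → J → F) (z : τ → K → F) :
    Nat.card {w : Fin e → J → K → F // ∀ t i, bf (w i) (y t) (z t) = 0} =
      Nat.card {w : J × K → F // ∀ t, ∑ k, w k * (fun (t : τ) (p : J × K) => y t p.1 * z t p.2) t k = 0} ^ e := by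
  have e1 : {w : Fin e → J → K → F // ∀ t i, bf (w i) (y t) (z t) = 0} ≃
      {w : Fin e → J → K → F // ∀ i, ∀ t, bf (w i) (y t) (z t) = 0} :=
    Equiv.subtypeEquivRight (fun w => ⟨fun h i t => h t i, fun h t i => h i t⟩)
  have e2 : {w : Fin e → J → K → F // ∀ i, ∀ t, bf (w i) (y t) (z t) = 0} ≃
      (Fin e → {m : J → K → F // ∀ t, bf m (y t) (z t) = 0}) :=
    Equiv.subtypePiEquivPi (p := fun (_ : Fin e) (m : J → K → F) => ∀ t, bf m (y t) (z t) = 0)
  have e3 : {w : J × K → F // ∀ t, ∑ k, w k * (fun (t : τ) (p : J × K) => y t p.1 * z t p.2) t k = 0} ≃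
      {m : J → K → F // ∀ t, bf m (y t) (z t) = 0} := by
    refine Equiv.subtypeEquiv (Equiv.curry J K F) (fun w => ?_)
    have : ∀ t, bf (Equiv.curry J K F w) (y t) (z t) =
        ∑ k, w k * (fun (t : τ) (p : J × K) => y t p.1 * z t p.2) t k := by
      intro t
      unfold bf
      rw [Fintype.sum_prod_type]
      rfl
    constructor
    · intro h t
      rw [this t]
      exact h t
    · intro h t
      rw [← this t]
      exact h t
  rw [Nat.card_congr e1, Nat.card_congr e2, Nat.card_congr e3, Nat.card_fun, Nat.card_fin]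

theorem blk_ge {F : Type} [Field F] [Fintype F] {J K τ : Type} [Fintype J] [Fintype K] [Fintype τ]
    (e : ℕ) (y : τ → J → F) (z : τ → K → F) :
    Fintype.card F ^ (e * (Fintype.card J * Fintype.card K)) ≤
      Nat.card {w : Fin e → J → K → F // ∀ t i, bf (w i) (y t) (z t) = 0} *
        Fintype.card F ^ (e * Fintype.card τ) := by
  rw [card_blk]
  have h := ker_ge (κ := J × K) (τ := τ) (fun (t : τ) (p : J × K) => y t p.1 * z t p.2)
  rw [Fintype.card_prod] at h
  have h2 := Nat.pow_le_pow_left h e
  rw [mul_pow, ← pow_mul, ← pow_mul] at h2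
  rw [mul_comm e (Fintype.card J * Fintype.card K), mul_comm e (Fintype.card τ)]
  exact h2

theorem blk_eq {F : Type} [Field F] [Fintype F] {J K τ : Type} [Fintype J] [Fintype K] [Fintype τ]
    (e : ℕ) (y : τ → J → F) (z : τ → K → F)
    (h : LinearIndependent F (fun (t : τ) (p : J × K) => y t p.1 * z t p.2)) :
    Nat.card {w : Fin e → J → K → F // ∀ t i, bf (w i) (y t) (z t) = 0} *
        Fintype.card F ^ (e * Fintype.card τ) =
      Fintype.card F ^ (e * (Fintype.card J * Fintype.card K)) := by
  rw [card_blk]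
  have h1 := ker_eq (κ := J × K) (τ := τ) (fun (t : τ) (p : J × K) => y t p.1 * z t p.2) h
  rw [Fintype.card_prod] at h1
  have h2 := congrArg (fun x => x ^ e) h1
  simp only [mul_pow, ← pow_mul] at h2
  rw [mul_comm e (Fintype.card J * Fintype.card K), mul_comm e (Fintype.card τ)]
  exact h2

end Pool.Agent.Work.MP_9d4f6b_lc.AG
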