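import Pool.Agent.Work.MP_9d4f6b_lc.AG.Defs

/-!
MODULE FUN2 (size S-M). Separating functionals. p, r, s points of a projective space.

PROOF. one: p.rep ≠ 0; some coordinate functional (LinearMap.proj). two: for p ≠ r the representatives are linearly
independent (Projectivization.linearIndependent_pair_iff_ne), so p.rep is not in the span of {r.rep} and there is
a functional vanishing on the span of r.rep and not at p.rep (Submodule.exists_le_ker_of_notMem, or
explicitly v ↦ v j * r.rep j' - v j' * r.rep j for suitable j, j'). three: v i₀ is not in the span of the other two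
vectors (LinearIndependent.notMem_span_image or linearIndependent_iff_notMem_span), same lemma.
-/

set_option linter.unusedVariables false
set_option linter.style.longLine false
set_option autoImplicit false

namespace Pool.Agent.Work.MP_9d4f6b_lc.AG

theorem fun_one {F : Type} [Field F] {n : ℕ} (p : Pt F n) :
    ∃ f : (Fin (n + 1) → F) →ₗ[F] F, f p.rep ≠ 0 := by
  obtain ⟨i, hi⟩ := Function.ne_iff.1 p.rep_nonzero
  exact ⟨LinearMap.proj i, by simpa using hi⟩

theorem fun_two {F : Type} [Field F] {n : ℕ} (p r : Pt F n) (h : p ≠ r) :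
    ∃ f : (Fin (n + 1) → F) →ₗ[F] F, f p.rep ≠ 0 ∧ f r.rep = 0 := by
  have h1 := Projectivization.linearIndependent_pair_iff_ne.2 h
  have h2 : p.rep ∉ Submodule.span F {r.rep} := by
    intro h3
    obtain ⟨a, ha⟩ := Submodule.mem_span_singleton.1 h3
    have h4 := LinearIndependent.pair_iff.1 h1 1 (-a) (by rw [← ha]; simp)
    exact one_ne_zero h4.1
  obtain ⟨f, h3, h4⟩ := Submodule.exists_le_ker_of_notMem h2
  exact ⟨f, h3, h4 (Submodule.mem_span_singleton_self _)⟩

theorem fun_three {F : Type} [Field F] {n : ℕ} (v : Fin 3 → Pt F n)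
    (h : LinearIndependent F (fun i => (v i).rep)) (i₀ : Fin 3) :
    ∃ f : (Fin (n + 1) → F) →ₗ[F] F, f (v i₀).rep ≠ 0 ∧ ∀ i, i ≠ i₀ → f (v i).rep = 0 := by
  have h2 := (linearIndependent_iff_notMem_span.1 h) i₀
  obtain ⟨f, h3, h4⟩ := Submodule.exists_le_ker_of_notMem h2
  refine ⟨f, h3, fun i hi => ?_⟩
  exact h4 (Submodule.subset_span ⟨i, by simp [hi], rfl⟩)

end Pool.Agent.Work.MP_9d4f6b_lc.AG
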