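import Pool.Agent.Work.MP_9d4f6b_lc.AG.Tens
import Pool.Agent.Work.MP_9d4f6b_lc.AG.Fun2

/-!
MODULE RK (size M-L, many similar cases). Rank of three tensors y_t ⊗ z_t, t = 0, 1, 2, by patterns.

PROOF. By tens it is enough to find T and for every t in T functionals f, g with f(y t) g(z t) ≠ 0 which kill every
other s in T, i.e. f (y s) = 0 or g (z s) = 0. Tools: fun_one, fun_two (kills one s with y s ≠ y t), fun_three (if y is
independent: kills both others).
Recall: pattern E: all equal; T_i: the other two are equal and different from v i; L and G: pairwise different;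
G: independent.
(a) rho = 1: T = {0}, fun_one twice.
(b) rho = 2: T = {s, t} with y s ≠ y t or z s ≠ z t: kill by f or by g. (E, T_i), (T_i, E), (T_i, T_i): T = {i, j} for some
    j ≠ i; (E, L), (L, E): T = {0, 1}.
(c) rho = 3, T = univ. If π = G (resp. σ = G): fun_three for y (resp. z) and fun_one for the other. Otherwise both
    patterns are in {T0, T1, T2, L}, and not the same T_i: for every t the two others s, s' can be named so that
    y s ≠ y t and z s' ≠ z t; f kills s, g kills s' (fun_two). Check: (T_i, L): t = i: any s, s' ; t ≠ i: s = i, s' the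
    third one. (L, L): any. (T_i, T_j), i ≠ j, k the third index: y i is different from y j = y k, z j is different
    from z i = z k: t = i: s = k, s' = j; t = j: s = i, s' = k; t = k: s = i, s' = j.
Useful reformulation to avoid 36 cases: prove first the lemma
  [for all t, (∃ s s', {s, s'} = univ \ {t}, y s ≠ y t ∧ z s' ≠ z t)] → independence for T = univ
(in Fin 3: four explicit conditions), then unfold pat and rho, split_ifs, and finish each case by this lemma.
-/

set_option linter.unusedVariables false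
set_option linter.style.longLine false
set_option autoImplicit false

namespace Pool.Agent.Work.MP_9d4f6b_lc.AG

private theorem rk_cases {F : Type} [Field F] {n : ℕ} (v : Fin 3 → Pt F n) :
    (pat v = Pat.E ∧ v 0 = v 1 ∧ v 1 = v 2) ∨
    (pat v = Pat.T2 ∧ v 0 = v 1 ∧ v 1 ≠ v 2) ∨
    (pat v = Pat.T1 ∧ v 0 = v 2 ∧ v 0 ≠ v 1) ∨
    (pat v = Pat.T0 ∧ v 1 = v 2 ∧ v 0 ≠ v 1) ∨
    (pat v = Pat.G ∧ LinearIndependent F (fun i => (v i).rep)) ∨
    (pat v = Pat.L ∧ v 0 ≠ v 1 ∧ v 0 ≠ v 2 ∧ v 1 ≠ v 2) := by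
  unfold pat
  by_cases h1 : v 0 = v 1
  · by_cases h2 : v 1 = v 2
    · left
      rw [if_pos h1, if_pos h2]
      exact ⟨rfl, h1, h2⟩
    · right; left
      rw [if_pos h1, if_neg h2]
      exact ⟨rfl, h1, h2⟩
  · by_cases h2 : v 0 = v 2
    · right; right; left
      rw [if_neg h1, if_pos h2]
      exact ⟨rfl, h2, h1⟩
    · by_cases h3 : v 1 = v 2
      · right; right; right; left
        rw [if_neg h1, if_neg h2, if_pos h3]
        exact ⟨rfl, h3, h1⟩
      · by_cases h4 : LinearIndependent F (fun i => (v i).rep)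
        · right; right; right; right; left
          rw [if_neg h1, if_neg h2, if_neg h3, if_pos h4]
          exact ⟨rfl, h4⟩
        · right; right; right; right; right
          rw [if_neg h1, if_neg h2, if_neg h3, if_neg h4]
          exact ⟨rfl, h1, h2, h3⟩

variable {F : Type} [Field F] {β γ : ℕ} (y : Fin 3 → Pt F β) (z : Fin 3 → Pt F γ)

/-- the statement for a given size -/
private def RkS (k : ℕ) : Prop :=
  ∃ T : Finset (Fin 3), T.card = k ∧
    LinearIndependent F (fun (t : T) (p : Fin (β + 1) × Fin (γ + 1)) =>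
      (y t).rep p.1 * (z t).rep p.2)

private theorem rk_of (T : Finset (Fin 3))
    (h : ∀ t ∈ T, ∃ (f : (Fin (β + 1) → F) →ₗ[F] F) (g : (Fin (γ + 1) → F) →ₗ[F] F),
      f (y t).rep * g (z t).rep ≠ 0 ∧ ∀ s ∈ T, s ≠ t → f (y s).rep * g (z s).rep = 0) :
    RkS y z T.card := by
  refine ⟨T, rfl, ?_⟩
  exact tens (fun t : T => (y t).rep) (fun t : T => (z t).rep) fun t => by
    obtain ⟨f, g, h1, h2⟩ := h t t.2
    exact ⟨f, g, h1, fun s hs => h2 s s.2 fun h3 => hs (Subtype.ext h3)⟩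

private theorem rk1 : RkS y z 1 := by
  have := rk_of y z {0} fun t ht => by
    obtain ⟨f, hf⟩ := fun_one (y t)
    obtain ⟨g, hg⟩ := fun_one (z t)
    refine ⟨f, g, mul_ne_zero hf hg, fun s hs hst => ?_⟩
    rw [Finset.mem_singleton] at ht hs
    exact absurd (hs.trans ht.symm) hst
  simpa using this

private theorem rk2 (s t : Fin 3) (h : y s ≠ y t ∨ z s ≠ z t) : RkS y z 2 := by
  have hst : s ≠ t := by
    rintro rfl
    rcases h with h | h <;> exact h rfl
  have key : ∀ a b : Fin 3, (y a ≠ y b ∨ z a ≠ z b) →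
      ∃ (f : (Fin (β + 1) → F) →ₗ[F] F) (g : (Fin (γ + 1) → F) →ₗ[F] F),
        f (y a).rep * g (z a).rep ≠ 0 ∧ f (y b).rep * g (z b).rep = 0 := by
    rintro a b (h | h)
    · obtain ⟨f, hf, hf'⟩ := fun_two _ _ h
      obtain ⟨g, hg⟩ := fun_one (z a)
      exact ⟨f, g, mul_ne_zero hf hg, by rw [hf', zero_mul]⟩
    · obtain ⟨f, hf⟩ := fun_one (y a)
      obtain ⟨g, hg, hg'⟩ := fun_two _ _ h
      exact ⟨f, g, mul_ne_zero hf hg, by rw [hg', mul_zero]⟩
  have := rk_of y z {s, t} fun a ha => by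
    rw [Finset.mem_insert, Finset.mem_singleton] at ha
    rcases ha with rfl | rfl
    · obtain ⟨f, g, h1, h2⟩ := key a t h
      refine ⟨f, g, h1, fun r hr hra => ?_⟩
      rw [Finset.mem_insert, Finset.mem_singleton] at hr
      rcases hr with rfl | rfl
      · exact absurd rfl hra
      · exact h2
    · obtain ⟨f, g, h1, h2⟩ := key a s (h.imp Ne.symm Ne.symm)
      refine ⟨f, g, h1, fun r hr hra => ?_⟩
      rw [Finset.mem_insert, Finset.mem_singleton] at hr
      rcases hr with rfl | rfl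
      · exact h2
      · exact absurd rfl hra
  rwa [Finset.card_pair hst] at this

private theorem rk3 (h0 : (y 0 ≠ y 1 ∧ z 0 ≠ z 2) ∨ (y 0 ≠ y 2 ∧ z 0 ≠ z 1))
    (h1 : (y 1 ≠ y 0 ∧ z 1 ≠ z 2) ∨ (y 1 ≠ y 2 ∧ z 1 ≠ z 0))
    (h2 : (y 2 ≠ y 0 ∧ z 2 ≠ z 1) ∨ (y 2 ≠ y 1 ∧ z 2 ≠ z 0)) : RkS y z 3 := by
  have key : ∀ a b c : Fin 3, (y a ≠ y b ∧ z a ≠ z c) ∨ (y a ≠ y c ∧ z a ≠ z b) →
      ∃ (f : (Fin (β + 1) → F) →ₗ[F] F) (g : (Fin (γ + 1) → F) →ₗ[F] F),
        f (y a).rep * g (z a).rep ≠ 0 ∧ f (y b).rep * g (z b).rep = 0 ∧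
          f (y c).rep * g (z c).rep = 0 := by
    rintro a b c (⟨h, h'⟩ | ⟨h, h'⟩)
    · obtain ⟨f, hf, hf'⟩ := fun_two _ _ h
      obtain ⟨g, hg, hg'⟩ := fun_two _ _ h'
      exact ⟨f, g, mul_ne_zero hf hg, by rw [hf', zero_mul], by rw [hg', mul_zero]⟩
    · obtain ⟨f, hf, hf'⟩ := fun_two _ _ h
      obtain ⟨g, hg, hg'⟩ := fun_two _ _ h'
      exact ⟨f, g, mul_ne_zero hf hg, by rw [hg', mul_zero], by rw [hf', zero_mul]⟩
  have := rk_of y z Finset.univ fun a _ => by
    fin_cases a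
    · obtain ⟨f, g, e1, e2, e3⟩ := key 0 1 2 h0
      refine ⟨f, g, e1, fun s _ hs => ?_⟩
      fin_cases s
      · exact absurd rfl hs
      · exact e2
      · exact e3
    · obtain ⟨f, g, e1, e2, e3⟩ := key 1 0 2 h1
      refine ⟨f, g, e1, fun s _ hs => ?_⟩
      fin_cases s
      · exact e2
      · exact absurd rfl hs
      · exact e3
    · obtain ⟨f, g, e1, e2, e3⟩ := key 2 0 1 h2
      refine ⟨f, g, e1, fun s _ hs => ?_⟩
      fin_cases s
      · exact e2
      · exact e3
      · exact absurd rfl hs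
  simpa using this

private theorem rk3y (h : LinearIndependent F (fun i => (y i).rep)) : RkS y z 3 := by
  have := rk_of y z Finset.univ fun a _ => by
    obtain ⟨f, hf, hf'⟩ := fun_three y h a
    obtain ⟨g, hg⟩ := fun_one (z a)
    exact ⟨f, g, mul_ne_zero hf hg, fun s _ hs => by rw [hf' s hs, zero_mul]⟩
  simpa using this

private theorem rk3z (h : LinearIndependent F (fun i => (z i).rep)) : RkS y z 3 := by
  have := rk_of y z Finset.univ fun a _ => by
    obtain ⟨f, hf⟩ := fun_one (y a)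
    obtain ⟨g, hg, hg'⟩ := fun_three z h a
    exact ⟨f, g, mul_ne_zero hf hg, fun s _ hs => by rw [hg' s hs, mul_zero]⟩
  simpa using this

theorem rk {F : Type} [Field F] {β γ : ℕ} (y : Fin 3 → Pt F β) (z : Fin 3 → Pt F γ) :
    ∃ T : Finset (Fin 3), T.card = rho (pat y) (pat z) ∧
      LinearIndependent F (fun (t : T) (p : Fin (β + 1) × Fin (γ + 1)) =>
        (y t).rep p.1 * (z t).rep p.2) := by
  change RkS y z (rho (pat y) (pat z))
  rcases rk_cases y with ⟨e, a, b⟩ | ⟨e, a, b⟩ | ⟨e, a, b⟩ | ⟨e, a, b⟩ | ⟨e, a⟩ | ⟨e, a, b, c⟩ <;>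
  rcases rk_cases z with ⟨e', a', b'⟩ | ⟨e', a', b'⟩ | ⟨e', a', b'⟩ | ⟨e', a', b'⟩ | ⟨e', a'⟩ |
    ⟨e', a', b', c'⟩ <;>
  rw [e, e'] <;> unfold rho <;>
  first
    | exact rk1 y z
    | exact rk3y y z a
    | exact rk3z y z a'
    | exact rk2 y z 0 1 (by grind)
    | exact rk2 y z 0 2 (by grind)
    | exact rk3 y z (by grind) (by grind) (by grind)

end Pool.Agent.Work.MP_9d4f6b_lc.AG
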