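import Pool.Agent.Work.MP_9d4f6b_lc.AG.Blk
import Pool.Agent.Work.MP_9d4f6b_lc.AG.Rk

/-!
MODULE BLKR (size S). Upper bound for one block and three points.

PROOF. Take T from rk. The set on the left is contained in {w // ∀ t : T, ∀ i, bf (w i) ... = 0}, whose card times
q^(e * card T) is q^(e * ((β + 1) * (γ + 1))) by blk_eq with τ = T (Fintype.card_coe, Fintype.card_fin).
-/

set_option linter.unusedVariables false
set_option linter.style.longLine false
set_option autoImplicit false

namespace Pool.Agent.Work.MP_9d4f6b_lc.AG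

theorem blk_rho {F : Type} [Field F] [Fintype F] {β γ : ℕ} (e : ℕ) (y : Fin 3 → Pt F β)
    (z : Fin 3 → Pt F γ) :
    Nat.card {w : Fin e → Fin (β + 1) → Fin (γ + 1) → F //
        ∀ t i, bf (w i) (y t).rep (z t).rep = 0} * Fintype.card F ^ (e * rho (pat y) (pat z)) ≤
      Fintype.card F ^ (e * ((β + 1) * (γ + 1))) := by
  obtain ⟨T, hT, hli⟩ := rk y z
  have h := blk_eq (F := F) (J := Fin (β + 1)) (K := Fin (γ + 1)) (τ := T) e
    (fun t => (y t).rep) (fun t => (z t).rep) hli
  rw [Fintype.card_coe, hT, Fintype.card_fin, Fintype.card_fin] at h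
  rw [← h]
  refine Nat.mul_le_mul_right _ ?_
  refine Nat.card_le_card_of_injective
    (fun (w : {w : Fin e → Fin (β + 1) → Fin (γ + 1) → F //
        ∀ t i, bf (w i) (y t).rep (z t).rep = 0}) =>
      (⟨w.1, fun t i => w.2 t i⟩ : {w : Fin e → Fin (β + 1) → Fin (γ + 1) → F //
        ∀ (t : T) i, bf (w i) (y t).rep (z t).rep = 0})) ?_
  intro a b hab
  have h3 := congrArg Subtype.val hab
  exact Subtype.ext h3

end Pool.Agent.Work.MP_9d4f6b_lc.AG
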