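import Pool.Agent.Work.MP_9d4f6b_lc.AG.Defs

/-!
Coding of the set D (FIXED FILE, nothing to prove). A subset of {0..k-1} is coded by a number s < 2^k (binary digits),
a vector modulo p of length k by a number N < p^k (digits in base p).
-/

set_option linter.unusedVariables false
set_option linter.style.longLine false
set_option autoImplicit false

namespace Pool.Agent.Work.MP_9d4f6b_lc.AG

/-- number of the elements of the set coded by s -/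
def cdS (s k : ℕ) : ℕ := ∑ a ∈ Finset.range k, dig 2 s a

/-- p is a prime number -/
def PrC (p : ℕ) : Prop := 2 ≤ p ∧ ∀ d < p, 2 ≤ d → p % d ≠ 0

/-- N codes a nonzero vector of length k modulo p supported in the set coded by s -/
def SpC (p s k N : ℕ) : Prop :=
  (∀ a < k, dig 2 s a = 0 → dig p N a = 0) ∧ ∃ a < k, dig p N a ≠ 0

/-- f is constant modulo p on the set coded by s -/
def CsC (p s k : ℕ) (f : ℕ → ℕ) : Prop :=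
  ∀ a < k, ∀ a' < k, dig 2 s a ≠ 0 → dig 2 s a' ≠ 0 → f a % p = f a' % p

/-- code of Sol3 -/
def Sol3C (g : Gm) (sI sJ sK p N1 N2 N3 : ℕ) : Prop :=
  SpC p sI g.1 N1 ∧ SpC p sJ g.2.1 N2 ∧ SpC p sK g.2.2.1 N3 ∧
  CsC p sI g.1 (fun a => ∑ b ∈ Finset.range g.2.1, ∑ c ∈ Finset.range g.2.2.1,
    pay g 0 a b c * (dig p N2 b * dig p N3 c)) ∧
  CsC p sJ g.2.1 (fun b => ∑ a ∈ Finset.range g.1, ∑ c ∈ Finset.range g.2.2.1,
    pay g 1 a b c * (dig p N1 a * dig p N3 c)) ∧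
  CsC p sK g.2.2.1 (fun c => ∑ a ∈ Finset.range g.1, ∑ b ∈ Finset.range g.2.1,
    pay g 2 a b c * (dig p N1 a * dig p N2 b))

/-- code of G3 -/
def G3C (g : Gm) : Prop :=
  ∀ sI < 2 ^ g.1, ∀ sJ < 2 ^ g.2.1, ∀ sK < 2 ^ g.2.2.1,
    2 ≤ cdS sI g.1 → 2 ≤ cdS sJ g.2.1 → 2 ≤ cdS sK g.2.2.1 →
    ∃ p < g.2.2.2.sum + 1, PrC p ∧ ∀ N1 < p ^ g.1, ∀ N2 < p ^ g.2.1, ∀ N3 < p ^ g.2.2.1,
      ¬ Sol3C g sI sJ sK p N1 N2 N3

/-- code of LinS for the matrix P (entries P i j for i < k1, j < k2) -/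
def LinC (P : ℕ → ℕ → ℕ) (k1 k2 sI sJ p N : ℕ) : Prop :=
  SpC p sJ k2 N ∧ (cdS sI k1 = cdS sJ k2 → (∑ b ∈ Finset.range k2, dig p N b) % p = 0) ∧
    CsC p sI k1 (fun a => ∑ b ∈ Finset.range k2, P a b * dig p N b)

/-- code of GLin -/
def GLC (S : ℕ) (P : ℕ → ℕ → ℕ) (k1 k2 : ℕ) : Prop :=
  ∀ sI < 2 ^ k1, ∀ sJ < 2 ^ k2, 1 ≤ cdS sJ k2 → cdS sJ k2 ≤ cdS sI k1 →
    ∃ p < S + 1, PrC p ∧ ∀ N < p ^ k2, ¬ LinC P k1 k2 sI sJ p N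

/-- code of the set D -/
def DC (g : Gm) : Prop :=
  G3C g ∧
  (∀ c < g.2.2.1, GLC g.2.2.2.sum (fun a b => pay g 0 a b c) g.1 g.2.1) ∧
  (∀ c < g.2.2.1, GLC g.2.2.2.sum (fun b a => pay g 1 a b c) g.2.1 g.1) ∧
  (∀ b < g.2.1, GLC g.2.2.2.sum (fun a c => pay g 0 a b c) g.1 g.2.2.1) ∧
  (∀ b < g.2.1, GLC g.2.2.2.sum (fun c a => pay g 2 a b c) g.2.2.1 g.1) ∧
  (∀ a < g.1, GLC g.2.2.2.sum (fun b c => pay g 1 a b c) g.2.1 g.2.2.1) ∧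
  (∀ a < g.1, GLC g.2.2.2.sum (fun c b => pay g 2 a b c) g.2.2.1 g.2.1)

end Pool.Agent.Work.MP_9d4f6b_lc.AG
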