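import Pool.Agent.Work.MP_9d4f6b_lc.AG.Sup

/-!
MODULE RED (size M). If a player plays a pure strategy then the other two make each other indifferent in the
corresponding bimatrix game.

PROOF. z c₀ = 1, z ≥ 0, ∑ z = 1 give z c = 0 for c ≠ c₀ (Finset.sum_eq_single / sum_eq_one), so
∑ c, u (0,a,b,c) (y b z c) = u (0,a,b,c₀) y b, and ne_cst gives both claims. Same for the other two players.
-/

set_option linter.unusedVariables false
set_option linter.style.longLine false
set_option autoImplicit false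

namespace Pool.Agent.Work.MP_9d4f6b_lc.AG

private theorem zero_of_one {R : Type} [Field R] [LinearOrder R] [IsStrictOrderedRing R] {A : Type}
    [Fintype A] (z : A → R) (z0 : ∀ c, 0 ≤ z c) (z1 : ∑ c, z c = 1) (c₀ : A) (hc : z c₀ = 1) (c : A)
    (h : c ≠ c₀) : z c = 0 := by
  classical
  have h1 := Finset.add_sum_erase Finset.univ z (Finset.mem_univ c₀)
  rw [z1, hc] at h1
  have h2 : ∑ x ∈ Finset.univ.erase c₀, z x = 0 := by linarith
  exact (Finset.sum_eq_zero_iff_of_nonneg (fun i _ => z0 i)).mp h2 c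
    (Finset.mem_erase.mpr ⟨h, Finset.mem_univ c⟩)

private theorem sum_snd {R : Type} [Field R] {A B : Type} [Fintype A] [Fintype B] (f : A → B → R)
    (y : A → R) (z : B → R) (c₀ : B) (hc : z c₀ = 1) (h : ∀ c, c ≠ c₀ → z c = 0) :
    ∑ b, ∑ c, f b c * (y b * z c) = ∑ b, f b c₀ * y b := by
  refine Finset.sum_congr rfl (fun b _ => ?_)
  rw [Finset.sum_eq_single c₀]
  · rw [hc, mul_one]
  · intro c _ hne
    rw [h c hne, mul_zero, mul_zero]
  · intro hh
    exact absurd (Finset.mem_univ _) hh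

private theorem sum_fst {R : Type} [Field R] {A B : Type} [Fintype A] [Fintype B] (f : A → B → R)
    (y : A → R) (z : B → R) (b₀ : A) (hb : y b₀ = 1) (h : ∀ b, b ≠ b₀ → y b = 0) :
    ∑ b, ∑ c, f b c * (y b * z c) = ∑ c, f b₀ c * z c := by
  rw [Finset.sum_eq_single b₀]
  · refine Finset.sum_congr rfl (fun c _ => ?_)
    rw [hb, one_mul]
  · intro b _ hne
    refine Finset.sum_eq_zero (fun c _ => ?_)
    rw [h b hne, zero_mul, mul_zero]
  · intro hh
    exact absurd (Finset.mem_univ _) hh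

theorem red3 {R : Type} [Field R] [LinearOrder R] [IsStrictOrderedRing R] {l m n : ℕ}
    {u : Ix l m n → ℕ} {x : Fin l → R} {y : Fin m → R} {z : Fin n → R} (h : NE u x y z) (c₀ : Fin n)
    (hc : z c₀ = 1) :
    Cst (Finset.univ.filter fun a => x a ≠ 0) (fun a => ∑ b, (u (0, a, b, c₀) : R) * y b) ∧
    Cst (Finset.univ.filter fun b => y b ≠ 0) (fun b => ∑ a, (u (1, a, b, c₀) : R) * x a) := by
  obtain ⟨h1, h2, h3⟩ := ne_cst h
  have hz := zero_of_one z h.z0 h.z1 c₀ hc
  constructor
  · intro a ha a' ha'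
    have := h1 a ha a' ha'
    simp only at this ⊢
    rw [sum_snd _ y z c₀ hc hz, sum_snd _ y z c₀ hc hz] at this
    exact this
  · intro a ha a' ha'
    have := h2 a ha a' ha'
    simp only at this ⊢
    rw [sum_snd _ x z c₀ hc hz, sum_snd _ x z c₀ hc hz] at this
    exact this

theorem red2 {R : Type} [Field R] [LinearOrder R] [IsStrictOrderedRing R] {l m n : ℕ}
    {u : Ix l m n → ℕ} {x : Fin l → R} {y : Fin m → R} {z : Fin n → R} (h : NE u x y z) (b₀ : Fin m)
    (hb : y b₀ = 1) :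
    Cst (Finset.univ.filter fun a => x a ≠ 0) (fun a => ∑ c, (u (0, a, b₀, c) : R) * z c) ∧
    Cst (Finset.univ.filter fun c => z c ≠ 0) (fun c => ∑ a, (u (2, a, b₀, c) : R) * x a) := by
  obtain ⟨h1, h2, h3⟩ := ne_cst h
  have hz := zero_of_one y h.y0 h.y1 b₀ hb
  constructor
  · intro a ha a' ha'
    have := h1 a ha a' ha'
    simp only at this ⊢
    rw [sum_fst _ y z b₀ hb hz, sum_fst _ y z b₀ hb hz] at this
    exact this
  · intro a ha a' ha'
    have := h3 a ha a' ha'
    simp only at this ⊢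
    rw [sum_snd _ x y b₀ hb hz, sum_snd _ x y b₀ hb hz] at this
    exact this

theorem red1 {R : Type} [Field R] [LinearOrder R] [IsStrictOrderedRing R] {l m n : ℕ}
    {u : Ix l m n → ℕ} {x : Fin l → R} {y : Fin m → R} {z : Fin n → R} (h : NE u x y z) (a₀ : Fin l)
    (ha : x a₀ = 1) :
    Cst (Finset.univ.filter fun b => y b ≠ 0) (fun b => ∑ c, (u (1, a₀, b, c) : R) * z c) ∧
    Cst (Finset.univ.filter fun c => z c ≠ 0) (fun c => ∑ b, (u (2, a₀, b, c) : R) * y b) := by
  obtain ⟨h1, h2, h3⟩ := ne_cst h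
  have hz := zero_of_one x h.x0 h.x1 a₀ ha
  constructor
  · intro a ha1 a' ha'
    have := h2 a ha1 a' ha'
    simp only at this ⊢
    rw [sum_fst _ x z a₀ ha hz, sum_fst _ x z a₀ ha hz] at this
    exact this
  · intro a ha1 a' ha'
    have := h3 a ha1 a' ha'
    simp only at this ⊢
    rw [sum_fst _ x y a₀ ha hz, sum_fst _ x y a₀ ha hz] at this
    exact this

end Pool.Agent.Work.MP_9d4f6b_lc.AG
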