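import Pool.Agent.Work.MP_9d4f6b_lc.AG.Lmk

/-!
MODULE TWO (size M). Two players who make each other indifferent (the third one plays a pure strategy).

PROOF. I and J are nonempty (sums 1). Suppose |J| < |I|. g1 gives a prime p with ¬ LinS (M1 mod p) I J, so L * LM M1 I J = 1
over ℚ (lm_left), hence over ℝ (map the identity by the ring homomorphism ℚ → ℝ; Matrix.map_mul), and
lm_zero (|I| ≠ |J|) gives LM y = 0, so y = L (LM y) = 0, contradiction. In the same way |I| < |J| is impossible (g2 with the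
sets J, I and x). So |I| = |J|. Now lm_left for (M1, I, J) and lm_val: y = L (LM y) = L (rational vector), so y is
rational. Same for x with (M2, J, I).
-/

set_option linter.unusedVariables false
set_option linter.style.longLine false
set_option autoImplicit false

namespace Pool.Agent.Work.MP_9d4f6b_lc.AG

private theorem lift_inv {E B : Type} [Fintype E] [Fintype B] [DecidableEq B] (N : Matrix E B ℤ)
    (L : Matrix B E ℚ) (hL : L * N.map (fun k : ℤ => (k : ℚ)) = 1) :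
    (L.map (fun q : ℚ => (q : ℝ))) * N.map (fun k : ℤ => (k : ℝ)) = 1 := by
  have h1 := congrArg (fun M : Matrix B B ℚ => M.map (Rat.castHom ℝ)) hL
  rw [Matrix.map_mul, Matrix.map_one _ (map_zero _) (map_one _), Matrix.map_map] at h1
  rw [← h1]
  have h2 : (N.map (fun k : ℤ => (k : ℝ))) = N.map ((Rat.castHom ℝ : ℚ → ℝ) ∘ fun k : ℤ => (k : ℚ)) := by
    ext e b
    simp
  rw [h2]
  rfl

private theorem no_lt {S : ℕ} {A B : Type} [Fintype A] [Fintype B] [DecidableEq A] [DecidableEq B]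
    (y : B → ℝ) (I : Finset A) (J : Finset B) (hy : ∀ b, b ∈ J ↔ y b ≠ 0) (y1 : ∑ b, y b = 1)
    (M1 : A → B → ℕ) (c1 : Cst I (fun a => ∑ b, (M1 a b : ℝ) * y b)) (g1 : GLin S M1)
    (hJ : J.Nonempty) : ¬ J.card < I.card := by
  intro hlt
  obtain ⟨p, hp, -, hn⟩ := g1 I J hJ hlt.le
  obtain ⟨L, hL⟩ := lm_left M1 I J p hp hn
  have hL' := lift_inv _ L hL
  have h0 : ((LM M1 I J).map (fun k : ℤ => (k : ℝ))).mulVec y = 0 := by
    rw [lm_zero]
    refine ⟨?_, ?_, c1⟩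
    · intro b hb
      by_contra hb2
      exact hb ((hy b).2 hb2)
    · intro he
      omega
  have h1 : y = 0 := by
    have h2 : (1 : Matrix B B ℝ).mulVec y = 0 := by
      rw [← hL', ← Matrix.mulVec_mulVec, h0, Matrix.mulVec_zero]
    rwa [Matrix.one_mulVec] at h2
  rw [h1] at y1
  simp at y1

private theorem rat_of {S : ℕ} {A B : Type} [Fintype A] [Fintype B] [DecidableEq A] [DecidableEq B]
    (y : B → ℝ) (I : Finset A) (J : Finset B) (hy : ∀ b, b ∈ J ↔ y b ≠ 0) (y1 : ∑ b, y b = 1)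
    (M1 : A → B → ℕ) (c1 : Cst I (fun a => ∑ b, (M1 a b : ℝ) * y b)) (g1 : GLin S M1)
    (hJ : J.Nonempty) (hIJ : I.card = J.card) : IsRat y := by
  obtain ⟨p, hp, -, hn⟩ := g1 I J hJ hIJ.ge
  obtain ⟨L, hL⟩ := lm_left M1 I J p hp hn
  have hL' := lift_inv _ L hL
  have hb : ∀ b, b ∉ J → y b = 0 := by
    intro b hb
    by_contra hb2
    exact hb ((hy b).2 hb2)
  have hv := lm_val M1 I J hIJ y hb y1 c1
  intro b
  have h2 : (1 : Matrix B B ℝ).mulVec y b = y b := by rw [Matrix.one_mulVec]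
  rw [← hL', ← Matrix.mulVec_mulVec, hv] at h2
  refine ⟨∑ e, L b e * (((Sum.elim (fun _ => 0) (Sum.elim (fun _ => 0) (fun _ => 1)) :
        (A × A) ⊕ (B ⊕ Unit) → ℤ) e : ℤ) : ℚ), ?_⟩
  rw [← h2]
  push_cast
  rfl

private theorem ne_of_sum {B : Type} [Fintype B] (y : B → ℝ) (J : Finset B) (hy : ∀ b, b ∈ J ↔ y b ≠ 0)
    (y1 : ∑ b, y b = 1) : J.Nonempty := by
  by_contra hne
  rw [Finset.not_nonempty_iff_eq_empty] at hne
  have h0 : ∀ b, y b = 0 := by
    intro b
    by_contra hb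
    have := (hy b).2 hb
    rw [hne] at this
    exact absurd this (Finset.notMem_empty b)
  rw [Finset.sum_eq_zero (fun b _ => h0 b)] at y1
  exact zero_ne_one y1

theorem two {S : ℕ} {A B : Type} [Fintype A] [Fintype B] [DecidableEq A] [DecidableEq B]
    (x : A → ℝ) (y : B → ℝ) (I : Finset A) (J : Finset B) (hx : ∀ a, a ∈ I ↔ x a ≠ 0)
    (hy : ∀ b, b ∈ J ↔ y b ≠ 0) (x1 : ∑ a, x a = 1) (y1 : ∑ b, y b = 1)
    (M1 : A → B → ℕ) (M2 : B → A → ℕ) (c1 : Cst I (fun a => ∑ b, (M1 a b : ℝ) * y b))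
    (c2 : Cst J (fun b => ∑ a, (M2 b a : ℝ) * x a)) (g1 : GLin S M1) (g2 : GLin S M2) :
    I.card = J.card ∧ IsRat x ∧ IsRat y := by
  have hI := ne_of_sum x I hx x1
  have hJ := ne_of_sum y J hy y1
  have h1 := no_lt y I J hy y1 M1 c1 g1 hJ
  have h2 := no_lt x J I hx x1 M2 c2 g2 hI
  have h3 : I.card = J.card := by omega
  exact ⟨h3, rat_of x J I hx x1 M2 c2 g2 hI h3.symm, rat_of y I J hy y1 M1 c1 g1 hJ h3⟩

end Pool.Agent.Work.MP_9d4f6b_lc.AG
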