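import Pool.Agent.Work.MP_9d4f6b_lc.AG.Modp
import Pool.Agent.Work.MP_9d4f6b_lc.AG.Two
import Pool.Agent.Work.MP_9d4f6b_lc.AG.Red

/-!
MODULE CRIT (size M). The criterion: in a good game an equilibrium is rational iff some player is pure.

PROOF. (→) Let x, y, z be rational and no player pure. Write x = casts of rational vectors x', y', z' (choice); NE u x' y' z'
over ℚ (the casts respect sums, products and ≤). A support of size 1 would give a probability 1, supports are
nonempty, so the three supports have sizes ≥ 2. G3 gives a prime p with ¬ Sol3 (u mod p) for these supports (the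
support of x' is the support of x), contradicting modp.
(←) If z c₀ = 1 then z is rational (0/1 valued), and x, y are rational by red3 and two with h12 c₀, h21 c₀, where
I, J are the supports. If y b₀ = 1: red2, h13 b₀, h31 b₀. If x a₀ = 1: red1, h23 a₀, h32 a₀.
-/

set_option linter.unusedVariables false
set_option linter.style.longLine false
set_option autoImplicit false

namespace Pool.Agent.Work.MP_9d4f6b_lc.AG

private theorem rat_pure {A : Type} [Fintype A] [DecidableEq A] (z : A → ℝ) (z0 : ∀ c, 0 ≤ z c)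
    (z1 : ∑ c, z c = 1) (c₀ : A) (hc : z c₀ = 1) : IsRat z := by
  intro c
  by_cases h : c = c₀
  · exact ⟨1, by rw [h, hc]; norm_num⟩
  · refine ⟨0, ?_⟩
    have h1 := Finset.add_sum_erase Finset.univ z (Finset.mem_univ c₀)
    rw [z1, hc] at h1
    have h2 : ∑ x ∈ Finset.univ.erase c₀, z x = 0 := by linarith
    have h3 := (Finset.sum_eq_zero_iff_of_nonneg (fun i _ => z0 i)).mp h2 c
      (Finset.mem_erase.mpr ⟨h, Finset.mem_univ c⟩)
    rw [h3]
    norm_num

private theorem two_le_supp {A : Type} [Fintype A] [DecidableEq A] (x : A → ℚ) (x1 : ∑ a, x a = 1)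
    (hn : ∀ a, x a ≠ 1) : 2 ≤ (Finset.univ.filter fun a => x a ≠ 0).card := by
  by_contra hlt
  have hs : ∑ a ∈ Finset.univ.filter (fun a => x a ≠ 0), x a = 1 := by
    rw [← x1]
    exact Finset.sum_filter_ne_zero Finset.univ
  rcases Nat.lt_or_ge (Finset.univ.filter fun a => x a ≠ 0).card 1 with h | h
  · have h0 : (Finset.univ.filter fun a => x a ≠ 0) = ∅ := Finset.card_eq_zero.mp (by omega)
    rw [h0] at hs
    simp at hs
  · obtain ⟨a, ha⟩ := Finset.card_eq_one.mp (show (Finset.univ.filter fun a => x a ≠ 0).card = 1 by omega)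
    rw [ha, Finset.sum_singleton] at hs
    exact hn a hs

theorem crit {S l m n : ℕ} {u : Ix l m n → ℕ} (hg : Gd S u) {x : Fin l → ℝ} {y : Fin m → ℝ}
    {z : Fin n → ℝ} (h : NE u x y z) :
    (IsRat x ∧ IsRat y ∧ IsRat z) ↔ ((∃ a, x a = 1) ∨ (∃ b, y b = 1) ∨ ∃ c, z c = 1) := by
  constructor
  · rintro ⟨hx, hy, hz⟩
    by_contra hcon
    push Not at hcon
    obtain ⟨hpx, hpy, hpz⟩ := hcon
    choose x' hx' using hx
    choose y' hy' using hy
    choose z' hz' using hz
    obtain rfl : x = fun a => (x' a : ℝ) := funext hx'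
    obtain rfl : y = fun a => (y' a : ℝ) := funext hy'
    obtain rfl : z = fun a => (z' a : ℝ) := funext hz'
    have hNE : NE u x' y' z' :=
      { x0 := fun a => by exact_mod_cast h.x0 a
        x1 := by exact_mod_cast h.x1
        y0 := fun a => by exact_mod_cast h.y0 a
        y1 := by exact_mod_cast h.y1
        z0 := fun a => by exact_mod_cast h.z0 a
        z1 := by exact_mod_cast h.z1
        n1 := fun a => by exact_mod_cast h.n1 a
        n2 := fun a => by exact_mod_cast h.n2 a
        n3 := fun a => by exact_mod_cast h.n3 a }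
    obtain ⟨p, hp, _, hn⟩ := hg.h3 _ _ _
      (two_le_supp x' hNE.x1 (fun a ha => hpx a (by simp [ha])))
      (two_le_supp y' hNE.y1 (fun a ha => hpy a (by simp [ha])))
      (two_le_supp z' hNE.z1 (fun a ha => hpz a (by simp [ha])))
    exact hn (modp hNE p hp)
  · rintro (⟨a₀, ha⟩ | ⟨b₀, hb⟩ | ⟨c₀, hc⟩)
    · obtain ⟨c1, c2⟩ := red1 h a₀ ha
      obtain ⟨_, r1, r2⟩ := two y z _ _ (fun b => by simp) (fun c => by simp) h.y1 h.z1
        (fun b c => u (1, a₀, b, c)) (fun c b => u (2, a₀, b, c)) c1 c2 (hg.h23 a₀) (hg.h32 a₀)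
      exact ⟨rat_pure x h.x0 h.x1 a₀ ha, r1, r2⟩
    · obtain ⟨c1, c2⟩ := red2 h b₀ hb
      obtain ⟨_, r1, r2⟩ := two x z _ _ (fun b => by simp) (fun c => by simp) h.x1 h.z1
        (fun a c => u (0, a, b₀, c)) (fun c a => u (2, a, b₀, c)) c1 c2 (hg.h13 b₀) (hg.h31 b₀)
      exact ⟨r1, rat_pure y h.y0 h.y1 b₀ hb, r2⟩
    · obtain ⟨c1, c2⟩ := red3 h c₀ hc
      obtain ⟨_, r1, r2⟩ := two x y _ _ (fun b => by simp) (fun c => by simp) h.x1 h.y1
        (fun a b => u (0, a, b, c₀)) (fun b a => u (1, a, b, c₀)) c1 c2 (hg.h12 c₀) (hg.h21 c₀)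
      exact ⟨r1, r2, rat_pure z h.z0 h.z1 c₀ hc⟩

end Pool.Agent.Work.MP_9d4f6b_lc.AG
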