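import Pool.Agent.Work.MP_9d4f6b_lc.AG.Defs

/-!
MODULE CYC (size M). Games without an equilibrium in which some player is pure. lev i = 0, 1, 2 is the level (low,
middle, high) of the payoff i = (player, a, b, c): strategies ≥ 2 of the own player are low; player 1 wants to match
[a = 0] with [b = 0], player 2 wants to match [b = 0] with [c = 0], player 3 wants to mismatch [c = 0] and [a = 0].

PROOF of cyc. Let (x, y, z) be an equilibrium, U_i(s) the expected payoff of player i for his strategy s.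
(a) Strategies ≥ 2 have probability 0: every payoff of own strategy 0 is ≥ 4H/8 > H/8 ≥ every payoff of an own strategy ≥ 2
(H ≥ 1), so U(s) < U(0) ≤ V for s ≥ 2, and x s ≠ 0 implies U(s) = V (the support argument of module Sup: ∑ x s (V - U s) = 0).
(b) If y 0 = 1 (so y b = 0 for b ≠ 0) then U_1(0) > U_1(1) (7H/8 > 5H/8 termwise; the weights y b z c sum to 1), so x 1 = 0 and
x 0 = 1 by (a). If y 0 = 0 then U_1(0) < U_1(1), so x 0 = 0.
(c) If z 0 = 1 then y 0 = 1; if z 0 = 0 then y 0 = 0 (same for player 2).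
(d) If x 0 = 1 then z 0 = 0; if x 0 = 0 then z 0 = 1 (player 3 mismatches: U_3(0) < U_3(1), resp. U_3(0) > U_3(1), z 1 = 0).
(e) x 0 = 1 → z 0 = 0 → y 0 = 0 → x 0 = 0, and x 0 = 0 → z 0 = 1 → y 0 = 1 → x 0 = 1: so x 0 ≠ 0, 1. Similarly y 0 ∉ {0, 1}
(y 0 = 1 → x 0 = 1, y 0 = 0 → x 0 = 0) and z 0 ∉ {0, 1}. If x a = 1 for some a then x 0 ∈ {0, 1}; same for y, z. Contradiction.
-/

set_option linter.unusedVariables false
set_option linter.style.longLine false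
set_option autoImplicit false

namespace Pool.Agent.Work.MP_9d4f6b_lc.AG

/-- level of the payoff with index i -/
def lev {l m n : ℕ} (i : Ix l m n) : ℕ :=
  match i with
  | (k, a, b, c) =>
    if k = 0 then
      (if 2 ≤ (a : ℕ) then 0 else if ((a : ℕ) = 0 ↔ (b : ℕ) = 0) then 2 else 1)
    else if k = 1 then
      (if 2 ≤ (b : ℕ) then 0 else if ((b : ℕ) = 0 ↔ (c : ℕ) = 0) then 2 else 1)
    else
      (if 2 ≤ (c : ℕ) then 0 else if ((c : ℕ) = 0 ↔ (a : ℕ) = 0) then 1 else 2)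

/-- the value v has the level t (scale H) -/
def Lv (H t v : ℕ) : Prop :=
  (t = 0 → 8 * v ≤ H) ∧ (t = 1 → 4 * H ≤ 8 * v ∧ 8 * v ≤ 5 * H) ∧ (t = 2 → 7 * H ≤ 8 * v)

private theorem cycCmp {m n : ℕ} {y : Fin m → ℝ} {z : Fin n → ℝ} (y0 : ∀ b, 0 ≤ y b)
    (y1 : ∑ b, y b = 1) (z0 : ∀ c, 0 ≤ z c) (z1 : ∑ c, z c = 1) {f g : Fin m → Fin n → ℝ}
    {s t : ℝ} (hst : s < t) (hf : ∀ b c, y b ≠ 0 → f b c ≤ s) (hg : ∀ b c, y b ≠ 0 → t ≤ g b c) :
    ∑ b, ∑ c, y b * z c * f b c < ∑ b, ∑ c, y b * z c * g b c := by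
  have hc : ∀ r : ℝ, ∑ b, ∑ c, y b * z c * r = r := by
    intro r
    have : ∑ b, ∑ c, y b * z c * r = (∑ b, y b) * (∑ c, z c) * r := by
      rw [Finset.sum_mul_sum, Finset.sum_mul]
      exact Finset.sum_congr rfl fun b _ => (Finset.sum_mul _ _ _).symm
    rw [this, y1, z1]
    ring
  have h1 : ∑ b, ∑ c, y b * z c * f b c ≤ ∑ b, ∑ c, y b * z c * s := by
    refine Finset.sum_le_sum fun b _ => Finset.sum_le_sum fun c _ => ?_
    by_cases hb : y b = 0
    · rw [hb]; simp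
    · exact mul_le_mul_of_nonneg_left (hf b c hb) (mul_nonneg (y0 b) (z0 c))
  have h2 : ∑ b, ∑ c, y b * z c * t ≤ ∑ b, ∑ c, y b * z c * g b c := by
    refine Finset.sum_le_sum fun b _ => Finset.sum_le_sum fun c _ => ?_
    by_cases hb : y b = 0
    · rw [hb]; simp
    · exact mul_le_mul_of_nonneg_left (hg b c hb) (mul_nonneg (y0 b) (z0 c))
  rw [hc] at h1 h2
  linarith

private theorem cycZero {l : ℕ} {x U : Fin l → ℝ} (x0 : ∀ a, 0 ≤ x a) (x1 : ∑ a, x a = 1)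
    (hU : ∀ a, U a ≤ ∑ a', x a' * U a') {a a' : Fin l} (h : U a < U a') : x a = 0 := by
  obtain ⟨V, hV⟩ : ∃ V : ℝ, V = ∑ a', x a' * U a' := ⟨_, rfl⟩
  have hU' : ∀ a, U a ≤ V := by intro a; rw [hV]; exact hU a
  have hs : ∑ a, x a * (V - U a) = 0 := by
    have : ∑ a, x a * (V - U a) = (∑ a, x a) * V - ∑ a, x a * U a := by
      rw [Finset.sum_mul, ← Finset.sum_sub_distrib]
      exact Finset.sum_congr rfl fun a _ => by ring
    rw [this, x1, ← hV]
    ring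
  have h0 := (Finset.sum_eq_zero_iff_of_nonneg fun a _ =>
    mul_nonneg (x0 a) (sub_nonneg.2 (hU' a))).1 hs a (Finset.mem_univ a)
  rcases mul_eq_zero.1 h0 with h1 | h1
  · exact h1
  · have := hU' a'
    linarith

private theorem cycPl {l m n : ℕ} (hl : 2 ≤ l) {x : Fin l → ℝ} {y : Fin m → ℝ} {z : Fin n → ℝ}
    (x0 : ∀ a, 0 ≤ x a) (x1 : ∑ a, x a = 1) (y0 : ∀ b, 0 ≤ y b) (y1 : ∑ b, y b = 1)
    (z0 : ∀ c, 0 ≤ z c) (z1 : ∑ c, z c = 1) {H : ℝ} (hH : 0 < H) {f : Fin l → Fin m → Fin n → ℝ}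
    (P : Fin m → Prop)
    (n1 : ∀ a₀, ∑ b, ∑ c, y b * z c * f a₀ b c ≤ ∑ a, x a * ∑ b, ∑ c, y b * z c * f a b c)
    (hlow : ∀ (a : Fin l) (b : Fin m) (c : Fin n), 2 ≤ (a : ℕ) → 8 * f a b c ≤ H)
    (h0 : ∀ b c, (P b → 7 * H ≤ 8 * f ⟨0, by omega⟩ b c) ∧
      (¬ P b → 4 * H ≤ 8 * f ⟨0, by omega⟩ b c ∧ 8 * f ⟨0, by omega⟩ b c ≤ 5 * H))
    (h1 : ∀ b c, (¬ P b → 7 * H ≤ 8 * f ⟨1, by omega⟩ b c) ∧
      (P b → 8 * f ⟨1, by omega⟩ b c ≤ 5 * H)) :
    ((∀ b, y b ≠ 0 → P b) → x ⟨0, by omega⟩ = 1) ∧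
      ((∀ b, y b ≠ 0 → ¬ P b) → x ⟨0, by omega⟩ = 0) := by
  have hz : ∀ a : Fin l, 2 ≤ (a : ℕ) → x a = 0 := by
    intro a ha
    refine cycZero (U := fun a => ∑ b, ∑ c, y b * z c * f a b c) (a' := ⟨0, by omega⟩) x0 x1 n1 ?_
    refine cycCmp (s := H / 8) (t := 4 * H / 8) y0 y1 z0 z1 (by linarith) ?_ ?_
    · intro b c _
      have := hlow a b c ha
      linarith
    · intro b c _
      by_cases hb : P b
      · have := (h0 b c).1 hb
        linarith
      · have := ((h0 b c).2 hb).1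
        linarith
  constructor
  · intro hP
    have h1' : x ⟨1, by omega⟩ = 0 := by
      refine cycZero (U := fun a => ∑ b, ∑ c, y b * z c * f a b c) (a' := ⟨0, by omega⟩) x0 x1 n1 ?_
      refine cycCmp (s := 5 * H / 8) (t := 7 * H / 8) y0 y1 z0 z1 (by linarith) ?_ ?_
      · intro b c hb
        have := (h1 b c).2 (hP b hb)
        linarith
      · intro b c hb
        have := (h0 b c).1 (hP b hb)
        linarith
    rw [← x1]
    refine (Finset.sum_eq_single _ ?_ ?_).symm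
    · intro a _ ha
      have ha0 : (a : ℕ) ≠ 0 := fun h => ha (Fin.ext h)
      rcases Nat.lt_or_ge (a : ℕ) 2 with h2 | h2
      · have h3 : (a : ℕ) = 1 := by
          have h4 : (a : ℕ) ≠ 0 := ha0
          clear ha ha0
          omega
        have : a = ⟨1, by omega⟩ := Fin.ext h3
        rw [this]; exact h1'
      · exact hz a h2
    · intro h
      exact absurd (Finset.mem_univ _) h
  · intro hP
    refine cycZero (U := fun a => ∑ b, ∑ c, y b * z c * f a b c) (a' := ⟨1, by omega⟩) x0 x1 n1 ?_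
    refine cycCmp (s := 5 * H / 8) (t := 7 * H / 8) y0 y1 z0 z1 (by linarith) ?_ ?_
    · intro b c hb
      have := ((h0 b c).2 (hP b hb)).2
      linarith
    · intro b c hb
      have := (h1 b c).1 (hP b hb)
      linarith

private theorem cycOne {m : ℕ} {y : Fin m → ℝ} (y0 : ∀ b, 0 ≤ y b) (y1 : ∑ b, y b = 1) {b₀ : Fin m}
    (h : y b₀ = 1) {b : Fin m} (hb : b ≠ b₀) : y b = 0 := by
  have h1 : y b₀ + y b ≤ ∑ b, y b := by
    rw [← Finset.sum_pair hb.symm]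
    exact Finset.sum_le_sum_of_subset_of_nonneg (Finset.subset_univ _) fun i _ _ => y0 i
  have := y0 b
  linarith

theorem cyc {l m n : ℕ} (hl : 2 ≤ l) (hm : 2 ≤ m) (hn : 2 ≤ n) (H : ℕ) (hH : 1 ≤ H)
    (u : Ix l m n → ℕ) (hu : ∀ i, Lv H (lev i) (u i)) {x : Fin l → ℝ} {y : Fin m → ℝ} {z : Fin n → ℝ}
    (h : NE u x y z) : ¬ ((∃ a, x a = 1) ∨ (∃ b, y b = 1) ∨ ∃ c, z c = 1) := by
  have hH' : (0 : ℝ) < H := by exact_mod_cast hH
  have L0 : ∀ i, lev i = 0 → 8 * (u i : ℝ) ≤ H := by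
    intro i hi
    exact_mod_cast (hu i).1 hi
  have L1 : ∀ i, lev i = 1 → 4 * (H : ℝ) ≤ 8 * (u i : ℝ) ∧ 8 * (u i : ℝ) ≤ 5 * H := by
    intro i hi
    exact_mod_cast (hu i).2.1 hi
  have L2 : ∀ i, lev i = 2 → 7 * (H : ℝ) ≤ 8 * (u i : ℝ) := by
    intro i hi
    exact_mod_cast (hu i).2.2 hi
  -- player 1
  have p1 := cycPl (f := fun a b c => (u (0, a, b, c) : ℝ)) hl h.x0 h.x1 h.y0 h.y1 h.z0 h.z1 hH'
    (fun b => (b : ℕ) = 0)
    (fun a₀ => (h.n1 a₀).trans (le_of_eq (by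
      refine Finset.sum_congr rfl fun a _ => ?_
      rw [Finset.mul_sum]
      refine Finset.sum_congr rfl fun b _ => ?_
      rw [Finset.mul_sum]
      exact Finset.sum_congr rfl fun c _ => by ring)))
    (fun a b c ha => L0 _ (by simp [lev, ha]))
    (fun b c => ⟨fun hb => L2 _ (by simp [lev, hb]), fun hb => L1 _ (by simp [lev, hb])⟩)
    (fun b c => ⟨fun hb => L2 _ (by simp [lev, hb]), fun hb => (L1 _ (by simp [lev, hb])).2⟩)
  -- player 2
  have p2 := cycPl (f := fun b c a => (u (1, a, b, c) : ℝ)) hm h.y0 h.y1 h.z0 h.z1 h.x0 h.x1 hH'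
    (fun c => (c : ℕ) = 0)
    (fun b₀ => by
      have e1 : ∑ c, ∑ a, z c * x a * (u (1, a, b₀, c) : ℝ) =
          ∑ a, ∑ c, x a * z c * (u (1, a, b₀, c) : ℝ) := by
        rw [Finset.sum_comm]
        exact Finset.sum_congr rfl fun a _ => Finset.sum_congr rfl fun c _ => by ring
      have e2 : ∑ a, ∑ b, ∑ c, x a * y b * z c * (u (1, a, b, c) : ℝ) =
          ∑ b, y b * ∑ c, ∑ a, z c * x a * (u (1, a, b, c) : ℝ) := by
        rw [Finset.sum_comm]
        refine Finset.sum_congr rfl fun b _ => ?_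
        rw [Finset.sum_comm, Finset.mul_sum]
        refine Finset.sum_congr rfl fun c _ => ?_
        rw [Finset.mul_sum]
        exact Finset.sum_congr rfl fun a _ => by ring
      rw [e1, ← e2]
      exact h.n2 b₀)
    (fun b c a hb => L0 _ (by simp [lev, hb]))
    (fun c a => ⟨fun hc => L2 _ (by simp [lev, hc]), fun hc => L1 _ (by simp [lev, hc])⟩)
    (fun c a => ⟨fun hc => L2 _ (by simp [lev, hc]), fun hc => (L1 _ (by simp [lev, hc])).2⟩)
  -- player 3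
  have p3 := cycPl (f := fun c a b => (u (2, a, b, c) : ℝ)) hn h.z0 h.z1 h.x0 h.x1 h.y0 h.y1 hH'
    (fun a => (a : ℕ) ≠ 0)
    (fun c₀ => by
      have e2 : ∑ a, ∑ b, ∑ c, x a * y b * z c * (u (2, a, b, c) : ℝ) =
          ∑ c, z c * ∑ a, ∑ b, x a * y b * (u (2, a, b, c) : ℝ) := by
        have e3 : ∑ c, z c * ∑ a, ∑ b, x a * y b * (u (2, a, b, c) : ℝ) =
            ∑ c, ∑ a, ∑ b, x a * y b * z c * (u (2, a, b, c) : ℝ) := by
          refine Finset.sum_congr rfl fun c _ => ?_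
          rw [Finset.mul_sum]
          refine Finset.sum_congr rfl fun a _ => ?_
          rw [Finset.mul_sum]
          exact Finset.sum_congr rfl fun b _ => by ring
        have e4 : ∑ a, ∑ b, ∑ c, x a * y b * z c * (u (2, a, b, c) : ℝ) =
            ∑ a, ∑ c, ∑ b, x a * y b * z c * (u (2, a, b, c) : ℝ) :=
          Finset.sum_congr rfl fun a _ => Finset.sum_comm
        rw [e3, e4]
        exact Finset.sum_comm
      rw [← e2]
      exact h.n3 c₀)
    (fun c a b hc => L0 _ (by simp [lev, hc]))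
    (fun a b => ⟨fun ha => L2 _ (by simp [lev, ha]), fun ha => L1 _ (by
      have ha' : (a : ℕ) = 0 := not_not.1 ha
      simp [lev, ha'])⟩)
    (fun a b => ⟨fun ha => L2 _ (by
      have ha' : (a : ℕ) = 0 := not_not.1 ha
      simp [lev, ha']), fun ha => (L1 _ (by simp [lev, ha])).2⟩)
  obtain ⟨i0, hi0⟩ : ∃ i0 : Fin l, i0 = ⟨0, by omega⟩ := ⟨_, rfl⟩
  obtain ⟨j0, hj0⟩ : ∃ j0 : Fin m, j0 = ⟨0, by omega⟩ := ⟨_, rfl⟩
  obtain ⟨k0, hk0⟩ : ∃ k0 : Fin n, k0 = ⟨0, by omega⟩ := ⟨_, rfl⟩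
  rw [← hi0] at p1
  rw [← hj0] at p2
  rw [← hk0] at p3
  -- consequences
  have A1 : y j0 = 1 → x i0 = 1 := fun hy => p1.1 fun b hb => by
    by_contra hne
    exact hb (cycOne h.y0 h.y1 hy (fun e => hne (by rw [e, hj0])))
  have A2 : y j0 = 0 → x i0 = 0 := fun hy => p1.2 fun b hb hb0 => by
    have : b = j0 := by rw [hj0]; exact Fin.ext hb0
    rw [this] at hb
    exact hb hy
  have B1 : z k0 = 1 → y j0 = 1 := fun hz => p2.1 fun c hc => by
    by_contra hne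
    exact hc (cycOne h.z0 h.z1 hz (fun e => hne (by rw [e, hk0])))
  have B2 : z k0 = 0 → y j0 = 0 := fun hz => p2.2 fun c hc hc0 => by
    have : c = k0 := by rw [hk0]; exact Fin.ext hc0
    rw [this] at hc
    exact hc hz
  have C1 : x i0 = 1 → z k0 = 0 := fun hx => p3.2 fun a ha hne => by
    exact ha (cycOne h.x0 h.x1 hx (fun e => hne (by rw [e, hi0])))
  have C2 : x i0 = 0 → z k0 = 1 := fun hx => p3.1 fun a ha ha0 => by
    have : a = i0 := by rw [hi0]; exact Fin.ext ha0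
    rw [this] at ha
    exact ha hx
  have N1 : x i0 ≠ 1 := by
    intro hx
    have := A2 (B2 (C1 hx))
    rw [hx] at this
    exact one_ne_zero this
  have N0 : x i0 ≠ 0 := by
    intro hx
    have := A1 (B1 (C2 hx))
    rw [hx] at this
    exact zero_ne_one this
  rintro (⟨a, ha⟩ | ⟨b, hb⟩ | ⟨c, hc⟩)
  · by_cases hai : i0 = a
    · exact N1 (by rw [hai]; exact ha)
    · exact N0 (cycOne h.x0 h.x1 ha hai)
  · by_cases hbj : j0 = b
    · exact N1 (A1 (by rw [hbj]; exact hb))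
    · exact N0 (A2 (cycOne h.y0 h.y1 hb hbj))
  · by_cases hck : k0 = c
    · exact N1 (A1 (B1 (by rw [hck]; exact hc)))
    · exact N0 (A2 (B2 (cycOne h.z0 h.z1 hc hck)))

end Pool.Agent.Work.MP_9d4f6b_lc.AG
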