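import Pool.Agent.Work.MP_9d4f6b_lc.AG.Cyc

/-!
MODULE CYCC (size S-M). Number of the games of module Cyc in the box.

PROOF. For H ≥ 32 and t ≤ 2 at least (H + 1)/16 numbers v in {0..H} satisfy Lv H t v (t = 0: v ≤ H/8; t = 1: H/2 ≤ v ≤ 5H/8;
t = 2: 7H/8 ≤ v ≤ H; intervals of length H/8 contain at least H/8 - 1 ≥ (H+1)/16 integers: Nat.card of Finset.Icc,
omega). lev i ≤ 2. The set is a product over the indices (Fintype.piFinset), so its card is at least ((H + 1)/16)^(card Ix).
-/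

set_option linter.unusedVariables false
set_option linter.style.longLine false
set_option autoImplicit false

namespace Pool.Agent.Work.MP_9d4f6b_lc.AG

private theorem lev_le {l m n : ℕ} (i : Ix l m n) : lev i = 0 ∨ lev i = 1 ∨ lev i = 2 := by
  obtain ⟨k, a, b, c⟩ := i
  unfold lev
  dsimp only
  split_ifs <;> simp

private theorem fac_ge (H t : ℕ) (hH : 32 ≤ H) (ht : t = 0 ∨ t = 1 ∨ t = 2) :
    H / 16 + 1 ≤ Nat.card {v : Fin (H + 1) // Lv H t v} := by
  obtain ⟨w, hw0, hw1, hw2⟩ : ∃ w : ℕ → ℕ, (t = 0 → ∀ j, w j = j) ∧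
      (t = 1 → ∀ j, w j = (H + 1) / 2 + j) ∧ (t = 2 → ∀ j, w j = H - j) := by
    rcases ht with rfl | rfl | rfl
    · exact ⟨fun j => j, fun _ _ => rfl, fun h => absurd h (by norm_num),
        fun h => absurd h (by norm_num)⟩
    · exact ⟨fun j => (H + 1) / 2 + j, fun h => absurd h (by norm_num), fun _ _ => rfl,
        fun h => absurd h (by norm_num)⟩
    · exact ⟨fun j => H - j, fun h => absurd h (by norm_num), fun h => absurd h (by norm_num),
        fun _ _ => rfl⟩
  have hlt : ∀ j, j < H / 16 + 1 → w j < H + 1 := by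
    intro j hj
    rcases ht with rfl | rfl | rfl
    · rw [hw0 rfl]
      omega
    · rw [hw1 rfl]
      omega
    · rw [hw2 rfl]
      omega
  have hLv : ∀ j, j < H / 16 + 1 → Lv H t (w j) := by
    intro j hj
    rcases ht with rfl | rfl | rfl
    · rw [hw0 rfl]
      exact ⟨fun _ => by omega, fun h => by omega, fun h => by omega⟩
    · rw [hw1 rfl]
      exact ⟨fun _ => by omega, fun h => by omega, fun h => by omega⟩
    · rw [hw2 rfl]
      exact ⟨fun _ => by omega, fun h => by omega, fun h => by omega⟩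
  have hinj : ∀ j j', j < H / 16 + 1 → j' < H / 16 + 1 → w j = w j' → j = j' := by
    intro j j' hj hj' h
    rcases ht with rfl | rfl | rfl
    · rw [hw0 rfl, hw0 rfl] at h
      exact h
    · rw [hw1 rfl, hw1 rfl] at h
      omega
    · rw [hw2 rfl, hw2 rfl] at h
      omega
  have h := Nat.card_le_card_of_injective
    (fun j : Fin (H / 16 + 1) => (⟨⟨w j, hlt j j.2⟩, hLv j j.2⟩ : {v : Fin (H + 1) // Lv H t v}))
    (by
      intro j j' h
      simp only [Subtype.mk.injEq, Fin.mk.injEq] at h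
      exact Fin.ext (hinj j j' j.2 j'.2 h))
  rw [Nat.card_eq_fintype_card, Fintype.card_fin] at h
  exact h

open Filter in
theorem cycC (l m n : ℕ) : ∀ᶠ H : ℕ in atTop,
    ((1 : ℝ) / 16) ^ Fintype.card (Ix l m n) * ((H : ℝ) + 1) ^ Fintype.card (Ix l m n) ≤
      Nat.card {c : Ix l m n → Fin (H + 1) // ∀ i, Lv H (lev i) (c i : ℕ)} := by
  filter_upwards [Filter.eventually_ge_atTop 32] with H hH
  have e1 : Nat.card {c : Ix l m n → Fin (H + 1) // ∀ i, Lv H (lev i) (c i : ℕ)} =
      ∏ i : Ix l m n, Nat.card {v : Fin (H + 1) // Lv H (lev i) (v : ℕ)} := by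
    rw [← Nat.card_pi]
    exact Nat.card_congr (Equiv.subtypePiEquivPi (p := fun (i : Ix l m n) (v : Fin (H + 1)) =>
      Lv H (lev i) (v : ℕ)))
  rw [e1, Nat.cast_prod, ← mul_pow, ← Finset.card_univ, ← Finset.prod_const]
  refine Finset.prod_le_prod (fun i _ => by positivity) fun i _ => ?_
  have h1 := fac_ge H (lev i) hH (lev_le i)
  have h2 : ((H / 16 + 1 : ℕ) : ℝ) ≤ Nat.card {v : Fin (H + 1) // Lv H (lev i) (v : ℕ)} := by
    exact_mod_cast h1
  refine le_trans ?_ h2
  have h3 : H + 1 ≤ 16 * (H / 16 + 1) := by omega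
  have h4 : ((H : ℝ) + 1) ≤ 16 * ((H / 16 + 1 : ℕ) : ℝ) := by exact_mod_cast h3
  linarith

end Pool.Agent.Work.MP_9d4f6b_lc.AG
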