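import Pool.Agent.Work.MP_9d4f6b_lc.AG.Msk

/-!
MODULE GLI (size M). The code of the condition GLin.

PROOF. LinS (P mod p) (fs sI k1) (fs sJ k2) iff ∃ N < p^k2, LinC P k1 k2 sI sJ p N (vec, spC_iff, csC_iff, cdS_eq, sums over range =
sums over Fin, push_cast, ZMod.natCast_eq_zero_iff). Then quantify over the subsets (fsm) and primes (prC_iff);
J nonempty iff 1 ≤ its card.
-/

set_option linter.unusedVariables false
set_option linter.style.longLine false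
set_option autoImplicit false

namespace Pool.Agent.Work.MP_9d4f6b_lc.AG

private theorem linC_iff (P : ℕ → ℕ → ℕ) (k1 k2 sI sJ p N : ℕ) (hp : 0 < p) :
    LinC P k1 k2 sI sJ p N ↔ Sp (fs sJ k2) (vc p N k2) ∧
      ((fs sI k1).card = (fs sJ k2).card → ∑ b, vc p N k2 b = 0) ∧
      Cst (fs sI k1) (fun a : Fin k1 => ∑ b : Fin k2, ((P a b : ℕ) : ZMod p) * vc p N k2 b) := by
  unfold LinC
  rw [spC_iff p sJ k2 N hp, csC_iff, cdS_eq, cdS_eq]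
  have h1 : (∑ b ∈ Finset.range k2, dig p N b) % p = 0 ↔ ∑ b, vc p N k2 b = 0 := by
    rw [← Nat.dvd_iff_mod_eq_zero, ← ZMod.natCast_eq_zero_iff, Finset.sum_range]
    push_cast
    rfl
  have h2 : (fun a : Fin k1 => ((∑ b ∈ Finset.range k2, P a b * dig p N b : ℕ) : ZMod p)) =
      (fun a : Fin k1 => ∑ b : Fin k2, ((P a b : ℕ) : ZMod p) * vc p N k2 b) := by
    funext a
    rw [Finset.sum_range]
    push_cast
    rfl
  rw [h1, h2]

private theorem linS_iff (P : ℕ → ℕ → ℕ) (k1 k2 sI sJ p : ℕ) (hp : 0 < p) :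
    LinS (fun (a : Fin k1) (b : Fin k2) => (((P a b : ℕ)) : ZMod p)) (fs sI k1) (fs sJ k2) ↔
      ∃ N < p ^ k2, LinC P k1 k2 sI sJ p N := by
  constructor
  · rintro ⟨y, h1, h2, h3⟩
    obtain ⟨N, hN, rfl⟩ := vec p k2 hp y
    exact ⟨N, hN, (linC_iff P k1 k2 sI sJ p N hp).2 ⟨h1, h2, h3⟩⟩
  · rintro ⟨N, hN, h⟩
    obtain ⟨h1, h2, h3⟩ := (linC_iff P k1 k2 sI sJ p N hp).1 h
    exact ⟨vc p N k2, h1, h2, h3⟩

theorem gLI (S : ℕ) (P : ℕ → ℕ → ℕ) (k1 k2 : ℕ) :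
    GLC S P k1 k2 ↔ GLin S (fun (a : Fin k1) (b : Fin k2) => P a b) := by
  constructor
  · intro h I J hJ hc
    obtain ⟨sI, hsI, rfl⟩ := fsm k1 I
    obtain ⟨sJ, hsJ, rfl⟩ := fsm k2 J
    obtain ⟨p, hpS, hp, h1⟩ := h sI hsI sJ hsJ (by rw [cdS_eq]; exact Finset.card_pos.2 hJ)
      (by rw [cdS_eq, cdS_eq]; exact hc)
    have hp' := (prC_iff p).1 hp
    refine ⟨p, hp', by omega, fun h2 => ?_⟩
    obtain ⟨N, hN, h3⟩ := (linS_iff P k1 k2 sI sJ p hp'.pos).1 h2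
    exact h1 N hN h3
  · intro h sI hsI sJ hsJ h1 h2
    rw [cdS_eq] at h1
    rw [cdS_eq, cdS_eq] at h2
    obtain ⟨p, hp, hpS, h3⟩ := h (fs sI k1) (fs sJ k2) (Finset.card_pos.1 h1) h2
    refine ⟨p, by omega, (prC_iff p).2 hp, fun N hN h4 => h3 ?_⟩
    exact (linS_iff P k1 k2 sI sJ p hp.pos).2 ⟨N, hN, h4⟩

end Pool.Agent.Work.MP_9d4f6b_lc.AG
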