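import Pool.Agent.Work.MP_9d4f6b_lc.AG.G3I
import Pool.Agent.Work.MP_9d4f6b_lc.AG.GLI

/-!
MODULE DCI (size S). DC is the code of D.

PROOF. Unfold DC, DG; Gd is the conjunction of g3I and the six families of gLI (uu g (0, a, b, c) = pay g 0 a b c by
definition; the casts Fin 3 → ℕ of 0, 1, 2 are 0, 1, 2); ∀ c < n, ... ↔ ∀ c : Fin n, ....
-/

set_option linter.unusedVariables false
set_option linter.style.longLine false
set_option autoImplicit false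

namespace Pool.Agent.Work.MP_9d4f6b_lc.AG

theorem dCI (g : Gm) : DC g ↔ DG g := by
  constructor
  · rintro ⟨h0, h1, h2, h3, h4, h5, h6⟩
    exact ⟨(g3I g).1 h0, fun c => (gLI _ _ _ _).1 (h1 c c.2), fun c => (gLI _ _ _ _).1 (h2 c c.2),
      fun c => (gLI _ _ _ _).1 (h3 c c.2), fun c => (gLI _ _ _ _).1 (h4 c c.2),
      fun c => (gLI _ _ _ _).1 (h5 c c.2), fun c => (gLI _ _ _ _).1 (h6 c c.2)⟩
  · intro h
    exact ⟨(g3I g).2 h.h3, fun c hc => (gLI _ _ _ _).2 (h.h12 ⟨c, hc⟩),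
      fun c hc => (gLI _ _ _ _).2 (h.h21 ⟨c, hc⟩), fun c hc => (gLI _ _ _ _).2 (h.h13 ⟨c, hc⟩),
      fun c hc => (gLI _ _ _ _).2 (h.h31 ⟨c, hc⟩), fun c hc => (gLI _ _ _ _).2 (h.h23 ⟨c, hc⟩),
      fun c hc => (gLI _ _ _ _).2 (h.h32 ⟨c, hc⟩)⟩

end Pool.Agent.Work.MP_9d4f6b_lc.AG
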