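import Pool.Agent.Work.MP_9d4f6b_lc.AG.PrB

/-!
MODULE PR3 (size M). G3C is primitive recursive.

PROOF. Prove first that Sol3C is primitive recursive in all its arguments as a predicate of a parameter x in α (private lemma with
Primrec functions g, sI, sJ, sK, p, N1, N2, N3 : α → ..., as in pr_tot / pr_chk of Prim.lean) from rc_spC, rc_csC, prim_sum,
rc_pay, rc_dig; then the quantifiers by rc_ball, rc_bex, rc_imp with the projections of α × ℕ × ....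
-/

set_option linter.unusedVariables false
set_option linter.style.longLine false
set_option autoImplicit false

namespace Pool.Agent.Work.MP_9d4f6b_lc.AG

section
variable {α : Type} [Primcodable α]

private theorem p3_g1 {g : α → Gm} (hg : Primrec g) : Primrec fun x => (g x).1 :=
  Primrec.fst.comp hg

private theorem p3_g2 {g : α → Gm} (hg : Primrec g) : Primrec fun x => (g x).2.1 :=
  Primrec.fst.comp (Primrec.snd.comp hg)

private theorem p3_g3 {g : α → Gm} (hg : Primrec g) : Primrec fun x => (g x).2.2.1 :=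
  Primrec.fst.comp (Primrec.snd.comp (Primrec.snd.comp hg))

private theorem p3_g4 {g : α → Gm} (hg : Primrec g) : Primrec fun x => (g x).2.2.2 :=
  Primrec.snd.comp (Primrec.snd.comp (Primrec.snd.comp hg))

private theorem p3_sol {g : α → Gm} {sI sJ sK p N1 N2 N3 : α → ℕ} (hg : Primrec g)
    (hI : Primrec sI) (hJ : Primrec sJ) (hK : Primrec sK) (hp : Primrec p) (h1 : Primrec N1)
    (h2 : Primrec N2) (h3 : Primrec N3) :
    PrimrecPred fun x => Sol3C (g x) (sI x) (sJ x) (sK x) (p x) (N1 x) (N2 x) (N3 x) := by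
  unfold Sol3C
  have f1 : Primrec (Prod.fst : α × ℕ → α) := Primrec.fst
  have f2 : Primrec (fun p : (α × ℕ) × ℕ => p.1.1) := Primrec.fst.comp Primrec.fst
  have f3 : Primrec (fun p : ((α × ℕ) × ℕ) × ℕ => p.1.1.1) :=
    Primrec.fst.comp (Primrec.fst.comp Primrec.fst)
  have va : Primrec (fun p : ((α × ℕ) × ℕ) × ℕ => p.1.1.2) :=
    Primrec.snd.comp (Primrec.fst.comp Primrec.fst)
  have vb : Primrec (fun p : ((α × ℕ) × ℕ) × ℕ => p.1.2) := Primrec.snd.comp Primrec.fst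
  have vc : Primrec (fun p : ((α × ℕ) × ℕ) × ℕ => p.2) := Primrec.snd
  have s1 : Primrec₂ fun (x : α) (a : ℕ) => ∑ b ∈ Finset.range (g x).2.1,
      ∑ c ∈ Finset.range (g x).2.2.1,
        pay (g x) 0 a b c * (dig (p x) (N2 x) b * dig (p x) (N3 x) c) := by
    refine prim_sum (p3_g2 (hg.comp f1)) ?_
    refine prim_sum (p3_g3 (hg.comp f2)) ?_
    exact rc_mul (rc_pay (hg.comp f3) (Primrec.const 0) va vb vc)
      (rc_mul (rc_dig (hp.comp f3) (h2.comp f3) vb) (rc_dig (hp.comp f3) (h3.comp f3) vc))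
  have s2 : Primrec₂ fun (x : α) (b : ℕ) => ∑ a ∈ Finset.range (g x).1,
      ∑ c ∈ Finset.range (g x).2.2.1,
        pay (g x) 1 a b c * (dig (p x) (N1 x) a * dig (p x) (N3 x) c) := by
    refine prim_sum (p3_g1 (hg.comp f1)) ?_
    refine prim_sum (p3_g3 (hg.comp f2)) ?_
    exact rc_mul (rc_pay (hg.comp f3) (Primrec.const 1) vb va vc)
      (rc_mul (rc_dig (hp.comp f3) (h1.comp f3) vb) (rc_dig (hp.comp f3) (h3.comp f3) vc))
  have s3 : Primrec₂ fun (x : α) (c : ℕ) => ∑ a ∈ Finset.range (g x).1,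
      ∑ b ∈ Finset.range (g x).2.1,
        pay (g x) 2 a b c * (dig (p x) (N1 x) a * dig (p x) (N2 x) b) := by
    refine prim_sum (p3_g1 (hg.comp f1)) ?_
    refine prim_sum (p3_g2 (hg.comp f2)) ?_
    exact rc_mul (rc_pay (hg.comp f3) (Primrec.const 2) vb vc va)
      (rc_mul (rc_dig (hp.comp f3) (h1.comp f3) vb) (rc_dig (hp.comp f3) (h2.comp f3) vc))
  exact (rc_spC hp hI (p3_g1 hg) h1).and ((rc_spC hp hJ (p3_g2 hg) h2).and
    ((rc_spC hp hK (p3_g3 hg) h3).and ((rc_csC hp hI (p3_g1 hg) s1).and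
      ((rc_csC hp hJ (p3_g2 hg) s2).and (rc_csC hp hK (p3_g3 hg) s3)))))

private theorem p3_7 {g : α → Gm} {sI sJ sK p N1 N2 : α → ℕ} (hg : Primrec g)
    (hI : Primrec sI) (hJ : Primrec sJ) (hK : Primrec sK) (hp : Primrec p) (h1 : Primrec N1)
    (h2 : Primrec N2) :
    PrimrecPred fun x => ∀ N3 < p x ^ (g x).2.2.1,
      ¬ Sol3C (g x) (sI x) (sJ x) (sK x) (p x) (N1 x) (N2 x) N3 :=
  rc_ball (p := fun x N3 => ¬ Sol3C (g x) (sI x) (sJ x) (sK x) (p x) (N1 x) (N2 x) N3)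
    (rc_pow hp (p3_g3 hg)) (p3_sol (hg.comp Primrec.fst) (hI.comp Primrec.fst)
    (hJ.comp Primrec.fst) (hK.comp Primrec.fst) (hp.comp Primrec.fst) (h1.comp Primrec.fst)
    (h2.comp Primrec.fst) Primrec.snd).not

private theorem p3_6 {g : α → Gm} {sI sJ sK p N1 : α → ℕ} (hg : Primrec g)
    (hI : Primrec sI) (hJ : Primrec sJ) (hK : Primrec sK) (hp : Primrec p) (h1 : Primrec N1) :
    PrimrecPred fun x => ∀ N2 < p x ^ (g x).2.1, ∀ N3 < p x ^ (g x).2.2.1,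
      ¬ Sol3C (g x) (sI x) (sJ x) (sK x) (p x) (N1 x) N2 N3 :=
  rc_ball (p := fun x N2 => ∀ N3 < p x ^ (g x).2.2.1,
      ¬ Sol3C (g x) (sI x) (sJ x) (sK x) (p x) (N1 x) N2 N3)
    (rc_pow hp (p3_g2 hg)) (p3_7 (hg.comp Primrec.fst) (hI.comp Primrec.fst)
    (hJ.comp Primrec.fst) (hK.comp Primrec.fst) (hp.comp Primrec.fst) (h1.comp Primrec.fst)
    Primrec.snd)

private theorem p3_5 {g : α → Gm} {sI sJ sK p : α → ℕ} (hg : Primrec g)
    (hI : Primrec sI) (hJ : Primrec sJ) (hK : Primrec sK) (hp : Primrec p) :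
    PrimrecPred fun x => ∀ N1 < p x ^ (g x).1, ∀ N2 < p x ^ (g x).2.1,
      ∀ N3 < p x ^ (g x).2.2.1, ¬ Sol3C (g x) (sI x) (sJ x) (sK x) (p x) N1 N2 N3 :=
  rc_ball (p := fun x N1 => ∀ N2 < p x ^ (g x).2.1, ∀ N3 < p x ^ (g x).2.2.1,
      ¬ Sol3C (g x) (sI x) (sJ x) (sK x) (p x) N1 N2 N3)
    (rc_pow hp (p3_g1 hg)) (p3_6 (hg.comp Primrec.fst) (hI.comp Primrec.fst)
    (hJ.comp Primrec.fst) (hK.comp Primrec.fst) (hp.comp Primrec.fst) Primrec.snd)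

private theorem p3_4 {g : α → Gm} {sI sJ sK : α → ℕ} (hg : Primrec g)
    (hI : Primrec sI) (hJ : Primrec sJ) (hK : Primrec sK) :
    PrimrecPred fun x => ∃ p < (g x).2.2.2.sum + 1, PrC p ∧ ∀ N1 < p ^ (g x).1,
      ∀ N2 < p ^ (g x).2.1, ∀ N3 < p ^ (g x).2.2.1,
        ¬ Sol3C (g x) (sI x) (sJ x) (sK x) p N1 N2 N3 :=
  rc_bex (p := fun x p => PrC p ∧ ∀ N1 < p ^ (g x).1,
      ∀ N2 < p ^ (g x).2.1, ∀ N3 < p ^ (g x).2.2.1,
        ¬ Sol3C (g x) (sI x) (sJ x) (sK x) p N1 N2 N3)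
    (rc_add (rc_lsum (p3_g4 hg)) (Primrec.const 1))
    ((rc_prC (p := fun y : α × ℕ => y.2) Primrec.snd).and (p3_5 (hg.comp Primrec.fst)
      (hI.comp Primrec.fst) (hJ.comp Primrec.fst) (hK.comp Primrec.fst) Primrec.snd))

private theorem p3_le {s k : α → ℕ} (hs : Primrec s) (hk : Primrec k) :
    PrimrecPred fun x => 2 ≤ cdS (s x) (k x) :=
  Primrec.nat_le.comp (Primrec.const 2) (rc_cdS hs hk)

private theorem p3_3 {g : α → Gm} {sI sJ : α → ℕ} (hg : Primrec g)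
    (hI : Primrec sI) (hJ : Primrec sJ) :
    PrimrecPred fun x => ∀ sK < 2 ^ (g x).2.2.1, 2 ≤ cdS (sI x) (g x).1 →
      2 ≤ cdS (sJ x) (g x).2.1 → 2 ≤ cdS sK (g x).2.2.1 →
      ∃ p < (g x).2.2.2.sum + 1, PrC p ∧ ∀ N1 < p ^ (g x).1,
      ∀ N2 < p ^ (g x).2.1, ∀ N3 < p ^ (g x).2.2.1,
        ¬ Sol3C (g x) (sI x) (sJ x) sK p N1 N2 N3 := by
  have hg' : Primrec fun y : α × ℕ => g y.1 := hg.comp Primrec.fst
  have hI' : Primrec fun y : α × ℕ => sI y.1 := hI.comp Primrec.fst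
  have hJ' : Primrec fun y : α × ℕ => sJ y.1 := hJ.comp Primrec.fst
  have hK' : Primrec fun y : α × ℕ => y.2 := Primrec.snd
  refine rc_ball (p := fun x sK => 2 ≤ cdS (sI x) (g x).1 →
      2 ≤ cdS (sJ x) (g x).2.1 → 2 ≤ cdS sK (g x).2.2.1 →
      ∃ p < (g x).2.2.2.sum + 1, PrC p ∧ ∀ N1 < p ^ (g x).1,
      ∀ N2 < p ^ (g x).2.1, ∀ N3 < p ^ (g x).2.2.1,
        ¬ Sol3C (g x) (sI x) (sJ x) sK p N1 N2 N3)
    (rc_pow (Primrec.const 2) (p3_g3 hg)) ?_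
  exact rc_imp (p3_le hI' (p3_g1 hg')) (rc_imp (p3_le hJ' (p3_g2 hg'))
    (rc_imp (p3_le hK' (p3_g3 hg')) (p3_4 hg' hI' hJ' hK')))

private theorem p3_2 {g : α → Gm} {sI : α → ℕ} (hg : Primrec g)
    (hI : Primrec sI) :
    PrimrecPred fun x => ∀ sJ < 2 ^ (g x).2.1, ∀ sK < 2 ^ (g x).2.2.1, 2 ≤ cdS (sI x) (g x).1 →
      2 ≤ cdS sJ (g x).2.1 → 2 ≤ cdS sK (g x).2.2.1 →
      ∃ p < (g x).2.2.2.sum + 1, PrC p ∧ ∀ N1 < p ^ (g x).1,
      ∀ N2 < p ^ (g x).2.1, ∀ N3 < p ^ (g x).2.2.1,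
        ¬ Sol3C (g x) (sI x) sJ sK p N1 N2 N3 :=
  rc_ball (p := fun x sJ => ∀ sK < 2 ^ (g x).2.2.1, 2 ≤ cdS (sI x) (g x).1 →
      2 ≤ cdS sJ (g x).2.1 → 2 ≤ cdS sK (g x).2.2.1 →
      ∃ p < (g x).2.2.2.sum + 1, PrC p ∧ ∀ N1 < p ^ (g x).1,
      ∀ N2 < p ^ (g x).2.1, ∀ N3 < p ^ (g x).2.2.1,
        ¬ Sol3C (g x) (sI x) sJ sK p N1 N2 N3)
    (rc_pow (Primrec.const 2) (p3_g2 hg)) (p3_3 (hg.comp Primrec.fst) (hI.comp Primrec.fst)
      Primrec.snd)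

end

theorem pr3 : PrimrecPred G3C := by
  unfold G3C
  have hid : Primrec (fun g : Gm => g) := Primrec.id
  exact rc_ball (p := fun (g : Gm) (sI : ℕ) => ∀ sJ < 2 ^ g.2.1, ∀ sK < 2 ^ g.2.2.1,
    2 ≤ cdS sI g.1 → 2 ≤ cdS sJ g.2.1 → 2 ≤ cdS sK g.2.2.1 →
    ∃ p < g.2.2.2.sum + 1, PrC p ∧ ∀ N1 < p ^ g.1, ∀ N2 < p ^ g.2.1, ∀ N3 < p ^ g.2.2.1,
      ¬ Sol3C g sI sJ sK p N1 N2 N3)
    (rc_pow (Primrec.const 2) (p3_g1 hid)) (p3_2 Primrec.fst Primrec.snd)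

end Pool.Agent.Work.MP_9d4f6b_lc.AG
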