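import Pool.Agent.Work.MP_9d4f6b_lc.AG.Smw
import Pool.Agent.Work.MP_9d4f6b_lc.AG.BBd
import Pool.Agent.Work.MP_9d4f6b_lc.Dig
import Pool.Agent.Work.MP_9d4f6b_lc.Sym

/-!
MODULE RATI (size S-M). For g in D the existence of a rational equilibrium is a bounded search.

PROOF. (→) smw with S = T = g.2.2.2.sum (pay_le: uu g i ≤ the sum), detB_le_BB, chk_of_small (Dig.lean). uu g (0, a, b, c) =
pay g 0 a b c by definition. (←) chk_iff and ne_of_hne (Sym.lean) give an equilibrium in the sense of IsNE; NE and IsNE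
have the same fields.
-/

set_option linter.unusedVariables false
set_option linter.style.longLine false
set_option autoImplicit false

namespace Pool.Agent.Work.MP_9d4f6b_lc.AG

theorem ratI (g : Gm) (hg : DG g) :
    (∃ (x : Fin g.1 → ℚ) (y : Fin g.2.1 → ℚ) (z : Fin g.2.2.1 → ℚ), NE (uu g) x y z) ↔
      ∃ N < bas g ^ (g.1 + g.2.1 + g.2.2.1), Chk g N := by
  constructor
  · rintro ⟨x, y, z, h⟩
    have hT : ∀ i, uu g i ≤ g.2.2.2.sum := fun i => pay_le g _ _ _ _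
    obtain ⟨X, Y, Z, hH, hX, hY, hZ⟩ := smw (T := g.2.2.2.sum) hg hT h
    obtain ⟨b1, b2, b3⟩ := detB_le_BB g.2.2.2.sum g.1 g.2.1 g.2.2.1
    exact chk_of_small g X Y Z hH (fun a => (hX a).trans b1) (fun b => (hY b).trans b2)
      (fun c => (hZ c).trans b3)
  · rintro ⟨N, -, hN⟩
    have h1 := (chk_iff g N).1 hN
    obtain ⟨x, y, z, h2⟩ := ne_of_hne _ _ _ _ _ _ h1
    exact ⟨x, y, z, ⟨h2.x0, h2.x1, h2.y0, h2.y1, h2.z0, h2.z1, h2.n1, h2.n2, h2.n3⟩⟩

end Pool.Agent.Work.MP_9d4f6b_lc.AG
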