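import Pool.Agent.Work.MP_9d4f6b_lc.AG.PrL
import Pool.Agent.Work.MP_9d4f6b_lc.AG.Pr3
import Pool.Agent.Work.MP_9d4f6b_lc.AG.DCI
import Pool.Agent.Work.MP_9d4f6b_lc.AG.RatI

/-!
MODULE DECF (size M). D is decidable, and so is the existence of a rational equilibrium on D.

PROOF. DC is primitive recursive: pr3, and six times rc_ball with prL (parameter type Gm × ℕ, P (g, c) a b = pay g 0 a b c etc.: rc_pay with
constants 0, 1, 2). DG = DC by dCI. The second predicate is DC g ∧ ∃ N < bas g ^ (...), Chk g N by ratI (rc_bex, rc_pow, rc_bas, rc_chk).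
PrimrecPred → ComputablePred as in Main.lean of the parent folder (obtain ⟨hd, hp⟩; exact ⟨hd, hp.to_comp⟩).
-/

set_option linter.unusedVariables false
set_option linter.style.longLine false
set_option autoImplicit false

namespace Pool.Agent.Work.MP_9d4f6b_lc.AG

section
variable {α : Type} [Primcodable α]

private theorem pg1 {g : α → Gm} (hg : Primrec g) : Primrec fun x => (g x).1 :=
  Primrec.fst.comp hg

private theorem pg2 {g : α → Gm} (hg : Primrec g) : Primrec fun x => (g x).2.1 :=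
  Primrec.fst.comp (Primrec.snd.comp hg)

private theorem pg3 {g : α → Gm} (hg : Primrec g) : Primrec fun x => (g x).2.2.1 :=
  Primrec.fst.comp (Primrec.snd.comp (Primrec.snd.comp hg))

private theorem pg4 {g : α → Gm} (hg : Primrec g) : Primrec fun x => (g x).2.2.2 :=
  Primrec.snd.comp (Primrec.snd.comp (Primrec.snd.comp hg))

end

/-- one of the six families: pay with the fixed strategy t.1.2, own index i -/
private theorem fam {k k1 k2 : Gm → ℕ} {P : Gm → ℕ → ℕ → ℕ → ℕ} (hk : Primrec k) (h1 : Primrec k1)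
    (h2 : Primrec k2)
    (hP : Primrec fun t : (Gm × ℕ) × ℕ × ℕ => P t.1.1 t.1.2 t.2.1 t.2.2) :
    PrimrecPred fun g : Gm => ∀ c < k g, GLC g.2.2.2.sum (P g c) (k1 g) (k2 g) := by
  have hid : Primrec (fun g : Gm => g) := Primrec.id
  have f1 : Primrec (Prod.fst : Gm × ℕ → Gm) := Primrec.fst
  have h : PrimrecPred fun t : Gm × ℕ => GLC t.1.2.2.2.sum (P t.1 t.2) (k1 t.1) (k2 t.1) :=
    prL (S := fun t : Gm × ℕ => t.1.2.2.2.sum) (k1 := fun t : Gm × ℕ => k1 t.1)
      (k2 := fun t : Gm × ℕ => k2 t.1) (P := fun t : Gm × ℕ => P t.1 t.2)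
      (rc_lsum (pg4 f1)) (h1.comp f1) (h2.comp f1) hP
  exact rc_ball (p := fun (g : Gm) (c : ℕ) => GLC g.2.2.2.sum (P g c) (k1 g) (k2 g)) hk h

private theorem pDC : PrimrecPred DC := by
  have hid : Primrec (fun g : Gm => g) := Primrec.id
  have tg : Primrec fun t : (Gm × ℕ) × ℕ × ℕ => t.1.1 := Primrec.fst.comp Primrec.fst
  have tc : Primrec fun t : (Gm × ℕ) × ℕ × ℕ => t.1.2 := Primrec.snd.comp Primrec.fst
  have ta : Primrec fun t : (Gm × ℕ) × ℕ × ℕ => t.2.1 := Primrec.fst.comp Primrec.snd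
  have tb : Primrec fun t : (Gm × ℕ) × ℕ × ℕ => t.2.2 := Primrec.snd.comp Primrec.snd
  have c0 : Primrec fun _ : (Gm × ℕ) × ℕ × ℕ => 0 := Primrec.const 0
  have c1 : Primrec fun _ : (Gm × ℕ) × ℕ × ℕ => 1 := Primrec.const 1
  have c2 : Primrec fun _ : (Gm × ℕ) × ℕ × ℕ => 2 := Primrec.const 2
  refine PrimrecPred.and pr3 (PrimrecPred.and ?_ (PrimrecPred.and ?_ (PrimrecPred.and ?_
    (PrimrecPred.and ?_ (PrimrecPred.and ?_ ?_)))))
  · exact fam (P := fun g c a b => pay g 0 a b c) (pg3 hid) (pg1 hid) (pg2 hid)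
      (rc_pay tg c0 ta tb tc)
  · exact fam (P := fun g c b a => pay g 1 a b c) (pg3 hid) (pg2 hid) (pg1 hid)
      (rc_pay tg c1 tb ta tc)
  · exact fam (P := fun g b a c => pay g 0 a b c) (pg2 hid) (pg1 hid) (pg3 hid)
      (rc_pay tg c0 ta tc tb)
  · exact fam (P := fun g b c a => pay g 2 a b c) (pg2 hid) (pg3 hid) (pg1 hid)
      (rc_pay tg c2 tb tc ta)
  · exact fam (P := fun g a b c => pay g 1 a b c) (pg1 hid) (pg2 hid) (pg3 hid)
      (rc_pay tg c1 tc ta tb)
  · exact fam (P := fun g a c b => pay g 2 a b c) (pg1 hid) (pg3 hid) (pg2 hid)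
      (rc_pay tg c2 tc tb ta)

private theorem tocomp {α : Type} [Primcodable α] {p : α → Prop} (h : PrimrecPred p) :
    ComputablePred p := by
  obtain ⟨hd, hp⟩ := h
  exact ⟨hd, hp.to_comp⟩

theorem decD : ComputablePred DG :=
  tocomp (pDC.of_eq fun g => dCI g)

theorem decR : ComputablePred (fun g : Gm => DG g ∧
    ∃ (x : Fin g.1 → ℚ) (y : Fin g.2.1 → ℚ) (z : Fin g.2.2.1 → ℚ), NE (uu g) x y z) := by
  have hid : Primrec (fun g : Gm => g) := Primrec.id
  have h : PrimrecPred fun g : Gm => ∃ N < bas g ^ (g.1 + g.2.1 + g.2.2.1), Chk g N := by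
    refine rc_bex (p := fun (g : Gm) (N : ℕ) => Chk g N)
      (rc_pow (rc_bas hid) (rc_add (rc_add (pg1 hid) (pg2 hid)) (pg3 hid))) ?_
    exact rc_chk Primrec.fst Primrec.snd
  refine tocomp ((pDC.and h).of_eq fun g => ?_)
  constructor
  · rintro ⟨h1, h2⟩
    exact ⟨(dCI g).1 h1, (ratI g ((dCI g).1 h1)).2 h2⟩
  · rintro ⟨h1, h2⟩
    exact ⟨(dCI g).2 h1, (ratI g h1).1 h2⟩

end Pool.Agent.Work.MP_9d4f6b_lc.AG
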