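import Mathlib
import Pool.Agent.Work.MP_9d4f6b_lc.Dec

/-!
MP_9d4f6b_lc, board AG (almost all games): definitions. FIXED FILE, nothing to prove.

THEOREM (paper version). Fix l, m, n >= 1. Let G_H be the set of the games of format l x m x n with payoffs in
{0, ..., H}. There is a decidable set D of games such that
(1) for g in D and every real Nash equilibrium (x, y, z) of g: all probabilities are rational iff some player
    uses a pure strategy;
(2) it is decidable for g in D whether g has a rational Nash equilibrium;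
(3) |D cap G_H| / |G_H| -> 1 (H -> oo);
(4) if l, m, n >= 2 then a positive proportion of the games has a rational equilibrium and a positive proportion
    has none.

PLAN. For supports I, J, K of sizes a + 1, b + 1, c + 1 >= 2 the indifference conditions are a + b + c bilinear
equations for (x, y, z). A rational equilibrium gives a nonzero solution modulo every prime p. A moment
computation over F_p (number N of projective solutions: E N -> 1, E N(N-1) >= 1 - 1/q, E N^3 <= C) shows that the
probability of N = 0 is at least eps > 0, and by the Chinese remainder theorem almost no game is solvable modulo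
all primes. For supports with a pure player the equations are linear.
-/

set_option linter.unusedVariables false
set_option linter.style.longLine false
set_option autoImplicit false

namespace Pool.Agent.Work.MP_9d4f6b_lc.AG

open scoped LinearAlgebra.Projectivization

/-! ### Bilinear systems over a finite field -/

section field

/-- value of the bilinear form with matrix w -/
def bf {F : Type} [CommRing F] {J K : Type} [Fintype J] [Fintype K] (w : J → K → F) (y : J → F)
    (z : K → F) : F := ∑ j, ∑ k, w j k * (y j * z k)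

/-- points of the projective space of dimension n -/
abbrev Pt (F : Type) [Field F] (n : ℕ) := ℙ F (Fin (n + 1) → F)

/-- three blocks of bilinear forms: e1 forms in (y, z), e2 forms in (x, z), e3 forms in (x, y) -/
abbrev WW (F : Type) (α β γ e1 e2 e3 : ℕ) :=
  (Fin e1 → Fin (β + 1) → Fin (γ + 1) → F) × (Fin e2 → Fin (α + 1) → Fin (γ + 1) → F) ×
    (Fin e3 → Fin (α + 1) → Fin (β + 1) → F)

/-- all forms vanish at (x, y, z) -/
def Slv {F : Type} [CommRing F] {α β γ e1 e2 e3 : ℕ} (w : WW F α β γ e1 e2 e3)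
    (x : Fin (α + 1) → F) (y : Fin (β + 1) → F) (z : Fin (γ + 1) → F) : Prop :=
  (∀ i, bf (w.1 i) y z = 0) ∧ (∀ i, bf (w.2.1 i) x z = 0) ∧ (∀ i, bf (w.2.2 i) x y = 0)

/-- number of the projective solutions -/
noncomputable def NN {F : Type} [Field F] {α β γ e1 e2 e3 : ℕ} (w : WW F α β γ e1 e2 e3) : ℕ :=
  Nat.card {P : Pt F α × Pt F β × Pt F γ // Slv w P.1.rep P.2.1.rep P.2.2.rep}

/-- pattern of a triple of points: all equal; two equal (T_i: the point i is the other one); pairwise
different and dependent; independent -/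
inductive Pat | E | T0 | T1 | T2 | L | G
  deriving DecidableEq, Fintype

open Classical in
/-- the pattern of a triple of points -/
noncomputable def pat {F : Type} [Field F] {n : ℕ} (v : Fin 3 → Pt F n) : Pat :=
  if v 0 = v 1 then (if v 1 = v 2 then Pat.E else Pat.T2)
  else if v 0 = v 2 then Pat.T1
  else if v 1 = v 2 then Pat.T0
  else if LinearIndependent F (fun i => (v i).rep) then Pat.G
  else Pat.L

/-- there are at most 8 q^(kap π n) triples of points of P^n with pattern π -/
def kap (π : Pat) (n : ℕ) : ℕ :=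
  match π with
  | Pat.E => n
  | Pat.T0 => 2 * n
  | Pat.T1 => 2 * n
  | Pat.T2 => 2 * n
  | Pat.L => min (2 * n + 1) (3 * n)
  | Pat.G => 3 * n

/-- lower bound for the rank of the three tensors y_t ⊗ z_t when y, z have the patterns π, σ -/
def rho (π σ : Pat) : ℕ :=
  match π, σ with
  | Pat.E, Pat.E => 1
  | Pat.E, Pat.T0 => 2
  | Pat.E, Pat.T1 => 2
  | Pat.E, Pat.T2 => 2
  | Pat.E, Pat.L => 2
  | Pat.T0, Pat.E => 2
  | Pat.T1, Pat.E => 2
  | Pat.T2, Pat.E => 2
  | Pat.L, Pat.E => 2
  | Pat.T0, Pat.T0 => 2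
  | Pat.T1, Pat.T1 => 2
  | Pat.T2, Pat.T2 => 2
  | _, _ => 3

/-- the exponents of all 216 types of triples of solutions are at most 0 -/
def Tab (α β γ e1 e2 e3 : ℕ) : Prop :=
  ∀ π σ τ : Pat, kap π α + kap σ β + kap τ γ ≤ e1 * rho σ τ + e2 * rho π τ + e3 * rho π σ

end field

/-- the positive probability of insolvability -/
noncomputable def ep : ℝ := 1 / (16 * 110592)

/-! ### Indifference systems -/

section game

/-- nonzero vector supported in I -/
def Sp {A R : Type} [Zero R] (I : Finset A) (x : A → R) : Prop :=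
  (∀ i, i ∉ I → x i = 0) ∧ ∃ i, x i ≠ 0

/-- f is constant on I -/
def Cst {A R : Type} (I : Finset A) (f : A → R) : Prop := ∀ i ∈ I, ∀ i' ∈ I, f i = f i'

/-- one player: (y, z) makes the strategies in I equally good; own strategy first -/
def Sol1 {R : Type} [CommRing R] {A B C : Type} [Fintype B] [Fintype C] (v : A → B → C → R)
    (I : Finset A) (J : Finset B) (K : Finset C) : Prop :=
  ∃ (y : B → R) (z : C → R), Sp J y ∧ Sp K z ∧ Cst I (fun a => ∑ b, ∑ c, v a b c * (y b * z c))

/-- linear version: y makes the rows in I equally good; if |I| = |J| also ∑ y = 0 -/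
def LinS {R : Type} [CommRing R] {A B : Type} [Fintype B] (M : A → B → R) (I : Finset A)
    (J : Finset B) : Prop :=
  ∃ y : B → R, Sp J y ∧ (I.card = J.card → ∑ b, y b = 0) ∧ Cst I (fun a => ∑ b, M a b * y b)

/-- indices of the payoffs: player, strategies of the players 1, 2, 3 -/
abbrev Ix (l m n : ℕ) := Fin 3 × Fin l × Fin m × Fin n

variable {l m n : ℕ}

/-- indifference system of the supports I, J, K -/
def Sol3 {R : Type} [CommRing R] (u : Ix l m n → R) (I : Finset (Fin l)) (J : Finset (Fin m))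
    (K : Finset (Fin n)) : Prop :=
  ∃ (x : Fin l → R) (y : Fin m → R) (z : Fin n → R), Sp I x ∧ Sp J y ∧ Sp K z ∧
    Cst I (fun a => ∑ b, ∑ c, u (0, a, b, c) * (y b * z c)) ∧
    Cst J (fun b => ∑ a, ∑ c, u (1, a, b, c) * (x a * z c)) ∧
    Cst K (fun c => ∑ a, ∑ b, u (2, a, b, c) * (x a * y b))

/-- condition (L) for a matrix of natural numbers, with primes up to S -/
def GLin (S : ℕ) {A B : Type} [Fintype B] (M : A → B → ℕ) : Prop :=
  ∀ (I : Finset A) (J : Finset B), J.Nonempty → J.card ≤ I.card →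
    ∃ p, p.Prime ∧ p ≤ S ∧ ¬ LinS (fun a b => (M a b : ZMod p)) I J

/-- condition (3) for supports of sizes at least 2, with primes up to S -/
def G3 (S : ℕ) (u : Ix l m n → ℕ) : Prop :=
  ∀ (I : Finset (Fin l)) (J : Finset (Fin m)) (K : Finset (Fin n)), 2 ≤ I.card → 2 ≤ J.card →
    2 ≤ K.card → ∃ p, p.Prime ∧ p ≤ S ∧ ¬ Sol3 (fun i => (u i : ZMod p)) I J K

/-- good games: membership in the set D, with primes up to S -/
structure Gd (S : ℕ) (u : Ix l m n → ℕ) : Prop where
  h3 : G3 S u
  h12 : ∀ c, GLin S (fun a b => u (0, a, b, c))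
  h21 : ∀ c, GLin S (fun b a => u (1, a, b, c))
  h13 : ∀ b, GLin S (fun a c => u (0, a, b, c))
  h31 : ∀ b, GLin S (fun c a => u (2, a, b, c))
  h23 : ∀ a, GLin S (fun b c => u (1, a, b, c))
  h32 : ∀ a, GLin S (fun c b => u (2, a, b, c))

/-- Nash equilibrium -/
structure NE {R : Type} [Field R] [LinearOrder R] (u : Ix l m n → ℕ) (x : Fin l → R) (y : Fin m → R)
    (z : Fin n → R) : Prop where
  x0 : ∀ a, 0 ≤ x a
  x1 : ∑ a, x a = 1
  y0 : ∀ b, 0 ≤ y b
  y1 : ∑ b, y b = 1
  z0 : ∀ c, 0 ≤ z c
  z1 : ∑ c, z c = 1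
  n1 : ∀ a₀, ∑ b, ∑ c, y b * z c * (u (0, a₀, b, c) : R) ≤
    ∑ a, ∑ b, ∑ c, x a * y b * z c * (u (0, a, b, c) : R)
  n2 : ∀ b₀, ∑ a, ∑ c, x a * z c * (u (1, a, b₀, c) : R) ≤
    ∑ a, ∑ b, ∑ c, x a * y b * z c * (u (1, a, b, c) : R)
  n3 : ∀ c₀, ∑ a, ∑ b, x a * y b * (u (2, a, b, c₀) : R) ≤
    ∑ a, ∑ b, ∑ c, x a * y b * z c * (u (2, a, b, c) : R)

/-- all coordinates are rational -/
def IsRat {A : Type} (x : A → ℝ) : Prop := ∀ a, ∃ q : ℚ, x a = (q : ℝ)

/-- the matrix of the linear conditions: rows (a, a') with a, a' in I: difference of the rows; rows b not in J: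
coordinate b; last row: the sum if |I| = |J| -/
def LM {A B : Type} [DecidableEq A] [DecidableEq B] (M : A → B → ℕ) (I : Finset A) (J : Finset B) :
    Matrix ((A × A) ⊕ (B ⊕ Unit)) B ℤ := fun e b =>
  match e with
  | Sum.inl (a, a') => if a ∈ I ∧ a' ∈ I then (M a b : ℤ) - (M a' b : ℤ) else 0
  | Sum.inr (Sum.inl b') => if b' ∉ J ∧ b = b' then 1 else 0
  | Sum.inr (Sum.inr _) => if I.card = J.card then 1 else 0

end game

/-! ### Proportions -/

open Filter in
/-- the proportion of the points with P in the box {0..H}^ι tends to 0 -/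
def Small {ι : Type} [Fintype ι] (P : (ι → ℕ) → Prop) : Prop :=
  ∀ δ : ℝ, 0 < δ → ∀ᶠ H : ℕ in atTop,
    (Nat.card {c : ι → Fin (H + 1) // P (fun i => (c i : ℕ))} : ℝ) ≤
      δ * ((H : ℝ) + 1) ^ Fintype.card ι

/-! ### Codes of games -/

/-- payoffs of the game with code g -/
def uu (g : Gm) : Ix g.1 g.2.1 g.2.2.1 → ℕ := fun i => pay g i.1 i.2.1 i.2.2.1 i.2.2.2

/-- the set D -/
def DG (g : Gm) : Prop := Gd g.2.2.2.sum (uu g)

end Pool.Agent.Work.MP_9d4f6b_lc.AG
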