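import Pool.Agent.Work.MP_9d4f6b_lc.AG.Defs

/-!
MODULE SMU (size S-M). Small predicates.

PROOF. mono: the subtype injects. or: card {P ∨ Q} ≤ card {P} + card {Q}, use δ/2. ex: finite unions, induction on
the finite type (Finite.induction / sum over κ with δ / (card κ + 1)). fin: if only finitely many c : ι → ℕ satisfy P (they lie in
the finite set T), then the card is at most T.ncard, and δ (H + 1)^N → ∞ as N ≥ 1.
-/

set_option linter.unusedVariables false
set_option linter.style.longLine false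
set_option autoImplicit false

namespace Pool.Agent.Work.MP_9d4f6b_lc.AG

theorem Small.mono {ι : Type} [Fintype ι] {P Q : (ι → ℕ) → Prop} (hQ : Small Q) (h : ∀ c, P c → Q c) :
    Small P := by
  intro δ hδ
  filter_upwards [hQ δ hδ] with H hH
  refine le_trans ?_ hH
  have h1 : Nat.card {c : ι → Fin (H + 1) // P (fun i => (c i : ℕ))} ≤
      Nat.card {c : ι → Fin (H + 1) // Q (fun i => (c i : ℕ))} := by
    refine Nat.card_le_card_of_injective (fun c => ⟨c.1, h _ c.2⟩) ?_
    intro a b hab
    simp only [Subtype.mk.injEq] at hab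
    exact Subtype.ext hab
  exact_mod_cast h1

theorem Small.or {ι : Type} [Fintype ι] {P Q : (ι → ℕ) → Prop} (hP : Small P) (hQ : Small Q) :
    Small (fun c => P c ∨ Q c) := by
  classical
  intro δ hδ
  filter_upwards [hP (δ / 2) (by linarith), hQ (δ / 2) (by linarith)] with H h1 h2
  have h3 : Nat.card {c : ι → Fin (H + 1) // P (fun i => (c i : ℕ)) ∨ Q (fun i => (c i : ℕ))} ≤
      Nat.card {c : ι → Fin (H + 1) // P (fun i => (c i : ℕ))} +
      Nat.card {c : ι → Fin (H + 1) // Q (fun i => (c i : ℕ))} := by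
    rw [Nat.card_eq_fintype_card, Nat.card_eq_fintype_card, Nat.card_eq_fintype_card]
    exact Fintype.card_subtype_or _ _
  have h4 : (Nat.card {c : ι → Fin (H + 1) // P (fun i => (c i : ℕ)) ∨ Q (fun i => (c i : ℕ))} : ℝ) ≤
      Nat.card {c : ι → Fin (H + 1) // P (fun i => (c i : ℕ))} +
      Nat.card {c : ι → Fin (H + 1) // Q (fun i => (c i : ℕ))} := by exact_mod_cast h3
  linarith

private theorem small_false {ι : Type} [Fintype ι] {P : (ι → ℕ) → Prop} (h : ∀ c, ¬ P c) : Small P := by
  intro δ hδ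
  refine Filter.Eventually.of_forall (fun H => ?_)
  have : IsEmpty {c : ι → Fin (H + 1) // P (fun i => (c i : ℕ))} := ⟨fun c => h _ c.2⟩
  rw [Nat.card_of_isEmpty, Nat.cast_zero]
  positivity

theorem Small.ex {ι κ : Type} [Fintype ι] [Finite κ] {P : κ → (ι → ℕ) → Prop}
    (hP : ∀ k, Small (P k)) : Small (fun c => ∃ k, P k c) := by
  classical
  have := Fintype.ofFinite κ
  have h : ∀ s : Finset κ, Small (fun c => ∃ k ∈ s, P k c) := by
    intro s
    induction s using Finset.induction_on with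
    | empty =>
      refine small_false (fun c hc => ?_)
      obtain ⟨k, hk, -⟩ := hc
      exact absurd hk (Finset.notMem_empty k)
    | insert a s ha ih =>
      refine ((hP a).or ih).mono (fun c hc => ?_)
      obtain ⟨k, hk, hk2⟩ := hc
      rcases Finset.mem_insert.1 hk with h1 | h1
      · subst h1
        exact Or.inl hk2
      · exact Or.inr ⟨k, h1, hk2⟩
  exact (h Finset.univ).mono (fun c ⟨k, hk⟩ => ⟨k, Finset.mem_univ k, hk⟩)

theorem Small.fin {ι : Type} [Fintype ι] [Nonempty ι] {P : (ι → ℕ) → Prop}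
    (h : {c | P c}.Finite) : Small P := by
  intro δ hδ
  have := h.to_subtype
  filter_upwards [Filter.eventually_ge_atTop ⌈(Nat.card {c | P c} : ℝ) / δ⌉₊] with H hH
  have h1 : Nat.card {c : ι → Fin (H + 1) // P (fun i => (c i : ℕ))} ≤ Nat.card {c | P c} := by
    refine Nat.card_le_card_of_injective
      (fun c => (⟨fun i => (c.1 i : ℕ), c.2⟩ : {c | P c})) ?_
    intro a b hab
    refine Subtype.ext (funext fun i => Fin.ext ?_)
    exact congrFun (congrArg Subtype.val hab) i
  have h2 : (Nat.card {c : ι → Fin (H + 1) // P (fun i => (c i : ℕ))} : ℝ) ≤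
      Nat.card {c | P c} := by exact_mod_cast h1
  have h3 : (Nat.card {c | P c} : ℝ) / δ ≤ H := le_trans (Nat.le_ceil _) (by exact_mod_cast hH)
  rw [div_le_iff₀ hδ] at h3
  have h4 : (H : ℝ) + 1 ≤ ((H : ℝ) + 1) ^ Fintype.card ι := by
    refine le_self_pow₀ ?_ Fintype.card_ne_zero
    have : (0 : ℝ) ≤ H := Nat.cast_nonneg H
    linarith
  have h5 : δ * ((H : ℝ) + 1) ≤ δ * ((H : ℝ) + 1) ^ Fintype.card ι :=
    mul_le_mul_of_nonneg_left h4 hδ.le
  nlinarith

end Pool.Agent.Work.MP_9d4f6b_lc.AG
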