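import Pool.Agent.Work.MP_9d4f6b_lc.AG.Sieve
import Pool.Agent.Work.MP_9d4f6b_lc.AG.SmU

/-!
MODULE DENS (size M). If a condition holds modulo every large prime p with probability at most θ < 1, then almost no
point satisfies it modulo all primes.

PROOF. Given δ > 0 choose r with θ^r < δ/4 and a set S of r primes ≥ p0 (Nat.exists_infinite_primes /
Nat.infinite_setOf_prime). Let T = max S. The c with ∑ c < T are finitely many: this part is Small (Small.fin). For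
the others all p in S are ≤ ∑ c, so B p (c mod p) for p in S, and sieve gives card ≤ θ^r (H + 1 + M)^N with M = ∏ S fixed;
((H + 1 + M)/(H + 1))^N → 1, so this is ≤ (δ/2) (H + 1)^N for large H.
-/

set_option linter.unusedVariables false
set_option linter.style.longLine false
set_option autoImplicit false

namespace Pool.Agent.Work.MP_9d4f6b_lc.AG

open Filter Topology

private theorem dens_un {X : Type} [Finite X] (P A B : X → Prop) (h : ∀ x, P x → A x ∨ B x) :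
    Nat.card {x // P x} ≤ Nat.card {x // A x} + Nat.card {x // B x} := by
  have h1 : ({x | P x} : Set X) ⊆ {x | A x} ∪ {x | B x} := fun x hx => h x hx
  exact (Set.ncard_le_ncard h1 (Set.toFinite _)).trans (Set.ncard_union_le _ _)

private theorem dens_lim (M : ℝ) (N : ℕ) : ∀ᶠ H : ℕ in atTop,
    ((H : ℝ) + 1 + M) ^ N ≤ 2 * ((H : ℝ) + 1) ^ N := by
  have h1 : Tendsto (fun H : ℕ => (1 + M * (1 / ((H : ℝ) + 1))) ^ N) atTop (𝓝 ((1 + M * 0) ^ N)) :=
    (tendsto_const_nhds.add (tendsto_const_nhds.mul tendsto_one_div_add_atTop_nhds_zero_nat)).pow N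
  rw [mul_zero, add_zero, one_pow] at h1
  filter_upwards [h1.eventually (gt_mem_nhds (by norm_num : (1 : ℝ) < 2))] with H hH
  have h2 : (0 : ℝ) < (H : ℝ) + 1 := by positivity
  have h3 : (H : ℝ) + 1 + M = (1 + M * (1 / ((H : ℝ) + 1))) * ((H : ℝ) + 1) := by
    field_simp
  rw [h3, mul_pow]
  exact mul_le_mul_of_nonneg_right hH.le (by positivity)

theorem dens {ι : Type} [Fintype ι] [Nonempty ι] (B : ∀ p : ℕ, (ι → ZMod p) → Prop) (θ : ℝ)
    (hθ : 0 ≤ θ) (hθ1 : θ < 1) (p0 : ℕ)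
    (hB : ∀ p : ℕ, p.Prime → p0 ≤ p →
      (Nat.card {v : ι → ZMod p // B p v} : ℝ) ≤ θ * (p : ℝ) ^ Fintype.card ι) :
    Small (fun c : ι → ℕ => ∀ p : ℕ, p.Prime → p ≤ ∑ i, c i → B p (fun i => (c i : ZMod p))) := by
  classical
  intro δ hδ
  obtain ⟨r, hr⟩ := exists_pow_lt_of_lt_one (by linarith : (0 : ℝ) < δ / 4) hθ1
  have hinf : {p : ℕ | p.Prime ∧ p0 ≤ p}.Infinite := by
    rw [Set.infinite_iff_exists_gt] 
    intro a
    obtain ⟨p, hp, hp'⟩ := Nat.exists_infinite_primes (max (a + 1) p0)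
    exact ⟨p, ⟨hp', (le_max_right _ _).trans hp⟩, lt_of_lt_of_le (Nat.lt_succ_self a) ((le_max_left _ _).trans hp)⟩
  obtain ⟨S, hS, hSr⟩ := hinf.exists_subset_card_eq r
  have hS1 : ∀ p ∈ S, p.Prime := fun p hp => (hS hp).1
  have hS2 : ∀ p ∈ S, p0 ≤ p := fun p hp => (hS hp).2
  have hfin : {c : ι → ℕ | ∑ i, c i < S.sup id}.Finite := by
    refine (Set.finite_Icc (0 : ι → ℕ) (fun _ => S.sup id)).subset fun c hc => ⟨?_, fun i => ?_⟩
    · intro i
      exact Nat.zero_le _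
    · exact (Finset.single_le_sum (f := c) (fun _ _ => Nat.zero_le _) (Finset.mem_univ i)).trans
        (le_of_lt hc)
  have hA := Small.fin hfin (δ / 2) (by linarith)
  filter_upwards [hA, dens_lim ((∏ p ∈ S, p : ℕ) : ℝ) (Fintype.card ι)] with H h1 h2
  have h3 := sieve S hS1 B θ hθ (fun p hp => hB p (hS1 p hp) (hS2 p hp)) H
  rw [hSr] at h3
  have h4 := dens_un (X := ι → Fin (H + 1))
    (fun c => ∀ p : ℕ, p.Prime → p ≤ ∑ i, (c i : ℕ) → B p (fun i => ((c i : ℕ) : ZMod p)))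
    (fun c => ∑ i, (c i : ℕ) < S.sup id)
    (fun c => ∀ p ∈ S, B p (fun i => ((c i : ℕ) : ZMod p)))
    (fun c hc => by
      by_cases h : ∑ i, (c i : ℕ) < S.sup id
      · exact Or.inl h
      · exact Or.inr fun p hp => hc p (hS1 p hp) ((Finset.le_sup (f := id) hp).trans (not_lt.1 h)))
  have h5 : (Nat.card {c : ι → Fin (H + 1) // ∀ p : ℕ, p.Prime → p ≤ ∑ i, (c i : ℕ) →
      B p (fun i => ((c i : ℕ) : ZMod p))} : ℝ) ≤
      (Nat.card {c : ι → Fin (H + 1) // ∑ i, (c i : ℕ) < S.sup id} : ℝ) +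
      (Nat.card {c : ι → Fin (H + 1) // ∀ p ∈ S, B p (fun i => ((c i : ℕ) : ZMod p))} : ℝ) := by
    exact_mod_cast h4
  have h6 : θ ^ r * ((H : ℝ) + 1 + ((∏ p ∈ S, p : ℕ) : ℝ)) ^ Fintype.card ι ≤
      δ / 4 * (2 * ((H : ℝ) + 1) ^ Fintype.card ι) :=
    mul_le_mul hr.le h2 (by positivity) (by linarith)
  refine h5.trans ?_
  have h7 : (0 : ℝ) ≤ ((H : ℝ) + 1) ^ Fintype.card ι := by positivity
  have h1' : (Nat.card {c : ι → Fin (H + 1) // ∑ i, (c i : ℕ) < S.sup id} : ℝ) ≤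
      δ / 2 * ((H : ℝ) + 1) ^ Fintype.card ι := h1
  linarith [h3.trans h6]

end Pool.Agent.Work.MP_9d4f6b_lc.AG
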