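import Pool.Agent.Work.MP_9d4f6b_lc.AG.Defs

/-!
MODULE DIF (size M). From supports to the indices Fin (b + 1): differences with the first strategy.

PROOF. Let i : Fin (a + 1) ≃ I, j : Fin (b + 1) ≃ J, k : Fin (c + 1) ≃ K be enumerations (Finset.equivFinOfCardEq).
dif v s t r = v (i (s + 1)) (j t) (k r) - v (i 0) (j t) (k r).
dif_sum: y vanishes outside J and z outside K, so ∑ b, ∑ c, v a b c (y b z c) is the sum over J × K, which is reindexed by j, k;
so Cst I says that these sums for i (s+1) and i 0 agree, i.e. bf (dif ... s) (y ∘ j) (z ∘ k) = 0.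
dif_ne: y ∘ j ≠ 0, because y is nonzero somewhere, necessarily in J.
-/

set_option linter.unusedVariables false
set_option linter.style.longLine false
set_option autoImplicit false

namespace Pool.Agent.Work.MP_9d4f6b_lc.AG

/-- differences of the payoffs of the strategies i (s + 1) and i 0 -/
def dif {R : Type} [CommRing R] {A B C : Type} {a b c : ℕ} (i : Fin (a + 1) → A) (j : Fin (b + 1) → B)
    (k : Fin (c + 1) → C) (v : A → B → C → R) : Fin a → Fin (b + 1) → Fin (c + 1) → R :=
  fun s t r => v (i s.succ) (j t) (k r) - v (i 0) (j t) (k r)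

private theorem dif_re {R : Type} [CommRing R] {B : Type} [Fintype B] {b : ℕ} (J : Finset B)
    (j : Fin (b + 1) → B) (hj : Function.Injective j) (hj' : ∀ x, x ∈ J ↔ ∃ t, j t = x)
    (f : B → R) (hf : ∀ x, x ∉ J → f x = 0) : ∑ x, f x = ∑ t, f (j t) := by
  classical
  have h1 : ∑ t, f (j t) = ∑ x ∈ Finset.univ.image j, f x := by
    rw [Finset.sum_image fun a _ b _ h => hj h]
  rw [h1]
  symm
  refine Finset.sum_subset (Finset.subset_univ _) fun x _ hx => hf x fun hxJ => hx ?_
  obtain ⟨t, ht⟩ := (hj' x).1 hxJ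
  exact Finset.mem_image.2 ⟨t, Finset.mem_univ _, ht⟩

theorem dif_sum {R : Type} [CommRing R] {A B C : Type} [Fintype B] [Fintype C] {a b c : ℕ}
    (I : Finset A) (J : Finset B) (K : Finset C) (i : Fin (a + 1) → A) (j : Fin (b + 1) → B)
    (k : Fin (c + 1) → C) (hi : ∀ s, i s ∈ I) (hj : Function.Injective j)
    (hj' : ∀ x, x ∈ J ↔ ∃ t, j t = x) (hk : Function.Injective k) (hk' : ∀ x, x ∈ K ↔ ∃ t, k t = x)
    (v : A → B → C → R) (y : B → R) (z : C → R) (hy : ∀ x, x ∉ J → y x = 0)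
    (hz : ∀ x, x ∉ K → z x = 0) (h : Cst I (fun a => ∑ b, ∑ c, v a b c * (y b * z c))) :
    ∀ s, bf (dif i j k v s) (fun t => y (j t)) (fun r => z (k r)) = 0 := by
  intro s
  have h1 : ∀ a, ∑ b, ∑ c, v a b c * (y b * z c) =
      ∑ t, ∑ r, v a (j t) (k r) * (y (j t) * z (k r)) := by
    intro a
    rw [dif_re J j hj hj' (fun b => ∑ c, v a b c * (y b * z c)) fun x hx => by
      refine Finset.sum_eq_zero fun c _ => ?_
      rw [hy x hx, zero_mul, mul_zero]]
    refine Finset.sum_congr rfl fun t _ => ?_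
    exact dif_re K k hk hk' (fun c => v a (j t) c * (y (j t) * z c)) fun x hx => by
      rw [hz x hx, mul_zero, mul_zero]
  have h2 := h (i s.succ) (hi _) (i 0) (hi _)
  simp only at h2
  rw [h1, h1] at h2
  unfold bf dif
  rw [← sub_eq_zero, ← Finset.sum_sub_distrib] at h2
  rw [← h2]
  refine Finset.sum_congr rfl fun t _ => ?_
  rw [← Finset.sum_sub_distrib]
  refine Finset.sum_congr rfl fun r _ => ?_
  rw [sub_mul]

theorem dif_ne {R : Type} [CommRing R] {B : Type} {b : ℕ} (J : Finset B) (j : Fin (b + 1) → B)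
    (hj' : ∀ x, x ∈ J ↔ ∃ t, j t = x) (y : B → R) (hy : Sp J y) : (fun t => y (j t)) ≠ 0 := by
  obtain ⟨h1, x, hx⟩ := hy
  have h2 : x ∈ J := by
    by_contra h3
    exact hx (h1 x h3)
  obtain ⟨t, ht⟩ := (hj' x).1 h2
  intro h4
  have h5 : y (j t) = 0 := congrFun h4 t
  rw [ht] at h5
  exact hx h5

theorem dif_enum {A : Type} [DecidableEq A] (I : Finset A) (a : ℕ) (h : I.card = a + 1) :
    ∃ i : Fin (a + 1) → A, Function.Injective i ∧ ∀ x, x ∈ I ↔ ∃ s, i s = x := by
  have e := I.equivFinOfCardEq h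
  refine ⟨fun s => (e.symm s : A), fun s t hst => ?_, fun x => ⟨fun hx => ?_, ?_⟩⟩
  · exact e.symm.injective (Subtype.ext hst)
  · exact ⟨e ⟨x, hx⟩, by simp⟩
  · rintro ⟨s, rfl⟩
    exact (e.symm s).2

theorem dif_surj {F : Type} [CommRing F] {A B C : Type} {a b c : ℕ} (i : Fin (a + 1) → A)
    (j : Fin (b + 1) → B) (k : Fin (c + 1) → C) (hi : Function.Injective i)
    (hj : Function.Injective j) (hk : Function.Injective k)
    (w : Fin a → Fin (b + 1) → Fin (c + 1) → F) : ∃ v : A → B → C → F, dif i j k v = w := by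
  let g : Fin a × Fin (b + 1) × Fin (c + 1) → A × B × C :=
    fun p => (i p.1.succ, j p.2.1, k p.2.2)
  have hg : Function.Injective g := by
    rintro ⟨s, t, r⟩ ⟨s', t', r'⟩ h
    have h1 : i s.succ = i s'.succ := congrArg (fun p => p.1) h
    have h2 : j t = j t' := congrArg (fun p => p.2.1) h
    have h3 : k r = k r' := congrArg (fun p => p.2.2) h
    rw [Fin.succ_injective _ (hi h1), hj h2, hk h3]
  refine ⟨fun x y z => Function.extend g (fun p => w p.1 p.2.1 p.2.2) 0 (x, y, z), ?_⟩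
  funext s t r
  unfold dif
  have h1 : Function.extend g (fun p => w p.1 p.2.1 p.2.2) 0 (i s.succ, j t, k r) = w s t r :=
    hg.extend_apply (fun p => w p.1 p.2.1 p.2.2) 0 (s, t, r)
  have h2 : Function.extend g (fun p => w p.1 p.2.1 p.2.2) 0 (i 0, j t, k r) = 0 := by
    rw [Function.extend_apply']
    · rfl
    · rintro ⟨p, hp⟩
      have h3 : i p.1.succ = i 0 := congrArg (fun p => p.1) hp
      exact Fin.succ_ne_zero _ (hi h3)
  show Function.extend g (fun p => w p.1 p.2.1 p.2.2) 0 (i s.succ, j t, k r) -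
    Function.extend g (fun p => w p.1 p.2.1 p.2.2) 0 (i 0, j t, k r) = w s t r
  rw [h1, h2, sub_zero]

end Pool.Agent.Work.MP_9d4f6b_lc.AG
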