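import Pool.Agent.Work.MP_9d4f6b_lc.AG.Defs

/-!
MODULE PTC (size S). Number of the points of projective space, q = card F.

PROOF. Projectivization.card_of_finrank: Nat.card (Pt F n) = 1 + q + ... + q^n (finrank of Fin (n + 1) → F is
n + 1). So it is ≥ q^n, and (q - 1) times it is q^(n+1) - 1 (Nat.geomSum_eq / mul_geom_sum / or
Projectivization.card). pt_le: q ≤ 2 (q - 1) as q ≥ 2, so (q - 1) card ≤ q^(n+1) ≤ 2 (q - 1) q^n.
-/

set_option linter.unusedVariables false
set_option linter.style.longLine false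
set_option autoImplicit false

namespace Pool.Agent.Work.MP_9d4f6b_lc.AG

theorem pt_ge (F : Type) [Field F] [Fintype F] (n : ℕ) : Fintype.card F ^ n ≤ Nat.card (Pt F n) := by
  rw [Projectivization.card_of_finrank F (Fin (n + 1) → F) (n := n + 1) (by simp),
    Finset.sum_range_succ, Nat.card_eq_fintype_card]
  exact Nat.le_add_left _ _

theorem pt_mul (F : Type) [Field F] [Fintype F] (n : ℕ) :
    Nat.card (Pt F n) * (Fintype.card F - 1) ≤ Fintype.card F ^ (n + 1) := by
  have h := Projectivization.card F (Fin (n + 1) → F)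
  rw [Nat.card_eq_fintype_card (α := F), Nat.card_eq_fintype_card (α := Fin (n + 1) → F)] at h
  rw [← h, Fintype.card_fun, Fintype.card_fin]
  exact Nat.sub_le _ _

theorem pt_le (F : Type) [Field F] [Fintype F] (n : ℕ) :
    Nat.card (Pt F n) ≤ 2 * Fintype.card F ^ n := by
  have h := pt_mul F n
  have h2 : 2 ≤ Fintype.card F := Fintype.one_lt_card
  obtain ⟨k, hk⟩ : ∃ k, Fintype.card F = k + 2 := ⟨Fintype.card F - 2, by omega⟩
  rw [hk] at h ⊢
  have h3 : k + 2 - 1 = k + 1 := by omega
  rw [h3] at h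
  have h4 : Nat.card (Pt F n) * (k + 1) ≤ 2 * (k + 2) ^ n * (k + 1) := by
    refine h.trans ?_
    rw [pow_succ]
    nlinarith [Nat.zero_le ((k + 2) ^ n), Nat.zero_le (k * (k + 2) ^ n)]
  exact Nat.le_of_mul_le_mul_right h4 (by omega)

end Pool.Agent.Work.MP_9d4f6b_lc.AG
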