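import Pool.Agent.Work.MP_9d4f6b_lc.AG.Prod3
import Pool.Agent.Work.MP_9d4f6b_lc.AG.Blk
import Pool.Agent.Work.MP_9d4f6b_lc.AG.PtC

/-!
MODULE MOM2 (size M). Second factorial moment, lower bound. q = card F, s = e1 + e2 + e3 = α + β + γ ≥ 1.

PROOF. NN w * (NN w - 1) is the number of the ordered pairs (P, P') of different solutions of w. So
∑ w, NN w * (NN w - 1) = ∑ over pairs P ≠ P' of card {w // Slv w P ∧ Slv w P'}. For every pair prod3 with τ = Fin 2
(or Bool) and blk_ge give card {...} * q^(2 s) ≥ card WW (card_WW). The number of the pairs is p (p - 1) with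
p = card (Pt α) * card (Pt β) * card (Pt γ) ≥ q^s (pt_ge), so it is ≥ q^s (q^s - 1). Hence
∑ NN (NN - 1) ≥ card WW * q^s (q^s - 1) / q^(2s) = card WW (1 - q^(-s)) ≥ card WW (1 - 1/q); multiply by q.
-/

set_option linter.unusedVariables false
set_option linter.style.longLine false
set_option autoImplicit false

namespace Pool.Agent.Work.MP_9d4f6b_lc.AG

/-- the number of the forms which vanish at two points -/
private theorem two_ge {F : Type} [Field F] [Fintype F] {α β γ e1 e2 e3 : ℕ}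
    (x : Bool → Fin (α + 1) → F) (y : Bool → Fin (β + 1) → F) (z : Bool → Fin (γ + 1) → F) :
    Nat.card (WW F α β γ e1 e2 e3) ≤
      Nat.card {w : WW F α β γ e1 e2 e3 // ∀ t, Slv w (x t) (y t) (z t)} *
        Fintype.card F ^ (2 * (e1 + e2 + e3)) := by
  have h1 := blk_ge e1 y z
  have h2 := blk_ge e2 x z
  have h3 := blk_ge e3 x y
  simp only [Fintype.card_fin, Fintype.card_bool] at h1 h2 h3
  rw [card_WW, prod3]
  refine (Nat.mul_le_mul (Nat.mul_le_mul h1 h2) h3).trans (le_of_eq ?_)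
  ring

private theorem pts_ge (F : Type) [Field F] [Fintype F] (α β γ : ℕ) :
    Fintype.card F ^ (α + β + γ) ≤ Nat.card (Pt F α × Pt F β × Pt F γ) := by
  rw [Nat.card_prod, Nat.card_prod]
  refine le_trans (le_of_eq ?_)
    (Nat.mul_le_mul (pt_ge F α) (Nat.mul_le_mul (pt_ge F β) (pt_ge F γ)))
  ring

private theorem fin_arith {S W q s p : ℕ} (hq : 2 ≤ q) (hs : 1 ≤ s) (hp : q ^ s ≤ p)
    (h : (p * p - p) * W ≤ S * q ^ (2 * s)) : W * (q - 1) ≤ S * q := by
  obtain ⟨k, rfl⟩ : ∃ k, q = k + 2 := ⟨q - 2, by omega⟩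
  obtain ⟨j, rfl⟩ : ∃ j, s = j + 1 := ⟨s - 1, by omega⟩
  obtain ⟨Q, hQ⟩ : ∃ Q, Q = (k + 2) ^ (j + 1) := ⟨_, rfl⟩
  have hQ1 : k + 2 ≤ Q := by
    rw [hQ, pow_succ]
    exact Nat.le_mul_of_pos_left _ (pow_pos (by omega) _)
  have h2 : (k + 2) ^ (2 * (j + 1)) = Q * Q := by
    rw [hQ]
    ring
  rw [h2] at h
  rw [← hQ] at hp
  have h3 : Q * Q - Q ≤ p * p - p := by
    obtain ⟨d, rfl⟩ : ∃ d, p = Q + d := ⟨p - Q, by omega⟩
    obtain ⟨c, rfl⟩ : ∃ c, Q = c + 1 := ⟨Q - 1, by omega⟩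
    have e1 : (c + 1) * (c + 1) - (c + 1) = (c + 1) * c := by
      rw [Nat.mul_succ, Nat.add_sub_cancel]
    have e2 : (c + 1 + d) * (c + 1 + d) - (c + 1 + d) = (c + 1 + d) * (c + d) := by
      have e3 : (c + 1 + d) * (c + 1 + d) = (c + 1 + d) * (c + d) + (c + 1 + d) := by ring
      rw [e3, Nat.add_sub_cancel]
    rw [e1, e2]
    exact Nat.mul_le_mul (by omega) (by omega)
  have h4 : (Q * Q - Q) * W ≤ S * (Q * Q) := (Nat.mul_le_mul_right W h3).trans h
  obtain ⟨c, rfl⟩ : ∃ c, Q = c + 1 := ⟨Q - 1, by omega⟩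
  have e1 : (c + 1) * (c + 1) - (c + 1) = (c + 1) * c := by
    rw [Nat.mul_succ, Nat.add_sub_cancel]
  rw [e1] at h4
  have h5 : c * W ≤ S * (c + 1) := by
    have h6 : (c + 1) * (c * W) ≤ (c + 1) * (S * (c + 1)) := by
      calc (c + 1) * (c * W) = (c + 1) * c * W := by ring
        _ ≤ S * ((c + 1) * (c + 1)) := h4
        _ = (c + 1) * (S * (c + 1)) := by ring
    exact Nat.le_of_mul_le_mul_left h6 (by omega)
  have h6 : k + 2 - 1 = k + 1 := by omega
  rw [h6]
  have h7 : (c + 1) * (W * (k + 1)) ≤ (c + 1) * (S * (k + 2)) := by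
    have h8 : (c + 1) * (k + 1) ≤ c * (k + 2) := by nlinarith
    calc (c + 1) * (W * (k + 1)) = (c + 1) * (k + 1) * W := by ring
      _ ≤ c * (k + 2) * W := Nat.mul_le_mul_right W h8
      _ = (k + 2) * (c * W) := by ring
      _ ≤ (k + 2) * (S * (c + 1)) := Nat.mul_le_mul_left _ h5
      _ = (c + 1) * (S * (k + 2)) := by ring
  exact Nat.le_of_mul_le_mul_left h7 (by omega)

theorem mom2 {F : Type} [Field F] [Fintype F] {α β γ e1 e2 e3 : ℕ} (hs : e1 + e2 + e3 = α + β + γ)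
    (h1 : 1 ≤ α + β + γ) :
    Nat.card (WW F α β γ e1 e2 e3) * (Fintype.card F - 1) ≤
      (∑ w : WW F α β γ e1 e2 e3, NN w * (NN w - 1)) * Fintype.card F := by
  classical
  have hfin : Finite (Pt F α × Pt F β × Pt F γ) := inferInstance
  have hft : Fintype (Pt F α × Pt F β × Pt F γ) := Fintype.ofFinite _
  obtain ⟨sol, hsol⟩ : ∃ sol : WW F α β γ e1 e2 e3 → Pt F α × Pt F β × Pt F γ → Prop,
      ∀ w P, sol w P ↔ Slv w P.1.rep P.2.1.rep P.2.2.rep := ⟨fun w P => _, fun w P => Iff.rfl⟩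
  have hNN : ∀ w : WW F α β γ e1 e2 e3,
      NN w = ((Finset.univ : Finset (Pt F α × Pt F β × Pt F γ)).filter (fun P => sol w P)).card := by
    intro w
    unfold NN
    rw [Nat.card_eq_fintype_card, Fintype.card_subtype]
    congr 1
    refine Finset.filter_congr fun P _ => (hsol w P).symm
  have hN2 : ∀ w : WW F α β γ e1 e2 e3, NN w * (NN w - 1) =
      ∑ pp ∈ (Finset.univ : Finset (Pt F α × Pt F β × Pt F γ)).offDiag,
        (if sol w pp.1 ∧ sol w pp.2 then 1 else 0) := by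
    intro w
    rw [Nat.mul_sub, mul_one, hNN w, ← Finset.offDiag_card, ← Finset.card_filter]
    congr 1
    ext pp
    rw [Finset.mem_offDiag, Finset.mem_filter, Finset.mem_filter, Finset.mem_filter,
      Finset.mem_offDiag]
    constructor
    · rintro ⟨⟨a, b⟩, ⟨c, d⟩, e⟩
      exact ⟨⟨a, c, e⟩, b, d⟩
    · rintro ⟨⟨a, c, e⟩, b, d⟩
      exact ⟨⟨a, b⟩, ⟨c, d⟩, e⟩
  have hD : ∀ pp : (Pt F α × Pt F β × Pt F γ) × (Pt F α × Pt F β × Pt F γ),
      Nat.card (WW F α β γ e1 e2 e3) ≤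
        (∑ w : WW F α β γ e1 e2 e3, (if sol w pp.1 ∧ sol w pp.2 then 1 else 0)) *
          Fintype.card F ^ (2 * (e1 + e2 + e3)) := by
    intro pp
    have h2 := two_ge (e1 := e1) (e2 := e2) (e3 := e3)
      (fun t => if t then pp.1.1.rep else pp.2.1.rep)
      (fun t => if t then pp.1.2.1.rep else pp.2.2.1.rep)
      (fun t => if t then pp.1.2.2.rep else pp.2.2.2.rep)
    refine h2.trans (le_of_eq ?_)
    congr 1
    rw [Nat.card_eq_fintype_card, Fintype.card_subtype, Finset.card_filter]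
    refine Finset.sum_congr rfl fun w _ => ?_
    have h3 : (∀ t : Bool, Slv w (if t then pp.1.1.rep else pp.2.1.rep)
        (if t then pp.1.2.1.rep else pp.2.2.1.rep)
        (if t then pp.1.2.2.rep else pp.2.2.2.rep)) ↔ (sol w pp.1 ∧ sol w pp.2) := by
      rw [hsol, hsol]
      constructor
      · intro h
        exact ⟨h true, h false⟩
      · rintro ⟨h4, h5⟩ (_ | _)
        · exact h5
        · exact h4
    exact if_congr h3 rfl rfl
  have hsum : (∑ w : WW F α β γ e1 e2 e3, NN w * (NN w - 1)) =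
      ∑ pp ∈ (Finset.univ : Finset (Pt F α × Pt F β × Pt F γ)).offDiag,
        ∑ w : WW F α β γ e1 e2 e3, (if sol w pp.1 ∧ sol w pp.2 then 1 else 0) := by
    rw [Finset.sum_congr rfl fun w _ => hN2 w, Finset.sum_comm]
  have hE : ((Finset.univ : Finset (Pt F α × Pt F β × Pt F γ)).offDiag).card *
      Nat.card (WW F α β γ e1 e2 e3) ≤
        (∑ w : WW F α β γ e1 e2 e3, NN w * (NN w - 1)) *
          Fintype.card F ^ (2 * (e1 + e2 + e3)) := by
    rw [hsum, Finset.sum_mul, ← smul_eq_mul, ← Finset.sum_const]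
    exact Finset.sum_le_sum fun pp _ => hD pp
  rw [Finset.offDiag_card, Finset.card_univ] at hE
  have hp := pts_ge F α β γ
  rw [Nat.card_eq_fintype_card] at hp
  rw [hs] at hE
  exact fin_arith Fintype.one_lt_card h1 hp hE

end Pool.Agent.Work.MP_9d4f6b_lc.AG
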