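import Pool.Agent.Work.MP_9d4f6b_lc.AG.PtC

/-!
MODULE PATC (size M). Number of the triples of points of P^n with a given pattern, q = card F.

PROOF. Let X = Pt F n, Nat.card X ≤ 2 q^n (pt_le).
E: v is determined by v 0: at most 2 q^n.
T_i: v is determined by v i and one other entry: at most (2 q^n)^2 = 4 q^(2n).
G: at most (2 q^n)^3 = 8 q^(3n).
L: v 0, v 1, v 2 pairwise different and dependent. If n = 0 then Pt F 0 has one point (all vectors of F^1 are
proportional), so there is no such v. If n ≥ 1 then min (2n+1) (3n) = 2n+1, and we show card ≤ card X * card X * q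
≤ 4 q^(2n+1): for v 0 ≠ v 1 the reps a, b of v 0, v 1 are independent; the rep c of v 2 is dependent on them,
c = λ a + μ b (linearIndependent_fin_snoc / LinearIndependent of three vectors: c in the span of a, b), and μ ≠ 0
because v 2 ≠ v 0. The map v ↦ (v 0, v 1, λ/μ) is injective: λ/μ and a, b determine c up to the factor μ, so they
determine v 2 = [c] (Projectivization.mk_eq_mk_iff'). (Choose λ, μ by Classical.choice.) For the injection it is
convenient to map v to (v 0, v 1, t) with t such that v 2 = [t a + b].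
-/

set_option linter.unusedVariables false
set_option linter.style.longLine false
set_option autoImplicit false

namespace Pool.Agent.Work.MP_9d4f6b_lc.AG

private theorem pc_cases {F : Type} [Field F] {n : ℕ} (v : Fin 3 → Pt F n) :
    (pat v = Pat.E ∧ v 0 = v 1 ∧ v 1 = v 2) ∨
    (pat v = Pat.T2 ∧ v 0 = v 1) ∨
    (pat v = Pat.T1 ∧ v 0 = v 2) ∨
    (pat v = Pat.T0 ∧ v 1 = v 2) ∨
    (pat v = Pat.G) ∨
    (pat v = Pat.L ∧ v 0 ≠ v 1 ∧ v 0 ≠ v 2 ∧ v 1 ≠ v 2 ∧
      ¬ LinearIndependent F (fun i => (v i).rep)) := by
  unfold pat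
  by_cases h1 : v 0 = v 1
  · by_cases h2 : v 1 = v 2
    · left
      rw [if_pos h1, if_pos h2]
      exact ⟨rfl, h1, h2⟩
    · right; left
      rw [if_pos h1, if_neg h2]
      exact ⟨rfl, h1⟩
  · by_cases h2 : v 0 = v 2
    · right; right; left
      rw [if_neg h1, if_pos h2]
      exact ⟨rfl, h2⟩
    · by_cases h3 : v 1 = v 2
      · right; right; right; left
        rw [if_neg h1, if_neg h2, if_pos h3]
        exact ⟨rfl, h3⟩
      · by_cases h4 : LinearIndependent F (fun i => (v i).rep)
        · right; right; right; right; left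
          rw [if_neg h1, if_neg h2, if_neg h3, if_pos h4]
        · right; right; right; right; right
          rw [if_neg h1, if_neg h2, if_neg h3, if_neg h4]
          exact ⟨rfl, h1, h2, h3, h4⟩

private theorem pc_ext {X : Type} {v w : Fin 3 → X} (h0 : v 0 = w 0) (h1 : v 1 = w 1)
    (h2 : v 2 = w 2) : v = w := by
  funext i
  fin_cases i
  · exact h0
  · exact h1
  · exact h2

private theorem pc_L {F : Type} [Field F] {n : ℕ} (v : Fin 3 → Pt F n) (h1 : v 0 ≠ v 1)
    (h2 : v 0 ≠ v 2) (h4 : ¬ LinearIndependent F (fun i => (v i).rep)) :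
    ∃ t m : F, m ≠ 0 ∧ (v 2).rep = m • (t • (v 0).rep + (v 1).rep) := by
  have h5 := Projectivization.linearIndependent_pair_iff_ne.2 h1
  have h6 := Projectivization.linearIndependent_pair_iff_ne.2 h2
  obtain ⟨g, hg, i, hi⟩ := Fintype.not_linearIndependent_iff.1 h4
  rw [Fin.sum_univ_three] at hg
  have g2 : g 2 ≠ 0 := by
    intro h0
    rw [h0, zero_smul, add_zero] at hg
    have h7 := LinearIndependent.pair_iff.1 h5 _ _ hg
    fin_cases i
    · exact hi h7.1
    · exact hi h7.2
    · exact hi h0
  have g1 : g 1 ≠ 0 := by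
    intro h0
    rw [h0, zero_smul, add_zero] at hg
    have h7 := LinearIndependent.pair_iff.1 h6 _ _ hg
    exact g2 h7.2
  refine ⟨g 0 / g 1, -(g 1 / g 2), neg_ne_zero.2 (div_ne_zero g1 g2), ?_⟩
  funext k
  have h8 : g 0 * (v 0).rep k + g 1 * (v 1).rep k + g 2 * (v 2).rep k = 0 := by
    have := congrFun hg k
    simpa [smul_eq_mul] using this
  have h9 : (-(g 1 / g 2) • ((g 0 / g 1) • (v 0).rep + (v 1).rep)) k =
      -(g 1 / g 2) * (g 0 / g 1 * (v 0).rep k + (v 1).rep k) := rfl
  rw [h9]
  have h10 : (v 2).rep k = -(g 0 * (v 0).rep k + g 1 * (v 1).rep k) / g 2 := by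
    rw [eq_div_iff g2]
    linear_combination h8
  rw [h10]
  field_simp

theorem patC (F : Type) [Field F] [Fintype F] (n : ℕ) (π : Pat) :
    Nat.card {v : Fin 3 → Pt F n // pat v = π} ≤ 8 * Fintype.card F ^ kap π n := by
  have hfin : Finite (Pt F n) := (Projectivization.finite_iff_of_finite F _).2 inferInstance
  have hX := pt_le F n
  set q := Fintype.card F with hq
  have hq1 : 1 ≤ q := Fintype.card_pos
  have pE : 1 ≤ q ^ n := Nat.one_le_pow _ _ hq1
  have two : ∀ (π' : Pat) (f : (Fin 3 → Pt F n) → Pt F n × Pt F n),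
      (∀ v w, pat v = π' → pat w = π' → f v = f w → v = w) →
      Nat.card {v : Fin 3 → Pt F n // pat v = π'} ≤ 8 * q ^ (2 * n) := by
    intro π' f hf
    have h1 : Nat.card {v : Fin 3 → Pt F n // pat v = π'} ≤ Nat.card (Pt F n × Pt F n) :=
      Nat.card_le_card_of_injective (fun v => f v.1)
        (fun v w h => Subtype.ext (hf v.1 w.1 v.2 w.2 h))
    rw [Nat.card_prod] at h1
    have h2 : Nat.card (Pt F n) * Nat.card (Pt F n) ≤ (2 * q ^ n) * (2 * q ^ n) :=
      Nat.mul_le_mul hX hX
    have h3 : (2 * q ^ n) * (2 * q ^ n) = 4 * q ^ (2 * n) := by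
      rw [two_mul n, pow_add]; ring
    omega
  cases π with
  | E =>
    have h1 : Nat.card {v : Fin 3 → Pt F n // pat v = Pat.E} ≤ Nat.card (Pt F n) := by
      refine Nat.card_le_card_of_injective (fun v => v.1 0) (fun v w h => Subtype.ext ?_)
      have hv : v.1 0 = v.1 1 ∧ v.1 1 = v.1 2 := by
        rcases pc_cases v.1 with h | h | h | h | h | h
        · exact h.2
        all_goals (first | (have := h.1.symm.trans v.2; cases this) | (have := h.symm.trans v.2; cases this))
      have hw : w.1 0 = w.1 1 ∧ w.1 1 = w.1 2 := by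
        rcases pc_cases w.1 with h | h | h | h | h | h
        · exact h.2
        all_goals (first | (have := h.1.symm.trans w.2; cases this) | (have := h.symm.trans w.2; cases this))
      have h' : v.1 0 = w.1 0 := h
      refine pc_ext h' ?_ ?_
      · rw [← hv.1, ← hw.1, h']
      · rw [← hv.2, ← hw.2, ← hv.1, ← hw.1, h']
    unfold kap
    dsimp only
    omega
  | T2 =>
    refine two Pat.T2 (fun v => (v 0, v 2)) fun v w hv hw h => ?_
    have hv' : v 0 = v 1 := by
      rcases pc_cases v with h | h | h | h | h | h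
      rotate_left
      · exact h.2
      all_goals (first | (have := h.1.symm.trans hv; cases this) | (have := h.symm.trans hv; cases this))
    have hw' : w 0 = w 1 := by
      rcases pc_cases w with h | h | h | h | h | h
      rotate_left
      · exact h.2
      all_goals (first | (have := h.1.symm.trans hw; cases this) | (have := h.symm.trans hw; cases this))
    have h1 := (Prod.mk.inj h).1
    exact pc_ext h1 (by rw [← hv', ← hw', h1]) (Prod.mk.inj h).2
  | T1 =>
    refine two Pat.T1 (fun v => (v 0, v 1)) fun v w hv hw h => ?_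
    have hv' : v 0 = v 2 := by
      rcases pc_cases v with h | h | h | h | h | h
      rotate_left 2
      · exact h.2
      all_goals (first | (have := h.1.symm.trans hv; cases this) | (have := h.symm.trans hv; cases this))
    have hw' : w 0 = w 2 := by
      rcases pc_cases w with h | h | h | h | h | h
      rotate_left 2
      · exact h.2
      all_goals (first | (have := h.1.symm.trans hw; cases this) | (have := h.symm.trans hw; cases this))
    have h1 := (Prod.mk.inj h).1
    exact pc_ext h1 (Prod.mk.inj h).2 (by rw [← hv', ← hw', h1])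
  | T0 =>
    refine two Pat.T0 (fun v => (v 0, v 1)) fun v w hv hw h => ?_
    have hv' : v 1 = v 2 := by
      rcases pc_cases v with h | h | h | h | h | h
      rotate_left 3
      · exact h.2
      all_goals (first | (have := h.1.symm.trans hv; cases this) | (have := h.symm.trans hv; cases this))
    have hw' : w 1 = w 2 := by
      rcases pc_cases w with h | h | h | h | h | h
      rotate_left 3
      · exact h.2
      all_goals (first | (have := h.1.symm.trans hw; cases this) | (have := h.symm.trans hw; cases this))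
    have h1 := (Prod.mk.inj h).2
    exact pc_ext (Prod.mk.inj h).1 h1 (by rw [← hv', ← hw', h1])
  | G =>
    have h1 : Nat.card {v : Fin 3 → Pt F n // pat v = Pat.G} ≤ Nat.card (Fin 3 → Pt F n) :=
      Nat.card_le_card_of_injective (fun v => v.1) Subtype.val_injective
    have h2 : Nat.card (Fin 3 → Pt F n) = Nat.card (Pt F n) ^ 3 := by
      rw [Nat.card_fun, Nat.card_eq_fintype_card (α := Fin 3), Fintype.card_fin]
    have h3 : Nat.card (Pt F n) ^ 3 ≤ (2 * q ^ n) ^ 3 := Nat.pow_le_pow_left hX 3
    have h4 : (2 * q ^ n) ^ 3 = 8 * q ^ (3 * n) := by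
      rw [mul_pow, ← pow_mul, mul_comm n 3]; norm_num
    unfold kap
    dsimp only
    omega
  | L =>
    have hLv : ∀ v : Fin 3 → Pt F n, pat v = Pat.L → v 0 ≠ v 1 ∧ v 0 ≠ v 2 ∧ v 1 ≠ v 2 ∧
        ¬ LinearIndependent F (fun i => (v i).rep) := by
      intro v hv
      rcases pc_cases v with h | h | h | h | h | h
      rotate_left 5
      · exact h.2
      all_goals (first | (have := h.1.symm.trans hv; cases this) | (have := h.symm.trans hv; cases this))
    rcases Nat.eq_zero_or_pos n with hn | hn
    · subst hn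
      have h1 : Nat.card (Pt F 0) = 1 := by
        rw [Projectivization.card_of_finrank F (Fin (0 + 1) → F) (n := 1) (by simp)]
        simp
      have h2 : Subsingleton (Pt F 0) := (Nat.card_eq_one_iff_unique.1 h1).1
      have h3 : IsEmpty {v : Fin 3 → Pt F 0 // pat v = Pat.L} :=
        ⟨fun v => (hLv v.1 v.2).1 (Subsingleton.elim _ _)⟩
      rw [Nat.card_of_isEmpty]
      exact Nat.zero_le _
    · have hex : ∀ v : {v : Fin 3 → Pt F n // pat v = Pat.L}, ∃ t m : F, m ≠ 0 ∧
          (v.1 2).rep = m • (t • (v.1 0).rep + (v.1 1).rep) := fun v =>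
        pc_L v.1 (hLv v.1 v.2).1 (hLv v.1 v.2).2.1 (hLv v.1 v.2).2.2.2
      choose t m hm hr using hex
      have h1 : Nat.card {v : Fin 3 → Pt F n // pat v = Pat.L} ≤
          Nat.card ((Pt F n × Pt F n) × F) := by
        refine Nat.card_le_card_of_injective (fun v => ((v.1 0, v.1 1), t v)) fun v w h => ?_
        have e1 : v.1 0 = w.1 0 := congrArg (fun z => z.1.1) h
        have e2 : v.1 1 = w.1 1 := congrArg (fun z => z.1.2) h
        have e3 : t v = t w := congrArg (fun z => z.2) h
        refine Subtype.ext (pc_ext e1 e2 ?_)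
        rw [← Projectivization.mk_rep (v.1 2), ← Projectivization.mk_rep (w.1 2),
          Projectivization.mk_eq_mk_iff']
        refine ⟨m v / m w, ?_⟩
        rw [hr v, hr w, e1, e2, e3, smul_smul, div_mul_cancel₀ _ (hm w)]
      rw [Nat.card_prod, Nat.card_prod, Nat.card_eq_fintype_card (α := F), ← hq] at h1
      have h2 : Nat.card (Pt F n) * Nat.card (Pt F n) * q ≤ (2 * q ^ n) * (2 * q ^ n) * q :=
        Nat.mul_le_mul_right _ (Nat.mul_le_mul hX hX)
      have h3 : (2 * q ^ n) * (2 * q ^ n) * q = 4 * q ^ (2 * n + 1) := by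
        rw [pow_succ, two_mul n, pow_add]; ring
      have h4 : kap Pat.L n = 2 * n + 1 := by
        unfold kap
        dsimp only
        omega
      rw [h4]
      omega

end Pool.Agent.Work.MP_9d4f6b_lc.AG
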