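import Pool.Agent.Work.MP_9d4f6b_lc.AG.Prod3
import Pool.Agent.Work.MP_9d4f6b_lc.AG.BlkR
import Pool.Agent.Work.MP_9d4f6b_lc.AG.PatC

/-!
MODULE MOM3 (size M-L). Third moment. q = card F.

PROOF. NN w ^ 3 is the number of the triples (P_0, P_1, P_2) of solutions of w; a triple is the same as
x : Fin 3 → Pt α, y : Fin 3 → Pt β, z : Fin 3 → Pt γ. So ∑ w, NN w ^ 3 = ∑ x y z, card {w // ∀ t, Slv w (x t) (y t) (z t)}.
By prod3 and blk_rho, card {...} * q^(e1 rho(pat y, pat z) + e2 rho(pat x, pat z) + e3 rho(pat x, pat y)) ≤ card WW.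
Group the sum by the patterns π = pat x, σ = pat y, τ = pat z (6^3 = 216 groups): by patC a group has at most
8 q^(kap π α) * 8 q^(kap σ β) * 8 q^(kap τ γ) elements, and each element contributes at most
card WW / q^(e1 rho σ τ + e2 rho π τ + e3 rho π σ). By Tab the group contributes at most 512 card WW. Total
216 * 512 = 110592. (Work in ℝ, or multiply by a big power of q.)
-/

set_option linter.unusedVariables false
set_option linter.style.longLine false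
set_option autoImplicit false

namespace Pool.Agent.Work.MP_9d4f6b_lc.AG

private theorem m3_sum (F : Type) [Field F] [Fintype F] (n : ℕ) [Fintype (Fin 3 → Pt F n)]
    (f : Pat → ℝ) (hf : ∀ π, 0 ≤ f π) :
    ∑ x : Fin 3 → Pt F n, f (pat x) ≤ ∑ π : Pat, 8 * (Fintype.card F : ℝ) ^ kap π n * f π := by
  classical
  have h1 : ∀ x : Fin 3 → Pt F n, f (pat x) = ∑ π : Pat, if pat x = π then f π else 0 := by
    intro x
    rw [Finset.sum_ite_eq, if_pos (Finset.mem_univ _)]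
  rw [Finset.sum_congr rfl fun x _ => h1 x, Finset.sum_comm]
  refine Finset.sum_le_sum fun π _ => ?_
  rw [← Finset.sum_filter, Finset.sum_const, nsmul_eq_mul]
  refine mul_le_mul_of_nonneg_right ?_ (hf π)
  have h2 := patC F n π
  rw [Nat.card_eq_fintype_card, Fintype.card_subtype] at h2
  exact_mod_cast h2

private theorem m3_pt {F : Type} [Field F] [Fintype F] {α β γ e1 e2 e3 : ℕ}
    (x : Fin 3 → Pt F α) (y : Fin 3 → Pt F β) (z : Fin 3 → Pt F γ) :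
    (Nat.card {w : WW F α β γ e1 e2 e3 // ∀ t, Slv w (x t).rep (y t).rep (z t).rep} : ℝ) ≤
      (Nat.card (WW F α β γ e1 e2 e3) : ℝ) / (Fintype.card F : ℝ) ^
        (e1 * rho (pat y) (pat z) + e2 * rho (pat x) (pat z) + e3 * rho (pat x) (pat y)) := by
  have hq : (0 : ℝ) < Fintype.card F := by exact_mod_cast Fintype.card_pos
  rw [le_div_iff₀ (pow_pos hq _)]
  have h1 := blk_rho e1 y z
  have h2 := blk_rho e2 x z
  have h3 := blk_rho e3 x y
  rw [prod3 (fun t => (x t).rep) (fun t => (y t).rep) (fun t => (z t).rep), card_WW]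
  rw [pow_add, pow_add]
  have h4 := Nat.mul_le_mul (Nat.mul_le_mul h1 h2) h3
  have h5 : ∀ a b c a' b' c' : ℝ, a * b * c * (a' * b' * c') = a * a' * (b * b') * (c * c') := by
    intros
    ring
  push_cast
  rw [h5]
  exact_mod_cast h4

private theorem m3_cnt {F : Type} [Field F] [Fintype F] {α β γ e1 e2 e3 : ℕ}
    [Fintype (Fin 3 → Pt F α)] [Fintype (Fin 3 → Pt F β)] [Fintype (Fin 3 → Pt F γ)] :
    ∑ w : WW F α β γ e1 e2 e3, NN w ^ 3 ≤
      ∑ x : Fin 3 → Pt F α, ∑ y : Fin 3 → Pt F β, ∑ z : Fin 3 → Pt F γ,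
        Nat.card {w : WW F α β γ e1 e2 e3 // ∀ t, Slv w (x t).rep (y t).rep (z t).rep} := by
  have h1 : ∀ w : WW F α β γ e1 e2 e3, NN w ^ 3 = Nat.card (Fin 3 →
      {P : Pt F α × Pt F β × Pt F γ // Slv w P.1.rep P.2.1.rep P.2.2.rep}) := by
    intro w
    rw [Nat.card_fun, Nat.card_eq_fintype_card (α := Fin 3), Fintype.card_fin]
    rfl
  have fW : Finite (WW F α β γ e1 e2 e3) := Finite.of_fintype _
  have fS : ∀ a : (Fin 3 → Pt F α) × (Fin 3 → Pt F β) × (Fin 3 → Pt F γ),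
      Finite {w : WW F α β γ e1 e2 e3 //
        ∀ t, Slv w (a.1 t).rep (a.2.1 t).rep (a.2.2 t).rep} := fun a => Subtype.finite
  rw [Finset.sum_congr rfl fun w _ => h1 w, ← Nat.card_sigma]
  have h2 : (∑ x : Fin 3 → Pt F α, ∑ y : Fin 3 → Pt F β, ∑ z : Fin 3 → Pt F γ,
        Nat.card {w : WW F α β γ e1 e2 e3 // ∀ t, Slv w (x t).rep (y t).rep (z t).rep}) =
      Nat.card (Σ v : (Fin 3 → Pt F α) × (Fin 3 → Pt F β) × (Fin 3 → Pt F γ),
        {w : WW F α β γ e1 e2 e3 // ∀ t, Slv w (v.1 t).rep (v.2.1 t).rep (v.2.2 t).rep}) := by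
    rw [Nat.card_sigma, Fintype.sum_prod_type]
    refine Finset.sum_congr rfl fun x _ => ?_
    rw [Fintype.sum_prod_type]
  rw [h2]
  refine Nat.card_le_card_of_injective (fun p =>
    ⟨(fun t => (p.2 t).1.1, fun t => (p.2 t).1.2.1, fun t => (p.2 t).1.2.2),
      ⟨p.1, fun t => (p.2 t).2⟩⟩) ?_
  rintro ⟨w, f⟩ ⟨w', f'⟩ h
  have e0 : ∀ s s' : (Σ v : (Fin 3 → Pt F α) × (Fin 3 → Pt F β) × (Fin 3 → Pt F γ),
      {w : WW F α β γ e1 e2 e3 // ∀ t, Slv w (v.1 t).rep (v.2.1 t).rep (v.2.2 t).rep}),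
      s = s' → s.2.1 = s'.2.1 ∧ s.1 = s'.1 := fun s s' hs => by rw [hs]; exact ⟨rfl, rfl⟩
  obtain ⟨e1', e2'⟩ := e0 _ _ h
  have e3' : w = w' := e1'
  subst e3'
  congr 1
  funext t
  refine Subtype.ext ?_
  have a1 : (f t).1.1 = (f' t).1.1 := congrFun (congrArg Prod.fst e2') t
  have a2 : (f t).1.2.1 = (f' t).1.2.1 := congrFun (congrArg (fun v => v.2.1) e2') t
  have a3 : (f t).1.2.2 = (f' t).1.2.2 := congrFun (congrArg (fun v => v.2.2) e2') t
  exact Prod.ext a1 (Prod.ext a2 a3)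

theorem mom3 {F : Type} [Field F] [Fintype F] {α β γ e1 e2 e3 : ℕ} (hT : Tab α β γ e1 e2 e3) :
    ∑ w : WW F α β γ e1 e2 e3, NN w ^ 3 ≤ 110592 * Nat.card (WW F α β γ e1 e2 e3) := by
  classical
  have i1 : Fintype (Fin 3 → Pt F α) := Fintype.ofFinite _
  have i2 : Fintype (Fin 3 → Pt F β) := Fintype.ofFinite _
  have i3 : Fintype (Fin 3 → Pt F γ) := Fintype.ofFinite _
  have hq : (1 : ℝ) ≤ Fintype.card F := by exact_mod_cast Fintype.card_pos
  have hq0 : (0 : ℝ) < Fintype.card F := by linarith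
  set q : ℝ := (Fintype.card F : ℝ) with hqdef
  set W : ℝ := (Nat.card (WW F α β γ e1 e2 e3) : ℝ) with hW
  have hW0 : 0 ≤ W := Nat.cast_nonneg _
  let E : Pat → Pat → Pat → ℕ := fun π σ τ => e1 * rho σ τ + e2 * rho π τ + e3 * rho π σ
  have h1 : ((∑ w : WW F α β γ e1 e2 e3, NN w ^ 3 : ℕ) : ℝ) ≤
      ∑ x : Fin 3 → Pt F α, ∑ y : Fin 3 → Pt F β, ∑ z : Fin 3 → Pt F γ,
        W / q ^ E (pat x) (pat y) (pat z) := by
    have h2 := m3_cnt (F := F) (α := α) (β := β) (γ := γ) (e1 := e1) (e2 := e2) (e3 := e3)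
    have h3 : ((∑ w : WW F α β γ e1 e2 e3, NN w ^ 3 : ℕ) : ℝ) ≤
        ((∑ x : Fin 3 → Pt F α, ∑ y : Fin 3 → Pt F β, ∑ z : Fin 3 → Pt F γ,
          Nat.card {w : WW F α β γ e1 e2 e3 //
            ∀ t, Slv w (x t).rep (y t).rep (z t).rep} : ℕ) : ℝ) := by
      exact_mod_cast h2
    refine h3.trans ?_
    push_cast
    exact Finset.sum_le_sum fun x _ => Finset.sum_le_sum fun y _ => Finset.sum_le_sum fun z _ =>
      m3_pt x y z
  have h4 : ∀ (π σ : Pat), ∑ z : Fin 3 → Pt F γ, W / q ^ E π σ (pat z) ≤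
      ∑ τ : Pat, 8 * q ^ kap τ γ * (W / q ^ E π σ τ) := fun π σ =>
    m3_sum F γ (fun τ => W / q ^ E π σ τ) fun τ => by positivity
  have h5 : ∀ π : Pat, ∑ y : Fin 3 → Pt F β, ∑ z : Fin 3 → Pt F γ, W / q ^ E π (pat y) (pat z) ≤
      ∑ σ : Pat, 8 * q ^ kap σ β * ∑ τ : Pat, 8 * q ^ kap τ γ * (W / q ^ E π σ τ) := fun π =>
    (Finset.sum_le_sum fun y _ => h4 π (pat y)).trans
      (m3_sum F β (fun σ => ∑ τ : Pat, 8 * q ^ kap τ γ * (W / q ^ E π σ τ)) fun σ =>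
        Finset.sum_nonneg fun τ _ => by positivity)
  have h6 : ∑ x : Fin 3 → Pt F α, ∑ y : Fin 3 → Pt F β, ∑ z : Fin 3 → Pt F γ,
        W / q ^ E (pat x) (pat y) (pat z) ≤
      ∑ π : Pat, 8 * q ^ kap π α * ∑ σ : Pat, 8 * q ^ kap σ β *
        ∑ τ : Pat, 8 * q ^ kap τ γ * (W / q ^ E π σ τ) :=
    (Finset.sum_le_sum fun x _ => h5 (pat x)).trans
      (m3_sum F α (fun π => ∑ σ : Pat, 8 * q ^ kap σ β *
        ∑ τ : Pat, 8 * q ^ kap τ γ * (W / q ^ E π σ τ)) fun π =>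
        Finset.sum_nonneg fun σ _ => mul_nonneg (by positivity)
          (Finset.sum_nonneg fun τ _ => by positivity))
  have h7 : ∀ π σ τ : Pat, 8 * q ^ kap π α * (8 * q ^ kap σ β *
      (8 * q ^ kap τ γ * (W / q ^ E π σ τ))) ≤ 512 * W := by
    intro π σ τ
    have h8 : q ^ (kap π α + kap σ β + kap τ γ) ≤ q ^ E π σ τ := pow_le_pow_right₀ hq (hT π σ τ)
    have h9 : 0 < q ^ E π σ τ := pow_pos hq0 _
    have h10 : 8 * q ^ kap π α * (8 * q ^ kap σ β * (8 * q ^ kap τ γ * (W / q ^ E π σ τ))) =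
        512 * (q ^ (kap π α + kap σ β + kap τ γ) * W / q ^ E π σ τ) := by
      rw [pow_add, pow_add]
      ring
    rw [h10]
    refine mul_le_mul_of_nonneg_left ?_ (by norm_num)
    rw [div_le_iff₀ h9, mul_comm W]
    exact mul_le_mul_of_nonneg_right h8 hW0
  have h11 : ∑ π : Pat, 8 * q ^ kap π α * ∑ σ : Pat, 8 * q ^ kap σ β *
        ∑ τ : Pat, 8 * q ^ kap τ γ * (W / q ^ E π σ τ) ≤ ∑ _π : Pat, ∑ _σ : Pat, ∑ _τ : Pat, 512 * W := by
    refine Finset.sum_le_sum fun π _ => ?_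
    rw [Finset.mul_sum]
    refine Finset.sum_le_sum fun σ _ => ?_
    rw [Finset.mul_sum, Finset.mul_sum]
    exact Finset.sum_le_sum fun τ _ => h7 π σ τ
  have h12 : Fintype.card Pat = 6 := rfl
  have h13 : ∑ _π : Pat, ∑ _σ : Pat, ∑ _τ : Pat, 512 * W = 110592 * W := by
    simp only [Finset.sum_const, Finset.card_univ, h12, nsmul_eq_mul]
    ring
  have h14 := h1.trans (h6.trans h11)
  rw [h13, hW] at h14
  exact_mod_cast h14

end Pool.Agent.Work.MP_9d4f6b_lc.AG
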