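import Pool.Agent.Work.MP_9d4f6b_lc.AG.Mom1
import Pool.Agent.Work.MP_9d4f6b_lc.AG.Mom2
import Pool.Agent.Work.MP_9d4f6b_lc.AG.Mom3
import Pool.Agent.Work.MP_9d4f6b_lc.AG.Abs

/-!
MODULE LOCA (size M). A system with e1 + e2 + e3 = α + β + γ equations is insolvable with probability at least ep.

PROOF. Let q = card F, Ω = WW, N = NN, C = 110592. Choose q0 ≥ 4 so that (q / (q - 1))^3 ≤ 1 + 1 / (16 C) for all
q ≥ q0 (q / (q-1) → 1; or explicitly q0 = 10^8: (1 + t)^3 ≤ 1 + 7 t for 0 ≤ t ≤ 1). mom1 gives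
∑ N ≤ (1 + η) card Ω with η = 1/(16 C); mom2 gives ∑ N (N - 1) ≥ (1 - 1/q) card Ω ≥ 3/4 card Ω (cast: N (N-1) in ℕ is
N (N-1) in ℝ also for N = 0); mom3 gives ∑ N^3 ≤ C card Ω. abs3: card {N = 0} ≥ ep card Ω.
Finally a solvable w has NN w ≠ 0: if x, y, z ≠ 0 solve w, then the points [x], [y], [z] satisfy
(mk x).rep = a • x with a unit a (Projectivization.exists_smul_eq_mk_rep), and bf is homogeneous in both
vectors, so the triple of points is counted by NN w (Nat.card of a nonempty finite type is positive). So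
card {solvable} ≤ card Ω - card {N = 0}.
-/

set_option linter.unusedVariables false
set_option linter.style.longLine false
set_option autoImplicit false

namespace Pool.Agent.Work.MP_9d4f6b_lc.AG

private theorem locA_bf {F : Type} [CommRing F] {J K : Type} [Fintype J] [Fintype K]
    (w : J → K → F) (a b : F) (y : J → F) (z : K → F) :
    bf w (a • y) (b • z) = a * b * bf w y z := by
  unfold bf
  rw [Finset.mul_sum]
  refine Finset.sum_congr rfl fun j _ => ?_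
  rw [Finset.mul_sum]
  refine Finset.sum_congr rfl fun k _ => ?_
  simp only [Pi.smul_apply, smul_eq_mul]
  ring

private theorem locA_ne {F : Type} [Field F] [Fintype F] {α β γ e1 e2 e3 : ℕ}
    (w : WW F α β γ e1 e2 e3) (h : ∃ x y z, x ≠ 0 ∧ y ≠ 0 ∧ z ≠ 0 ∧ Slv w x y z) : NN w ≠ 0 := by
  obtain ⟨x, y, z, hx, hy, hz, h1, h2, h3⟩ := h
  obtain ⟨a, ha⟩ := Projectivization.exists_smul_eq_mk_rep F x hx
  obtain ⟨b, hb⟩ := Projectivization.exists_smul_eq_mk_rep F y hy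
  obtain ⟨c, hc⟩ := Projectivization.exists_smul_eq_mk_rep F z hz
  unfold NN
  rw [Nat.card_ne_zero]
  refine ⟨⟨⟨(Projectivization.mk F x hx, Projectivization.mk F y hy, Projectivization.mk F z hz),
    ?_⟩⟩, inferInstance⟩
  simp only [← ha, ← hb, ← hc]
  have ua : (a • x : Fin (α + 1) → F) = (a : F) • x := rfl
  have ub : (b • y : Fin (β + 1) → F) = (b : F) • y := rfl
  have uc : (c • z : Fin (γ + 1) → F) = (c : F) • z := rfl
  rw [ua, ub, uc]
  refine ⟨fun i => ?_, fun i => ?_, fun i => ?_⟩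
  · rw [locA_bf, h1 i, mul_zero]
  · rw [locA_bf, h2 i, mul_zero]
  · rw [locA_bf, h3 i, mul_zero]

private theorem locA_real (m : ℝ) (hm : 12386304 ≤ m) :
    (m + 1) ^ 3 ≤ (1 + 1 / (16 * 110592)) * m ^ 3 := by
  have h1 : (7 : ℝ) ≤ 1 / (16 * 110592) * m := by
    rw [div_mul_eq_mul_div, one_mul, le_div_iff₀ (by norm_num)]
    linarith
  have h2 : (7 : ℝ) * m ^ 2 ≤ 1 / (16 * 110592) * m * m ^ 2 :=
    mul_le_mul_of_nonneg_right h1 (by positivity)
  nlinarith [h2, sq_nonneg m]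

theorem locA (α β γ e1 e2 e3 : ℕ) (hs : e1 + e2 + e3 = α + β + γ) (h1 : 1 ≤ α + β + γ)
    (hT : Tab α β γ e1 e2 e3) :
    ∃ q0 : ℕ, ∀ (F : Type) [Field F] [Fintype F], q0 ≤ Fintype.card F →
      (Nat.card {w : WW F α β γ e1 e2 e3 // ∃ x y z, x ≠ 0 ∧ y ≠ 0 ∧ z ≠ 0 ∧ Slv w x y z} : ℝ) ≤
        (1 - ep) * Nat.card (WW F α β γ e1 e2 e3) := by
  refine ⟨12386305, fun F _ _ hF => ?_⟩
  classical
  have hfin : Finite (WW F α β γ e1 e2 e3) := inferInstance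
  have hcard : (Nat.card (WW F α β γ e1 e2 e3)) = Fintype.card (WW F α β γ e1 e2 e3) :=
    Nat.card_eq_fintype_card
  obtain ⟨m, hm⟩ : ∃ m, Fintype.card F = m + 1 := ⟨Fintype.card F - 1, by omega⟩
  have hm1 : m + 1 - 1 = m := rfl
  have hmR : (12386304 : ℝ) ≤ (m : ℝ) := by
    have : 12386304 ≤ m := by omega
    exact_mod_cast this
  have m1 := mom1 (F := F) hs
  have m2 := mom2 (F := F) hs h1
  have m3 := mom3 (F := F) hT
  rw [hm, hm1, hcard] at m1 m2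
  rw [hcard] at m3
  have m1' : (∑ w : WW F α β γ e1 e2 e3, (NN w : ℝ)) * (m : ℝ) ^ 3 ≤
      (Fintype.card (WW F α β γ e1 e2 e3) : ℝ) * ((m : ℝ) + 1) ^ 3 := by
    exact_mod_cast m1
  have hmul : (∑ w : WW F α β γ e1 e2 e3, (((NN w * (NN w - 1) : ℕ)) : ℝ)) =
      ∑ w : WW F α β γ e1 e2 e3, (NN w : ℝ) * ((NN w : ℝ) - 1) := by
    refine Finset.sum_congr rfl fun w _ => ?_
    rcases Nat.eq_zero_or_pos (NN w) with h | h
    · simp [h]
    · push_cast [Nat.cast_sub h]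
      ring
  have m2' : (Fintype.card (WW F α β γ e1 e2 e3) : ℝ) * (m : ℝ) ≤
      (∑ w : WW F α β γ e1 e2 e3, (NN w : ℝ) * ((NN w : ℝ) - 1)) * ((m : ℝ) + 1) := by
    rw [← hmul]
    exact_mod_cast m2
  have m3' : (∑ w : WW F α β γ e1 e2 e3, (NN w : ℝ) ^ 3) ≤
      110592 * (Fintype.card (WW F α β γ e1 e2 e3) : ℝ) := by
    exact_mod_cast m3
  have hm0 : (0 : ℝ) < (m : ℝ) := by linarith
  have hC0 : (0 : ℝ) ≤ (Fintype.card (WW F α β γ e1 e2 e3) : ℝ) := Nat.cast_nonneg _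
  have a1 : ∑ w : WW F α β γ e1 e2 e3, (NN w : ℝ) ≤
      (1 + 1 / (16 * 110592)) * Fintype.card (WW F α β γ e1 e2 e3) := by
    refine le_of_mul_le_mul_right ?_ (pow_pos hm0 3)
    refine m1'.trans ?_
    calc (Fintype.card (WW F α β γ e1 e2 e3) : ℝ) * ((m : ℝ) + 1) ^ 3
        ≤ (Fintype.card (WW F α β γ e1 e2 e3) : ℝ) * ((1 + 1 / (16 * 110592)) * (m : ℝ) ^ 3) :=
          mul_le_mul_of_nonneg_left (locA_real _ hmR) hC0
      _ = (1 + 1 / (16 * 110592)) * Fintype.card (WW F α β γ e1 e2 e3) * (m : ℝ) ^ 3 := by ring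
  have a2 : (3 / 4 : ℝ) * Fintype.card (WW F α β γ e1 e2 e3) ≤
      ∑ w : WW F α β γ e1 e2 e3, (NN w : ℝ) * ((NN w : ℝ) - 1) := by
    refine le_of_mul_le_mul_right ?_ (by linarith : (0 : ℝ) < (m : ℝ) + 1)
    refine le_trans ?_ m2'
    have : (3 / 4 : ℝ) * ((m : ℝ) + 1) ≤ (m : ℝ) := by linarith
    calc (3 / 4 : ℝ) * Fintype.card (WW F α β γ e1 e2 e3) * ((m : ℝ) + 1)
        = (Fintype.card (WW F α β γ e1 e2 e3) : ℝ) * ((3 / 4 : ℝ) * ((m : ℝ) + 1)) := by ring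
      _ ≤ (Fintype.card (WW F α β γ e1 e2 e3) : ℝ) * (m : ℝ) :=
          mul_le_mul_of_nonneg_left this hC0
  have hab := abs3 (Ω := WW F α β γ e1 e2 e3) (fun w => NN w) 110592 (1 / (16 * 110592))
    (by norm_num) le_rfl a1 a2 m3'
  have hsum : Nat.card {w : WW F α β γ e1 e2 e3 // ∃ x y z, x ≠ 0 ∧ y ≠ 0 ∧ z ≠ 0 ∧ Slv w x y z} +
      Nat.card {w : WW F α β γ e1 e2 e3 // NN w = 0} ≤ Nat.card (WW F α β γ e1 e2 e3) := by
    rw [← Nat.card_sum]
    refine Nat.card_le_card_of_injective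
      (Sum.elim (fun a => a.1) (fun a => a.1) :
        {w : WW F α β γ e1 e2 e3 // ∃ x y z, x ≠ 0 ∧ y ≠ 0 ∧ z ≠ 0 ∧ Slv w x y z} ⊕
          {w : WW F α β γ e1 e2 e3 // NN w = 0} → WW F α β γ e1 e2 e3) ?_
    rintro (⟨a, ha⟩ | ⟨a, ha⟩) (⟨b, hb⟩ | ⟨b, hb⟩) h
    · simp only [Sum.elim_inl] at h
      subst h
      rfl
    · simp only [Sum.elim_inl, Sum.elim_inr] at h
      subst h
      exact absurd hb (locA_ne a ha)
    · simp only [Sum.elim_inl, Sum.elim_inr] at h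
      subst h
      exact absurd ha (locA_ne a hb)
    · simp only [Sum.elim_inr] at h
      subst h
      rfl
  have hsum' : (Nat.card {w : WW F α β γ e1 e2 e3 // ∃ x y z, x ≠ 0 ∧ y ≠ 0 ∧ z ≠ 0 ∧ Slv w x y z} : ℝ) +
      (Nat.card {w : WW F α β γ e1 e2 e3 // NN w = 0} : ℝ) ≤
        (Nat.card (WW F α β γ e1 e2 e3) : ℝ) := by
    exact_mod_cast hsum
  have hep : ep = 1 / (16 * 110592) := rfl
  rw [hep, hcard] at *
  linarith

end Pool.Agent.Work.MP_9d4f6b_lc.AG
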