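import Pool.Agent.Work.MP_9d4f6b_lc.AG.Defs

/-!
MODULE TABS (size S). The two exponent tables.

PROOF. intro π σ τ; cases on the three patterns (216 cases), simp only [kap, rho], omega. (min (2n+1) (3n) is
understood by omega after Nat.min_def / split; for tabS it is 2n+1 because n ≥ 1, for tabB kap L 0 = 0.)
-/

set_option linter.unusedVariables false
set_option linter.style.longLine false
set_option autoImplicit false

namespace Pool.Agent.Work.MP_9d4f6b_lc.AG

theorem tabS (a b c : ℕ) (h1 : a < b + c) (h2 : b < a + c) (h3 : c < a + b) : Tab a b c a b c := by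
  intro π σ τ
  cases π <;> cases σ <;> cases τ <;> simp only [kap, rho] <;> omega

theorem tabB (b c : ℕ) (hb : 1 ≤ b) (hc : 1 ≤ c) : Tab 0 b c (b + c) 0 0 := by
  intro π σ τ
  cases π <;> cases σ <;> cases τ <;> simp only [kap, rho] <;> omega

end Pool.Agent.Work.MP_9d4f6b_lc.AG
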