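import Pool.Agent.Work.MP_9d4f6b_lc.AG.Fib
import Pool.Agent.Work.MP_9d4f6b_lc.AG.Dif
import Pool.Agent.Work.MP_9d4f6b_lc.AG.LocA
import Pool.Agent.Work.MP_9d4f6b_lc.AG.TabS

/-!
MODULE LOCS (size M). The system of three supports whose sizes satisfy the strict triangle inequalities.

PROOF. Write |I| = a + 1, |J| = b + 1, |K| = c + 1, so a < b + c, b < a + c, c < a + b, with enumerations i, j, k of I, J, K.
π : (Ix l m n → F) →+ WW F a b c a b c, π u = (dif i j k (fun x y z => u (0, x, y, z)),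
dif j i k (fun y x z => u (1, x, y, z)), dif k i j (fun z x y => u (2, x, y, z))), is additive and surjective (the three
blocks use different payoffs, and in every block put the payoffs with own strategy i 0 (j 0, k 0) equal to 0, those
with own strategy i (s+1) equal to w, all others 0). If Sol3 holds for u with x, y, z then by dif_sum and dif_ne the
vectors x ∘ i, y ∘ j, z ∘ k are nonzero and solve π u. So by fib and locA (tabS; e1 + e2 + e3 = a + b + c ≥ 1 as
a < b + c) the proportion is at most 1 - ep for q ≥ q0.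
-/

set_option linter.unusedVariables false
set_option linter.style.longLine false
set_option autoImplicit false

namespace Pool.Agent.Work.MP_9d4f6b_lc.AG

private theorem ls_fib {G W : Type} [AddCommGroup G] [AddCommGroup W] [Finite G] [Finite W]
    (π : G →+ W) (hπ : Function.Surjective π) (P : W → Prop) (Q : G → Prop)
    (hQ : ∀ g, Q g → P (π g)) (θ : ℝ) (h : (Nat.card {w : W // P w} : ℝ) ≤ θ * Nat.card W) :
    (Nat.card {g : G // Q g} : ℝ) ≤ θ * Nat.card G := by
  have h1 := fib π hπ P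
  have h2 : Nat.card {g : G // Q g} ≤ Nat.card {g : G // P (π g)} :=
    Nat.card_le_card_of_injective (fun g => ⟨g.1, hQ g.1 g.2⟩)
      fun g g' hg => Subtype.ext (congrArg (fun t : {g : G // P (π g)} => t.1) hg)
  have h3 : (0 : ℝ) < Nat.card W := by exact_mod_cast Nat.card_pos
  have h4 : (Nat.card {g : G // P (π g)} : ℝ) * Nat.card W =
      Nat.card {w : W // P w} * Nat.card G := by exact_mod_cast h1
  have h5 : (Nat.card {g : G // P (π g)} : ℝ) * Nat.card W ≤ θ * Nat.card G * Nat.card W := by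
    rw [h4]
    calc (Nat.card {w : W // P w} : ℝ) * Nat.card G ≤ θ * Nat.card W * Nat.card G :=
          mul_le_mul_of_nonneg_right h (Nat.cast_nonneg _)
      _ = _ := by ring
  have h6 := le_of_mul_le_mul_right h5 h3
  refine le_trans ?_ h6
  exact_mod_cast h2

theorem locS {l m n : ℕ} (I : Finset (Fin l)) (J : Finset (Fin m)) (K : Finset (Fin n))
    (hI : 1 ≤ I.card) (hJ : 1 ≤ J.card) (hK : 1 ≤ K.card)
    (h1 : I.card + 1 < J.card + K.card) (h2 : J.card + 1 < I.card + K.card)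
    (h3 : K.card + 1 < I.card + J.card) :
    ∃ q0 : ℕ, ∀ (F : Type) [Field F] [Fintype F], q0 ≤ Fintype.card F →
      (Nat.card {u : Ix l m n → F // Sol3 u I J K} : ℝ) ≤ (1 - ep) * Nat.card (Ix l m n → F) := by
  obtain ⟨b, hb⟩ : ∃ b, J.card = b + 1 := ⟨J.card - 1, by omega⟩
  obtain ⟨c, hc⟩ : ∃ c, K.card = c + 1 := ⟨K.card - 1, by omega⟩
  obtain ⟨a, ha⟩ : ∃ a, I.card = a + 1 := ⟨I.card - 1, by omega⟩
  obtain ⟨i, hi, hi'⟩ := dif_enum I a ha
  obtain ⟨j, hj, hj'⟩ := dif_enum J b hb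
  obtain ⟨k, hk, hk'⟩ := dif_enum K c hc
  have hiI : ∀ s, i s ∈ I := fun s => (hi' _).2 ⟨s, rfl⟩
  have hjJ : ∀ s, j s ∈ J := fun s => (hj' _).2 ⟨s, rfl⟩
  have hkK : ∀ s, k s ∈ K := fun s => (hk' _).2 ⟨s, rfl⟩
  obtain ⟨q0, hq0⟩ := locA a b c a b c rfl (by omega)
    (tabS a b c (by omega) (by omega) (by omega))
  refine ⟨q0, fun F _ _ hF => ?_⟩
  let π : (Ix l m n → F) →+ WW F a b c a b c :=
    { toFun := fun u => (dif i j k (fun x y z => u (0, x, y, z)),
        dif j i k (fun y x z => u (1, x, y, z)), dif k i j (fun z x y => u (2, x, y, z)))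
      map_zero' := by
        refine Prod.ext ?_ (Prod.ext ?_ ?_) <;> funext s t r <;> simp [dif]
      map_add' := fun u u' => by
        refine Prod.ext ?_ (Prod.ext ?_ ?_) <;> funext s t r <;>
          simp only [dif, Pi.add_apply, Prod.fst_add, Prod.snd_add] <;> ring }
  refine ls_fib π ?_ (fun w => ∃ x y z, x ≠ 0 ∧ y ≠ 0 ∧ z ≠ 0 ∧ Slv w x y z) _ ?_ (1 - ep)
    (hq0 F hF)
  · intro w
    obtain ⟨v0, hv0⟩ := dif_surj i j k hi hj hk w.1
    obtain ⟨v1, hv1⟩ := dif_surj j i k hj hi hk w.2.1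
    obtain ⟨v2, hv2⟩ := dif_surj k i j hk hi hj w.2.2
    refine ⟨fun p => if p.1 = 0 then v0 p.2.1 p.2.2.1 p.2.2.2 else
      if p.1 = 1 then v1 p.2.2.1 p.2.1 p.2.2.2 else v2 p.2.2.2 p.2.1 p.2.2.1, ?_⟩
    exact Prod.ext hv0 (Prod.ext hv1 hv2)
  · rintro u ⟨x, y, z, hx, hy, hz, c1, c2, c3⟩
    exact ⟨_, _, _, dif_ne I i hi' x hx, dif_ne J j hj' y hy, dif_ne K k hk' z hz,
      dif_sum I J K i j k hiI hj hj' hk hk' _ y z hy.1 hz.1 c1,
      dif_sum J I K j i k hjJ hi hi' hk hk' _ x z hx.1 hz.1 c2,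
      dif_sum K I J k i j hkK hi hi' hj hj' _ x y hx.1 hy.1 c3⟩

end Pool.Agent.Work.MP_9d4f6b_lc.AG
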