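import Pool.Agent.Work.MP_9d4f6b_lc.AG.Loc1
import Pool.Agent.Work.MP_9d4f6b_lc.AG.LocS

/-!
MODULE LOC3 (size S-M). All supports of sizes at least 2.

PROOF. If the three strict inequalities of locS hold use locS. Otherwise one of |J| + |K| ≤ |I| + 1,
|I| + |K| ≤ |J| + 1, |I| + |J| ≤ |K| + 1 holds, and Sol3 u I J K implies Sol1 for the corresponding player:
(fun a b c => u (0, a, b, c)) I J K, (fun b a c => u (1, a, b, c)) J I K, (fun c a b => u (2, a, b, c)) K I J. Use loc1 with the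
injective f = this function of the indices, and monotonicity of the cardinality.
-/

set_option linter.unusedVariables false
set_option linter.style.longLine false
set_option autoImplicit false

namespace Pool.Agent.Work.MP_9d4f6b_lc.AG

private theorem card_mono3 {α : Type} [Finite α] {P Q : α → Prop} (h : ∀ u, P u → Q u) :
    (Nat.card {u // P u} : ℝ) ≤ Nat.card {u // Q u} := by
  have h1 : Nat.card {u // P u} ≤ Nat.card {u // Q u} :=
    Nat.card_le_card_of_injective (Subtype.map id h) (Subtype.map_injective h Function.injective_id)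
  exact_mod_cast h1

theorem loc3 {l m n : ℕ} (I : Finset (Fin l)) (J : Finset (Fin m)) (K : Finset (Fin n))
    (hI : 2 ≤ I.card) (hJ : 2 ≤ J.card) (hK : 2 ≤ K.card) :
    ∃ q0 : ℕ, ∀ (F : Type) [Field F] [Fintype F], q0 ≤ Fintype.card F →
      (Nat.card {u : Ix l m n → F // Sol3 u I J K} : ℝ) ≤ (1 - ep) * Nat.card (Ix l m n → F) := by
  by_cases h1 : J.card + K.card ≤ I.card + 1
  · obtain ⟨q0, h⟩ := loc1 (fun a b c => ((0, a, b, c) : Ix l m n)) (by
      rintro ⟨a, b, c⟩ ⟨a', b', c'⟩ h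
      simp only [Prod.mk.injEq] at h ⊢
      exact h.2) I J K hJ hK h1
    refine ⟨q0, fun F _ _ hq => le_trans (card_mono3 fun u hu => ?_) (h F hq)⟩
    obtain ⟨x, y, z, _, hy, hz, h1, _, _⟩ := hu
    exact ⟨y, z, hy, hz, h1⟩
  by_cases h2 : I.card + K.card ≤ J.card + 1
  · obtain ⟨q0, h⟩ := loc1 (fun b a c => ((1, a, b, c) : Ix l m n)) (by
      rintro ⟨a, b, c⟩ ⟨a', b', c'⟩ h
      simp only [Prod.mk.injEq] at h ⊢
      exact ⟨h.2.2.1, h.2.1, h.2.2.2⟩) J I K hI hK h2
    refine ⟨q0, fun F _ _ hq => le_trans (card_mono3 fun u hu => ?_) (h F hq)⟩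
    obtain ⟨x, y, z, hx, _, hz, _, h2, _⟩ := hu
    exact ⟨x, z, hx, hz, h2⟩
  by_cases h3 : I.card + J.card ≤ K.card + 1
  · obtain ⟨q0, h⟩ := loc1 (fun c a b => ((2, a, b, c) : Ix l m n)) (by
      rintro ⟨a, b, c⟩ ⟨a', b', c'⟩ h
      simp only [Prod.mk.injEq] at h ⊢
      exact ⟨h.2.2.2, h.2.1, h.2.2.1⟩) K I J hI hJ h3
    refine ⟨q0, fun F _ _ hq => le_trans (card_mono3 fun u hu => ?_) (h F hq)⟩
    obtain ⟨x, y, z, hx, hy, _, _, _, h3⟩ := hu
    exact ⟨x, y, hx, hy, h3⟩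
  exact locS I J K (by omega) (by omega) (by omega) (by omega) (by omega) (by omega)

end Pool.Agent.Work.MP_9d4f6b_lc.AG
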