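import Pool.Agent.Work.MP_9d4f6b_lc.AG.Ker

/-!
MODULE LINB (size M). The linear systems are solvable with probability at most 2/q, q = card F.

PROOF. (1) For fixed y ≠ 0, card {M // Cst I (M y)} * q^(|I| - 1) = q^(|A| |B|) (I nonempty): fix i₀ in I; the conditions are
∑ b, (M i b - M i₀ b) y b = 0 for i in I \ {i₀}: |I| - 1 linearly independent conditions on M in F^(A × B) (ker_eq with
κ = A × B, τ = I \ {i₀}, v i = (row i: y, row i₀: -y, other rows 0); independent because of the rows i).
(2) The number of the y with Sp J y (and ∑ y = 0 if |I| = |J|) is at most q^(|J|) - 1 if |J| < |I| and at most q^(|J|-1) - 1 if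
|J| = |I| (y is determined by its values on J, resp. on J without one element), hence < q^(|I| - 1) in both cases.
(3) If y is a solution for M then so are its q - 1 nonzero multiples. So
card {M // LinS} * (q - 1) ≤ number of pairs (M, y) ≤ q^(|I|-1) * q^(|A||B|) / q^(|I|-1) = q^(|A||B|), and q ≤ 2 (q - 1).
-/

set_option linter.unusedVariables false
set_option linter.style.longLine false
set_option autoImplicit false

namespace Pool.Agent.Work.MP_9d4f6b_lc.AG

private theorem lb_cst {F : Type} [Field F] [Fintype F] {A B : Type} [Fintype A] [Fintype B]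
    [DecidableEq A] [DecidableEq B] (I : Finset A) (i₀ : A) (hi₀ : i₀ ∈ I) (y : B → F)
    (hy : ∃ b, y b ≠ 0) :
    Nat.card {M : A → B → F // Cst I (fun a => ∑ b, M a b * y b)} * Fintype.card F ^ (I.card - 1) ≤
      Fintype.card F ^ (Fintype.card A * Fintype.card B) := by
  obtain ⟨b₀, hb₀⟩ := hy
  let v : {i // i ∈ I.erase i₀} → A × B → F := fun t k =>
    if k.1 = t.1 then y k.2 else if k.1 = i₀ then -y k.2 else 0
  have hval : ∀ (w : A × B → F) (t : {i // i ∈ I.erase i₀}),
      ∑ k, w k * v t k = (∑ b, w (t.1, b) * y b) - ∑ b, w (i₀, b) * y b := by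
    intro w t
    have hne : t.1 ≠ i₀ := Finset.ne_of_mem_erase t.2
    rw [Fintype.sum_prod_type]
    have h1 : ∀ a, ∑ b, w (a, b) * v t (a, b) =
        (if a = t.1 then ∑ b, w (t.1, b) * y b else 0) -
          (if a = i₀ then ∑ b, w (i₀, b) * y b else 0) := by
      intro a
      by_cases h2 : a = t.1
      · have h3 : ¬ a = i₀ := by rw [h2]; exact hne
        rw [if_pos h2, if_neg h3, sub_zero]
        refine Finset.sum_congr rfl fun b _ => ?_
        simp only [v]
        rw [if_pos h2, h2]
      · by_cases h3 : a = i₀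
        · rw [if_neg h2, if_pos h3, zero_sub, ← Finset.sum_neg_distrib]
          refine Finset.sum_congr rfl fun b _ => ?_
          simp only [v]
          rw [if_neg h2, if_pos h3, h3]
          ring
        · rw [if_neg h2, if_neg h3, sub_zero]
          refine Finset.sum_eq_zero fun b _ => ?_
          simp only [v]
          rw [if_neg h2, if_neg h3, mul_zero]
    rw [Finset.sum_congr rfl fun a _ => h1 a, Finset.sum_sub_distrib, Finset.sum_ite_eq' ,
      Finset.sum_ite_eq', if_pos (Finset.mem_univ _), if_pos (Finset.mem_univ _)]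
  have hind : LinearIndependent F v := by
    rw [Fintype.linearIndependent_iff]
    intro c hc t
    have h1 := congrFun hc (t.1, b₀)
    rw [Finset.sum_apply] at h1
    rw [Finset.sum_eq_single t] at h1
    · have h2 : v t (t.1, b₀) = y b₀ := by
        show (if t.1 = t.1 then y b₀ else if t.1 = i₀ then -y b₀ else 0) = y b₀
        rw [if_pos rfl]
      rw [Pi.smul_apply, h2, smul_eq_mul] at h1
      rcases mul_eq_zero.1 h1 with h3 | h3
      · exact h3
      · exact absurd h3 hb₀
    · intro s _ hs
      have h2 : v s (t.1, b₀) = 0 := by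
        simp only [v]
        rw [if_neg fun h => hs (Subtype.ext h.symm), if_neg (Finset.ne_of_mem_erase t.2)]
      rw [Pi.smul_apply, h2, smul_zero]
    · intro h
      exact absurd (Finset.mem_univ _) h
  have h := ker_eq v hind
  rw [Fintype.card_coe, Finset.card_erase_of_mem hi₀, Fintype.card_prod] at h
  rw [← h]
  refine Nat.mul_le_mul_right _ ?_
  refine Nat.card_le_card_of_injective
    (fun M => ⟨fun k => M.1 k.1 k.2, fun t => ?_⟩) fun M M' hM => ?_
  · rw [hval]
    exact sub_eq_zero.2 (M.2 t.1 (Finset.mem_of_mem_erase t.2) i₀ hi₀)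
  · refine Subtype.ext ?_
    funext a b
    exact congrFun (Subtype.ext_iff.1 hM) (a, b)

private theorem lb_num {F : Type} [Field F] [Fintype F] {A B : Type} [Fintype A] [Fintype B]
    [DecidableEq A] [DecidableEq B] (I : Finset A) (J : Finset B) (hJ : J.Nonempty)
    (h : J.card ≤ I.card) :
    Nat.card {y : B → F // Sp J y ∧ (I.card = J.card → ∑ b, y b = 0)} + 1 ≤
      Fintype.card F ^ (I.card - 1) := by
  classical
  have hq : 1 ≤ Fintype.card F := Fintype.card_pos
  obtain ⟨j₀, hj₀⟩ := hJ
  have hfin : Finite {y : B → F // Sp J y ∧ (I.card = J.card → ∑ b, y b = 0)} := inferInstance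
  by_cases hc : I.card = J.card
  · -- restrict to J without j₀
    let J' := J.erase j₀
    have h1 : Nat.card (Option {y : B → F // Sp J y ∧ (I.card = J.card → ∑ b, y b = 0)}) ≤
        Nat.card ({b // b ∈ J'} → F) := by
      let f : Option {y : B → F // Sp J y ∧ (I.card = J.card → ∑ b, y b = 0)} →
          ({b // b ∈ J'} → F) := fun o => match o with
        | none => 0
        | some y => fun b => y.1 b.1
      have key : ∀ y z : B → F, (∀ b, b ∉ J → y b = 0) → (∀ b, b ∉ J → z b = 0) →
          ∑ b, y b = 0 → ∑ b, z b = 0 → (∀ b, b ∈ J' → y b = z b) → y = z := by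
        intro y z hy hz sy sz hyz
        have hoff : ∀ b, b ≠ j₀ → y b = z b := by
          intro b hb
          by_cases hbJ : b ∈ J
          · exact hyz b (Finset.mem_erase.2 ⟨hb, hbJ⟩)
          · rw [hy b hbJ, hz b hbJ]
        have hj : y j₀ = z j₀ := by
          rw [← Finset.add_sum_erase _ _ (Finset.mem_univ j₀)] at sy sz
          have h5 : ∑ b ∈ Finset.univ.erase j₀, y b = ∑ b ∈ Finset.univ.erase j₀, z b :=
            Finset.sum_congr rfl fun b hb => hoff b (Finset.ne_of_mem_erase hb)
          rw [h5] at sy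
          exact add_right_cancel (sy.trans sz.symm)
        funext b
        by_cases hb : b = j₀
        · rw [hb, hj]
        · exact hoff b hb
      refine Nat.card_le_card_of_injective f ?_
      intro o o' hoo
      rcases o with _ | y <;> rcases o' with _ | z
      · rfl
      · exfalso
        have h2 := key 0 z.1 (fun _ _ => rfl) z.2.1.1 (by simp) (z.2.2 hc)
          (fun b hb => congrFun hoo ⟨b, hb⟩)
        obtain ⟨b, hb⟩ := z.2.1.2
        exact hb (by rw [← h2]; rfl)
      · exfalso
        have h2 := key y.1 0 y.2.1.1 (fun _ _ => rfl) (y.2.2 hc) (by simp)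
          (fun b hb => congrFun hoo ⟨b, hb⟩)
        obtain ⟨b, hb⟩ := y.2.1.2
        exact hb (by rw [h2]; rfl)
      · congr 1
        exact Subtype.ext (key y.1 z.1 y.2.1.1 z.2.1.1 (y.2.2 hc) (z.2.2 hc)
          (fun b hb => congrFun hoo ⟨b, hb⟩))
    rw [Finite.card_option, Nat.card_fun, Nat.card_eq_fintype_card (α := F),
      Nat.card_eq_fintype_card (α := {b // b ∈ J'}), Fintype.card_coe,
      Finset.card_erase_of_mem hj₀] at h1
    rw [hc]
    rw [hc] at h1
    exact h1
  · have hlt : J.card ≤ I.card - 1 := by omega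
    have h1 : Nat.card (Option {y : B → F // Sp J y ∧ (I.card = J.card → ∑ b, y b = 0)}) ≤
        Nat.card ({b // b ∈ J} → F) := by
      let f : Option {y : B → F // Sp J y ∧ (I.card = J.card → ∑ b, y b = 0)} →
          ({b // b ∈ J} → F) := fun o => match o with
        | none => 0
        | some y => fun b => y.1 b.1
      have key : ∀ y z : B → F, (∀ b, b ∉ J → y b = 0) → (∀ b, b ∉ J → z b = 0) →
          (∀ b, b ∈ J → y b = z b) → y = z := by
        intro y z hy hz hyz
        funext b
        by_cases hbJ : b ∈ J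
        · exact hyz b hbJ
        · rw [hy b hbJ, hz b hbJ]
      refine Nat.card_le_card_of_injective f ?_
      intro o o' hoo
      rcases o with _ | y <;> rcases o' with _ | z
      · rfl
      · exfalso
        have h2 := key 0 z.1 (fun _ _ => rfl) z.2.1.1 (fun b hb => congrFun hoo ⟨b, hb⟩)
        obtain ⟨b, hb⟩ := z.2.1.2
        exact hb (by rw [← h2]; rfl)
      · exfalso
        have h2 := key y.1 0 y.2.1.1 (fun _ _ => rfl) (fun b hb => congrFun hoo ⟨b, hb⟩)
        obtain ⟨b, hb⟩ := y.2.1.2
        exact hb (by rw [h2]; rfl)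
      · congr 1
        exact Subtype.ext (key y.1 z.1 y.2.1.1 z.2.1.1 (fun b hb => congrFun hoo ⟨b, hb⟩))
    rw [Finite.card_option, Nat.card_fun, Nat.card_eq_fintype_card (α := F),
      Nat.card_eq_fintype_card (α := {b // b ∈ J}), Fintype.card_coe] at h1
    exact h1.trans (Nat.pow_le_pow_right hq hlt)

theorem linB {F : Type} [Field F] [Fintype F] {A B : Type} [Fintype A] [Fintype B] [DecidableEq A]
    [DecidableEq B] (I : Finset A) (J : Finset B) (hJ : J.Nonempty) (h : J.card ≤ I.card) :
    Nat.card {M : A → B → F // LinS M I J} * Fintype.card F ≤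
      2 * Fintype.card F ^ (Fintype.card A * Fintype.card B) := by
  classical
  have hIne : I.Nonempty := by
    rw [← Finset.card_pos]
    have := Finset.card_pos.2 hJ
    omega
  obtain ⟨i₀, hi₀⟩ := hIne
  set q := Fintype.card F with hq
  set N := Fintype.card A * Fintype.card B with hN
  have hq2 : 2 ≤ q := Fintype.one_lt_card
  let Y := {y : B → F // Sp J y ∧ (I.card = J.card → ∑ b, y b = 0)}
  let fib : Y → Type := fun y => {M : A → B → F // Cst I (fun a => ∑ b, M a b * y.1 b)}
  have hYf : Fintype Y := Fintype.ofFinite Y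
  -- pairs
  have h1 : Nat.card ({M : A → B → F // LinS M I J} × Fˣ) ≤ Nat.card (Σ y : Y, fib y) := by
    have hM : ∀ M : {M : A → B → F // LinS M I J}, ∃ y : B → F, Sp J y ∧
        (I.card = J.card → ∑ b, y b = 0) ∧ Cst I (fun a => ∑ b, M.1 a b * y b) := fun M => M.2
    choose y hy1 hy2 hy3 using hM
    let g : {M : A → B → F // LinS M I J} × Fˣ → Σ y : Y, fib y := fun p =>
      ⟨⟨fun b => (p.2 : F) * y p.1 b, ⟨⟨fun b hb => by
            show (p.2 : F) * y p.1 b = 0
            rw [(hy1 p.1).1 b hb, mul_zero],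
          by
            obtain ⟨b, hb⟩ := (hy1 p.1).2
            exact ⟨b, mul_ne_zero p.2.ne_zero hb⟩⟩,
        fun hc => by rw [← Finset.mul_sum, hy2 p.1 hc, mul_zero]⟩⟩,
        ⟨p.1.1, fun i hi i' hi' => by
          have h2 := hy3 p.1 i hi i' hi'
          have h3 : ∀ a, ∑ b, p.1.1 a b * ((p.2 : F) * y p.1 b) =
              (p.2 : F) * ∑ b, p.1.1 a b * y p.1 b := fun a => by
            rw [Finset.mul_sum]
            exact Finset.sum_congr rfl fun b _ => by ring
          show ∑ b, p.1.1 i b * ((p.2 : F) * y p.1 b) = ∑ b, p.1.1 i' b * ((p.2 : F) * y p.1 b)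
          rw [h3, h3]
          exact congrArg _ h2⟩⟩
    refine Nat.card_le_card_of_injective g ?_
    rintro ⟨M, c⟩ ⟨M', c'⟩ hg
    have e1 : M = M' := by
      have e2 : ∀ s t : (Σ y : Y, fib y), s = t → s.2.1 = t.2.1 := fun s t hst => by rw [hst]
      exact Subtype.ext (e2 _ _ hg)
    subst e1
    have e3 : (g (M, c)).1.1 = (g (M, c')).1.1 := by rw [hg]
    obtain ⟨b, hb⟩ := (hy1 M).2
    have e4 : (c : F) * y M b = (c' : F) * y M b := congrFun e3 b
    have e5 : (c : F) = c' := mul_right_cancel₀ hb e4
    rw [Units.ext e5]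
  have h2 : Nat.card (Σ y : Y, fib y) * q ^ (I.card - 1) ≤ Nat.card Y * q ^ N := by
    rw [Nat.card_sigma, Finset.sum_mul]
    have h3 : ∀ y ∈ (Finset.univ : Finset Y), Nat.card (fib y) * q ^ (I.card - 1) ≤ q ^ N :=
      fun y _ => lb_cst I i₀ hi₀ y.1 y.2.1.2
    refine (Finset.sum_le_sum h3).trans ?_
    rw [Finset.sum_const, Finset.card_univ, smul_eq_mul, Nat.card_eq_fintype_card]
  have h4 : Nat.card Y + 1 ≤ q ^ (I.card - 1) := lb_num I J hJ h
  rw [Nat.card_prod, Nat.card_units, Nat.card_eq_fintype_card (α := F), ← hq] at h1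
  set X := Nat.card {M : A → B → F // LinS M I J} with hX
  have h5 : X * (q - 1) * q ^ (I.card - 1) ≤ q ^ N * q ^ (I.card - 1) := by
    calc X * (q - 1) * q ^ (I.card - 1) ≤ Nat.card (Σ y : Y, fib y) * q ^ (I.card - 1) :=
          Nat.mul_le_mul_right _ h1
      _ ≤ Nat.card Y * q ^ N := h2
      _ ≤ q ^ (I.card - 1) * q ^ N := Nat.mul_le_mul_right _ (by omega)
      _ = _ := mul_comm _ _
  have h6 : X * (q - 1) ≤ q ^ N :=
    Nat.le_of_mul_le_mul_right h5 (pow_pos (by omega) _)
  calc X * q ≤ X * (2 * (q - 1)) := Nat.mul_le_mul_left _ (by omega)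
    _ = 2 * (X * (q - 1)) := by ring
    _ ≤ 2 * q ^ N := Nat.mul_le_mul_left _ h6

end Pool.Agent.Work.MP_9d4f6b_lc.AG
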