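import Pool.Agent.Work.MP_9d4f6b_lc.AG.Fib
import Pool.Agent.Work.MP_9d4f6b_lc.AG.LinB

/-!
MODULE LOCM (size S-M). Transfer of linB to all payoffs.

PROOF. π : (ι → F) →+ (A → B → F), π u a b = u (f a b), is a surjective homomorphism since f is injective
(extend by 0). fib: card {u // LinS (π u)} * card (A → B → F) = card {M // LinS M} * card (ι → F). linB:
card {M // LinS M} ≤ (2/q) card (A → B → F), and 2/q ≤ 1 - ep for q ≥ q0 = 4.
-/

set_option linter.unusedVariables false
set_option linter.style.longLine false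
set_option autoImplicit false

namespace Pool.Agent.Work.MP_9d4f6b_lc.AG


theorem locM {ι A B : Type} [Fintype ι] [Fintype A] [Fintype B] [DecidableEq A] [DecidableEq B]
    (f : A → B → ι) (hf : Function.Injective (fun p : A × B => f p.1 p.2)) (I : Finset A)
    (J : Finset B) (hJ : J.Nonempty) (h : J.card ≤ I.card) :
    ∃ q0 : ℕ, ∀ (F : Type) [Field F] [Fintype F], q0 ≤ Fintype.card F →
      (Nat.card {u : ι → F // LinS (fun a b => u (f a b)) I J} : ℝ) ≤
        (1 - ep) * Nat.card (ι → F) := by
  classical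
  refine ⟨4, fun F _ _ hF => ?_⟩
  let π : (ι → F) →+ (A → B → F) :=
    { toFun := fun u a b => u (f a b)
      map_zero' := rfl
      map_add' := fun _ _ => rfl }
  have hπ : Function.Surjective π := by
    intro M
    refine ⟨Function.extend (fun p : A × B => f p.1 p.2) (fun p => M p.1 p.2) 0, ?_⟩
    funext a b
    exact hf.extend_apply (fun p : A × B => M p.1 p.2) 0 (a, b)
  have h1 := fib π hπ (fun M => LinS M I J)
  have h2 := linB (F := F) I J hJ h
  have h3 : Nat.card (A → B → F) = Fintype.card F ^ (Fintype.card A * Fintype.card B) := by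
    rw [Nat.card_eq_fintype_card, Fintype.card_fun, Fintype.card_fun, ← pow_mul, mul_comm]
  have h4 : (0 : ℝ) < Nat.card (A → B → F) := by
    exact_mod_cast Nat.card_pos
  have hu : Nat.card {u : ι → F // LinS (fun a b => u (f a b)) I J} =
      Nat.card {u : ι → F // LinS (π u) I J} := rfl
  rw [hu]
  set X := Nat.card {u : ι → F // LinS (π u) I J} with hX
  set Y := Nat.card {M : A → B → F // LinS M I J} with hY
  rw [← h3] at h2
  have h1' : (X : ℝ) * Nat.card (A → B → F) = (Y : ℝ) * Nat.card (ι → F) := by exact_mod_cast h1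
  have h2' : (Y : ℝ) * Fintype.card F ≤ 2 * Nat.card (A → B → F) := by exact_mod_cast h2
  have hF' : (4 : ℝ) ≤ Fintype.card F := by exact_mod_cast hF
  have hG : (0 : ℝ) ≤ Nat.card (ι → F) := Nat.cast_nonneg _
  have hY0 : (0 : ℝ) ≤ Y := Nat.cast_nonneg _
  have h5 : (Y : ℝ) ≤ (1 - ep) * Nat.card (A → B → F) := by
    have : (1 / 2 : ℝ) ≤ 1 - ep := by
      unfold ep
      norm_num
    nlinarith
  have h6 : (X : ℝ) * Nat.card (A → B → F) ≤ (1 - ep) * Nat.card (ι → F) * Nat.card (A → B → F) := by
    rw [h1']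
    calc (Y : ℝ) * Nat.card (ι → F) ≤ (1 - ep) * Nat.card (A → B → F) * Nat.card (ι → F) :=
          mul_le_mul_of_nonneg_right h5 hG
      _ = _ := by ring
  exact le_of_mul_le_mul_right h6 h4

end Pool.Agent.Work.MP_9d4f6b_lc.AG
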