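import Pool.Agent.Work.MP_9d4f6b_lc.AG.Dens
import Pool.Agent.Work.MP_9d4f6b_lc.AG.Loc3
import Pool.Agent.Work.MP_9d4f6b_lc.AG.LocM

/-!
MODULE DNG (size M). Almost all games are good.

PROOF. ¬ Gd S u (S = ∑ u) is the finite disjunction of: for some (I, J, K) of sizes ≥ 2, ∀ p prime ≤ S, Sol3 (u mod p) I J K; for
some third strategy and some (I, J), J nonempty, |J| ≤ |I|, ∀ p prime ≤ S, LinS (matrix mod p) I J (six types of matrices).
Every member of this finite family is Small by dens with θ = 1 - ep (0 ≤ θ < 1), p0 = max q0 2, the bound coming from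
loc3 resp. locM with F = ZMod p (Fact p.Prime, ZMod.card; Nat.card (ι → ZMod p) = p^(card ι)), f = the injective map
(a, b) ↦ (0, a, b, c) etc. Then Small.ex, Small.or, Small.mono. Ix l m n is nonempty as l, m, n ≥ 1.
-/

set_option linter.unusedVariables false
set_option linter.style.longLine false
set_option autoImplicit false

namespace Pool.Agent.Work.MP_9d4f6b_lc.AG

private theorem ep_pos : 0 < ep := by
  unfold ep
  norm_num

private theorem ep_lt : ep < 1 := by
  unfold ep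
  norm_num

private theorem smallB {ι : Type} [Fintype ι] [Nonempty ι] (B : ∀ p : ℕ, (ι → ZMod p) → Prop)
    (q0 : ℕ) (h : ∀ p : ℕ, p.Prime → q0 ≤ p →
      (Nat.card {v : ι → ZMod p // B p v} : ℝ) ≤ (1 - ep) * Nat.card (ι → ZMod p)) :
    Small (fun c : ι → ℕ => ∀ p : ℕ, p.Prime → p ≤ ∑ i, c i → B p (fun i => (c i : ZMod p))) := by
  refine dens B (1 - ep) (by linarith [ep_lt]) (by linarith [ep_pos]) q0 ?_
  intro p hp hq
  have h1 := h p hp hq
  have h2 : Nat.card (ι → ZMod p) = p ^ Fintype.card ι := by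
    rw [Nat.card_fun, Nat.card_zmod, Nat.card_eq_fintype_card]
  rw [h2] at h1
  push_cast at h1
  exact h1

private theorem smallL {ι A B : Type} [Fintype ι] [Nonempty ι] [Fintype A] [Fintype B]
    [DecidableEq A] [DecidableEq B] (f : A → B → ι)
    (hf : Function.Injective (fun p : A × B => f p.1 p.2)) :
    Small (fun u : ι → ℕ => ¬ GLin (∑ i, u i) (fun a b => u (f a b))) := by
  have key : ∀ k : {t : Finset A × Finset B // t.2.Nonempty ∧ t.2.card ≤ t.1.card},
      Small (fun u : ι → ℕ => ∀ p : ℕ, p.Prime → p ≤ ∑ i, u i →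
        LinS (fun a b => ((u (f a b) : ℕ) : ZMod p)) k.1.1 k.1.2) := by
    intro k
    obtain ⟨q0, hq0⟩ := locM f hf k.1.1 k.1.2 k.2.1 k.2.2
    refine smallB (fun p v => LinS (fun a b => v (f a b)) k.1.1 k.1.2) q0 ?_
    intro p hp hq
    have := Fact.mk hp
    exact hq0 (ZMod p) (by rw [ZMod.card]; exact hq)
  refine (Small.ex key).mono ?_
  intro u hu
  unfold GLin at hu
  push Not at hu
  obtain ⟨I, J, hJ, hIJ, h⟩ := hu
  exact ⟨⟨(I, J), hJ, hIJ⟩, h⟩

private theorem small3 {l m n : ℕ} [Nonempty (Ix l m n)] :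
    Small (fun u : Ix l m n → ℕ => ¬ G3 (∑ i, u i) u) := by
  have key : ∀ k : {t : Finset (Fin l) × Finset (Fin m) × Finset (Fin n) //
      2 ≤ t.1.card ∧ 2 ≤ t.2.1.card ∧ 2 ≤ t.2.2.card},
      Small (fun u : Ix l m n → ℕ => ∀ p : ℕ, p.Prime → p ≤ ∑ i, u i →
        Sol3 (fun i => ((u i : ℕ) : ZMod p)) k.1.1 k.1.2.1 k.1.2.2) := by
    intro k
    obtain ⟨q0, hq0⟩ := loc3 k.1.1 k.1.2.1 k.1.2.2 k.2.1 k.2.2.1 k.2.2.2
    refine smallB (fun p v => Sol3 v k.1.1 k.1.2.1 k.1.2.2) q0 ?_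
    intro p hp hq
    have := Fact.mk hp
    exact hq0 (ZMod p) (by rw [ZMod.card]; exact hq)
  refine (Small.ex key).mono ?_
  intro u hu
  unfold G3 at hu
  push Not at hu
  obtain ⟨I, J, K, hI, hJ, hK, h⟩ := hu
  exact ⟨⟨(I, J, K), hI, hJ, hK⟩, h⟩

theorem dnG (l m n : ℕ) (hl : 1 ≤ l) (hm : 1 ≤ m) (hn : 1 ≤ n) :
    Small (fun u : Ix l m n → ℕ => ¬ Gd (∑ i, u i) u) := by
  have : Nonempty (Ix l m n) := ⟨(0, ⟨0, hl⟩, ⟨0, hm⟩, ⟨0, hn⟩)⟩
  have s12 := Small.ex (fun c : Fin n => smallL (ι := Ix l m n) (fun a b => (0, a, b, c))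
    (fun p q h => by
      simp only [Prod.mk.injEq] at h
      exact Prod.ext h.2.1 h.2.2.1))
  have s21 := Small.ex (fun c : Fin n => smallL (ι := Ix l m n) (fun b a => (1, a, b, c))
    (fun p q h => by
      simp only [Prod.mk.injEq] at h
      exact Prod.ext h.2.2.1 h.2.1))
  have s13 := Small.ex (fun b : Fin m => smallL (ι := Ix l m n) (fun a c => (0, a, b, c))
    (fun p q h => by
      simp only [Prod.mk.injEq] at h
      exact Prod.ext h.2.1 h.2.2.2))
  have s31 := Small.ex (fun b : Fin m => smallL (ι := Ix l m n) (fun c a => (2, a, b, c))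
    (fun p q h => by
      simp only [Prod.mk.injEq] at h
      exact Prod.ext h.2.2.2 h.2.1))
  have s23 := Small.ex (fun a : Fin l => smallL (ι := Ix l m n) (fun b c => (1, a, b, c))
    (fun p q h => by
      simp only [Prod.mk.injEq] at h
      exact Prod.ext h.2.2.1 h.2.2.2))
  have s32 := Small.ex (fun a : Fin l => smallL (ι := Ix l m n) (fun c b => (2, a, b, c))
    (fun p q h => by
      simp only [Prod.mk.injEq] at h
      exact Prod.ext h.2.2.2 h.2.2.1))
  refine ((small3 (l := l) (m := m) (n := n)).or (s12.or (s21.or (s13.or (s31.or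
    (s23.or s32)))))).mono ?_
  intro u hu
  by_contra hcon
  push Not at hcon
  obtain ⟨h3, h12, h21, h13, h31, h23, h32⟩ := hcon
  exact hu ⟨h3, h12, h21, h13, h31, h23, h32⟩

end Pool.Agent.Work.MP_9d4f6b_lc.AG
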