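import Pool.Agent.Work.MP_9d4f6b_lc.AG.Defs

/-!
MODULE ENC (size M). The list of the 3 l m n payoffs.

PROOF. enc: ((i l + a) m + b) n + c < 3 l m n, and the map is the composition of finProdFinEquiv's (finProdFinEquiv (i, j) = j + n * i), or
bijective by division with remainder (Nat.div_add_mod). encE is an equivalence with this formula (statement enc_val).
pay_of: List.getD of List.ofFn at an index below the length. sum_of: List.sum_ofFn and Equiv.sum_comp. card_enc: composition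
with the equivalence is a bijection of the functions c.
-/

set_option linter.unusedVariables false
set_option linter.style.longLine false
set_option autoImplicit false

namespace Pool.Agent.Work.MP_9d4f6b_lc.AG

theorem enc (l m n : ℕ) : ∃ e : Ix l m n ≃ Fin (3 * l * m * n), ∀ i : Ix l m n,
    (e i : ℕ) = (((i.1 : ℕ) * l + i.2.1) * m + i.2.2.1) * n + i.2.2.2 := by
  let e0 : Ix l m n ≃ ((Fin 3 × Fin l) × Fin m) × Fin n :=
    ((Equiv.prodAssoc (Fin 3) (Fin l) (Fin m × Fin n)).symm).trans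
      ((Equiv.prodAssoc (Fin 3 × Fin l) (Fin m) (Fin n)).symm)
  let e1 : ((Fin 3 × Fin l) × Fin m) × Fin n ≃ Fin (3 * l * m) × Fin n :=
    Equiv.prodCongr ((Equiv.prodCongr finProdFinEquiv (Equiv.refl (Fin m))).trans finProdFinEquiv)
      (Equiv.refl (Fin n))
  refine ⟨(e0.trans e1).trans finProdFinEquiv, fun i => ?_⟩
  obtain ⟨i, a, b, c⟩ := i
  show (c : ℕ) + n * ((b : ℕ) + m * ((a : ℕ) + l * (i : ℕ))) = _
  ring

theorem pay_of {l m n : ℕ} (e : Ix l m n ≃ Fin (3 * l * m * n)) (he : ∀ i : Ix l m n,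
    (e i : ℕ) = (((i.1 : ℕ) * l + i.2.1) * m + i.2.2.1) * n + i.2.2.2)
    (c : Fin (3 * l * m * n) → ℕ) (i : Ix l m n) :
    pay (l, m, n, List.ofFn c) (i.1 : ℕ) (i.2.1 : ℕ) (i.2.2.1 : ℕ) (i.2.2.2 : ℕ) = c (e i) := by
  unfold pay
  show (List.ofFn c).getD ((((i.1 : ℕ) * l + i.2.1) * m + i.2.2.1) * n + i.2.2.2) 0 = c (e i)
  rw [← he i, List.getD_eq_getElem _ _ (by rw [List.length_ofFn]; exact (e i).2), List.getElem_ofFn]

theorem sum_of {l m n : ℕ} (e : Ix l m n ≃ Fin (3 * l * m * n)) (c : Fin (3 * l * m * n) → ℕ) :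
    (List.ofFn c).sum = ∑ i, c (e i) := by
  rw [List.sum_ofFn]
  exact (Equiv.sum_comp e c).symm

theorem card_enc {l m n : ℕ} (e : Ix l m n ≃ Fin (3 * l * m * n)) (H : ℕ)
    (P : (Fin (3 * l * m * n) → Fin (H + 1)) → Prop) :
    Nat.card {c // P c} = Nat.card {u : Ix l m n → Fin (H + 1) // P (fun j => u (e.symm j))} := by
  refine Nat.card_congr (Equiv.subtypeEquiv (Equiv.arrowCongr e.symm (Equiv.refl (Fin (H + 1)))) ?_)
  intro c
  have h : (fun j => (Equiv.arrowCongr e.symm (Equiv.refl (Fin (H + 1)))) c (e.symm j)) = c := by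
    funext j
    show c (e (e.symm j)) = c j
    rw [Equiv.apply_symm_apply]
  rw [h]

end Pool.Agent.Work.MP_9d4f6b_lc.AG
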