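import Pool.Agent.Work.MP_9d4f6b_lc.AG.Defs

/-!
MODULE FIB (size S). Fibres of a surjective homomorphism of finite groups have the same size.

PROOF. Choose a section s of π (Function.surjInv). The map {g // P (π g)} × W → {w // P w} × G,
(g, w) ↦ (π g, g - s (π g) + s w) is a bijection with inverse (w', h) ↦ (h - s (π h) + s w', π h): check
π (g - s (π g) + s w) = w. Or: card {g // P (π g)} = ∑ over w with P w of card (fibre) and every fibre is a coset of
the kernel; card G = card W * card ker (same statement with P = True).
-/

set_option linter.unusedVariables false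
set_option linter.style.longLine false
set_option autoImplicit false

namespace Pool.Agent.Work.MP_9d4f6b_lc.AG

theorem fib {G W : Type} [AddCommGroup G] [AddCommGroup W] [Finite G] [Finite W] (π : G →+ W)
    (hπ : Function.Surjective π) (P : W → Prop) :
    Nat.card {g : G // P (π g)} * Nat.card W = Nat.card {w : W // P w} * Nat.card G := by
  rw [← Nat.card_prod, ← Nat.card_prod]
  obtain ⟨s, hs⟩ : ∃ s : W → G, ∀ w, π (s w) = w :=
    ⟨Function.surjInv hπ, Function.surjInv_eq hπ⟩
  refine Nat.card_congr
    { toFun := fun x => (⟨π x.1.1, x.1.2⟩, x.1.1 - s (π x.1.1) + s x.2)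
      invFun := fun y => (⟨y.2 - s (π y.2) + s y.1.1, by
        rw [map_add, map_sub, hs, hs, sub_self, zero_add]
        exact y.1.2⟩, π y.2)
      left_inv := ?_
      right_inv := ?_ }
  · rintro ⟨⟨g, hg⟩, w⟩
    have h1 : π (g - s (π g) + s w) = w := by
      rw [map_add, map_sub, hs, hs, sub_self, zero_add]
    refine Prod.ext (Subtype.ext ?_) h1
    show g - s (π g) + s w - s (π (g - s (π g) + s w)) + s (π g) = g
    rw [h1]
    abel
  · rintro ⟨⟨w, hw⟩, g⟩
    have h1 : π (g - s (π g) + s w) = w := by
      rw [map_add, map_sub, hs, hs, sub_self, zero_add]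
    refine Prod.ext (Subtype.ext h1) ?_
    show g - s (π g) + s w - s (π (g - s (π g) + s w)) + s (π g) = g
    rw [h1]
    abel

end Pool.Agent.Work.MP_9d4f6b_lc.AG
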