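import Pool.Agent.Work.MP_9d4f6b_lc.AG.Msk

/-!
MODULE G3I (size M). The code of the condition G3.

PROOF. Sol3 (u mod p) (fs sI) (fs sJ) (fs sK) iff ∃ N1 < p^l, N2 < p^m, N3 < p^n, Sol3C g sI sJ sK p N1 N2 N3: by vec every
vector mod p is vc p N k; spC_iff, csC_iff; the sums over Finset.range are sums over Fin (Finset.sum_range) and the cast to
ZMod p is a ring homomorphism (push_cast). Then quantify: subsets are the fs s k with s < 2^k (fsm; conversely every s gives a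
subset), sizes by cdS_eq, PrC p ↔ prime, p < S + 1 ↔ p ≤ S.
-/

set_option linter.unusedVariables false
set_option linter.style.longLine false
set_option autoImplicit false

namespace Pool.Agent.Work.MP_9d4f6b_lc.AG

private theorem cast1 (g : Gm) (p N2 N3 : ℕ) (a : Fin g.1) :
    ((∑ b ∈ Finset.range g.2.1, ∑ c ∈ Finset.range g.2.2.1,
      pay g 0 a b c * (dig p N2 b * dig p N3 c) : ℕ) : ZMod p) =
    ∑ b, ∑ c, ((uu g (0, a, b, c) : ℕ) : ZMod p) * (vc p N2 g.2.1 b * vc p N3 g.2.2.1 c) := by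
  rw [Finset.sum_range, Nat.cast_sum]
  refine Finset.sum_congr rfl fun b _ => ?_
  rw [Finset.sum_range, Nat.cast_sum]
  refine Finset.sum_congr rfl fun c _ => ?_
  rw [Nat.cast_mul, Nat.cast_mul]
  rfl

private theorem cast2 (g : Gm) (p N1 N3 : ℕ) (b : Fin g.2.1) :
    ((∑ a ∈ Finset.range g.1, ∑ c ∈ Finset.range g.2.2.1,
      pay g 1 a b c * (dig p N1 a * dig p N3 c) : ℕ) : ZMod p) =
    ∑ a, ∑ c, ((uu g (1, a, b, c) : ℕ) : ZMod p) * (vc p N1 g.1 a * vc p N3 g.2.2.1 c) := by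
  rw [Finset.sum_range, Nat.cast_sum]
  refine Finset.sum_congr rfl fun a _ => ?_
  rw [Finset.sum_range, Nat.cast_sum]
  refine Finset.sum_congr rfl fun c _ => ?_
  rw [Nat.cast_mul, Nat.cast_mul]
  rfl

private theorem cast3 (g : Gm) (p N1 N2 : ℕ) (c : Fin g.2.2.1) :
    ((∑ a ∈ Finset.range g.1, ∑ b ∈ Finset.range g.2.1,
      pay g 2 a b c * (dig p N1 a * dig p N2 b) : ℕ) : ZMod p) =
    ∑ a, ∑ b, ((uu g (2, a, b, c) : ℕ) : ZMod p) * (vc p N1 g.1 a * vc p N2 g.2.1 b) := by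
  rw [Finset.sum_range, Nat.cast_sum]
  refine Finset.sum_congr rfl fun a _ => ?_
  rw [Finset.sum_range, Nat.cast_sum]
  refine Finset.sum_congr rfl fun b _ => ?_
  rw [Nat.cast_mul, Nat.cast_mul]
  rfl

private theorem sol_iff (g : Gm) (p sI sJ sK N1 N2 N3 : ℕ) (hp : 0 < p) :
    Sol3C g sI sJ sK p N1 N2 N3 ↔
      (Sp (fs sI g.1) (vc p N1 g.1) ∧ Sp (fs sJ g.2.1) (vc p N2 g.2.1) ∧
        Sp (fs sK g.2.2.1) (vc p N3 g.2.2.1) ∧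
        Cst (fs sI g.1) (fun a => ∑ b, ∑ c, ((uu g (0, a, b, c) : ℕ) : ZMod p) *
          (vc p N2 g.2.1 b * vc p N3 g.2.2.1 c)) ∧
        Cst (fs sJ g.2.1) (fun b => ∑ a, ∑ c, ((uu g (1, a, b, c) : ℕ) : ZMod p) *
          (vc p N1 g.1 a * vc p N3 g.2.2.1 c)) ∧
        Cst (fs sK g.2.2.1) (fun c => ∑ a, ∑ b, ((uu g (2, a, b, c) : ℕ) : ZMod p) *
          (vc p N1 g.1 a * vc p N2 g.2.1 b))) := by
  unfold Sol3C
  rw [spC_iff p sI g.1 N1 hp, spC_iff p sJ g.2.1 N2 hp, spC_iff p sK g.2.2.1 N3 hp,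
    csC_iff, csC_iff, csC_iff]
  simp only [cast1, cast2, cast3]

private theorem sol3_iff (g : Gm) (p sI sJ sK : ℕ) (hp : 0 < p) :
    Sol3 (fun i => ((uu g i : ℕ) : ZMod p)) (fs sI g.1) (fs sJ g.2.1) (fs sK g.2.2.1) ↔
      ∃ N1 < p ^ g.1, ∃ N2 < p ^ g.2.1, ∃ N3 < p ^ g.2.2.1, Sol3C g sI sJ sK p N1 N2 N3 := by
  constructor
  · rintro ⟨x, y, z, h⟩
    obtain ⟨N1, h1, rfl⟩ := vec p g.1 hp x
    obtain ⟨N2, h2, rfl⟩ := vec p g.2.1 hp y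
    obtain ⟨N3, h3, rfl⟩ := vec p g.2.2.1 hp z
    exact ⟨N1, h1, N2, h2, N3, h3, (sol_iff g p sI sJ sK N1 N2 N3 hp).2 h⟩
  · rintro ⟨N1, _, N2, _, N3, _, h⟩
    exact ⟨_, _, _, (sol_iff g p sI sJ sK N1 N2 N3 hp).1 h⟩

theorem g3I (g : Gm) : G3C g ↔ G3 g.2.2.2.sum (uu g) := by
  constructor
  · intro h I J K hI hJ hK
    obtain ⟨sI, h1, rfl⟩ := fsm g.1 I
    obtain ⟨sJ, h2, rfl⟩ := fsm g.2.1 J
    obtain ⟨sK, h3, rfl⟩ := fsm g.2.2.1 K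
    rw [← cdS_eq] at hI hJ hK
    obtain ⟨p, hpS, hp, hN⟩ := h sI h1 sJ h2 sK h3 hI hJ hK
    have hp' := (prC_iff p).1 hp
    refine ⟨p, hp', by omega, fun hs => ?_⟩
    obtain ⟨N1, k1, N2, k2, N3, k3, hh⟩ := (sol3_iff g p sI sJ sK hp'.pos).1 hs
    exact hN N1 k1 N2 k2 N3 k3 hh
  · intro h sI h1 sJ h2 sK h3 hI hJ hK
    rw [cdS_eq] at hI hJ hK
    obtain ⟨p, hp, hpS, hN⟩ := h (fs sI g.1) (fs sJ g.2.1) (fs sK g.2.2.1) hI hJ hK
    refine ⟨p, by omega, (prC_iff p).2 hp, fun N1 k1 N2 k2 N3 k3 hh => ?_⟩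
    exact hN ((sol3_iff g p sI sJ sK hp.pos).2 ⟨N1, k1, N2, k2, N3, k3, hh⟩)

end Pool.Agent.Work.MP_9d4f6b_lc.AG
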