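import Pool.Agent.Work.MP_9d4f6b_lc.AG.Defs

/-!
MODULE KER (size M). Number of the solutions of homogeneous linear equations over a finite field.

PROOF. Let φ : (κ → F) → (τ → F), φ w t = ∑ k, w k * v t k, a linear map; the set in question is its kernel,
and card ker = q^(finrank ker), finrank ker + finrank range = card κ (LinearMap.finrank_range_add_finrank_ker),
finrank range ≤ card τ. This gives ker_ge. If v is linearly independent then φ is surjective: otherwise its range
is a proper subspace of τ → F and there is a nonzero linear functional a : τ → F with ∑ t, a t * φ w t = 0 for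
all w; w = unit vectors: ∑ t, a t * v t k = 0 for all k, so ∑ a t • v t = 0, a = 0. (Or: the rank of the matrix
v equals the rank of its transpose, Matrix.rank_transpose, LinearIndependent.rank_matrix.) Then
finrank range = card τ, which gives ker_eq.
-/

set_option linter.unusedVariables false
set_option linter.style.longLine false
set_option autoImplicit false

namespace Pool.Agent.Work.MP_9d4f6b_lc.AG

private theorem ker_card {F : Type} [Field F] [Fintype F] {κ τ : Type} [Fintype κ] [Fintype τ]
    (v : τ → κ → F) :
    Nat.card {w : κ → F // ∀ t, ∑ k, w k * v t k = 0} *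
      Fintype.card F ^ (Matrix.of v).rank = Fintype.card F ^ Fintype.card κ := by
  classical
  have e : Nat.card {w : κ → F // ∀ t, ∑ k, w k * v t k = 0} =
      Nat.card (LinearMap.ker (Matrix.of v).mulVecLin) := by
    refine Nat.card_congr (Equiv.subtypeEquivRight fun w => ?_)
    rw [LinearMap.mem_ker, Matrix.mulVecLin_apply]
    constructor
    · intro h
      funext t
      rw [Pi.zero_apply, ← h t, Matrix.mulVec, dotProduct]
      exact Finset.sum_congr rfl fun k _ => mul_comm _ _
    · intro h t
      have h1 := congrFun h t
      rw [Pi.zero_apply, Matrix.mulVec, dotProduct] at h1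
      rw [← h1]
      exact Finset.sum_congr rfl fun k _ => mul_comm _ _
  have h2 := LinearMap.finrank_range_add_finrank_ker (Matrix.of v).mulVecLin
  rw [Module.finrank_fintype_fun_eq_card] at h2
  rw [e, Module.natCard_eq_pow_finrank (K := F), Nat.card_eq_fintype_card, ← pow_add, ← h2,
    add_comm]
  rfl

theorem ker_ge {F : Type} [Field F] [Fintype F] {κ τ : Type} [Fintype κ] [Fintype τ] (v : τ → κ → F) :
    Fintype.card F ^ Fintype.card κ ≤
      Nat.card {w : κ → F // ∀ t, ∑ k, w k * v t k = 0} * Fintype.card F ^ Fintype.card τ := by
  classical
  rw [← ker_card v]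
  refine Nat.mul_le_mul_left _ (Nat.pow_le_pow_right Fintype.card_pos ?_)
  exact Matrix.rank_le_card_height _

theorem ker_eq {F : Type} [Field F] [Fintype F] {κ τ : Type} [Fintype κ] [Fintype τ] (v : τ → κ → F)
    (hv : LinearIndependent F v) :
    Nat.card {w : κ → F // ∀ t, ∑ k, w k * v t k = 0} * Fintype.card F ^ Fintype.card τ =
      Fintype.card F ^ Fintype.card κ := by
  classical
  have h : (Matrix.of v).rank = Fintype.card τ := LinearIndependent.rank_matrix hv
  rw [← ker_card v, h]

end Pool.Agent.Work.MP_9d4f6b_lc.AG
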