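import Pool.Agent.Work.MP_9d4f6b_lc.AG.Prm

/-!
MODULE LFT (size M). An integral matrix which is injective modulo p has a rational left inverse.

PROOF. A is injective over ℚ: if A y = 0 with y ≠ 0 rational, take X = r y primitive (prm); then A X = 0 over ℤ
(injectivity of the cast ℤ → ℚ), and X mod p is nonzero with (A mod p) (X mod p) = 0, contradiction. So the linear map
(A.map Int.cast).mulVecLin (Matrix.toLin') is injective and has a left inverse (LinearMap.exists_leftInverse_of_injective);
L = its matrix (LinearMap.toMatrix', toMatrix'_comp, toMatrix'_mulVecLin / toMatrix'_toLin').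
-/

set_option linter.unusedVariables false
set_option linter.style.longLine false
set_option autoImplicit false

namespace Pool.Agent.Work.MP_9d4f6b_lc.AG

theorem lft {E B : Type} [Fintype E] [Fintype B] [DecidableEq E] [DecidableEq B] (A : Matrix E B ℤ)
    (p : ℕ) (hp : p.Prime)
    (h : ∀ y : B → ZMod p, (A.map (fun k : ℤ => (k : ZMod p))).mulVec y = 0 → y = 0) :
    ∃ L : Matrix B E ℚ, L * A.map (fun k : ℤ => (k : ℚ)) = 1 := by
  have hinj : ∀ y : B → ℚ, (A.map (fun k : ℤ => (k : ℚ))).mulVec y = 0 → y = 0 := by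
    intro y hy
    by_contra hne
    have hex : ∃ b, y b ≠ 0 := by
      by_contra hall
      push Not at hall
      exact hne (funext hall)
    obtain ⟨X, r, hr, hX, hprim⟩ := prm y hex
    have hX0 : ∀ e, ∑ b, A e b * X b = 0 := by
      intro e
      have h1 : ∑ b, (A e b : ℚ) * y b = 0 := congrFun hy e
      have h2 : ((∑ b, A e b * X b : ℤ) : ℚ) = 0 := by
        push_cast
        calc ∑ b, (A e b : ℚ) * (X b : ℚ) = ∑ b, r * ((A e b : ℚ) * y b) := by
              refine Finset.sum_congr rfl (fun b _ => ?_)
              rw [hX b]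
              ring
          _ = r * ∑ b, (A e b : ℚ) * y b := by rw [Finset.mul_sum]
          _ = 0 := by rw [h1, mul_zero]
      exact_mod_cast h2
    have h3 := h (fun b => (X b : ZMod p)) (by
      funext e
      show ∑ b, ((A e b : ℤ) : ZMod p) * (X b : ZMod p) = 0
      have h4 := congrArg (fun k : ℤ => (k : ZMod p)) (hX0 e)
      push_cast at h4
      exact h4)
    obtain ⟨b, hb⟩ := hprim p hp
    apply hb
    have h5 : ((X b : ℤ) : ZMod p) = 0 := congrFun h3 b
    exact (ZMod.intCast_zmod_eq_zero_iff_dvd (X b) p).1 h5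
  have hker : LinearMap.ker (Matrix.toLin' (A.map (fun k : ℤ => (k : ℚ)))) = ⊥ := by
    rw [LinearMap.ker_eq_bot']
    intro y hy
    rw [Matrix.toLin'_apply] at hy
    exact hinj y hy
  obtain ⟨g, hg⟩ := LinearMap.exists_leftInverse_of_injective _ hker
  refine ⟨LinearMap.toMatrix' g, ?_⟩
  have h6 := congrArg LinearMap.toMatrix' hg
  rw [LinearMap.toMatrix'_comp, LinearMap.toMatrix'_toLin', LinearMap.toMatrix'_id] at h6
  exact h6

end Pool.Agent.Work.MP_9d4f6b_lc.AG
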