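import Pool.Agent.Work.MP_9d4f6b_lc.AG.Lft

/-!
MODULE LMK (size M). The matrix LM describes the linear conditions.

PROOF. lm_zero: the row (a, a') of LM y is ∑ (M a b - M a' b) y b if a, a' ∈ I and 0 otherwise; the row b' is y b' if b' ∉ J
and 0 otherwise; the last row is ∑ y if |I| = |J| and 0 otherwise (Sum.forall, funext). lm_val is the same computation for
∑ y = 1. lm_left: if ¬ LinS (M mod p) I J then LM mod p is injective by lm_zero (a nonzero y in the kernel
would give LinS), so lft applies.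
lm_abs: |M a b - M a' b| ≤ T for 0 ≤ M ≤ T.
-/

set_option linter.unusedVariables false
set_option linter.style.longLine false
set_option autoImplicit false

namespace Pool.Agent.Work.MP_9d4f6b_lc.AG

private theorem row_a {R : Type} [CommRing R] {A B : Type} [Fintype B] [DecidableEq A] [DecidableEq B]
    (M : A → B → ℕ) (I : Finset A) (J : Finset B) (y : B → R) (a a' : A) :
    ((LM M I J).map (fun k : ℤ => (k : R))).mulVec y (Sum.inl (a, a')) =
      if a ∈ I ∧ a' ∈ I then (∑ b, (M a b : R) * y b) - ∑ b, (M a' b : R) * y b else 0 := by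
  have h : ((LM M I J).map (fun k : ℤ => (k : R))).mulVec y (Sum.inl (a, a')) =
      ∑ b, (((if a ∈ I ∧ a' ∈ I then (M a b : ℤ) - (M a' b : ℤ) else 0 : ℤ)) : R) * y b := rfl
  rw [h]
  split_ifs with hI
  · rw [← Finset.sum_sub_distrib]
    refine Finset.sum_congr rfl (fun b _ => ?_)
    push_cast
    ring
  · simp

private theorem row_b {R : Type} [CommRing R] {A B : Type} [Fintype B] [DecidableEq A] [DecidableEq B]
    (M : A → B → ℕ) (I : Finset A) (J : Finset B) (y : B → R) (b' : B) :
    ((LM M I J).map (fun k : ℤ => (k : R))).mulVec y (Sum.inr (Sum.inl b')) =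
      if b' ∉ J then y b' else 0 := by
  have h : ((LM M I J).map (fun k : ℤ => (k : R))).mulVec y (Sum.inr (Sum.inl b')) =
      ∑ b, (((if b' ∉ J ∧ b = b' then 1 else 0 : ℤ)) : R) * y b := rfl
  rw [h]
  by_cases hJ : b' ∉ J
  · rw [if_pos hJ, Finset.sum_eq_single b']
    · rw [if_pos ⟨hJ, rfl⟩]
      simp
    · intro b _ hb
      rw [if_neg (fun hh => hb hh.2)]
      simp
    · intro hh
      exact absurd (Finset.mem_univ _) hh
  · rw [if_neg hJ]
    refine Finset.sum_eq_zero (fun b _ => ?_)
    rw [if_neg (fun hh => hJ hh.1)]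
    simp

private theorem row_u {R : Type} [CommRing R] {A B : Type} [Fintype B] [DecidableEq A] [DecidableEq B]
    (M : A → B → ℕ) (I : Finset A) (J : Finset B) (y : B → R) (u : Unit) :
    ((LM M I J).map (fun k : ℤ => (k : R))).mulVec y (Sum.inr (Sum.inr u)) =
      if I.card = J.card then ∑ b, y b else 0 := by
  have h : ((LM M I J).map (fun k : ℤ => (k : R))).mulVec y (Sum.inr (Sum.inr u)) =
      ∑ b, (((if I.card = J.card then 1 else 0 : ℤ)) : R) * y b := rfl
  rw [h]
  split_ifs with hJ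
  · simp
  · simp

theorem lm_zero {R : Type} [CommRing R] {A B : Type} [Fintype B] [DecidableEq A] [DecidableEq B]
    (M : A → B → ℕ) (I : Finset A) (J : Finset B) (y : B → R) :
    ((LM M I J).map (fun k : ℤ => (k : R))).mulVec y = 0 ↔
      (∀ b, b ∉ J → y b = 0) ∧ (I.card = J.card → ∑ b, y b = 0) ∧
        Cst I (fun a => ∑ b, (M a b : R) * y b) := by
  constructor
  · intro h
    refine ⟨?_, ?_, ?_⟩
    · intro b hb
      have := congrFun h (Sum.inr (Sum.inl b))
      rw [row_b, if_pos hb] at this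
      exact this
    · intro hc
      have := congrFun h (Sum.inr (Sum.inr ()))
      rw [row_u, if_pos hc] at this
      exact this
    · intro a ha a' ha'
      have := congrFun h (Sum.inl (a, a'))
      rw [row_a, if_pos ⟨ha, ha'⟩] at this
      exact sub_eq_zero.1 this
  · rintro ⟨h1, h2, h3⟩
    funext e
    rw [Pi.zero_apply]
    rcases e with ⟨a, a'⟩ | b | u
    · rw [row_a]
      split_ifs with hI
      · exact sub_eq_zero.2 (h3 a hI.1 a' hI.2)
      · rfl
    · rw [row_b]
      by_cases hJ : b ∉ J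
      · rw [if_pos hJ]
        exact h1 b hJ
      · rw [if_neg hJ]
    · rw [row_u]
      split_ifs with hJ
      · exact h2 hJ
      · rfl

theorem lm_val {R : Type} [CommRing R] {A B : Type} [Fintype B] [DecidableEq A] [DecidableEq B]
    (M : A → B → ℕ) (I : Finset A) (J : Finset B) (hIJ : I.card = J.card) (y : B → R)
    (h1 : ∀ b, b ∉ J → y b = 0) (h2 : ∑ b, y b = 1) (h3 : Cst I (fun a => ∑ b, (M a b : R) * y b)) :
    ((LM M I J).map (fun k : ℤ => (k : R))).mulVec y =
      fun e => (((Sum.elim (fun _ => 0) (Sum.elim (fun _ => 0) (fun _ => 1)) :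
        (A × A) ⊕ (B ⊕ Unit) → ℤ) e : ℤ) : R) := by
  funext e
  rcases e with ⟨a, a'⟩ | b | u
  · rw [row_a]
    simp only [Sum.elim_inl, Int.cast_zero]
    split_ifs with hI
    · exact sub_eq_zero.2 (h3 a hI.1 a' hI.2)
    · rfl
  · rw [row_b]
    simp only [Sum.elim_inr, Sum.elim_inl, Int.cast_zero]
    by_cases hJ : b ∉ J
    · rw [if_pos hJ]
      exact h1 b hJ
    · rw [if_neg hJ]
  · rw [row_u, if_pos hIJ, h2]
    simp only [Sum.elim_inr, Int.cast_one]

theorem lm_left {A B : Type} [Fintype A] [Fintype B] [DecidableEq A] [DecidableEq B]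
    (M : A → B → ℕ) (I : Finset A) (J : Finset B) (p : ℕ) (hp : p.Prime)
    (h : ¬ LinS (fun a b => (M a b : ZMod p)) I J) :
    ∃ L : Matrix B ((A × A) ⊕ (B ⊕ Unit)) ℚ, L * (LM M I J).map (fun k : ℤ => (k : ℚ)) = 1 := by
  refine lft (LM M I J) p hp (fun y hy => ?_)
  by_contra hne
  apply h
  rw [lm_zero] at hy
  refine ⟨y, ⟨hy.1, ?_⟩, hy.2.1, hy.2.2⟩
  by_contra hall
  push Not at hall
  exact hne (funext hall)

theorem lm_abs {A B : Type} [DecidableEq A] [DecidableEq B] (M : A → B → ℕ) (I : Finset A)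
    (J : Finset B) (T : ℕ) (hT : ∀ a b, M a b ≤ T) (e : (A × A) ⊕ (B ⊕ Unit)) (b : B) :
    |LM M I J e b| ≤ ((T + 1 : ℕ) : ℤ) := by
  rcases e with ⟨a, a'⟩ | b' | u
  · show |(if a ∈ I ∧ a' ∈ I then (M a b : ℤ) - (M a' b : ℤ) else 0)| ≤ _
    have h1 := hT a b
    have h2 := hT a' b
    split_ifs
    · rw [abs_le]
      constructor <;> push_cast <;> omega
    · rw [abs_zero]
      positivity
  · show |(if b' ∉ J ∧ b = b' then (1 : ℤ) else 0)| ≤ _
    split_ifs
    · rw [abs_one]
      push_cast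
      omega
    · rw [abs_zero]
      positivity
  · show |(if I.card = J.card then (1 : ℤ) else 0)| ≤ _
    split_ifs
    · rw [abs_one]
      push_cast
      omega
    · rw [abs_zero]
      positivity

end Pool.Agent.Work.MP_9d4f6b_lc.AG
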