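import Pool.Agent.Work.MP_9d4f6b_lc.AG.Blk
import Pool.Agent.Work.MP_9d4f6b_lc.AG.PtC

/-!
MODULE OVER (size M). More equations than unknowns: insolvable with probability at least 1 - 4/q, q = card F.

PROOF. If y, z ≠ 0 solve w then the representatives of the points [y], [z] solve w (rep = a • y with a unit a:
Projectivization.exists_smul_eq_mk_rep; bf is bilinear). So the set is the union over the pairs of points
(at most 2 q^β * 2 q^γ by pt_le) of {w // ∀ i, bf (w i) y.rep z.rep = 0}, whose card times q^e is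
q^(e (β+1)(γ+1)) (blk_eq with τ = Unit; one nonzero tensor is independent). So
card * q^e ≤ 4 q^(β + γ) q^(e(β+1)(γ+1)), and e ≥ β + γ + 1; cancel q^(β+γ).
-/

set_option linter.unusedVariables false
set_option linter.style.longLine false
set_option autoImplicit false

namespace Pool.Agent.Work.MP_9d4f6b_lc.AG


theorem over_le {F : Type} [Field F] [Fintype F] (β γ e : ℕ) (h : β + γ < e) :
    Nat.card {w : Fin e → Fin (β + 1) → Fin (γ + 1) → F //
        ∃ (y : Fin (β + 1) → F) (z : Fin (γ + 1) → F), y ≠ 0 ∧ z ≠ 0 ∧ ∀ i, bf (w i) y z = 0} *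
      Fintype.card F ≤ 4 * Fintype.card F ^ (e * ((β + 1) * (γ + 1))) := by
  classical
  have hq : 1 < Fintype.card F := Fintype.one_lt_card
  set q := Fintype.card F with hqd
  have hPf : Finite (Pt F β × Pt F γ) := inferInstance
  let _ : Fintype (Pt F β × Pt F γ) := Fintype.ofFinite _
  -- the fibre over a pair of points
  have hfib : ∀ P : Pt F β × Pt F γ,
      Nat.card {w : Fin e → Fin (β + 1) → Fin (γ + 1) → F //
        ∀ (t : Unit) i, bf (w i) ((fun _ : Unit => P.1.rep) t) ((fun _ : Unit => P.2.rep) t) = 0} * q ^ e =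
        q ^ (e * ((β + 1) * (γ + 1))) := by
    intro P
    have h1 := blk_eq (F := F) (τ := Unit) e (fun _ => P.1.rep) (fun _ => P.2.rep) ?_
    · simpa using h1
    · rw [linearIndependent_unique_iff]
      intro h2
      obtain ⟨j, hj⟩ := Function.ne_iff.1 P.1.rep_nonzero
      obtain ⟨k, hk⟩ := Function.ne_iff.1 P.2.rep_nonzero
      have h3 := congrFun h2 (j, k)
      simp only [Pi.zero_apply, mul_eq_zero] at h3
      rcases h3 with h3 | h3
      · exact hj h3
      · exact hk h3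
  have hle : Nat.card {w : Fin e → Fin (β + 1) → Fin (γ + 1) → F //
        ∃ (y : Fin (β + 1) → F) (z : Fin (γ + 1) → F), y ≠ 0 ∧ z ≠ 0 ∧ ∀ i, bf (w i) y z = 0} ≤
      Nat.card (Σ P : Pt F β × Pt F γ, {w : Fin e → Fin (β + 1) → Fin (γ + 1) → F //
        ∀ (t : Unit) i, bf (w i) ((fun _ : Unit => P.1.rep) t) ((fun _ : Unit => P.2.rep) t) = 0}) := by
    have key : ∀ w : {w : Fin e → Fin (β + 1) → Fin (γ + 1) → F //
        ∃ (y : Fin (β + 1) → F) (z : Fin (γ + 1) → F), y ≠ 0 ∧ z ≠ 0 ∧ ∀ i, bf (w i) y z = 0},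
        ∃ P : Pt F β × Pt F γ, ∀ (t : Unit) i,
          bf (w.1 i) ((fun _ : Unit => P.1.rep) t) ((fun _ : Unit => P.2.rep) t) = 0 := by
      rintro ⟨w, y, z, hy, hz, hw⟩
      refine ⟨(Projectivization.mk F y hy, Projectivization.mk F z hz), fun _ i => ?_⟩
      obtain ⟨a, ha⟩ := Projectivization.exists_smul_eq_mk_rep F y hy
      obtain ⟨b, hb⟩ := Projectivization.exists_smul_eq_mk_rep F z hz
      show bf (w i) (Projectivization.mk F y hy).rep (Projectivization.mk F z hz).rep = 0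
      rw [← ha, ← hb]
      have h1 : bf (w i) (a • y) (b • z) = (a : F) * (b : F) * bf (w i) y z := by
        unfold bf
        rw [Finset.mul_sum]
        refine Finset.sum_congr rfl fun j _ => ?_
        rw [Finset.mul_sum]
        refine Finset.sum_congr rfl fun k _ => ?_
        rw [Pi.smul_apply, Pi.smul_apply, Units.smul_def, Units.smul_def, smul_eq_mul, smul_eq_mul]
        ring
      rw [h1, hw i, mul_zero]
    choose f hf using key
    refine Nat.card_le_card_of_injective (fun w => (⟨f w, ⟨w.1, hf w⟩⟩ : Σ P : Pt F β × Pt F γ,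
      {w : Fin e → Fin (β + 1) → Fin (γ + 1) → F //
        ∀ (t : Unit) i, bf (w i) ((fun _ : Unit => P.1.rep) t) ((fun _ : Unit => P.2.rep) t) = 0})) ?_
    intro w w' h1
    have e2 : ∀ s t : (Σ P : Pt F β × Pt F γ, {w : Fin e → Fin (β + 1) → Fin (γ + 1) → F //
        ∀ (t : Unit) i, bf (w i) ((fun _ : Unit => P.1.rep) t) ((fun _ : Unit => P.2.rep) t) = 0}),
        s = t → s.2.1 = t.2.1 := fun s t hst => by rw [hst]
    exact Subtype.ext (e2 _ _ h1)
  rw [Nat.card_sigma] at hle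
  have h1 : Nat.card {w : Fin e → Fin (β + 1) → Fin (γ + 1) → F //
        ∃ (y : Fin (β + 1) → F) (z : Fin (γ + 1) → F), y ≠ 0 ∧ z ≠ 0 ∧ ∀ i, bf (w i) y z = 0} * q ^ e ≤
      (4 * q ^ (β + γ)) * q ^ (e * ((β + 1) * (γ + 1))) := by
    calc _ ≤ (∑ P : Pt F β × Pt F γ, Nat.card {w : Fin e → Fin (β + 1) → Fin (γ + 1) → F //
        ∀ (t : Unit) i, bf (w i) ((fun _ : Unit => P.1.rep) t) ((fun _ : Unit => P.2.rep) t) = 0}) * q ^ e :=
          Nat.mul_le_mul_right _ hle
      _ = ∑ P : Pt F β × Pt F γ, q ^ (e * ((β + 1) * (γ + 1))) := by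
          rw [Finset.sum_mul]
          exact Finset.sum_congr rfl fun P _ => hfib P
      _ = Nat.card (Pt F β) * Nat.card (Pt F γ) * q ^ (e * ((β + 1) * (γ + 1))) := by
          rw [Finset.sum_const, Finset.card_univ, smul_eq_mul, ← Nat.card_eq_fintype_card, Nat.card_prod]
      _ ≤ (2 * q ^ β) * (2 * q ^ γ) * q ^ (e * ((β + 1) * (γ + 1))) :=
          Nat.mul_le_mul_right _ (Nat.mul_le_mul (pt_le F β) (pt_le F γ))
      _ = _ := by rw [pow_add]; ring
  obtain ⟨k, rfl⟩ : ∃ k, e = β + γ + 1 + k := ⟨e - (β + γ + 1), by omega⟩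
  set X := Nat.card {w : Fin (β + γ + 1 + k) → Fin (β + 1) → Fin (γ + 1) → F //
        ∃ (y : Fin (β + 1) → F) (z : Fin (γ + 1) → F), y ≠ 0 ∧ z ≠ 0 ∧ ∀ i, bf (w i) y z = 0} with hX
  set T := q ^ ((β + γ + 1 + k) * ((β + 1) * (γ + 1))) with hT
  have hk : 1 ≤ q ^ k := Nat.one_le_pow _ _ (by omega)
  have h2 : X * q * q ^ (β + γ) ≤ 4 * T * q ^ (β + γ) := by
    calc X * q * q ^ (β + γ) = X * q * q ^ (β + γ) * 1 := by ring
      _ ≤ X * q * q ^ (β + γ) * q ^ k := Nat.mul_le_mul_left _ hk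
      _ = X * q ^ (β + γ + 1 + k) := by ring
      _ ≤ (4 * q ^ (β + γ)) * T := h1
      _ = _ := by ring
  exact Nat.le_of_mul_le_mul_right h2 (pow_pos (by omega) _)

end Pool.Agent.Work.MP_9d4f6b_lc.AG
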