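import Pool.Agent.Work.MP_9d4f6b_lc.AG.Fib
import Pool.Agent.Work.MP_9d4f6b_lc.AG.Dif
import Pool.Agent.Work.MP_9d4f6b_lc.AG.LocA
import Pool.Agent.Work.MP_9d4f6b_lc.AG.TabS
import Pool.Agent.Work.MP_9d4f6b_lc.AG.Over

/-!
MODULE LOC1 (size M). The conditions of one player whose support is large.

PROOF. Write |I| = a + 1, |J| = b + 1, |K| = c + 1, b, c ≥ 1, a ≥ b + c, with enumerations i, j, k of I, J, K
(Finset.equivFinOfCardEq or Finset.orderIso). π : (ι → F) →+ (Fin a → Fin (b+1) → Fin (c+1) → F),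
π u = dif i j k (fun x y z => u (f x y z)) is additive and surjective: given w let u (f (i (s+1)) (j t) (k r)) = w s t r and
u = 0 elsewhere (f, i, j, k injective, i (s+1) ≠ i 0). If Sol1 holds for u then by dif_sum and dif_ne the block π u has a
nonzero solution. So by fib the proportion of the u with Sol1 is at most the proportion of the blocks w with a
nonzero solution.
Case a > b + c: over_le gives at most 4/q ≤ 1 - ep for q ≥ 8.
Case a = b + c: locA with (α, β, γ, e1, e2, e3) = (0, b, c, b + c, 0, 0) and tabB: WW F 0 b c (b+c) 0 0 is equivalent to the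
type of the blocks (the other two factors are functions from Fin 0, one point), x = the constant vector 1; Slv is
the condition on the first block. (Both types of systems have the same proportions.)
-/

set_option linter.unusedVariables false
set_option linter.style.longLine false
set_option autoImplicit false

namespace Pool.Agent.Work.MP_9d4f6b_lc.AG

private theorem l1_fib {G W : Type} [AddCommGroup G] [AddCommGroup W] [Finite G] [Finite W]
    (π : G →+ W) (hπ : Function.Surjective π) (P : W → Prop) (Q : G → Prop)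
    (hQ : ∀ g, Q g → P (π g)) (θ : ℝ) (h : (Nat.card {w : W // P w} : ℝ) ≤ θ * Nat.card W) :
    (Nat.card {g : G // Q g} : ℝ) ≤ θ * Nat.card G := by
  have h1 := fib π hπ P
  have h2 : Nat.card {g : G // Q g} ≤ Nat.card {g : G // P (π g)} :=
    Nat.card_le_card_of_injective (fun g => ⟨g.1, hQ g.1 g.2⟩)
      fun g g' hg => Subtype.ext (congrArg (fun t : {g : G // P (π g)} => t.1) hg)
  have h3 : (0 : ℝ) < Nat.card W := by exact_mod_cast Nat.card_pos
  have h4 : (Nat.card {g : G // P (π g)} : ℝ) * Nat.card W =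
      Nat.card {w : W // P w} * Nat.card G := by exact_mod_cast h1
  have h5 : (Nat.card {g : G // P (π g)} : ℝ) * Nat.card W ≤ θ * Nat.card G * Nat.card W := by
    rw [h4]
    calc (Nat.card {w : W // P w} : ℝ) * Nat.card G ≤ θ * Nat.card W * Nat.card G :=
          mul_le_mul_of_nonneg_right h (Nat.cast_nonneg _)
      _ = _ := by ring
  have h6 := le_of_mul_le_mul_right h5 h3
  refine le_trans ?_ h6
  exact_mod_cast h2

theorem loc1 {ι A B C : Type} [Fintype ι] [Fintype A] [Fintype B] [Fintype C] [DecidableEq A]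
    [DecidableEq B] [DecidableEq C] [DecidableEq ι] (f : A → B → C → ι)
    (hf : Function.Injective (fun p : A × B × C => f p.1 p.2.1 p.2.2)) (I : Finset A)
    (J : Finset B) (K : Finset C) (hJ : 2 ≤ J.card) (hK : 2 ≤ K.card)
    (h : J.card + K.card ≤ I.card + 1) :
    ∃ q0 : ℕ, ∀ (F : Type) [Field F] [Fintype F], q0 ≤ Fintype.card F →
      (Nat.card {u : ι → F // Sol1 (fun a b c => u (f a b c)) I J K} : ℝ) ≤
        (1 - ep) * Nat.card (ι → F) := by
  obtain ⟨b, hb⟩ : ∃ b, J.card = b + 1 := ⟨J.card - 1, by omega⟩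
  obtain ⟨c, hc⟩ : ∃ c, K.card = c + 1 := ⟨K.card - 1, by omega⟩
  obtain ⟨a, ha⟩ : ∃ a, I.card = a + 1 := ⟨I.card - 1, by omega⟩
  obtain ⟨i, hi, hi'⟩ := dif_enum I a ha
  obtain ⟨j, hj, hj'⟩ := dif_enum J b hb
  obtain ⟨k, hk, hk'⟩ := dif_enum K c hc
  have hiI : ∀ s, i s ∈ I := fun s => (hi' _).2 ⟨s, rfl⟩
  have hep : (1 : ℝ) / 2 ≤ 1 - ep := by
    unfold ep
    norm_num
  -- surjectivity
  have hsur : ∀ (F : Type) [Field F] (w : Fin a → Fin (b + 1) → Fin (c + 1) → F),
      ∃ u : ι → F, dif i j k (fun x y z => u (f x y z)) = w := by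
    intro F _ w
    obtain ⟨v, hv⟩ := dif_surj i j k hi hj hk w
    refine ⟨Function.extend (fun p : A × B × C => f p.1 p.2.1 p.2.2)
      (fun p => v p.1 p.2.1 p.2.2) 0, ?_⟩
    have h1 : (fun x y z => Function.extend (fun p : A × B × C => f p.1 p.2.1 p.2.2)
        (fun p => v p.1 p.2.1 p.2.2) 0 (f x y z)) = v := by
      funext x y z
      exact hf.extend_apply (fun p => v p.1 p.2.1 p.2.2) 0 (x, y, z)
    rw [h1, hv]
  rcases Nat.lt_or_ge (b + c) a with hlt | hge
  · refine ⟨8, fun F _ _ hF => ?_⟩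
    let π : (ι → F) →+ (Fin a → Fin (b + 1) → Fin (c + 1) → F) :=
      { toFun := fun u => dif i j k (fun x y z => u (f x y z))
        map_zero' := by
          funext s t r
          simp [dif]
        map_add' := fun u u' => by
          funext s t r
          simp only [dif, Pi.add_apply]
          ring }
    refine l1_fib π (fun w => hsur F w) (fun w => ∃ (y : Fin (b + 1) → F) (z : Fin (c + 1) → F),
      y ≠ 0 ∧ z ≠ 0 ∧ ∀ i, bf (w i) y z = 0) _ ?_ (1 - ep) ?_
    · rintro u ⟨y, z, hy, hz, hcst⟩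
      exact ⟨_, _, dif_ne J j hj' y hy, dif_ne K k hk' z hz,
        dif_sum I J K i j k hiI hj hj' hk hk' _ y z hy.1 hz.1 hcst⟩
    · have h1 := over_le (F := F) b c a hlt
      have h2 : Nat.card (Fin a → Fin (b + 1) → Fin (c + 1) → F) =
          Fintype.card F ^ (a * ((b + 1) * (c + 1))) := by
        rw [Nat.card_eq_fintype_card]
        simp only [Fintype.card_fun, Fintype.card_fin]
        rw [← pow_mul, ← pow_mul]
        congr 1
        ring
      rw [← h2] at h1
      have h3 : (Nat.card {w : Fin a → Fin (b + 1) → Fin (c + 1) → F //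
          ∃ (y : Fin (b + 1) → F) (z : Fin (c + 1) → F), y ≠ 0 ∧ z ≠ 0 ∧
            ∀ i, bf (w i) y z = 0} : ℝ) * Fintype.card F ≤
          4 * Nat.card (Fin a → Fin (b + 1) → Fin (c + 1) → F) := by
        exact_mod_cast h1
      have h4 : (8 : ℝ) ≤ Fintype.card F := by exact_mod_cast hF
      set X : ℝ := (Nat.card {w : Fin a → Fin (b + 1) → Fin (c + 1) → F //
          ∃ (y : Fin (b + 1) → F) (z : Fin (c + 1) → F), y ≠ 0 ∧ z ≠ 0 ∧
            ∀ i, bf (w i) y z = 0} : ℝ) with hX
      have hX0 : 0 ≤ X := Nat.cast_nonneg _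
      have h5 : X * 8 ≤ 4 * Nat.card (Fin a → Fin (b + 1) → Fin (c + 1) → F) :=
        (mul_le_mul_of_nonneg_left h4 hX0).trans h3
      have h6 : X ≤ 1 / 2 * Nat.card (Fin a → Fin (b + 1) → Fin (c + 1) → F) := by linarith
      exact h6.trans (mul_le_mul_of_nonneg_right hep (Nat.cast_nonneg _))
  · have hab : a = b + c := by omega
    subst hab
    obtain ⟨q0, hq0⟩ := locA 0 b c (b + c) 0 0 (by omega) (by omega)
      (tabB b c (by omega) (by omega))
    refine ⟨q0, fun F _ _ hF => ?_⟩
    let π : (ι → F) →+ WW F 0 b c (b + c) 0 0 :=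
      { toFun := fun u => (dif i j k (fun x y z => u (f x y z)), 0, 0)
        map_zero' := by
          refine Prod.ext ?_ rfl
          funext s t r
          simp [dif]
        map_add' := fun u u' => by
          refine Prod.ext ?_ (Prod.ext ?_ ?_)
          · funext s t r
            simp only [dif, Pi.add_apply, Prod.fst_add]
            ring
          · exact Subsingleton.elim _ _
          · exact Subsingleton.elim _ _ }
    refine l1_fib π ?_ (fun w => ∃ x y z, x ≠ 0 ∧ y ≠ 0 ∧ z ≠ 0 ∧ Slv w x y z) _ ?_ (1 - ep)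
      (hq0 F hF)
    · intro w
      obtain ⟨u, hu⟩ := hsur F w.1
      refine ⟨u, ?_⟩
      refine Prod.ext hu (Prod.ext ?_ ?_)
      · exact Subsingleton.elim _ _
      · exact Subsingleton.elim _ _
    · rintro u ⟨y, z, hy, hz, hcst⟩
      refine ⟨fun _ => 1, _, _, ?_, dif_ne J j hj' y hy, dif_ne K k hk' z hz,
        dif_sum I J K i j k hiI hj hj' hk hk' _ y z hy.1 hz.1 hcst,
        fun i => i.elim0, fun i => i.elim0⟩
      intro h1
      exact one_ne_zero (congrFun h1 0)

end Pool.Agent.Work.MP_9d4f6b_lc.AG
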