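import Pool.Agent.Work.MP_9d4f6b_lc.AG.CycC
import Pool.Agent.Work.MP_9d4f6b_lc.AG.DnG
import Pool.Agent.Work.MP_9d4f6b_lc.AG.Crit

/-!
MODULE POSN (size M). A positive proportion of the games has no rational equilibrium.

PROOF. Let κ = (1/16)^(card Ix), ε = κ/2. For large H at least κ (H+1)^N games in the box satisfy the hypothesis of cyc (cycC), and at most
(κ/2) (H+1)^N games are not good (dnG with δ = κ/2). A good game c of the first type has no rational equilibrium: cast it to ℝ
(NE over ℚ gives NE over ℝ; private lemma, also needed in Crit), IsRat for all three, so crit gives a pure player,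
contradicting cyc (H ≥ 1). So at least (κ - κ/2) (H+1)^N games have no rational equilibrium (card of a difference).
-/

set_option linter.unusedVariables false
set_option linter.style.longLine false
set_option autoImplicit false

namespace Pool.Agent.Work.MP_9d4f6b_lc.AG

private theorem card_cover {Ω : Type} [Finite Ω] {P Q R : Ω → Prop} (h : ∀ w, P w → Q w ∨ R w) :
    Nat.card {w // P w} ≤ Nat.card {w // Q w} + Nat.card {w // R w} := by
  classical
  have := Fintype.ofFinite Ω
  rw [Nat.card_eq_fintype_card, Nat.card_eq_fintype_card, Nat.card_eq_fintype_card]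
  exact le_trans (Fintype.card_subtype_mono _ _ h) (Fintype.card_subtype_or _ _)

open Filter in
theorem posN (l m n : ℕ) (hl : 2 ≤ l) (hm : 2 ≤ m) (hn : 2 ≤ n) : ∃ ε : ℝ, 0 < ε ∧
    ∀ᶠ H : ℕ in atTop, ε * ((H : ℝ) + 1) ^ Fintype.card (Ix l m n) ≤
      Nat.card {c : Ix l m n → Fin (H + 1) // ¬ ∃ (x : Fin l → ℚ) (y : Fin m → ℚ) (z : Fin n → ℚ),
        NE (fun i => (c i : ℕ)) x y z} := by
  set κ : ℝ := ((1 : ℝ) / 16) ^ Fintype.card (Ix l m n) with hκ
  have hκ0 : 0 < κ := by positivity
  refine ⟨κ / 2, by linarith, ?_⟩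
  filter_upwards [cycC l m n, dnG l m n (by omega) (by omega) (by omega) (κ / 2) (by linarith),
    eventually_ge_atTop 1] with H h1 h2 h3
  have h4 : Nat.card {c : Ix l m n → Fin (H + 1) // ∀ i, Lv H (lev i) (c i : ℕ)} ≤
      Nat.card {c : Ix l m n → Fin (H + 1) // ¬ ∃ (x : Fin l → ℚ) (y : Fin m → ℚ) (z : Fin n → ℚ),
        NE (fun i => (c i : ℕ)) x y z} +
      Nat.card {c : Ix l m n → Fin (H + 1) // ¬ Gd (∑ i, (c i : ℕ)) (fun i => (c i : ℕ))} := by
    refine card_cover (fun c hc => ?_)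
    by_contra hcon
    push Not at hcon
    obtain ⟨⟨x, y, z, h⟩, hg⟩ := hcon
    have hR : NE (fun i => (c i : ℕ)) (fun a => (x a : ℝ)) (fun b => (y b : ℝ))
        (fun c => (z c : ℝ)) :=
      { x0 := fun a => by exact_mod_cast h.x0 a
        x1 := by exact_mod_cast h.x1
        y0 := fun a => by exact_mod_cast h.y0 a
        y1 := by exact_mod_cast h.y1
        z0 := fun a => by exact_mod_cast h.z0 a
        z1 := by exact_mod_cast h.z1
        n1 := fun a => by exact_mod_cast h.n1 a
        n2 := fun a => by exact_mod_cast h.n2 a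
        n3 := fun a => by exact_mod_cast h.n3 a }
    exact cyc hl hm hn H h3 _ hc hR
      ((crit hg hR).1 ⟨fun a => ⟨x a, rfl⟩, fun a => ⟨y a, rfl⟩, fun a => ⟨z a, rfl⟩⟩)
  have h5 : (Nat.card {c : Ix l m n → Fin (H + 1) // ∀ i, Lv H (lev i) (c i : ℕ)} : ℝ) ≤
      Nat.card {c : Ix l m n → Fin (H + 1) // ¬ ∃ (x : Fin l → ℚ) (y : Fin m → ℚ) (z : Fin n → ℚ),
        NE (fun i => (c i : ℕ)) x y z} +
      Nat.card {c : Ix l m n → Fin (H + 1) // ¬ Gd (∑ i, (c i : ℕ)) (fun i => (c i : ℕ))} := by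
    exact_mod_cast h4
  linarith

end Pool.Agent.Work.MP_9d4f6b_lc.AG
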