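import Pool.Agent.Work.MP_9d4f6b_lc.AG.Defs

/-!
MODULE POSY (size M). A positive proportion of the games has a pure (hence rational) equilibrium.

PROOF. Let a₀ = b₀ = c₀ = 0. Allowed payoffs c i of the index i = (k, a, b, c): 2 c i ≥ H if a = b = c = 0, and 2 c i ≤ H
otherwise. Each index has at least (H + 1)/2 allowed values in {0..H} (floor(H/2) + 1 in both cases), so at least
((H + 1)/2)^(card Ix) games are allowed (the set of the allowed c is Fintype.piFinset / a product; Fintype.card_piFinset,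
Finset.prod_le_prod). In an allowed game the profile of the indicator functions of 0, 0, 0 is an equilibrium: the payoff of a deviation
(0, a₀, 0, 0) is ≤ H/2 ≤ the payoff (0, 0, 0, 0) (or equal if a₀ = 0); sums collapse by Finset.sum_ite_eq / Pi.single.
-/

set_option linter.unusedVariables false
set_option linter.style.longLine false
set_option autoImplicit false

namespace Pool.Agent.Work.MP_9d4f6b_lc.AG

private theorem half_card (H : ℕ) :
    H + 1 ≤ 2 * ((Finset.univ : Finset (Fin (H + 1))).filter (fun v : Fin (H + 1) => 2 * (v : ℕ) ≤ H)).card ∧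
    H + 1 ≤ 2 * ((Finset.univ : Finset (Fin (H + 1))).filter (fun v : Fin (H + 1) => H ≤ 2 * (v : ℕ))).card := by
  classical
  set A := (Finset.univ : Finset (Fin (H + 1))).filter (fun v : Fin (H + 1) => 2 * (v : ℕ) ≤ H) with hA
  set B := (Finset.univ : Finset (Fin (H + 1))).filter (fun v : Fin (H + 1) => H ≤ 2 * (v : ℕ)) with hB
  have hu : A ∪ B = Finset.univ := by
    ext v
    simp only [hA, hB, Finset.mem_union, Finset.mem_filter, Finset.mem_univ, true_and, iff_true]
    omega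
  have h1 : H + 1 ≤ A.card + B.card := by
    have h2 : (A ∪ B).card ≤ A.card + B.card := Finset.card_union_le A B
    rw [hu, Finset.card_univ, Fintype.card_fin] at h2
    exact h2
  have h3 : A.image Fin.rev = B := by
    ext v
    simp only [hA, hB, Finset.mem_image, Finset.mem_filter, Finset.mem_univ, true_and]
    constructor
    · rintro ⟨w, hw, rfl⟩
      rw [Fin.val_rev]
      have := w.isLt
      omega
    · intro hv
      refine ⟨Fin.rev v, ?_, Fin.rev_rev v⟩
      rw [Fin.val_rev]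
      have := v.isLt
      omega
  have h4 : B.card = A.card := by
    rw [← h3]
    exact Finset.card_image_of_injective A Fin.rev_injective
  omega

private theorem sum2 {A B : Type} [Fintype A] [Fintype B] [DecidableEq A] [DecidableEq B] (a₀ : A)
    (b₀ : B) (f : A → B → ℚ) :
    ∑ a, ∑ b, (if a = a₀ then (1 : ℚ) else 0) * (if b = b₀ then (1 : ℚ) else 0) * f a b =
      f a₀ b₀ := by
  rw [Finset.sum_eq_single a₀, Finset.sum_eq_single b₀]
  · rw [if_pos rfl, if_pos rfl, one_mul, one_mul]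
  · intro b _ hb
    rw [if_neg hb, mul_zero, zero_mul]
  · intro h
    exact absurd (Finset.mem_univ _) h
  · intro a _ ha
    refine Finset.sum_eq_zero fun b _ => ?_
    rw [if_neg ha, zero_mul, zero_mul]
  · intro h
    exact absurd (Finset.mem_univ _) h

private theorem sum3 {A B C : Type} [Fintype A] [Fintype B] [Fintype C] [DecidableEq A]
    [DecidableEq B] [DecidableEq C] (a₀ : A) (b₀ : B) (c₀ : C) (f : A → B → C → ℚ) :
    ∑ a, ∑ b, ∑ c, (if a = a₀ then (1 : ℚ) else 0) * (if b = b₀ then (1 : ℚ) else 0) *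
      (if c = c₀ then (1 : ℚ) else 0) * f a b c = f a₀ b₀ c₀ := by
  rw [Finset.sum_eq_single a₀]
  · rw [if_pos rfl]
    simp only [one_mul]
    exact sum2 b₀ c₀ (f a₀)
  · intro a _ ha
    refine Finset.sum_eq_zero fun b _ => Finset.sum_eq_zero fun c _ => ?_
    rw [if_neg ha, zero_mul, zero_mul, zero_mul]
  · intro h
    exact absurd (Finset.mem_univ _) h

private theorem delta_nonneg {A : Type} [DecidableEq A] (a₀ a : A) :
    (0 : ℚ) ≤ if a = a₀ then 1 else 0 := by
  split_ifs
  · exact zero_le_one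
  · exact le_rfl

private theorem delta_sum {A : Type} [Fintype A] [DecidableEq A] (a₀ : A) :
    ∑ a, (if a = a₀ then (1 : ℚ) else 0) = 1 := by
  rw [Finset.sum_ite_eq' Finset.univ a₀ (fun _ => (1 : ℚ)), if_pos (Finset.mem_univ _)]

private theorem ne_of_allowed {l m n : ℕ} (a₀ : Fin l) (b₀ : Fin m) (c₀ : Fin n) (H : ℕ)
    (u : Ix l m n → ℕ) (h1 : ∀ k, H ≤ 2 * u (k, a₀, b₀, c₀))
    (h2 : ∀ i : Ix l m n, i.2 ≠ (a₀, b₀, c₀) → 2 * u i ≤ H) :
    NE u (fun a => if a = a₀ then (1 : ℚ) else 0) (fun b => if b = b₀ then (1 : ℚ) else 0)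
      (fun c => if c = c₀ then (1 : ℚ) else 0) := by
  refine ⟨fun a => delta_nonneg a₀ a, delta_sum a₀, fun b => delta_nonneg b₀ b, delta_sum b₀,
    fun c => delta_nonneg c₀ c, delta_sum c₀, ?_, ?_, ?_⟩
  · intro a₁
    rw [sum2 b₀ c₀ (fun b c => (u (0, a₁, b, c) : ℚ)),
      sum3 a₀ b₀ c₀ (fun a b c => (u (0, a, b, c) : ℚ)), Nat.cast_le]
    by_cases h : a₁ = a₀
    · rw [h]
    · have e1 := h1 0
      have e2 := h2 (0, a₁, b₀, c₀) (fun he => h (Prod.mk.inj he).1)
      omega
  · intro b₁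
    rw [sum2 a₀ c₀ (fun a c => (u (1, a, b₁, c) : ℚ)),
      sum3 a₀ b₀ c₀ (fun a b c => (u (1, a, b, c) : ℚ)), Nat.cast_le]
    by_cases h : b₁ = b₀
    · rw [h]
    · have e1 := h1 1
      have e2 := h2 (1, a₀, b₁, c₀) (fun he => h (Prod.mk.inj (Prod.mk.inj he).2).1)
      omega
  · intro c₁
    rw [sum2 a₀ b₀ (fun a b => (u (2, a, b, c₁) : ℚ)),
      sum3 a₀ b₀ c₀ (fun a b c => (u (2, a, b, c) : ℚ)), Nat.cast_le]
    by_cases h : c₁ = c₀
    · rw [h]
    · have e1 := h1 2
      have e2 := h2 (2, a₀, b₀, c₁) (fun he => h (Prod.mk.inj (Prod.mk.inj he).2).2)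
      omega

theorem posY (l m n : ℕ) (hl : 1 ≤ l) (hm : 1 ≤ m) (hn : 1 ≤ n) (H : ℕ) :
    ((1 : ℝ) / 2) ^ Fintype.card (Ix l m n) * ((H : ℝ) + 1) ^ Fintype.card (Ix l m n) ≤
      Nat.card {c : Ix l m n → Fin (H + 1) // ∃ (x : Fin l → ℚ) (y : Fin m → ℚ) (z : Fin n → ℚ),
        NE (fun i => (c i : ℕ)) x y z} := by
  classical
  set a₀ : Fin l := ⟨0, hl⟩
  set b₀ : Fin m := ⟨0, hm⟩
  set c₀ : Fin n := ⟨0, hn⟩
  set T : Ix l m n → Finset (Fin (H + 1)) := fun i =>
    if i.2 = (a₀, b₀, c₀) then Finset.univ.filter (fun v : Fin (H + 1) => H ≤ 2 * (v : ℕ))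
    else Finset.univ.filter (fun v : Fin (H + 1) => 2 * (v : ℕ) ≤ H) with hT
  have hTc : ∀ i, H + 1 ≤ 2 * (T i).card := by
    intro i
    simp only [hT]
    split_ifs
    · exact (half_card H).2
    · exact (half_card H).1
  have hsub : ∀ c ∈ Fintype.piFinset T, ∃ (x : Fin l → ℚ) (y : Fin m → ℚ) (z : Fin n → ℚ),
      NE (fun i => (c i : ℕ)) x y z := by
    intro c hc
    rw [Fintype.mem_piFinset] at hc
    refine ⟨_, _, _, ne_of_allowed a₀ b₀ c₀ H (fun i => (c i : ℕ)) ?_ ?_⟩
    · intro k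
      have h := hc (k, a₀, b₀, c₀)
      simp only [hT, if_true, Finset.mem_filter, Finset.mem_univ, true_and] at h
      exact h
    · intro i hi
      have h := hc i
      simp only [hT, if_neg hi, Finset.mem_filter, Finset.mem_univ, true_and] at h
      exact h
  have hcard : (Fintype.piFinset T).card ≤
      Nat.card {c : Ix l m n → Fin (H + 1) // ∃ (x : Fin l → ℚ) (y : Fin m → ℚ) (z : Fin n → ℚ),
        NE (fun i => (c i : ℕ)) x y z} := by
    rw [Nat.card_eq_fintype_card, Fintype.card_subtype]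
    refine Finset.card_le_card fun c hc => ?_
    rw [Finset.mem_filter]
    exact ⟨Finset.mem_univ _, hsub c hc⟩
  have h1 : ((1 : ℝ) / 2) ^ Fintype.card (Ix l m n) * ((H : ℝ) + 1) ^ Fintype.card (Ix l m n) ≤
      ((Fintype.piFinset T).card : ℝ) := by
    rw [Fintype.card_piFinset, Nat.cast_prod, ← mul_pow]
    calc (1 / 2 * ((H : ℝ) + 1)) ^ Fintype.card (Ix l m n)
        = ∏ _i : Ix l m n, (1 / 2 * ((H : ℝ) + 1)) := by
          rw [Finset.prod_const, Finset.card_univ]
      _ ≤ ∏ i, ((T i).card : ℝ) := by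
          refine Finset.prod_le_prod (fun i _ => by positivity) fun i _ => ?_
          have h2 : ((H + 1 : ℕ) : ℝ) ≤ ((2 * (T i).card : ℕ) : ℝ) := Nat.cast_le.mpr (hTc i)
          push_cast at h2
          linarith
  exact h1.trans (Nat.cast_le.mpr hcard)

end Pool.Agent.Work.MP_9d4f6b_lc.AG
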