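import Pool.Agent.Work.MP_9d4f6b_lc.AG.DecF
import Pool.Agent.Work.MP_9d4f6b_lc.AG.PosN
import Pool.Agent.Work.MP_9d4f6b_lc.AG.PosY
import Pool.Agent.Work.MP_9d4f6b_lc.AG.Enc

/-!
MODULE MAINA (size M-L). The final theorem, with D = DG.

PROOF. Nash R g x y z is NE (uu g) x y z (same fields; uu g (i, a, b, c) = pay g i a b c is the List.getD expression). (1) decD,
decR. (2) crit with S = g.2.2.2.sum. (3) dnG: for c in the box let u = c ∘ e (enc), so uu (game c) = u (pay_of) and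
the sum of the list is ∑ u (sum_of): DG (game c) iff Gd (∑ u) u. By card_enc the number of the c with ¬ DG is at most
δ (H + 1)^N, N = 3 l m n = card Ix, for large H; the proportion of DG is 1 - (proportion of ¬ DG), which tends to 1.
(4) posY and posN in the same way, ε = min of the two constants.
-/

set_option linter.unusedVariables false
set_option linter.style.longLine false
set_option autoImplicit false

namespace Pool.Agent.Work.MP_9d4f6b_lc.AG

/-- Nash equilibrium with probabilities in R of the game g = (l, m, n, list of payoffs) -/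
def Nash (R : Type) [Field R] [LinearOrder R] (g : ℕ × ℕ × ℕ × List ℕ) (x : Fin g.1 → R)
    (y : Fin g.2.1 → R) (z : Fin g.2.2.1 → R) : Prop :=
  (∀ a, 0 ≤ x a) ∧ (∑ a, x a = 1) ∧
  (∀ b, 0 ≤ y b) ∧ (∑ b, y b = 1) ∧
  (∀ c, 0 ≤ z c) ∧ (∑ c, z c = 1) ∧
  (∀ a₀ : Fin g.1,
    ∑ b, ∑ c, y b * z c *
        ((g.2.2.2.getD (((0 * g.1 + a₀.val) * g.2.1 + b.val) * g.2.2.1 + c.val) 0 : ℕ) : R)
      ≤ ∑ a, ∑ b, ∑ c, x a * y b * z c *
        ((g.2.2.2.getD (((0 * g.1 + a.val) * g.2.1 + b.val) * g.2.2.1 + c.val) 0 : ℕ) : R)) ∧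
  (∀ b₀ : Fin g.2.1,
    ∑ a, ∑ c, x a * z c *
        ((g.2.2.2.getD (((1 * g.1 + a.val) * g.2.1 + b₀.val) * g.2.2.1 + c.val) 0 : ℕ) : R)
      ≤ ∑ a, ∑ b, ∑ c, x a * y b * z c *
        ((g.2.2.2.getD (((1 * g.1 + a.val) * g.2.1 + b.val) * g.2.2.1 + c.val) 0 : ℕ) : R)) ∧
  (∀ c₀ : Fin g.2.2.1,
    ∑ a, ∑ b, x a * y b *
        ((g.2.2.2.getD (((2 * g.1 + a.val) * g.2.1 + b.val) * g.2.2.1 + c₀.val) 0 : ℕ) : R)
      ≤ ∑ a, ∑ b, ∑ c, x a * y b * z c *
        ((g.2.2.2.getD (((2 * g.1 + a.val) * g.2.1 + b.val) * g.2.2.1 + c.val) 0 : ℕ) : R))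

/-- the predicate of the frozen statement S15117 -/
def RationalNE (g : ℕ × ℕ × ℕ × List ℕ) : Prop :=
  ∃ (x : Fin g.1 → ℚ) (y : Fin g.2.1 → ℚ) (z : Fin g.2.2.1 → ℚ), Nash ℚ g x y z

/-- the proportion, among the games of format l × m × n with payoffs in {0, ..., H}, of those with P -/
noncomputable def prop (l m n H : ℕ) (P : ℕ × ℕ × ℕ × List ℕ → Prop) : ℝ :=
  (Nat.card {c : Fin (3 * l * m * n) → Fin (H + 1) //
    P (l, m, n, List.ofFn fun i => (c i : ℕ))} : ℝ) / ((H : ℝ) + 1) ^ (3 * l * m * n)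

private theorem nash_ne {R : Type} [Field R] [LinearOrder R] (g : ℕ × ℕ × ℕ × List ℕ)
    (x : Fin g.1 → R) (y : Fin g.2.1 → R) (z : Fin g.2.2.1 → R) :
    Nash R g x y z ↔ NE (uu g) x y z := by
  constructor
  · rintro ⟨h1, h2, h3, h4, h5, h6, h7, h8, h9⟩
    exact ⟨h1, h2, h3, h4, h5, h6, h7, h8, h9⟩
  · intro h
    exact ⟨h.x0, h.x1, h.y0, h.y1, h.z0, h.z1, h.n1, h.n2, h.n3⟩

private theorem rne_iff (g : ℕ × ℕ × ℕ × List ℕ) :
    RationalNE g ↔
      ∃ (x : Fin g.1 → ℚ) (y : Fin g.2.1 → ℚ) (z : Fin g.2.2.1 → ℚ), NE (uu g) x y z := by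
  unfold RationalNE
  simp only [nash_ne]

private theorem card_compl {Ω : Type} [Finite Ω] (P : Ω → Prop) :
    Nat.card {w // P w} + Nat.card {w // ¬ P w} = Nat.card Ω := by
  classical
  rw [← Nat.card_sum]
  exact Nat.card_congr (Equiv.sumCompl P)

private theorem prop_compl (l m n H : ℕ) (P : ℕ × ℕ × ℕ × List ℕ → Prop) :
    prop l m n H P = 1 - prop l m n H (fun g => ¬ P g) := by
  unfold prop
  have h1 := card_compl (fun c : Fin (3 * l * m * n) → Fin (H + 1) =>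
    P (l, m, n, List.ofFn fun i => (c i : ℕ)))
  rw [Nat.card_fun, Nat.card_fin, Nat.card_fin] at h1
  have h2 : (Nat.card {c : Fin (3 * l * m * n) → Fin (H + 1) //
      P (l, m, n, List.ofFn fun i => (c i : ℕ))} : ℝ) +
      (Nat.card {c : Fin (3 * l * m * n) → Fin (H + 1) //
      ¬ P (l, m, n, List.ofFn fun i => (c i : ℕ))} : ℝ) = ((H : ℝ) + 1) ^ (3 * l * m * n) := by
    exact_mod_cast h1
  have h3 : ((H : ℝ) + 1) ^ (3 * l * m * n) ≠ 0 := by positivity
  rw [eq_sub_iff_add_eq, ← add_div, h2, div_self h3]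

private theorem uu_game {l m n : ℕ} (e : Ix l m n ≃ Fin (3 * l * m * n)) (he : ∀ i : Ix l m n,
    (e i : ℕ) = (((i.1 : ℕ) * l + i.2.1) * m + i.2.2.1) * n + i.2.2.2) (v : Ix l m n → ℕ) :
    uu (l, m, n, List.ofFn fun i => v (e.symm i)) = v := by
  funext i
  have h := pay_of e he (fun j => v (e.symm j)) i
  rw [Equiv.symm_apply_apply] at h
  exact h

private theorem dg_game {l m n : ℕ} (e : Ix l m n ≃ Fin (3 * l * m * n)) (he : ∀ i : Ix l m n,
    (e i : ℕ) = (((i.1 : ℕ) * l + i.2.1) * m + i.2.2.1) * n + i.2.2.2) (v : Ix l m n → ℕ) :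
    DG (l, m, n, List.ofFn fun i => v (e.symm i)) ↔ Gd (∑ i, v i) v := by
  have h1 := uu_game e he v
  have h2 : (List.ofFn fun i => v (e.symm i)).sum = ∑ i, v i := by
    rw [sum_of e]
    simp only [Equiv.symm_apply_apply]
  unfold DG
  show Gd (List.ofFn fun i => v (e.symm i)).sum (uu (l, m, n, List.ofFn fun i => v (e.symm i))) ↔ _
  rw [h1, h2]

private theorem rne_game {l m n : ℕ} (e : Ix l m n ≃ Fin (3 * l * m * n)) (he : ∀ i : Ix l m n,
    (e i : ℕ) = (((i.1 : ℕ) * l + i.2.1) * m + i.2.2.1) * n + i.2.2.2) (v : Ix l m n → ℕ) :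
    RationalNE (l, m, n, List.ofFn fun i => v (e.symm i)) ↔
      ∃ (x : Fin l → ℚ) (y : Fin m → ℚ) (z : Fin n → ℚ), NE v x y z := by
  rw [rne_iff]
  show (∃ (x : Fin l → ℚ) (y : Fin m → ℚ) (z : Fin n → ℚ),
    NE (uu (l, m, n, List.ofFn fun i => v (e.symm i))) x y z) ↔ _
  rw [uu_game e he v]

private theorem prop_nonneg (l m n H : ℕ) (P : ℕ × ℕ × ℕ × List ℕ → Prop) : 0 ≤ prop l m n H P := by
  unfold prop
  positivity

private theorem card_ix {l m n : ℕ} (e : Ix l m n ≃ Fin (3 * l * m * n)) :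
    Fintype.card (Ix l m n) = 3 * l * m * n := by
  rw [Fintype.card_congr e, Fintype.card_fin]

open Filter Topology in
theorem mainA : ∃ D : ℕ × ℕ × ℕ × List ℕ → Prop, ComputablePred D ∧
    ComputablePred (fun g => D g ∧ RationalNE g) ∧
    (∀ g, D g → ∀ (x : Fin g.1 → ℝ) (y : Fin g.2.1 → ℝ) (z : Fin g.2.2.1 → ℝ), Nash ℝ g x y z →
      (((∀ a, ∃ q : ℚ, x a = q) ∧ (∀ b, ∃ q : ℚ, y b = q) ∧ (∀ c, ∃ q : ℚ, z c = q)) ↔
        ((∃ a, x a = 1) ∨ (∃ b, y b = 1) ∨ ∃ c, z c = 1))) ∧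
    (∀ l m n : ℕ, 1 ≤ l → 1 ≤ m → 1 ≤ n → Tendsto (fun H => prop l m n H D) atTop (𝓝 1)) ∧
    (∀ l m n : ℕ, 2 ≤ l → 2 ≤ m → 2 ≤ n → ∃ ε : ℝ, 0 < ε ∧ ∀ᶠ H in atTop,
      ε ≤ prop l m n H RationalNE ∧ prop l m n H RationalNE ≤ 1 - ε) := by
  refine ⟨DG, decD, ?_, ?_, ?_, ?_⟩
  · have h : (fun g => DG g ∧ RationalNE g) = (fun g : Gm => DG g ∧
        ∃ (x : Fin g.1 → ℚ) (y : Fin g.2.1 → ℚ) (z : Fin g.2.2.1 → ℚ), NE (uu g) x y z) := by
      funext g
      rw [rne_iff]
    rw [h]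
    exact decR
  · intro g hg x y z h
    exact crit hg ((nash_ne g x y z).1 h)
  · intro l m n hl hm hn
    obtain ⟨e, he⟩ := enc l m n
    have h0 : Tendsto (fun H => prop l m n H (fun g => ¬ DG g)) atTop (𝓝 0) := by
      rw [tendsto_order]
      constructor
      · intro a ha
        exact Eventually.of_forall (fun H => lt_of_lt_of_le ha (prop_nonneg _ _ _ _ _))
      · intro a ha
        filter_upwards [dnG l m n hl hm hn (a / 2) (by linarith)] with H hH
        have h1 : prop l m n H (fun g => ¬ DG g) ≤ a / 2 := by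
          unfold prop
          rw [div_le_iff₀ (by positivity), card_enc e H]
          rw [card_ix e] at hH
          refine le_trans (le_of_eq ?_) hH
          have h2 : ∀ u : Ix l m n → Fin (H + 1),
              (¬ DG (l, m, n, List.ofFn fun i => ((fun j => u (e.symm j)) i : ℕ))) ↔
                ¬ Gd (∑ i, (u i : ℕ)) (fun i => (u i : ℕ)) := fun u =>
            not_congr (dg_game e he (fun i => (u i : ℕ)))
          exact congrArg _ (Nat.card_congr (Equiv.subtypeEquivRight h2))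
        linarith
    have h1 : Tendsto (fun H => 1 - prop l m n H (fun g => ¬ DG g)) atTop (𝓝 (1 - 0)) :=
      tendsto_const_nhds.sub h0
    rw [sub_zero] at h1
    refine h1.congr (fun H => ?_)
    exact (prop_compl l m n H DG).symm
  · intro l m n hl hm hn
    obtain ⟨e, he⟩ := enc l m n
    obtain ⟨ε, hε, hN⟩ := posN l m n hl hm hn
    refine ⟨min ε (((1 : ℝ) / 2) ^ Fintype.card (Ix l m n)), lt_min hε (by positivity), ?_⟩
    filter_upwards [hN] with H hH
    constructor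
    · refine le_trans (min_le_right _ _) ?_
      unfold prop
      have hY := posY l m n (by omega) (by omega) (by omega) H
      rw [card_ix e] at hY
      have hc : ((1 : ℝ) / 2) ^ Fintype.card (Ix l m n) = ((1 : ℝ) / 2) ^ (3 * l * m * n) := by
        rw [card_ix e]
      rw [le_div_iff₀ (by positivity), card_enc e H, hc]
      refine le_trans hY (le_of_eq ?_)
      have h2 : ∀ u : Ix l m n → Fin (H + 1),
          (∃ (x : Fin l → ℚ) (y : Fin m → ℚ) (z : Fin n → ℚ), NE (fun i => (u i : ℕ)) x y z) ↔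
          RationalNE (l, m, n, List.ofFn fun i => ((fun j => u (e.symm j)) i : ℕ)) := fun u =>
        (rne_game e he (fun i => (u i : ℕ))).symm
      exact congrArg _ (Nat.card_congr (Equiv.subtypeEquivRight h2))
    · rw [prop_compl]
      have h3 : ε ≤ prop l m n H (fun g => ¬ RationalNE g) := by
        unfold prop
        rw [le_div_iff₀ (by positivity), card_enc e H]
        rw [card_ix e] at hH
        refine le_trans hH (le_of_eq ?_)
        have h2 : ∀ u : Ix l m n → Fin (H + 1),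
            (¬ ∃ (x : Fin l → ℚ) (y : Fin m → ℚ) (z : Fin n → ℚ), NE (fun i => (u i : ℕ)) x y z) ↔
            ¬ RationalNE (l, m, n, List.ofFn fun i => ((fun j => u (e.symm j)) i : ℕ)) := fun u =>
          not_congr (rne_game e he (fun i => (u i : ℕ))).symm
        exact congrArg _ (Nat.card_congr (Equiv.subtypeEquivRight h2))
      have h4 := min_le_left ε (((1 : ℝ) / 2) ^ Fintype.card (Ix l m n))
      linarith

end Pool.Agent.Work.MP_9d4f6b_lc.AG
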