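import Pool.Agent.Work.MP_9d4f6b_lc.AG.QFr

/-!
MODULE QCNT (size M). Number of the lattice points.

PROOF. s = WS is compact: bounded, closed, measurable, volume (frontier s) = 0: Mathlib's
BoxIntegral.unitPartition... tendsto_card_div_pow_atTop_volume gives that the number of the points of s in H⁻¹ • (ℤ^ι) divided by H^N tends to
volume.real s (N = card ι). For H ≥ 1 the points of s ∩ H⁻¹ • span ℤ (range (Pi.basisFun ℝ ι)) are exactly the points c / H with
c : ι → Fin (H + 1) (s is contained in the cube; mem_smul_span_iff: all H * x i are integers), so the two cardinalities agree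
(c ↦ c / H is a bijection). Finally (H / (H + 1))^N → 1.
-/

set_option linter.unusedVariables false
set_option linter.style.longLine false
set_option autoImplicit false

namespace Pool.Agent.Work.MP_9d4f6b_lc.AG

open MeasureTheory Filter Topology Pointwise

private theorem qn_card (l m n H : ℕ) (hH : 1 ≤ H) :
    Nat.card {c : Ix l m n → Fin (H + 1) // (fun i => ((c i : ℕ) : ℝ) / H) ∈ WS l m n} =
      Nat.card ↑(WS l m n ∩ (H : ℝ)⁻¹ •
        (Submodule.span ℤ (Set.range (Pi.basisFun ℝ (Ix l m n))) : Set (Ix l m n → ℝ))) := by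
  have hH0 : (H : ℝ) ≠ 0 := by positivity
  have hHp : (0 : ℝ) < H := by positivity
  have hne : NeZero H := ⟨by omega⟩
  refine Nat.card_congr (Equiv.ofBijective (fun c => ⟨fun i => ((c.1 i : ℕ) : ℝ) / H, c.2, ?_⟩)
    ⟨?_, ?_⟩)
  · rw [← Submodule.coe_pointwise_smul, SetLike.mem_coe,
      BoxIntegral.unitPartition.mem_smul_span_iff]
    intro i
    refine ⟨((c.1 i : ℕ) : ℤ), ?_⟩
    rw [mul_div_cancel₀ _ hH0]
    simp
  · intro c c' h
    have h1 : (fun i => ((c.1 i : ℕ) : ℝ) / H) = fun i => ((c'.1 i : ℕ) : ℝ) / H :=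
      congrArg (fun t => t.1) h
    refine Subtype.ext (funext fun i => Fin.ext ?_)
    have h2 : ((c.1 i : ℕ) : ℝ) / H = ((c'.1 i : ℕ) : ℝ) / H := congrFun h1 i
    have h3 : ((c.1 i : ℕ) : ℝ) = ((c'.1 i : ℕ) : ℝ) := by
      rw [div_left_inj' hH0] at h2
      exact h2
    exact_mod_cast h3
  · rintro ⟨v, hv, hv'⟩
    rw [← Submodule.coe_pointwise_smul, SetLike.mem_coe] at hv'
    have h1 := (BoxIntegral.unitPartition.mem_smul_span_iff (n := H)).1 hv'
    have h2 : ∀ i, ∃ k : ℕ, k < H + 1 ∧ (k : ℝ) = H * v i := by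
      intro i
      obtain ⟨a, ha⟩ := h1 i
      have ha' : (a : ℝ) = H * v i := by
        rw [← ha]
        simp
      have hv0 := hv.1 i
      have h3 : 0 ≤ a := by
        have : (0 : ℝ) ≤ (a : ℝ) := by
          rw [ha']
          exact mul_nonneg hHp.le hv0.1
        exact_mod_cast this
      have h4 : a ≤ H := by
        have : (a : ℝ) ≤ (H : ℝ) := by
          rw [ha']
          calc (H : ℝ) * v i ≤ H * 1 := mul_le_mul_of_nonneg_left hv0.2 hHp.le
            _ = H := mul_one _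
        exact_mod_cast this
      refine ⟨a.toNat, by omega, ?_⟩
      rw [← ha']
      have h5 : ((a.toNat : ℕ) : ℤ) = a := Int.toNat_of_nonneg h3
      exact_mod_cast congrArg (fun z : ℤ => (z : ℝ)) h5
    choose k hk1 hk2 using h2
    have h3 : (fun i => (((⟨k i, hk1 i⟩ : Fin (H + 1)) : ℕ) : ℝ) / H) = v := by
      funext i
      show (k i : ℝ) / H = v i
      rw [hk2 i, mul_div_cancel_left₀ _ hH0]
    refine ⟨⟨fun i => ⟨k i, hk1 i⟩, ?_⟩, ?_⟩
    · rw [h3]
      exact hv
    · exact Subtype.ext h3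

theorem qcnt (l m n : ℕ) : Tendsto (fun H : ℕ =>
    (Nat.card {c : Ix l m n → Fin (H + 1) // (fun i => ((c i : ℕ) : ℝ) / H) ∈ WS l m n} : ℝ) /
      ((H : ℝ) + 1) ^ Fintype.card (Ix l m n)) atTop (𝓝 (volume.real (WS l m n))) := by
  have hc := qcl l m n
  have key := tendsto_card_div_pow_atTop_volume (WS l m n) hc.isBounded hc.isClosed.measurableSet
    (qfr l m n)
  have h1 : Tendsto (fun H : ℕ => ((H : ℝ) / ((H : ℝ) + 1)) ^ Fintype.card (Ix l m n)) atTop
      (𝓝 1) := by
    have h2 : Tendsto (fun H : ℕ => (H : ℝ) / ((H : ℝ) + 1)) atTop (𝓝 1) :=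
      tendsto_natCast_div_add_atTop 1
    simpa using h2.pow (Fintype.card (Ix l m n))
  have h3 := key.mul h1
  rw [mul_one] at h3
  refine h3.congr' ?_
  filter_upwards [eventually_ge_atTop 1] with H hH
  rw [qn_card l m n H hH, div_pow]
  have hH0 : (H : ℝ) ≠ 0 := by positivity
  have h4 : ((H : ℝ)) ^ Fintype.card (Ix l m n) ≠ 0 := pow_ne_zero _ hH0
  rw [div_mul_div_comm, mul_comm ((H : ℝ) ^ Fintype.card (Ix l m n))
    (((H : ℝ) + 1) ^ Fintype.card (Ix l m n)), mul_div_mul_right _ _ h4]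

end Pool.Agent.Work.MP_9d4f6b_lc.AG
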