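import Pool.Agent.Work.MP_9d4f6b_lc.AG.QRel
import Pool.Agent.Work.MP_9d4f6b_lc.AG.QCnt
import Pool.Agent.Work.MP_9d4f6b_lc.AG.DnG
import Pool.Agent.Work.MP_9d4f6b_lc.AG.PosN
import Pool.Agent.Work.MP_9d4f6b_lc.AG.PosY

/-!
MODULE QLIM (size M). The limit law.

PROOF. For H ≥ 1 the numbers R(H) = card {c // c has a rational equilibrium} and W(H) = card {c // c / H in WS} differ at most by
card {c // ¬ Gd (∑ c) c} (qrel), which is ≤ δ (H + 1)^N for large H (dnG). So R(H)/(H+1)^N has the same limit as W(H)/(H+1)^N, which is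
volume.real WS by qcnt. qpos: by posY, R(H)/(H+1)^N ≥ (1/2)^N, so the limit is > 0 (ge_of_tendsto); by posN,
R(H)/(H+1)^N ≤ 1 - ε (complement), so the limit is < 1 (le_of_tendsto).
-/

set_option linter.unusedVariables false
set_option linter.style.longLine false
set_option autoImplicit false

namespace Pool.Agent.Work.MP_9d4f6b_lc.AG

open MeasureTheory Filter Topology

private theorem card_cover {Ω : Type} [Finite Ω] {P Q R : Ω → Prop} (h : ∀ w, P w → Q w ∨ R w) :
    Nat.card {w // P w} ≤ Nat.card {w // Q w} + Nat.card {w // R w} := by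
  classical
  have := Fintype.ofFinite Ω
  rw [Nat.card_eq_fintype_card, Nat.card_eq_fintype_card, Nat.card_eq_fintype_card]
  exact le_trans (Fintype.card_subtype_mono _ _ h) (Fintype.card_subtype_or _ _)

private theorem card_compl {Ω : Type} [Finite Ω] (P : Ω → Prop) :
    Nat.card {w // P w} + Nat.card {w // ¬ P w} = Nat.card Ω := by
  classical
  have := Fintype.ofFinite Ω
  rw [Nat.card_eq_fintype_card, Nat.card_eq_fintype_card, Nat.card_eq_fintype_card,
    Fintype.card_subtype_compl]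
  have := Fintype.card_subtype_le P
  omega

theorem qlim (l m n : ℕ) (hl : 1 ≤ l) (hm : 1 ≤ m) (hn : 1 ≤ n) : Tendsto (fun H : ℕ =>
    (Nat.card {c : Ix l m n → Fin (H + 1) // ∃ (x : Fin l → ℚ) (y : Fin m → ℚ) (z : Fin n → ℚ),
        NE (fun i => (c i : ℕ)) x y z} : ℝ) /
      ((H : ℝ) + 1) ^ Fintype.card (Ix l m n)) atTop (𝓝 (volume.real (WS l m n))) := by
  refine tendsto_of_tendsto_of_dist (qcnt l m n) ?_
  rw [Metric.tendsto_nhds]
  intro ε hε
  filter_upwards [dnG l m n hl hm hn (ε / 2) (by linarith), eventually_ge_atTop 1] with H h1 h2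
  set R : ℕ := Nat.card {c : Ix l m n → Fin (H + 1) // ∃ (x : Fin l → ℚ) (y : Fin m → ℚ)
    (z : Fin n → ℚ), NE (fun i => (c i : ℕ)) x y z} with hR
  set W : ℕ := Nat.card {c : Ix l m n → Fin (H + 1) //
    (fun i => ((c i : ℕ) : ℝ) / H) ∈ WS l m n} with hW
  set G : ℕ := Nat.card {c : Ix l m n → Fin (H + 1) //
    ¬ Gd (∑ i, (c i : ℕ)) (fun i => (c i : ℕ))} with hG
  have c1 : R ≤ W + G := by
    refine card_cover (fun c hc => ?_)
    by_cases hg : Gd (∑ i, (c i : ℕ)) (fun i => (c i : ℕ))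
    · exact Or.inl ((qrel h2 c hg).1 hc)
    · exact Or.inr hg
  have c2 : W ≤ R + G := by
    refine card_cover (fun c hc => ?_)
    by_cases hg : Gd (∑ i, (c i : ℕ)) (fun i => (c i : ℕ))
    · exact Or.inl ((qrel h2 c hg).2 hc)
    · exact Or.inr hg
  have hp : (0 : ℝ) < ((H : ℝ) + 1) ^ Fintype.card (Ix l m n) := by positivity
  have hd : |(W : ℝ) - R| ≤ G := by
    have c1' : (R : ℝ) ≤ W + G := by exact_mod_cast c1
    have c2' : (W : ℝ) ≤ R + G := by exact_mod_cast c2
    rw [abs_le]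
    constructor <;> linarith
  rw [Real.dist_eq, Real.dist_eq, sub_zero, abs_abs, ← sub_div, abs_div, abs_of_pos hp,
    div_lt_iff₀ hp]
  have h3 : (G : ℝ) ≤ ε / 2 * ((H : ℝ) + 1) ^ Fintype.card (Ix l m n) := h1
  have h4 : ε / 2 * ((H : ℝ) + 1) ^ Fintype.card (Ix l m n) <
      ε * ((H : ℝ) + 1) ^ Fintype.card (Ix l m n) := mul_lt_mul_of_pos_right (by linarith) hp
  linarith

theorem qpos (l m n : ℕ) (hl : 2 ≤ l) (hm : 2 ≤ m) (hn : 2 ≤ n) :
    0 < volume.real (WS l m n) ∧ volume.real (WS l m n) < 1 := by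
  have hlim := qlim l m n (by omega) (by omega) (by omega)
  constructor
  · have h1 : ((1 : ℝ) / 2) ^ Fintype.card (Ix l m n) ≤ volume.real (WS l m n) := by
      refine ge_of_tendsto hlim (Filter.Eventually.of_forall fun H => ?_)
      have hp : (0 : ℝ) < ((H : ℝ) + 1) ^ Fintype.card (Ix l m n) := by positivity
      rw [le_div_iff₀ hp]
      exact posY l m n (by omega) (by omega) (by omega) H
    have h2 : (0 : ℝ) < ((1 : ℝ) / 2) ^ Fintype.card (Ix l m n) := by positivity
    linarith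
  · obtain ⟨ε, hε, hev⟩ := posN l m n hl hm hn
    have h1 : volume.real (WS l m n) ≤ 1 - ε := by
      refine le_of_tendsto hlim ?_
      filter_upwards [hev] with H hH
      have hp : (0 : ℝ) < ((H : ℝ) + 1) ^ Fintype.card (Ix l m n) := by positivity
      rw [div_le_iff₀ hp]
      have hc := card_compl (Ω := Ix l m n → Fin (H + 1)) (fun c => ∃ (x : Fin l → ℚ)
        (y : Fin m → ℚ) (z : Fin n → ℚ), NE (fun i => (c i : ℕ)) x y z)
      have ht : Nat.card (Ix l m n → Fin (H + 1)) = (H + 1) ^ Fintype.card (Ix l m n) := by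
        rw [Nat.card_fun, Nat.card_eq_fintype_card (α := Fin (H + 1)), Fintype.card_fin,
          Nat.card_eq_fintype_card]
      rw [ht] at hc
      have hc' : (Nat.card {c : Ix l m n → Fin (H + 1) // ∃ (x : Fin l → ℚ)
          (y : Fin m → ℚ) (z : Fin n → ℚ), NE (fun i => (c i : ℕ)) x y z} : ℝ) +
          Nat.card {c : Ix l m n → Fin (H + 1) // ¬ ∃ (x : Fin l → ℚ)
          (y : Fin m → ℚ) (z : Fin n → ℚ), NE (fun i => (c i : ℕ)) x y z} =
          ((H : ℝ) + 1) ^ Fintype.card (Ix l m n) := by exact_mod_cast hc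
      linarith
    linarith

end Pool.Agent.Work.MP_9d4f6b_lc.AG
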