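import Pool.Agent.Work.MP_9d4f6b_lc.AG.MainA
import Pool.Agent.Work.MP_9d4f6b_lc.AG.QLim

/-!
MODULE MAINB (size M). The final theorem with the limit law.

PROOF. Everything except the last clause is mainA (same D). The last clause: qlim and qpos, with prop ... RationalNE rewritten as in
MainA (enc, pay_of, card_enc; Nash ℚ (l, m, n, list) is NE; N = 3 l m n = card Ix), and RNash is NEG (same fields).
-/

set_option linter.unusedVariables false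
set_option linter.style.longLine false
set_option autoImplicit false

namespace Pool.Agent.Work.MP_9d4f6b_lc.AG

open MeasureTheory Filter Topology

/-- Nash equilibrium of the game with the real payoffs u (i, a, b, c) -/
def RNash {l m n : ℕ} (u : Fin 3 × Fin l × Fin m × Fin n → ℝ) (x : Fin l → ℝ) (y : Fin m → ℝ)
    (z : Fin n → ℝ) : Prop :=
  (∀ a, 0 ≤ x a) ∧ (∑ a, x a = 1) ∧
  (∀ b, 0 ≤ y b) ∧ (∑ b, y b = 1) ∧
  (∀ c, 0 ≤ z c) ∧ (∑ c, z c = 1) ∧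
  (∀ a₀, ∑ b, ∑ c, y b * z c * u (0, a₀, b, c) ≤ ∑ a, ∑ b, ∑ c, x a * y b * z c * u (0, a, b, c)) ∧
  (∀ b₀, ∑ a, ∑ c, x a * z c * u (1, a, b₀, c) ≤ ∑ a, ∑ b, ∑ c, x a * y b * z c * u (1, a, b, c)) ∧
  (∀ c₀, ∑ a, ∑ b, x a * y b * u (2, a, b, c₀) ≤ ∑ a, ∑ b, ∑ c, x a * y b * z c * u (2, a, b, c))

/-- the probability that a game with independent uniform payoffs in [0,1] has an equilibrium in which some player
uses a pure strategy -/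
noncomputable def purePr (l m n : ℕ) : ℝ :=
  volume.real {u : Fin 3 × Fin l × Fin m × Fin n → ℝ | (∀ i, 0 ≤ u i ∧ u i ≤ 1) ∧
    ∃ (x : Fin l → ℝ) (y : Fin m → ℝ) (z : Fin n → ℝ), RNash u x y z ∧
      ((∃ a, x a = 1) ∨ (∃ b, y b = 1) ∨ ∃ c, z c = 1)}

private theorem mb_set (l m n : ℕ) : {u : Fin 3 × Fin l × Fin m × Fin n → ℝ |
    (∀ i, 0 ≤ u i ∧ u i ≤ 1) ∧
    ∃ (x : Fin l → ℝ) (y : Fin m → ℝ) (z : Fin n → ℝ), RNash u x y z ∧
      ((∃ a, x a = 1) ∨ (∃ b, y b = 1) ∨ ∃ c, z c = 1)} = WS l m n := by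
  ext u
  constructor
  · rintro ⟨h0, x, y, z, ⟨a1, a2, a3, a4, a5, a6, a7, a8, a9⟩, h2⟩
    exact ⟨h0, x, y, z, ⟨a1, a2, a3, a4, a5, a6, a7, a8, a9⟩, h2⟩
  · rintro ⟨h0, x, y, z, h1, h2⟩
    exact ⟨h0, x, y, z, ⟨h1.x0, h1.x1, h1.y0, h1.y1, h1.z0, h1.z1, h1.n1, h1.n2, h1.n3⟩, h2⟩

private theorem mb_pure (l m n : ℕ) : purePr l m n = volume.real (WS l m n) := by
  unfold purePr
  rw [mb_set]

private theorem mb_ne (g : ℕ × ℕ × ℕ × List ℕ) : RationalNE g ↔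
    ∃ (x : Fin g.1 → ℚ) (y : Fin g.2.1 → ℚ) (z : Fin g.2.2.1 → ℚ), NE (uu g) x y z := by
  constructor
  · rintro ⟨x, y, z, h⟩
    obtain ⟨a1, a2, a3, a4, a5, a6, a7, a8, a9⟩ := h
    exact ⟨x, y, z, ⟨a1, a2, a3, a4, a5, a6, a7, a8, a9⟩⟩
  · rintro ⟨x, y, z, h⟩
    exact ⟨x, y, z, h.x0, h.x1, h.y0, h.y1, h.z0, h.z1, h.n1, h.n2, h.n3⟩

private theorem mb_prop (l m n H : ℕ) : prop l m n H RationalNE =
    (Nat.card {c : Ix l m n → Fin (H + 1) // ∃ (x : Fin l → ℚ) (y : Fin m → ℚ) (z : Fin n → ℚ),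
        NE (fun i => (c i : ℕ)) x y z} : ℝ) / ((H : ℝ) + 1) ^ Fintype.card (Ix l m n) := by
  obtain ⟨e, he⟩ := enc l m n
  have hc : Fintype.card (Ix l m n) = 3 * l * m * n := by
    rw [Fintype.card_congr e, Fintype.card_fin]
  unfold prop
  rw [card_enc e H, hc]
  congr 2
  refine Nat.card_congr (Equiv.subtypeEquivRight fun u => ?_)
  have h1 : uu (l, m, n, List.ofFn fun i => ((u (e.symm i) : Fin (H + 1)) : ℕ)) =
      fun i => (u i : ℕ) := by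
    funext i
    have h := pay_of e he (fun j => ((u (e.symm j) : Fin (H + 1)) : ℕ)) i
    rw [Equiv.symm_apply_apply] at h
    exact h
  rw [mb_ne]
  show (∃ (x : Fin l → ℚ) (y : Fin m → ℚ) (z : Fin n → ℚ),
    NE (uu (l, m, n, List.ofFn fun i => ((u (e.symm i) : Fin (H + 1)) : ℕ))) x y z) ↔ _
  rw [h1]

theorem mainB : ∃ D : ℕ × ℕ × ℕ × List ℕ → Prop, ComputablePred D ∧
    ComputablePred (fun g => D g ∧ RationalNE g) ∧
    (∀ g, D g → ∀ (x : Fin g.1 → ℝ) (y : Fin g.2.1 → ℝ) (z : Fin g.2.2.1 → ℝ), Nash ℝ g x y z →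
      (((∀ a, ∃ q : ℚ, x a = q) ∧ (∀ b, ∃ q : ℚ, y b = q) ∧ (∀ c, ∃ q : ℚ, z c = q)) ↔
        ((∃ a, x a = 1) ∨ (∃ b, y b = 1) ∨ ∃ c, z c = 1))) ∧
    (∀ l m n : ℕ, 1 ≤ l → 1 ≤ m → 1 ≤ n →
      Tendsto (fun H => prop l m n H D) atTop (𝓝 1) ∧
      Tendsto (fun H => prop l m n H RationalNE) atTop (𝓝 (purePr l m n))) ∧
    (∀ l m n : ℕ, 2 ≤ l → 2 ≤ m → 2 ≤ n → 0 < purePr l m n ∧ purePr l m n < 1) := by
  obtain ⟨D, h1, h2, h3, h4, -⟩ := mainA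
  refine ⟨D, h1, h2, h3, fun l m n hl hm hn => ⟨h4 l m n hl hm hn, ?_⟩, fun l m n hl hm hn => ?_⟩
  · rw [mb_pure]
    refine (qlim l m n hl hm hn).congr fun H => ?_
    exact (mb_prop l m n H).symm
  · rw [mb_pure]
    exact qpos l m n hl hm hn

end Pool.Agent.Work.MP_9d4f6b_lc.AG
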