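import Pool.Agent.Work.MP_9d4f6b_lc.AG.Defs

/-!
MODULE PRM (size S-M). A nonzero rational vector is proportional to a primitive integral vector.

PROOF. Let d > 0 be a common denominator (product of the denominators, or IsLocalization.exist_integer_multiples), X' a = d x a
integers, not all zero, g = gcd of the X' a (Finset.univ.gcd X', nonzero), X a = X' a / g. Then Finset.univ.gcd X = 1
(Finset.gcd_div_eq_one / extract_gcd), so no prime divides all X a. r = d / g.
-/

set_option linter.unusedVariables false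
set_option linter.style.longLine false
set_option autoImplicit false

namespace Pool.Agent.Work.MP_9d4f6b_lc.AG

theorem prm {A : Type} [Fintype A] (x : A → ℚ) (hx : ∃ a, x a ≠ 0) :
    ∃ (X : A → ℤ) (r : ℚ), r ≠ 0 ∧ (∀ a, (X a : ℚ) = r * x a) ∧
      ∀ p : ℕ, p.Prime → ∃ a, ¬ (p : ℤ) ∣ X a := by
  classical
  obtain ⟨a0, ha0⟩ := hx
  set D : ℕ := ∏ a, (x a).den with hD
  have hD0 : D ≠ 0 := Finset.prod_ne_zero_iff.2 fun a _ => (x a).den_ne_zero
  have hX' : ∀ a, ∃ z : ℤ, (z : ℚ) = (D : ℚ) * x a := by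
    intro a
    obtain ⟨k, hk⟩ : (x a).den ∣ D := Finset.dvd_prod_of_mem _ (Finset.mem_univ a)
    refine ⟨(k : ℤ) * (x a).num, ?_⟩
    have h1 : ((x a).den : ℚ) * x a = (x a).num := by
      rw [mul_comm]
      exact Rat.mul_den_eq_num (x a)
    rw [hk]
    push_cast
    rw [← h1]
    ring
  choose X' hX'e using hX'
  obtain ⟨X, hX, hg⟩ := Finset.extract_gcd (s := Finset.univ) X' ⟨a0, Finset.mem_univ a0⟩
  set G : ℤ := Finset.univ.gcd X' with hG
  have hG0 : G ≠ 0 := by
    intro h
    have h1 := hX a0 (Finset.mem_univ a0)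
    rw [h, zero_mul] at h1
    have h2 := hX'e a0
    rw [h1] at h2
    have h3 : (D : ℚ) * x a0 ≠ 0 := mul_ne_zero (Nat.cast_ne_zero.2 hD0) ha0
    apply h3
    rw [← h2]
    simp
  have hGq : (G : ℚ) ≠ 0 := Int.cast_ne_zero.2 hG0
  refine ⟨X, (D : ℚ) / G, div_ne_zero (Nat.cast_ne_zero.2 hD0) hGq, ?_, ?_⟩
  · intro a
    have h1 := hX'e a
    rw [hX a (Finset.mem_univ a)] at h1
    push_cast at h1
    field_simp
    linarith
  · intro p hp
    by_contra hcon
    push Not at hcon
    have h1 : (p : ℤ) ∣ Finset.univ.gcd X := Finset.dvd_gcd fun a _ => hcon a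
    rw [hg] at h1
    have h2 : (p : ℤ) = 1 := Int.eq_one_of_dvd_one (by positivity) h1
    have h3 := hp.one_lt
    omega

end Pool.Agent.Work.MP_9d4f6b_lc.AG
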