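import Pool.Agent.Work.MP_9d4f6b_lc.AG.Sup
import Pool.Agent.Work.MP_9d4f6b_lc.AG.Prm

/-!
MODULE MODP (size M). A rational equilibrium gives a solution of the indifference system modulo every prime.

PROOF. x, y, z are nonzero (their sums are 1); take primitive X = r x, Y = s y, Z = t z (prm). X a mod p is 0 outside the support of
x and not all X a are 0 mod p (ZMod.intCast_zmod_eq_zero_iff_dvd / ZMod.intCast_cast, (ZMod.intCast_zmod_eq_zero_iff_dvd a p)).
By ne_cst the rational numbers ∑ u (0,a,b,c) (y b z c) agree for a, a' in the support; multiply by s t: the integers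
∑ u (0,a,b,c) (Y b Z c) agree; cast to ZMod p. Same for the other players.
-/

set_option linter.unusedVariables false
set_option linter.style.longLine false
set_option autoImplicit false

namespace Pool.Agent.Work.MP_9d4f6b_lc.AG

private theorem cst_mod {A B C : Type} [Fintype B] [Fintype C] (I : Finset A) (f : A → B → C → ℕ)
    (y : B → ℚ) (z : C → ℚ) (Y : B → ℤ) (Z : C → ℤ) (s t : ℚ) (hY : ∀ b, (Y b : ℚ) = s * y b)
    (hZ : ∀ c, (Z c : ℚ) = t * z c) (p : ℕ)
    (h : Cst I (fun a => ∑ b, ∑ c, (f a b c : ℚ) * (y b * z c))) :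
    Cst I (fun a => ∑ b, ∑ c, (f a b c : ZMod p) * ((Y b : ZMod p) * (Z c : ZMod p))) := by
  intro a ha a' ha'
  have h1 := h a ha a' ha'
  simp only at h1
  have h2 : ∀ a, (∑ b, ∑ c, (f a b c : ℚ) * ((Y b : ℚ) * (Z c : ℚ))) =
      s * t * ∑ b, ∑ c, (f a b c : ℚ) * (y b * z c) := by
    intro a
    rw [Finset.mul_sum]
    refine Finset.sum_congr rfl (fun b _ => ?_)
    rw [Finset.mul_sum]
    refine Finset.sum_congr rfl (fun c _ => ?_)
    rw [hY, hZ]
    ring
  have h3 : (∑ b, ∑ c, (f a b c : ℤ) * (Y b * Z c)) = ∑ b, ∑ c, (f a' b c : ℤ) * (Y b * Z c) := by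
    have : ((∑ b, ∑ c, (f a b c : ℤ) * (Y b * Z c) : ℤ) : ℚ) =
        ((∑ b, ∑ c, (f a' b c : ℤ) * (Y b * Z c) : ℤ) : ℚ) := by
      push_cast
      rw [h2 a, h2 a', h1]
    exact_mod_cast this
  have h4 := congrArg (fun k : ℤ => (k : ZMod p)) h3
  simp only at h4 ⊢
  push_cast at h4
  exact h4

private theorem sp_mod {A : Type} [Fintype A] (x : A → ℚ) (X : A → ℤ) (r : ℚ)
    (hX : ∀ b, (X b : ℚ) = r * x b) (p : ℕ) (hp : ∃ a, ¬ (p : ℤ) ∣ X a) :
    Sp (Finset.univ.filter fun a => x a ≠ 0) (fun a => (X a : ZMod p)) := by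
  constructor
  · intro i hi
    have h0 : x i = 0 := by
      by_contra hne
      exact hi (Finset.mem_filter.2 ⟨Finset.mem_univ i, hne⟩)
    have h1 : (X i : ℚ) = 0 := by rw [hX, h0, mul_zero]
    have h2 : X i = 0 := by exact_mod_cast h1
    show ((X i : ℤ) : ZMod p) = 0
    rw [h2, Int.cast_zero]
  · obtain ⟨a, ha⟩ := hp
    refine ⟨a, fun h => ha ?_⟩
    exact (ZMod.intCast_zmod_eq_zero_iff_dvd (X a) p).1 h

private theorem ex_ne {A : Type} [Fintype A] (x : A → ℚ) (x1 : ∑ a, x a = 1) : ∃ a, x a ≠ 0 := by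
  by_contra hne
  push Not at hne
  rw [Finset.sum_eq_zero (fun a _ => hne a)] at x1
  exact zero_ne_one x1

theorem modp {l m n : ℕ} {u : Ix l m n → ℕ} {x : Fin l → ℚ} {y : Fin m → ℚ} {z : Fin n → ℚ}
    (h : NE u x y z) (p : ℕ) (hp : p.Prime) :
    Sol3 (fun i => (u i : ZMod p)) (Finset.univ.filter fun a => x a ≠ 0)
      (Finset.univ.filter fun b => y b ≠ 0) (Finset.univ.filter fun c => z c ≠ 0) := by
  obtain ⟨c1, c2, c3⟩ := ne_cst h
  obtain ⟨X, r, hr, hX, pX⟩ := prm x (ex_ne x h.x1)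
  obtain ⟨Y, s, hs, hY, pY⟩ := prm y (ex_ne y h.y1)
  obtain ⟨Z, t, ht, hZ, pZ⟩ := prm z (ex_ne z h.z1)
  exact ⟨fun a => (X a : ZMod p), fun b => (Y b : ZMod p), fun c => (Z c : ZMod p),
    sp_mod x X r hX p (pX p hp), sp_mod y Y s hY p (pY p hp), sp_mod z Z t hZ p (pZ p hp),
    cst_mod _ (fun a b c => u (0, a, b, c)) y z Y Z s t hY hZ p c1,
    cst_mod _ (fun b a c => u (1, a, b, c)) x z X Z r t hX hZ p c2,
    cst_mod _ (fun c a b => u (2, a, b, c)) x y X Y r s hX hY p c3⟩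

end Pool.Agent.Work.MP_9d4f6b_lc.AG
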