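import Pool.Agent.Work.MP_9d4f6b_lc.AG.Prod3
import Pool.Agent.Work.MP_9d4f6b_lc.AG.Blk
import Pool.Agent.Work.MP_9d4f6b_lc.AG.PtC

/-!
MODULE MOM1 (size M). First moment of the number NN of projective solutions. q = card F, s = e1 + e2 + e3 = α + β + γ.

PROOF. Double counting: ∑ w, NN w = ∑ P, card {w // Slv w P} (sum over P = (x, y, z) of points; exchange the two
sums of indicator functions, or Nat.card of the sigma types / Finset.sum_comm). For one point P:
prod3 with τ = Unit and blk_eq with τ = Unit (one tensor y ⊗ z ≠ 0 is linearly independent: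
linearIndependent_unique; a nonzero entry of y.rep times a nonzero entry of z.rep) give
card {w // Slv w P} * q^s = card WW (card_WW). Number of points: by pt_mul each factor satisfies
card (Pt F n) * (q - 1) ≤ q^(n+1), so (number of P) * (q - 1)^3 ≤ q^(s + 3). Multiply:
(∑ NN) * (q-1)^3 * q^s = (number of P) * card WW * (q-1)^3 ≤ q^(s+3) * card WW; cancel q^s > 0.
-/

set_option linter.unusedVariables false
set_option linter.style.longLine false
set_option autoImplicit false

namespace Pool.Agent.Work.MP_9d4f6b_lc.AG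

private theorem mom1_indep {F : Type} [Field F] {J K : Type} (y : J → F) (z : K → F) (hy : y ≠ 0)
    (hz : z ≠ 0) : LinearIndependent F (fun (_ : Unit) (p : J × K) => y p.1 * z p.2) := by
  rw [linearIndependent_unique_iff]
  intro h
  obtain ⟨j, hj⟩ := Function.ne_iff.1 hy
  obtain ⟨k, hk⟩ := Function.ne_iff.1 hz
  have := congrFun h (j, k)
  simp only [Pi.zero_apply, mul_eq_zero] at this
  rcases this with h1 | h1
  · exact hj h1
  · exact hk h1

private theorem mom1_one {F : Type} [Field F] [Fintype F] {α β γ e1 e2 e3 : ℕ}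
    (x : Fin (α + 1) → F) (y : Fin (β + 1) → F) (z : Fin (γ + 1) → F) (hx : x ≠ 0) (hy : y ≠ 0)
    (hz : z ≠ 0) :
    Nat.card {w : WW F α β γ e1 e2 e3 // Slv w x y z} * Fintype.card F ^ (e1 + e2 + e3) =
      Nat.card (WW F α β γ e1 e2 e3) := by
  have h0 : Nat.card {w : WW F α β γ e1 e2 e3 // Slv w x y z} =
      Nat.card {w : WW F α β γ e1 e2 e3 // ∀ t : Unit, Slv w ((fun _ => x) t) ((fun _ => y) t) ((fun _ => z) t)} :=
    Nat.card_congr (Equiv.subtypeEquivRight (fun w => by simp))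
  rw [h0, prod3, card_WW]
  have h1 := blk_eq e1 (fun _ : Unit => y) (fun _ : Unit => z) (mom1_indep y z hy hz)
  have h2 := blk_eq e2 (fun _ : Unit => x) (fun _ : Unit => z) (mom1_indep x z hx hz)
  have h3 := blk_eq e3 (fun _ : Unit => x) (fun _ : Unit => y) (mom1_indep x y hx hy)
  simp only [Fintype.card_unit, mul_one, Fintype.card_fin] at h1 h2 h3
  rw [← h1, ← h2, ← h3, pow_add, pow_add]
  ring

theorem mom1 {F : Type} [Field F] [Fintype F] {α β γ e1 e2 e3 : ℕ} (hs : e1 + e2 + e3 = α + β + γ) :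
    (∑ w : WW F α β γ e1 e2 e3, NN w) * (Fintype.card F - 1) ^ 3 ≤
      Nat.card (WW F α β γ e1 e2 e3) * Fintype.card F ^ 3 := by
  classical
  have : Finite (Pt F α) := inferInstance
  have : Fintype (Pt F α × Pt F β × Pt F γ) := Fintype.ofFinite _
  have : Finite (WW F α β γ e1 e2 e3) := inferInstance
  have : ∀ P : Pt F α × Pt F β × Pt F γ,
      Finite {w : WW F α β γ e1 e2 e3 // Slv w P.1.rep P.2.1.rep P.2.2.rep} :=
    fun P => Subtype.finite
  have hq : 0 < Fintype.card F := Fintype.card_pos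
  have e1' : (∑ w : WW F α β γ e1 e2 e3, NN w) =
      ∑ P : Pt F α × Pt F β × Pt F γ,
        Nat.card {w : WW F α β γ e1 e2 e3 // Slv w P.1.rep P.2.1.rep P.2.2.rep} := by
    unfold NN
    rw [← Nat.card_sigma, ← Nat.card_sigma]
    exact Nat.card_congr
      { toFun := fun a => ⟨a.2.1, ⟨a.1, a.2.2⟩⟩
        invFun := fun a => ⟨a.2.1, ⟨a.1, a.2.2⟩⟩
        left_inv := fun a => rfl
        right_inv := fun a => rfl }
  have e2' : (∑ w : WW F α β γ e1 e2 e3, NN w) * Fintype.card F ^ (e1 + e2 + e3) =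
      Nat.card (Pt F α) * Nat.card (Pt F β) * Nat.card (Pt F γ) *
        Nat.card (WW F α β γ e1 e2 e3) := by
    rw [e1', Finset.sum_mul, Finset.sum_congr rfl (fun P _ => mom1_one P.1.rep P.2.1.rep P.2.2.rep
      P.1.rep_nonzero P.2.1.rep_nonzero P.2.2.rep_nonzero), Finset.sum_const, Finset.card_univ,
      smul_eq_mul, ← Nat.card_eq_fintype_card, Nat.card_prod, Nat.card_prod]
    ring
  have p1 := pt_mul F α
  have p2 := pt_mul F β
  have p3 := pt_mul F γ
  have hle : Nat.card (Pt F α) * Nat.card (Pt F β) * Nat.card (Pt F γ) * (Fintype.card F - 1) ^ 3 ≤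
      Fintype.card F ^ (e1 + e2 + e3) * Fintype.card F ^ 3 := by
    calc Nat.card (Pt F α) * Nat.card (Pt F β) * Nat.card (Pt F γ) * (Fintype.card F - 1) ^ 3
        = (Nat.card (Pt F α) * (Fintype.card F - 1)) * (Nat.card (Pt F β) * (Fintype.card F - 1)) *
          (Nat.card (Pt F γ) * (Fintype.card F - 1)) := by ring
      _ ≤ Fintype.card F ^ (α + 1) * Fintype.card F ^ (β + 1) * Fintype.card F ^ (γ + 1) :=
          Nat.mul_le_mul (Nat.mul_le_mul p1 p2) p3
      _ = Fintype.card F ^ (e1 + e2 + e3) * Fintype.card F ^ 3 := by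
          rw [hs, ← pow_add, ← pow_add, ← pow_add]; congr 1; ring
  refine Nat.le_of_mul_le_mul_right ?_ (pow_pos hq (e1 + e2 + e3))
  calc (∑ w : WW F α β γ e1 e2 e3, NN w) * (Fintype.card F - 1) ^ 3 * Fintype.card F ^ (e1 + e2 + e3)
      = ((∑ w : WW F α β γ e1 e2 e3, NN w) * Fintype.card F ^ (e1 + e2 + e3)) *
        (Fintype.card F - 1) ^ 3 := by ring
    _ = (Nat.card (Pt F α) * Nat.card (Pt F β) * Nat.card (Pt F γ) * (Fintype.card F - 1) ^ 3) *
        Nat.card (WW F α β γ e1 e2 e3) := by rw [e2']; ring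
    _ ≤ (Fintype.card F ^ (e1 + e2 + e3) * Fintype.card F ^ 3) *
        Nat.card (WW F α β γ e1 e2 e3) := Nat.mul_le_mul_right _ hle
    _ = Nat.card (WW F α β γ e1 e2 e3) * Fintype.card F ^ 3 * Fintype.card F ^ (e1 + e2 + e3) := by
        ring

end Pool.Agent.Work.MP_9d4f6b_lc.AG
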