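import Pool.Agent.Work.MP_9d4f6b_lc.AG.Cod
import Pool.Agent.Work.MP_9d4f6b_lc.Dig

/-!
MODULE MSK (size M). Codes of subsets and of vectors modulo p.

PROOF. fsm: apply exists_digits (Dig.lean) with q = 2 and the indicator function of I. cdS_eq: the digits in base 2 are 0 or 1, so the sum
is the number of a < k with nonzero digit = card of the filter over Fin k. vec: exists_digits with q = p and the values
(y i).val (ZMod.val_lt). prC_iff: Nat.prime_def_lt'' / Nat.prime_def_lt' or similar. spC_iff, csC_iff: a digit in base p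
is < p (p > 0), so its cast to ZMod p is 0 iff it is 0 (ZMod.natCast_eq_zero_iff, Nat.eq_zero_of_dvd_of_lt);
f a % p = f a' % p iff the casts agree (ZMod.natCast_eq_natCast_iff').
-/

set_option linter.unusedVariables false
set_option linter.style.longLine false
set_option autoImplicit false

namespace Pool.Agent.Work.MP_9d4f6b_lc.AG

/-- the subset coded by s -/
def fs (s k : ℕ) : Finset (Fin k) := Finset.univ.filter fun a => dig 2 s a ≠ 0

/-- the vector modulo p coded by N -/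
def vc (p N k : ℕ) : Fin k → ZMod p := fun a => ((dig p N a : ℕ) : ZMod p)

theorem fsm (k : ℕ) (I : Finset (Fin k)) : ∃ s < 2 ^ k, fs s k = I := by
  classical
  obtain ⟨N, hN, hd⟩ := exists_digits 2 k
    (fun i => if h : i < k then (if (⟨i, h⟩ : Fin k) ∈ I then 1 else 0) else 0) (by
      intro i hi
      show (if h : i < k then (if (⟨i, h⟩ : Fin k) ∈ I then 1 else 0) else 0) < 2
      rw [dif_pos hi]
      split_ifs <;> norm_num)
  refine ⟨N, hN, ?_⟩
  ext a
  have h1 := hd a.val a.isLt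
  rw [dif_pos a.isLt] at h1
  unfold fs
  rw [Finset.mem_filter, h1]
  by_cases ha : a ∈ I
  · simp [ha]
  · simp [ha]

theorem cdS_eq (s k : ℕ) : cdS s k = (fs s k).card := by
  unfold cdS fs
  rw [Finset.card_filter, Finset.sum_range]
  refine Finset.sum_congr rfl fun a _ => ?_
  have h1 : dig 2 s a < 2 := Nat.mod_lt _ (by norm_num)
  split_ifs with h <;> omega

theorem vec (p k : ℕ) (hp : 0 < p) (y : Fin k → ZMod p) : ∃ N < p ^ k, vc p N k = y := by
  have _ : NeZero p := ⟨hp.ne'⟩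
  obtain ⟨N, hN, hd⟩ := exists_digits p k
    (fun i => if h : i < k then (y ⟨i, h⟩).val else 0) (by
      intro i hi
      show (if h : i < k then (y ⟨i, h⟩).val else 0) < p
      rw [dif_pos hi]
      exact ZMod.val_lt _)
  refine ⟨N, hN, ?_⟩
  funext a
  have h1 := hd a.val a.isLt
  rw [dif_pos a.isLt] at h1
  unfold vc
  rw [h1]
  exact ZMod.natCast_zmod_val _

theorem prC_iff (p : ℕ) : PrC p ↔ p.Prime := by
  rw [Nat.prime_def_lt']
  unfold PrC
  constructor
  · rintro ⟨h1, h2⟩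
    exact ⟨h1, fun m hm1 hm2 hd => h2 m hm2 hm1 (Nat.mod_eq_zero_of_dvd hd)⟩
  · rintro ⟨h1, h2⟩
    exact ⟨h1, fun m hm1 hm2 hd => h2 m hm2 hm1 (Nat.dvd_of_mod_eq_zero hd)⟩

private theorem msk_zero (p N a : ℕ) (hp : 0 < p) :
    ((dig p N a : ℕ) : ZMod p) = 0 ↔ dig p N a = 0 := by
  rw [ZMod.natCast_eq_zero_iff]
  constructor
  · intro h
    exact Nat.eq_zero_of_dvd_of_lt h (Nat.mod_lt _ hp)
  · intro h
    rw [h]
    exact dvd_zero p

private theorem msk_mem (s k : ℕ) (a : Fin k) : a ∈ fs s k ↔ dig 2 s a ≠ 0 := by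
  unfold fs
  rw [Finset.mem_filter]
  exact ⟨fun h => h.2, fun h => ⟨Finset.mem_univ _, h⟩⟩

theorem spC_iff (p s k N : ℕ) (hp : 0 < p) : SpC p s k N ↔ Sp (fs s k) (vc p N k) := by
  unfold SpC Sp vc
  constructor
  · rintro ⟨h1, a, ha, h2⟩
    refine ⟨fun i hi => ?_, ⟨a, ha⟩, fun h => h2 ((msk_zero p N a hp).1 h)⟩
    rw [msk_mem, not_not] at hi
    rw [msk_zero p N i hp]
    exact h1 i i.isLt hi
  · rintro ⟨h1, a, h2⟩
    refine ⟨fun i hi h0 => ?_, a, a.isLt, fun h => h2 ((msk_zero p N a hp).2 h)⟩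
    have h3 := h1 ⟨i, hi⟩ (by rw [msk_mem, not_not]; exact h0)
    exact (msk_zero p N i hp).1 h3

theorem csC_iff (p s k : ℕ) (f : ℕ → ℕ) :
    CsC p s k f ↔ Cst (fs s k) (fun a : Fin k => ((f a : ℕ) : ZMod p)) := by
  unfold CsC Cst
  constructor
  · intro h a ha a' ha'
    rw [msk_mem] at ha ha'
    exact (ZMod.natCast_eq_natCast_iff' _ _ _).2 (h a a.isLt a' a'.isLt ha ha')
  · intro h a ha a' ha' h1 h2
    exact (ZMod.natCast_eq_natCast_iff' _ _ _).1
      (h ⟨a, ha⟩ ((msk_mem s k ⟨a, ha⟩).2 h1) ⟨a', ha'⟩ ((msk_mem s k ⟨a', ha'⟩).2 h2))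

end Pool.Agent.Work.MP_9d4f6b_lc.AG
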