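import Pool.Agent.Work.MP_9d4f6b_lc.AG.PrB

/-!
MODULE PRL (size M). GLC is primitive recursive, uniformly in parameters.

PROOF. Unfold GLC and LinC: bounded quantifiers (rc_ball, rc_bex, rc_imp, PrimrecPred.and / .not) over α × ℕ × ... as in
pr_n1 of Prim.lean, with sums prim_sum; f a i j is the entry of the matrix. The hypothesis hP says that
(a, i, j) ↦ P a i j is primitive recursive; use it composed with projections.
-/

set_option linter.unusedVariables false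
set_option linter.style.longLine false
set_option autoImplicit false

namespace Pool.Agent.Work.MP_9d4f6b_lc.AG

private theorem prLin {α : Type} [Primcodable α] {k1 k2 : α → ℕ} {P : α → ℕ → ℕ → ℕ}
    (h1 : Primrec k1) (h2 : Primrec k2) (hP : Primrec fun t : α × ℕ × ℕ => P t.1 t.2.1 t.2.2) :
    PrimrecPred fun t : α × ℕ × ℕ × ℕ × ℕ =>
      LinC (P t.1) (k1 t.1) (k2 t.1) t.2.1 t.2.2.1 t.2.2.2.1 t.2.2.2.2 := by
  unfold LinC
  have a0 : Primrec fun t : α × ℕ × ℕ × ℕ × ℕ => t.1 := Primrec.fst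
  have aI : Primrec fun t : α × ℕ × ℕ × ℕ × ℕ => t.2.1 := Primrec.fst.comp Primrec.snd
  have aJ : Primrec fun t : α × ℕ × ℕ × ℕ × ℕ => t.2.2.1 := Primrec.fst.comp (Primrec.snd.comp Primrec.snd)
  have ap : Primrec fun t : α × ℕ × ℕ × ℕ × ℕ => t.2.2.2.1 :=
    Primrec.fst.comp (Primrec.snd.comp (Primrec.snd.comp Primrec.snd))
  have aN : Primrec fun t : α × ℕ × ℕ × ℕ × ℕ => t.2.2.2.2 :=
    Primrec.snd.comp (Primrec.snd.comp (Primrec.snd.comp Primrec.snd))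
  have ak1 : Primrec fun t : α × ℕ × ℕ × ℕ × ℕ => k1 t.1 := h1.comp a0
  have ak2 : Primrec fun t : α × ℕ × ℕ × ℕ × ℕ => k2 t.1 := h2.comp a0
  refine PrimrecPred.and (rc_spC ap aJ ak2 aN) (PrimrecPred.and (rc_imp ?_ ?_) ?_)
  · exact Primrec.eq.comp (rc_cdS aI ak1) (rc_cdS aJ ak2)
  · refine Primrec.eq.comp (rc_mod (prim_sum ak2 ?_) ap) (Primrec.const 0)
    exact (rc_dig (ap.comp Primrec.fst) (aN.comp Primrec.fst) Primrec.snd).to₂
  · refine rc_csC ap aI ak1 ?_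
    have hs : Primrec fun s : (α × ℕ × ℕ × ℕ × ℕ) × ℕ =>
        ∑ b ∈ Finset.range (k2 s.1.1), P s.1.1 s.2 b * dig s.1.2.2.2.1 s.1.2.2.2.2 b := by
      refine prim_sum (ak2.comp Primrec.fst) ?_
      have b0 : Primrec fun u : ((α × ℕ × ℕ × ℕ × ℕ) × ℕ) × ℕ => u.1.1 := Primrec.fst.comp Primrec.fst
      have e1 : Primrec fun u : ((α × ℕ × ℕ × ℕ × ℕ) × ℕ) × ℕ => P u.1.1.1 u.1.2 u.2 :=
        hP.comp (Primrec.pair (a0.comp b0) (Primrec.pair (Primrec.snd.comp Primrec.fst) Primrec.snd))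
      have e2 : Primrec fun u : ((α × ℕ × ℕ × ℕ × ℕ) × ℕ) × ℕ => dig u.1.1.2.2.2.1 u.1.1.2.2.2.2 u.2 :=
        rc_dig (ap.comp b0) (aN.comp b0) Primrec.snd
      exact (rc_mul e1 e2).to₂
    exact hs.to₂

theorem prL {α : Type} [Primcodable α] {S k1 k2 : α → ℕ} {P : α → ℕ → ℕ → ℕ} (hS : Primrec S)
    (h1 : Primrec k1) (h2 : Primrec k2) (hP : Primrec fun t : α × ℕ × ℕ => P t.1 t.2.1 t.2.2) :
    PrimrecPred fun a => GLC (S a) (P a) (k1 a) (k2 a) := by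
  have hL := prLin h1 h2 hP
  -- context `(a, sI, sJ, p)`
  have h4 : PrimrecPred fun t : α × ℕ × ℕ × ℕ =>
      ∀ N < t.2.2.2 ^ k2 t.1, ¬ LinC (P t.1) (k1 t.1) (k2 t.1) t.2.1 t.2.2.1 t.2.2.2 N := by
    refine rc_ball (rc_pow (Primrec.snd.comp (Primrec.snd.comp Primrec.snd)) (h2.comp Primrec.fst)) ?_
    refine PrimrecPred.not (PrimrecPred.comp (f := fun u : (α × ℕ × ℕ × ℕ) × ℕ =>
      (u.1.1, u.1.2.1, u.1.2.2.1, u.1.2.2.2, u.2)) hL ?_)
    exact Primrec.pair (Primrec.fst.comp Primrec.fst) (Primrec.pair (Primrec.fst.comp (Primrec.snd.comp Primrec.fst))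
      (Primrec.pair (Primrec.fst.comp (Primrec.snd.comp (Primrec.snd.comp Primrec.fst)))
        (Primrec.pair (Primrec.snd.comp (Primrec.snd.comp (Primrec.snd.comp Primrec.fst))) Primrec.snd)))
  -- context `(a, sI, sJ)`
  have h3 : PrimrecPred fun t : α × ℕ × ℕ => ∃ p < S t.1 + 1, PrC p ∧
      ∀ N < p ^ k2 t.1, ¬ LinC (P t.1) (k1 t.1) (k2 t.1) t.2.1 t.2.2 p N := by
    refine rc_bex (rc_add (hS.comp Primrec.fst) (Primrec.const 1)) ?_
    refine PrimrecPred.and (rc_prC Primrec.snd) (PrimrecPred.comp (f := fun u : (α × ℕ × ℕ) × ℕ =>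
      (u.1.1, u.1.2.1, u.1.2.2, u.2)) h4 ?_)
    exact Primrec.pair (Primrec.fst.comp Primrec.fst) (Primrec.pair (Primrec.fst.comp (Primrec.snd.comp Primrec.fst))
      (Primrec.pair (Primrec.snd.comp (Primrec.snd.comp Primrec.fst)) Primrec.snd))
  have h3' : PrimrecPred fun t : α × ℕ × ℕ => 1 ≤ cdS t.2.2 (k2 t.1) → cdS t.2.2 (k2 t.1) ≤ cdS t.2.1 (k1 t.1) →
      ∃ p < S t.1 + 1, PrC p ∧ ∀ N < p ^ k2 t.1, ¬ LinC (P t.1) (k1 t.1) (k2 t.1) t.2.1 t.2.2 p N := by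
    have c2 : Primrec fun t : α × ℕ × ℕ => cdS t.2.2 (k2 t.1) :=
      rc_cdS (Primrec.snd.comp Primrec.snd) (h2.comp Primrec.fst)
    have c1 : Primrec fun t : α × ℕ × ℕ => cdS t.2.1 (k1 t.1) :=
      rc_cdS (Primrec.fst.comp Primrec.snd) (h1.comp Primrec.fst)
    exact rc_imp (Primrec.nat_le.comp (Primrec.const 1) c2) (rc_imp (Primrec.nat_le.comp c2 c1) h3)
  -- context `(a, sI)`
  have h2' : PrimrecPred fun t : α × ℕ => ∀ sJ < 2 ^ k2 t.1, 1 ≤ cdS sJ (k2 t.1) →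
      cdS sJ (k2 t.1) ≤ cdS t.2 (k1 t.1) →
      ∃ p < S t.1 + 1, PrC p ∧ ∀ N < p ^ k2 t.1, ¬ LinC (P t.1) (k1 t.1) (k2 t.1) t.2 sJ p N := by
    refine rc_ball (rc_pow (Primrec.const 2) (h2.comp Primrec.fst)) ?_
    refine PrimrecPred.comp (f := fun u : (α × ℕ) × ℕ => (u.1.1, u.1.2, u.2)) h3' ?_
    exact Primrec.pair (Primrec.fst.comp Primrec.fst) (Primrec.pair (Primrec.snd.comp Primrec.fst) Primrec.snd)
  unfold GLC
  exact rc_ball (rc_pow (Primrec.const 2) h1) h2'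

end Pool.Agent.Work.MP_9d4f6b_lc.AG
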