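import Pool.Agent.Work.MP_9d4f6b_lc.AG.Defs

/-!
MODULE PROD3 (size S). The three blocks are independent.

PROOF. Slv is a conjunction of a condition on w.1, one on w.2.1 and one on w.2.2; the subtype is equivalent to the
product of the three subtypes (build the equivalence by hand); Nat.card_prod.
card_WW: Fintype.card of functions and products.
-/

set_option linter.unusedVariables false
set_option linter.style.longLine false
set_option autoImplicit false

namespace Pool.Agent.Work.MP_9d4f6b_lc.AG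

theorem prod3 {F : Type} [Field F] [Fintype F] {α β γ e1 e2 e3 : ℕ} {τ : Type}
    (x : τ → Fin (α + 1) → F) (y : τ → Fin (β + 1) → F) (z : τ → Fin (γ + 1) → F) :
    Nat.card {w : WW F α β γ e1 e2 e3 // ∀ t, Slv w (x t) (y t) (z t)} =
      Nat.card {w : Fin e1 → Fin (β + 1) → Fin (γ + 1) → F // ∀ t i, bf (w i) (y t) (z t) = 0} *
      Nat.card {w : Fin e2 → Fin (α + 1) → Fin (γ + 1) → F // ∀ t i, bf (w i) (x t) (z t) = 0} *
      Nat.card {w : Fin e3 → Fin (α + 1) → Fin (β + 1) → F // ∀ t i, bf (w i) (x t) (y t) = 0} := by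
  rw [mul_assoc, ← Nat.card_prod, ← Nat.card_prod]
  refine Nat.card_congr
    { toFun := fun w => (⟨w.1.1, fun t i => (w.2 t).1 i⟩,
        ⟨w.1.2.1, fun t i => (w.2 t).2.1 i⟩, ⟨w.1.2.2, fun t i => (w.2 t).2.2 i⟩)
      invFun := fun v => ⟨(v.1.1, v.2.1.1, v.2.2.1),
        fun t => ⟨fun i => v.1.2 t i, fun i => v.2.1.2 t i, fun i => v.2.2.2 t i⟩⟩
      left_inv := fun w => rfl
      right_inv := fun v => rfl }

theorem card_WW (F : Type) [Field F] [Fintype F] (α β γ e1 e2 e3 : ℕ) :
    Nat.card (WW F α β γ e1 e2 e3) = Fintype.card F ^ (e1 * ((β + 1) * (γ + 1))) *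
      Fintype.card F ^ (e2 * ((α + 1) * (γ + 1))) * Fintype.card F ^ (e3 * ((α + 1) * (β + 1))) := by
  have h : ∀ e a b : ℕ, Nat.card (Fin e → Fin a → Fin b → F) = Fintype.card F ^ (e * (a * b)) := by
    intro e a b
    rw [Nat.card_fun, Nat.card_fun, Nat.card_fun, Nat.card_eq_fintype_card, Nat.card_fin,
      Nat.card_fin, Nat.card_fin, ← pow_mul, ← pow_mul]
    congr 1
    ring
  unfold WW
  rw [Nat.card_prod, Nat.card_prod, h, h, h, mul_assoc]

end Pool.Agent.Work.MP_9d4f6b_lc.AG
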