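import Pool.Agent.Work.MP_9d4f6b_lc.AG.QDefs

/-!
MODULE QCL (size M). WS is compact.

PROOF. Let K be the set of the (u, x, y, z) in the product of the cube [0,1]^(Ix l m n) (Set.pi univ Icc, compact: isCompact_univ_pi) and
the three cubes [0,1]^l, [0,1]^m, [0,1]^n with NEG and a pure player. K is closed in this compact product: all conditions are equalities
and inequalities between continuous functions (isClosed_le, isClosed_eq, isClosed_iInter / isClosed_setOf ∀), the condition ∃ a, x a = 1 is a finite union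
(isClosed_iUnion_of_finite), x a ≤ 1 follows from ∑ x = 1, x ≥ 0. So K is compact and WS is its image under the first projection
(IsCompact.image continuous_fst).
-/

set_option linter.unusedVariables false
set_option linter.style.longLine false
set_option autoImplicit false

namespace Pool.Agent.Work.MP_9d4f6b_lc.AG

private abbrev QT (l m n : ℕ) := (Ix l m n → ℝ) × (Fin l → ℝ) × (Fin m → ℝ) × (Fin n → ℝ)

private def KK (l m n : ℕ) : Set (QT l m n) :=
  {p | NEG (fun a b c => p.1 (0, a, b, c)) (fun a b c => p.1 (1, a, b, c))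
      (fun a b c => p.1 (2, a, b, c)) p.2.1 p.2.2.1 p.2.2.2} ∩
    {p | (∃ a, p.2.1 a = 1) ∨ (∃ b, p.2.2.1 b = 1) ∨ ∃ c, p.2.2.2 c = 1}

private theorem cl_ex {X A : Type} [TopologicalSpace X] [Finite A] (f : A → X → ℝ)
    (hf : ∀ a, Continuous (f a)) : IsClosed {p | ∃ a, f a p = 1} := by
  have h : {p | ∃ a, f a p = 1} = ⋃ a, {p | f a p = 1} := by
    ext p
    simp
  rw [h]
  exact isClosed_iUnion_of_finite fun a => isClosed_eq (hf a) continuous_const

private theorem cl_all {X A : Type} [TopologicalSpace X] (f g : A → X → ℝ)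
    (hf : ∀ a, Continuous (f a)) (hg : ∀ a, Continuous (g a)) :
    IsClosed {p | ∀ a, f a p ≤ g a p} := by
  have h : {p | ∀ a, f a p ≤ g a p} = ⋂ a, {p | f a p ≤ g a p} := by
    ext p
    simp
  rw [h]
  exact isClosed_iInter fun a => isClosed_le (hf a) (hg a)

private theorem kk_closed (l m n : ℕ) : IsClosed (KK l m n) := by
  apply IsClosed.inter
  · have h : {p : QT l m n | NEG (fun a b c => p.1 (0, a, b, c)) (fun a b c => p.1 (1, a, b, c))
        (fun a b c => p.1 (2, a, b, c)) p.2.1 p.2.2.1 p.2.2.2} =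
        {p : QT l m n | ∀ a, 0 ≤ p.2.1 a} ∩ {p : QT l m n | ∑ a, p.2.1 a = 1} ∩
        {p : QT l m n | ∀ a, 0 ≤ p.2.2.1 a} ∩ {p : QT l m n | ∑ a, p.2.2.1 a = 1} ∩
        {p : QT l m n | ∀ a, 0 ≤ p.2.2.2 a} ∩ {p : QT l m n | ∑ a, p.2.2.2 a = 1} ∩
        {p : QT l m n | ∀ a₀, ∑ b, ∑ c, p.2.2.1 b * p.2.2.2 c * p.1 (0, a₀, b, c) ≤
          ∑ a, ∑ b, ∑ c, p.2.1 a * p.2.2.1 b * p.2.2.2 c * p.1 (0, a, b, c)} ∩
        {p : QT l m n | ∀ b₀, ∑ a, ∑ c, p.2.1 a * p.2.2.2 c * p.1 (1, a, b₀, c) ≤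
          ∑ a, ∑ b, ∑ c, p.2.1 a * p.2.2.1 b * p.2.2.2 c * p.1 (1, a, b, c)} ∩
        {p : QT l m n | ∀ c₀, ∑ a, ∑ b, p.2.1 a * p.2.2.1 b * p.1 (2, a, b, c₀) ≤
          ∑ a, ∑ b, ∑ c, p.2.1 a * p.2.2.1 b * p.2.2.2 c * p.1 (2, a, b, c)} := by
      ext p
      constructor
      · intro h
        exact ⟨⟨⟨⟨⟨⟨⟨⟨h.x0, h.x1⟩, h.y0⟩, h.y1⟩, h.z0⟩, h.z1⟩, h.n1⟩, h.n2⟩, h.n3⟩
      · rintro ⟨⟨⟨⟨⟨⟨⟨⟨h1, h2⟩, h3⟩, h4⟩, h5⟩, h6⟩, h7⟩, h8⟩, h9⟩
        exact ⟨h1, h2, h3, h4, h5, h6, h7, h8, h9⟩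
    rw [h]
    refine ((((((((?_ : IsClosed _).inter ?_).inter ?_).inter ?_).inter ?_).inter ?_).inter
      ?_).inter ?_).inter ?_
    · exact cl_all _ _ (fun a => continuous_const) (fun a => by fun_prop)
    · exact isClosed_eq (by fun_prop) continuous_const
    · exact cl_all _ _ (fun a => continuous_const) (fun a => by fun_prop)
    · exact isClosed_eq (by fun_prop) continuous_const
    · exact cl_all _ _ (fun a => continuous_const) (fun a => by fun_prop)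
    · exact isClosed_eq (by fun_prop) continuous_const
    · exact cl_all _ _ (fun a => by fun_prop) (fun a => by fun_prop)
    · exact cl_all _ _ (fun a => by fun_prop) (fun a => by fun_prop)
    · exact cl_all _ _ (fun a => by fun_prop) (fun a => by fun_prop)
  · have h : {p : QT l m n | (∃ a, p.2.1 a = 1) ∨ (∃ b, p.2.2.1 b = 1) ∨ ∃ c, p.2.2.2 c = 1} =
        {p : QT l m n | ∃ a, p.2.1 a = 1} ∪ ({p : QT l m n | ∃ b, p.2.2.1 b = 1} ∪
          {p : QT l m n | ∃ c, p.2.2.2 c = 1}) := rfl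
    rw [h]
    refine IsClosed.union ?_ (IsClosed.union ?_ ?_)
    · exact cl_ex (fun a (p : QT l m n) => p.2.1 a) fun a => by fun_prop
    · exact cl_ex (fun a (p : QT l m n) => p.2.2.1 a) fun a => by fun_prop
    · exact cl_ex (fun a (p : QT l m n) => p.2.2.2 a) fun a => by fun_prop

private theorem le_one_of_sum {A : Type} [Fintype A] (x : A → ℝ) (h0 : ∀ a, 0 ≤ x a)
    (h1 : ∑ a, x a = 1) (a : A) : x a ≤ 1 := by
  rw [← h1]
  exact Finset.single_le_sum (fun i _ => h0 i) (Finset.mem_univ a)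

theorem qcl (l m n : ℕ) : IsCompact (WS l m n) := by
  have hc : IsCompact ((Set.pi Set.univ fun _ : Ix l m n => Set.Icc (0 : ℝ) 1) ×ˢ
      ((Set.pi Set.univ fun _ : Fin l => Set.Icc (0 : ℝ) 1) ×ˢ
      ((Set.pi Set.univ fun _ : Fin m => Set.Icc (0 : ℝ) 1) ×ˢ
      (Set.pi Set.univ fun _ : Fin n => Set.Icc (0 : ℝ) 1)))) := by
    refine IsCompact.prod ?_ (IsCompact.prod ?_ (IsCompact.prod ?_ ?_))
    · exact isCompact_univ_pi fun _ => isCompact_Icc
    · exact isCompact_univ_pi fun _ => isCompact_Icc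
    · exact isCompact_univ_pi fun _ => isCompact_Icc
    · exact isCompact_univ_pi fun _ => isCompact_Icc
  have h1 := (hc.inter_right (kk_closed l m n)).image continuous_fst
  have h2 : WS l m n = Prod.fst '' (((Set.pi Set.univ fun _ : Ix l m n => Set.Icc (0 : ℝ) 1) ×ˢ
      ((Set.pi Set.univ fun _ : Fin l => Set.Icc (0 : ℝ) 1) ×ˢ
      ((Set.pi Set.univ fun _ : Fin m => Set.Icc (0 : ℝ) 1) ×ˢ
      (Set.pi Set.univ fun _ : Fin n => Set.Icc (0 : ℝ) 1)))) ∩ KK l m n) := by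
    ext u
    constructor
    · rintro ⟨hu, x, y, z, hN, hp⟩
      refine ⟨(u, x, y, z), ⟨⟨fun i _ => hu i, fun a _ => ⟨hN.x0 a, le_one_of_sum x hN.x0 hN.x1 a⟩,
        fun a _ => ⟨hN.y0 a, le_one_of_sum y hN.y0 hN.y1 a⟩,
        fun a _ => ⟨hN.z0 a, le_one_of_sum z hN.z0 hN.z1 a⟩⟩, hN, hp⟩, rfl⟩
    · rintro ⟨⟨u', x, y, z⟩, ⟨⟨hu, -⟩, hN, hp⟩, rfl⟩
      exact ⟨fun i => hu i (Set.mem_univ i), x, y, z, hN, hp⟩
  rw [h2]
  exact h1

end Pool.Agent.Work.MP_9d4f6b_lc.AG
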