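import Pool.Agent.Work.MP_9d4f6b_lc.AG.QDefs

/-!
MODULE QCRAM (size S-M). Cramer's rule for the system QM.

PROOF. Let w = Sum.elim (fun j => y j) (fun _ => v) and r = Sum.elim 0 (fun _ => 1). The hypotheses say QM *ᵥ w = r: the row inl j is
∑ j', M (e j) j' y j' - v = 0 (the sum over J is the sum over B as y vanishes outside J: Finset.sum_coe_sort / sum_subset), the row
inr is ∑ j', y j' = 1. Multiply by the adjugate (Matrix.adjugate_mul): det • w = adjugate *ᵥ r, and adjugate *ᵥ r at inl j is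
the entry (inl j, inr ()).
-/

set_option linter.unusedVariables false
set_option linter.style.longLine false
set_option autoImplicit false

namespace Pool.Agent.Work.MP_9d4f6b_lc.AG

private theorem qsumJ {B : Type} [Fintype B] [DecidableEq B] (J : Finset B) (f : B → ℝ)
    (hf : ∀ b, b ∉ J → f b = 0) : ∑ j : {b // b ∈ J}, f j.1 = ∑ b, f b := by
  rw [Finset.sum_coe_sort J f]
  exact Finset.sum_subset (Finset.subset_univ J) fun b _ hb => hf b hb

theorem qcram {A B : Type} [Fintype B] [DecidableEq B] (J : Finset B) (e : {b // b ∈ J} → A)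
    (M : A → B → ℝ) (y : B → ℝ) (v : ℝ) (hy : ∀ b, b ∉ J → y b = 0) (h1 : ∑ b, y b = 1)
    (h : ∀ j, ∑ b, M (e j) b * y b = v) (j : {b // b ∈ J}) :
    (QM J e M).det * y j = ya J e M j := by
  obtain ⟨w, hw⟩ : ∃ w : {b // b ∈ J} ⊕ Unit → ℝ,
      w = Sum.elim (fun j => y j.1) (fun _ => v) := ⟨_, rfl⟩
  obtain ⟨r, hr⟩ : ∃ r : {b // b ∈ J} ⊕ Unit → ℝ,
      r = Sum.elim (fun _ => 0) (fun _ => 1) := ⟨_, rfl⟩
  have hsys : (QM J e M).mulVec w = r := by
    funext i
    rw [Matrix.mulVec, dotProduct, Fintype.sum_sum_type, hw, hr]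
    rcases i with i | i
    · simp only [QM, Sum.elim_inl, Sum.elim_inr, Finset.univ_unique, Finset.sum_singleton]
      have h2 := qsumJ J (fun b => M (e i) b * y b) fun b hb => by rw [hy b hb, mul_zero]
      rw [h2, h i]
      ring
    · simp only [QM, Sum.elim_inl, Sum.elim_inr, Finset.univ_unique, Finset.sum_singleton, one_mul,
        zero_mul, add_zero]
      rw [qsumJ J y hy, h1]
  have h3 : (QM J e M).adjugate.mulVec ((QM J e M).mulVec w) = (QM J e M).det • w := by
    rw [Matrix.mulVec_mulVec, Matrix.adjugate_mul, Matrix.smul_mulVec, Matrix.one_mulVec]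
  rw [hsys] at h3
  have h4 := congrFun h3 (Sum.inl j)
  rw [Pi.smul_apply, smul_eq_mul, hw, Sum.elim_inl, Matrix.mulVec, dotProduct,
    Fintype.sum_sum_type, hr] at h4
  simp only [Sum.elim_inl, Sum.elim_inr, Finset.univ_unique, Finset.sum_singleton, mul_zero,
    Finset.sum_const_zero, mul_one, zero_add] at h4
  exact h4.symm

/-- uniqueness -/
theorem quniq {A B : Type} [Fintype B] [DecidableEq B] (J : Finset B) (e : {b // b ∈ J} → A)
    (M : A → B → ℝ) (hdet : (QM J e M).det ≠ 0) (y y' : B → ℝ) (v v' : ℝ)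
    (hy : ∀ b, b ∉ J → y b = 0) (h1 : ∑ b, y b = 1) (h : ∀ j, ∑ b, M (e j) b * y b = v)
    (hy' : ∀ b, b ∉ J → y' b = 0) (h1' : ∑ b, y' b = 1) (h' : ∀ j, ∑ b, M (e j) b * y' b = v')
    (hne : J.Nonempty) : y = y' ∧ v = v' := by
  have hyy : y = y' := by
    funext b
    by_cases hb : b ∈ J
    · have h2 := qcram J e M y v hy h1 h ⟨b, hb⟩
      have h3 := qcram J e M y' v' hy' h1' h' ⟨b, hb⟩
      rw [← h3] at h2
      exact mul_left_cancel₀ hdet h2
    · rw [hy b hb, hy' b hb]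
  refine ⟨hyy, ?_⟩
  obtain ⟨b, hb⟩ := hne
  rw [← h ⟨b, hb⟩, ← h' ⟨b, hb⟩, hyy]

end Pool.Agent.Work.MP_9d4f6b_lc.AG
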