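import Pool.Agent.Work.MP_9d4f6b_lc.AG.Defs

/-!
Board AG, second part (limit law): definitions. FIXED FILE, nothing to prove.

THEOREM. For all l, m, n ≥ 1 the proportion of the games of format l x m x n with payoffs in {0..H} which have a
rational equilibrium converges (H → ∞) to the volume of the set WS of the real games u in [0,1]^(3lmn) which have an
equilibrium in which some player plays a pure strategy.
PLAN. By the criterion the games with a rational equilibrium are, up to a proportion tending to 0, the lattice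
points c/H in WS. WS is compact. Its boundary has volume 0: outside the zero sets of finitely many polynomials an
equilibrium with a pure player is the solution of a nonsingular linear system with strict inequalities elsewhere,
so it persists in a neighbourhood. Then the number of lattice points is asymptotic to the volume.
-/

set_option linter.unusedVariables false
set_option linter.style.longLine false
set_option autoImplicit false

namespace Pool.Agent.Work.MP_9d4f6b_lc.AG

open MeasureTheory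

/-- Nash equilibrium of the game with the real payoffs p1, p2, p3 -/
structure NEG {A B C : Type} [Fintype A] [Fintype B] [Fintype C] (p1 p2 p3 : A → B → C → ℝ)
    (x : A → ℝ) (y : B → ℝ) (z : C → ℝ) : Prop where
  x0 : ∀ a, 0 ≤ x a
  x1 : ∑ a, x a = 1
  y0 : ∀ b, 0 ≤ y b
  y1 : ∑ b, y b = 1
  z0 : ∀ c, 0 ≤ z c
  z1 : ∑ c, z c = 1
  n1 : ∀ a₀, ∑ b, ∑ c, y b * z c * p1 a₀ b c ≤ ∑ a, ∑ b, ∑ c, x a * y b * z c * p1 a b c
  n2 : ∀ b₀, ∑ a, ∑ c, x a * z c * p2 a b₀ c ≤ ∑ a, ∑ b, ∑ c, x a * y b * z c * p2 a b c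
  n3 : ∀ c₀, ∑ a, ∑ b, x a * y b * p3 a b c₀ ≤ ∑ a, ∑ b, ∑ c, x a * y b * z c * p3 a b c

/-- the cube [0,1]^ι -/
def cube (ι : Type) : Set (ι → ℝ) := {u | ∀ i, 0 ≤ u i ∧ u i ≤ 1}

/-- the points u of the cube such that the game with the payoffs u (f1 a b c), u (f2 a b c), u (f3 a b c) has an
equilibrium in which the third player is pure -/
def WC {ι A B C : Type} [Fintype A] [Fintype B] [Fintype C] (f1 f2 f3 : A → B → C → ι) :
    Set (ι → ℝ) :=
  {u | u ∈ cube ι ∧ ∃ (x : A → ℝ) (y : B → ℝ) (z : C → ℝ),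
    NEG (fun a b c => u (f1 a b c)) (fun a b c => u (f2 a b c)) (fun a b c => u (f3 a b c)) x y z ∧
      ∃ c, z c = 1}

/-- the real games with an equilibrium in which some player is pure -/
def WS (l m n : ℕ) : Set (Ix l m n → ℝ) :=
  {u | (∀ i, 0 ≤ u i ∧ u i ≤ 1) ∧ ∃ (x : Fin l → ℝ) (y : Fin m → ℝ) (z : Fin n → ℝ),
    NEG (fun a b c => u (0, a, b, c)) (fun a b c => u (1, a, b, c)) (fun a b c => u (2, a, b, c))
      x y z ∧ ((∃ a, x a = 1) ∨ (∃ b, y b = 1) ∨ ∃ c, z c = 1)}

/-- polynomial functions -/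
def PF {ι : Type} (f : (ι → ℝ) → ℝ) : Prop := ∃ P : MvPolynomial ι ℝ, ∀ x, f x = MvPolynomial.eval x P

/-- the matrix with the rows e r of M (columns in J) and a last column of -1 -/
def RM {A B : Type} (J : Finset B) (e : {b // b ∈ J} ⊕ Unit → A) (M : A → B → ℝ) :
    Matrix ({b // b ∈ J} ⊕ Unit) ({b // b ∈ J} ⊕ Unit) ℝ := fun r s =>
  match s with
  | Sum.inl j => M (e r) j.1
  | Sum.inr _ => -1

/-- the matrix of the system ∑ b, M (e j) b * y b = v (j in J), ∑ b in J, y b = 1 for the unknown (y, v) -/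
def QM {A B : Type} (J : Finset B) (e : {b // b ∈ J} → A) (M : A → B → ℝ) :
    Matrix ({b // b ∈ J} ⊕ Unit) ({b // b ∈ J} ⊕ Unit) ℝ := fun r s =>
  match r, s with
  | Sum.inl j, Sum.inl j' => M (e j) j'.1
  | Sum.inl _, Sum.inr _ => -1
  | Sum.inr _, Sum.inl _ => 1
  | Sum.inr _, Sum.inr _ => 0

/-- numerators of the solution y of this system (Cramer's rule) -/
noncomputable def ya {A B : Type} [DecidableEq B] (J : Finset B) (e : {b // b ∈ J} → A)
    (M : A → B → ℝ) (j : {b // b ∈ J}) : ℝ := (QM J e M).adjugate (Sum.inl j) (Sum.inr ())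

section
variable {ι A B C : Type} [Fintype A] [Fintype B] [Fintype C] [DecidableEq A] [DecidableEq B]
  (f1 f2 f3 : A → B → C → ι)

/-- numerator of the difference of the payoffs of the strategies c1 and c0 of the third player -/
noncomputable def dz (c0 c1 : C) (I : Finset A) (J : Finset B) (e : {b // b ∈ J} → A)
    (e' : {a // a ∈ I} → B) (u : ι → ℝ) : ℝ :=
  ∑ a : {a // a ∈ I}, ∑ b : {b // b ∈ J},
    ya I e' (fun b a => u (f2 a b c0)) a * ya J e (fun a b => u (f1 a b c0)) b *
      (u (f3 a.1 b.1 c1) - u (f3 a.1 b.1 c0))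

/-- generic points -/
structure Gen (u : ι → ℝ) : Prop where
  g0 : ∀ i, u i ≠ 0
  g1 : ∀ i, u i ≠ 1
  r1 : ∀ (c0 : C) (J : Finset B) (e : {b // b ∈ J} ⊕ Unit → A), Function.Injective e →
    (RM J e (fun a b => u (f1 a b c0))).det ≠ 0
  r2 : ∀ (c0 : C) (I : Finset A) (e : {a // a ∈ I} ⊕ Unit → B), Function.Injective e →
    (RM I e (fun b a => u (f2 a b c0))).det ≠ 0
  q1 : ∀ (c0 : C) (J : Finset B) (e : {b // b ∈ J} → A), J.Nonempty → Function.Injective e →
    (QM J e (fun a b => u (f1 a b c0))).det ≠ 0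
  q2 : ∀ (c0 : C) (I : Finset A) (e : {a // a ∈ I} → B), I.Nonempty → Function.Injective e →
    (QM I e (fun b a => u (f2 a b c0))).det ≠ 0
  d3 : ∀ (c0 c1 : C) (I : Finset A) (J : Finset B) (e : {b // b ∈ J} → A) (e' : {a // a ∈ I} → B),
    c0 ≠ c1 → I.Nonempty → J.Nonempty → Function.Injective e → Function.Injective e' →
    dz f1 f2 f3 c0 c1 I J e e' u ≠ 0

/-- the three maps use different coordinates -/
structure Cor : Prop where
  i1 : Function.Injective (fun p : A × B × C => f1 p.1 p.2.1 p.2.2)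
  i2 : Function.Injective (fun p : A × B × C => f2 p.1 p.2.1 p.2.2)
  i3 : Function.Injective (fun p : A × B × C => f3 p.1 p.2.1 p.2.2)
  d12 : ∀ a b c a' b' c', f1 a b c ≠ f2 a' b' c'
  d13 : ∀ a b c a' b' c', f1 a b c ≠ f3 a' b' c'
  d23 : ∀ a b c a' b' c', f2 a b c ≠ f3 a' b' c'

end

end Pool.Agent.Work.MP_9d4f6b_lc.AG
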