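import Pool.Agent.Work.MP_9d4f6b_lc.AG.QDefs

/-!
MODULE QEQ (size M). Equilibria with a pure third player, local description.

PROOF. Let z c0 = 1, so z = Pi.single c0 1 (z ≥ 0, ∑ z = 1). Then y b z c p1 a b c sums to U1 a = ∑ b, p1 a b c0 * y b, and
V1 = ∑ a, x a U1 a; similarly U2 b = ∑ a, p2 a b c0 * x a, V2 = ∑ b, y b U2 b, and the payoff of player 3 for c is
∑ a, ∑ b, x a * y b * p3 a b c. qfwd: v = V1, w = V2: n1 says U1 a ≤ V1; ∑ x a (V1 - U1 a) = 0 with nonnegative terms gives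
U1 a = V1 if x a ≠ 0. Same for player 2; n3 is the last claim. qback: V1 = ∑ x a U1 a = v as U1 a = v whenever x a ≠ 0; so n1
holds; same for n2; n3 is h3.
-/

set_option linter.unusedVariables false
set_option linter.style.longLine false
set_option autoImplicit false

namespace Pool.Agent.Work.MP_9d4f6b_lc.AG

private theorem qz {C : Type} [Fintype C] {z : C → ℝ} {c0 : C} (hz : ∀ c, c ≠ c0 → z c = 0)
    (h1 : z c0 = 1) (t : ℝ) (f : C → ℝ) : ∑ c, t * z c * f c = t * f c0 := by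
  rw [Finset.sum_eq_single c0]
  · rw [h1, mul_one]
  · intro c _ hc
    rw [hz c hc, mul_zero, zero_mul]
  · intro hc
    exact absurd (Finset.mem_univ c0) hc

private theorem qE1 {B C : Type} [Fintype B] [Fintype C] {z : C → ℝ} {c0 : C}
    (hz : ∀ c, c ≠ c0 → z c = 0) (h1 : z c0 = 1) (y : B → ℝ) (p : B → C → ℝ) :
    ∑ b, ∑ c, y b * z c * p b c = ∑ b, p b c0 * y b := by
  refine Finset.sum_congr rfl fun b _ => ?_
  rw [qz hz h1, mul_comm]

private theorem qE3 {A B C : Type} [Fintype A] [Fintype B] [Fintype C] {z : C → ℝ} {c0 : C}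
    (hz : ∀ c, c ≠ c0 → z c = 0) (h1 : z c0 = 1) (x : A → ℝ) (y : B → ℝ) (p : A → B → C → ℝ) :
    ∑ a, ∑ b, ∑ c, x a * y b * z c * p a b c = ∑ a, ∑ b, x a * y b * p a b c0 :=
  Finset.sum_congr rfl fun a _ => Finset.sum_congr rfl fun b _ => qz hz h1 _ _

private theorem qE4 {A B C : Type} [Fintype A] [Fintype B] [Fintype C] (c0 : C)
    (x : A → ℝ) (y : B → ℝ) (p : A → B → C → ℝ) :
    ∑ a, ∑ b, x a * y b * p a b c0 = ∑ a, x a * ∑ b, p a b c0 * y b := by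
  refine Finset.sum_congr rfl fun a _ => ?_
  rw [Finset.mul_sum]
  refine Finset.sum_congr rfl fun b _ => ?_
  ring

private theorem qE5 {A B C : Type} [Fintype A] [Fintype B] [Fintype C] (c0 : C)
    (x : A → ℝ) (y : B → ℝ) (p : A → B → C → ℝ) :
    ∑ a, ∑ b, x a * y b * p a b c0 = ∑ b, y b * ∑ a, p a b c0 * x a := by
  rw [Finset.sum_comm]
  refine Finset.sum_congr rfl fun b _ => ?_
  rw [Finset.mul_sum]
  refine Finset.sum_congr rfl fun a _ => ?_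
  ring

private theorem qcs {A : Type} [Fintype A] {x U : A → ℝ} (x0 : ∀ a, 0 ≤ x a)
    (x1 : ∑ a, x a = 1) (h : ∀ a, U a ≤ ∑ a, x a * U a) (a : A) (ha : x a ≠ 0) :
    U a = ∑ a, x a * U a := by
  obtain ⟨V, hV⟩ : ∃ V, V = ∑ a, x a * U a := ⟨_, rfl⟩
  rw [← hV] at h ⊢
  have h2 : ∑ a, x a * (V - U a) = 0 := by
    have h3 : ∑ a, x a * (V - U a) = (∑ a, x a) * V - ∑ a, x a * U a := by
      rw [Finset.sum_mul, ← Finset.sum_sub_distrib]
      exact Finset.sum_congr rfl fun a _ => by ring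
    rw [h3, x1, ← hV]
    ring
  have h4 := (Finset.sum_eq_zero_iff_of_nonneg fun a _ =>
    mul_nonneg (x0 a) (sub_nonneg.2 (h a))).1 h2 a (Finset.mem_univ a)
  rcases mul_eq_zero.1 h4 with h5 | h5
  · exact absurd h5 ha
  · linarith

private theorem qsv {A : Type} [Fintype A] {x U : A → ℝ} (x1 : ∑ a, x a = 1) {v : ℝ}
    (h : ∀ a, x a ≠ 0 → U a = v) : ∑ a, x a * U a = v := by
  have h2 : ∑ a, x a * U a = ∑ a, x a * v := by
    refine Finset.sum_congr rfl fun a _ => ?_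
    by_cases ha : x a = 0
    · rw [ha, zero_mul, zero_mul]
    · rw [h a ha]
  rw [h2, ← Finset.sum_mul, x1, one_mul]

theorem qfwd {A B C : Type} [Fintype A] [Fintype B] [Fintype C] {p1 p2 p3 : A → B → C → ℝ}
    {x : A → ℝ} {y : B → ℝ} {z : C → ℝ} (h : NEG p1 p2 p3 x y z) {c0 : C} (hc : z c0 = 1) :
    ∃ v w : ℝ, (∀ a, ∑ b, p1 a b c0 * y b ≤ v) ∧ (∀ a, x a ≠ 0 → ∑ b, p1 a b c0 * y b = v) ∧
      (∀ b, ∑ a, p2 a b c0 * x a ≤ w) ∧ (∀ b, y b ≠ 0 → ∑ a, p2 a b c0 * x a = w) ∧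
      ∀ c, ∑ a, ∑ b, x a * y b * p3 a b c ≤ ∑ a, ∑ b, x a * y b * p3 a b c0 := by
  classical
  have hz : ∀ c, c ≠ c0 → z c = 0 := by
    intro c hcc
    have h1 := h.z1
    rw [← Finset.add_sum_erase Finset.univ z (Finset.mem_univ c0), hc] at h1
    have h2 : ∑ c ∈ Finset.univ.erase c0, z c = 0 := by linarith
    exact (Finset.sum_eq_zero_iff_of_nonneg fun c _ => h.z0 c).1 h2 c
      (Finset.mem_erase.2 ⟨hcc, Finset.mem_univ c⟩)
  have n1 : ∀ a, ∑ b, p1 a b c0 * y b ≤ ∑ a, x a * ∑ b, p1 a b c0 * y b := by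
    intro a
    have h1 := h.n1 a
    rw [qE3 hz hc, qE4] at h1
    have h2 := qE1 hz hc y (p1 a)
    rw [h2] at h1
    exact h1
  have n2 : ∀ b, ∑ a, p2 a b c0 * x a ≤ ∑ b, y b * ∑ a, p2 a b c0 * x a := by
    intro b
    have h1 := h.n2 b
    rw [qE3 hz hc, qE5] at h1
    have h2 := qE1 hz hc x (fun a => p2 a b)
    rw [h2] at h1
    exact h1
  refine ⟨_, _, n1, fun a ha => ?_, n2, fun b hb => ?_, fun c => ?_⟩
  · exact qcs (U := fun a => ∑ b, p1 a b c0 * y b) h.x0 h.x1 n1 a ha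
  · exact qcs (U := fun b => ∑ a, p2 a b c0 * x a) h.y0 h.y1 n2 b hb
  · have h1 := h.n3 c
    rw [qE3 hz hc] at h1
    exact h1

theorem qback {A B C : Type} [Fintype A] [Fintype B] [Fintype C] [DecidableEq C]
    {p1 p2 p3 : A → B → C → ℝ} {x : A → ℝ} {y : B → ℝ} (x0 : ∀ a, 0 ≤ x a) (x1 : ∑ a, x a = 1)
    (y0 : ∀ b, 0 ≤ y b) (y1 : ∑ b, y b = 1) (c0 : C) (v w : ℝ)
    (hv : ∀ a, ∑ b, p1 a b c0 * y b ≤ v) (sv : ∀ a, x a ≠ 0 → ∑ b, p1 a b c0 * y b = v)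
    (hw : ∀ b, ∑ a, p2 a b c0 * x a ≤ w) (sw : ∀ b, y b ≠ 0 → ∑ a, p2 a b c0 * x a = w)
    (h3 : ∀ c, ∑ a, ∑ b, x a * y b * p3 a b c ≤ ∑ a, ∑ b, x a * y b * p3 a b c0) :
    NEG p1 p2 p3 x y (Pi.single c0 1) := by
  have hc : (Pi.single c0 1 : C → ℝ) c0 = 1 := Pi.single_eq_same c0 1
  have hz : ∀ c, c ≠ c0 → (Pi.single c0 1 : C → ℝ) c = 0 := fun c h => Pi.single_eq_of_ne h 1
  refine ⟨x0, x1, y0, y1, fun c => ?_, ?_, fun a => ?_, fun b => ?_, fun c => ?_⟩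
  · by_cases h : c = c0
    · rw [h, hc]
      exact zero_le_one
    · rw [hz c h]
  · rw [Finset.sum_eq_single c0 (fun c _ h => hz c h)
      (fun h => absurd (Finset.mem_univ c0) h), hc]
  · rw [qE3 hz hc, qE4]
    have h2 := qE1 hz hc y (p1 a)
    rw [h2, qsv x1 sv]
    exact hv a
  · rw [qE3 hz hc, qE5]
    have h2 := qE1 hz hc x (fun a => p2 a b)
    rw [h2, qsv y1 sw]
    exact hw b
  · rw [qE3 hz hc]
    exact h3 c

end Pool.Agent.Work.MP_9d4f6b_lc.AG
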