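import Pool.Agent.Work.MP_9d4f6b_lc.AG.QCram

/-!
MODULE QSOL (size M). The solution of the system depends continuously on the matrix.

PROOF. Let Q u = QM J e (M u), D u = (Q u).det, continuous in u (Continuous.matrix_det, entries continuous), D u0 ≠ 0, so D u ≠ 0 near u0. Put
s u = (D u)⁻¹ • (Q u).adjugate *ᵥ r with r = Sum.elim 0 (fun _ => 1) (Continuous.matrix_adjugate, mulVec), y u b = s u (inl b) for b in J,
0 otherwise, v u = s u (inr ()). Continuous at u0. Near u0: Q u *ᵥ s u = r (Matrix.mul_adjugate), which is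
∑ b, M u (e j) b * y u b = v u for all j in J and ∑ y u = 1.
-/

set_option linter.unusedVariables false
set_option linter.style.longLine false
set_option autoImplicit false

namespace Pool.Agent.Work.MP_9d4f6b_lc.AG

private theorem sumJ {B : Type} [Fintype B] [DecidableEq B] (J : Finset B) (g : B → ℝ)
    (hg : ∀ b, b ∉ J → g b = 0) : ∑ b, g b = ∑ j : {b // b ∈ J}, g j.1 := by
  rw [Finset.sum_coe_sort J g]
  exact (Finset.sum_subset (Finset.subset_univ J) fun b _ hb => hg b hb).symm

open Filter Topology in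
theorem qsol {X A B : Type} [TopologicalSpace X] [Fintype B] [DecidableEq B] (J : Finset B)
    (e : {b // b ∈ J} → A) (M : X → A → B → ℝ) (hM : ∀ a b, Continuous fun u => M u a b) (u0 : X)
    (hdet : (QM J e (M u0)).det ≠ 0) :
    ∃ (y : X → B → ℝ) (v : X → ℝ), (∀ b, ContinuousAt (fun u => y u b) u0) ∧ ContinuousAt v u0 ∧
      ∀ᶠ u in 𝓝 u0, (∀ b, b ∉ J → y u b = 0) ∧ ∑ b, y u b = 1 ∧
        ∀ j, ∑ b, M u (e j) b * y u b = v u := by
  have hQ : Continuous fun u => QM J e (M u) := by
    refine continuous_matrix fun r s => ?_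
    rcases r with j | _ <;> rcases s with j' | _
    · exact hM _ _
    · exact continuous_const
    · exact continuous_const
    · exact continuous_const
  have hD : Continuous fun u => (QM J e (M u)).det := hQ.matrix_det
  have hA : Continuous fun u => (QM J e (M u)).adjugate := hQ.matrix_adjugate
  let r : {b // b ∈ J} ⊕ Unit → ℝ := Sum.elim (fun _ => 0) (fun _ => 1)
  let s : X → {b // b ∈ J} ⊕ Unit → ℝ := fun u =>
    ((QM J e (M u)).det)⁻¹ • (Matrix.mulVec (QM J e (M u)).adjugate r)
  have hs : ContinuousAt s u0 :=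
    (hD.continuousAt.inv₀ hdet).smul (hA.matrix_mulVec continuous_const).continuousAt
  have hs' : ∀ k, ContinuousAt (fun u => s u k) u0 := fun k =>
    (continuous_apply k).continuousAt.comp hs
  refine ⟨fun u b => if h : b ∈ J then s u (Sum.inl ⟨b, h⟩) else 0, fun u => s u (Sum.inr ()),
    fun b => ?_, hs' _, ?_⟩
  · by_cases h : b ∈ J
    · simp only [h, dite_true]
      exact hs' _
    · simp only [h, dite_false]
      exact continuousAt_const
  · have hne : ∀ᶠ u in 𝓝 u0, (QM J e (M u)).det ≠ 0 := hD.continuousAt.eventually_ne hdet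
    filter_upwards [hne] with u hu
    have h1 : Matrix.mulVec (QM J e (M u)) (s u) = r := by
      show Matrix.mulVec (QM J e (M u)) (((QM J e (M u)).det)⁻¹ •
        (Matrix.mulVec (QM J e (M u)).adjugate r)) = r
      rw [Matrix.mulVec_smul, Matrix.mulVec_mulVec, Matrix.mul_adjugate, Matrix.smul_mulVec,
        Matrix.one_mulVec, smul_smul, inv_mul_cancel₀ hu, one_smul]
    have hz : ∀ b, b ∉ J → (if h : b ∈ J then s u (Sum.inl ⟨b, h⟩) else 0) = 0 := by
      intro b hb
      rw [dif_neg hb]
    refine ⟨hz, ?_, fun j => ?_⟩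
    · have h2 := congrFun h1 (Sum.inr ())
      simp only [Matrix.mulVec, dotProduct, Fintype.sum_sum_type, r, Sum.elim_inr, QM] at h2
      rw [sumJ J _ hz, ← h2]
      simp
    · have h2 := congrFun h1 (Sum.inl j)
      simp only [Matrix.mulVec, dotProduct, Fintype.sum_sum_type, r, Sum.elim_inl, QM] at h2
      rw [sumJ J _ (fun b hb => by
        show M u (e j) b * (if h : b ∈ J then s u (Sum.inl ⟨b, h⟩) else 0) = 0
        rw [hz b hb, mul_zero])]
      simp at h2 ⊢
      linarith

end Pool.Agent.Work.MP_9d4f6b_lc.AG
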