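import Pool.Agent.Work.MP_9d4f6b_lc.AG.QKer
import Pool.Agent.Work.MP_9d4f6b_lc.AG.QSol
import Pool.Agent.Work.MP_9d4f6b_lc.AG.QEq

/-!
MODULE QINT (size M-L). A generic point of WC is an interior point.

PROOF. Let u0 in WC be generic, with the equilibrium x, y, z, z c0 = 1; v, w from qfwd, I, J the supports of x, y (nonempty).
qker with M1 a b = u0 (f1 a b c0), M2 b a = u0 (f2 a b c0) (r1, r2): for a not in I the payoff is < v, for b not in J it is < w, and
card I = card J. Take bijections e : J → A onto I, e' : I → B onto J (Finset.equivOfCardEq), injective. For c ≠ c0 the payoff of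
player 3 is strictly smaller than for c0: by qcram x a = ya.../det, y b = ya.../det' for a in I, b in J, so
det * det' * ∑ a, ∑ b, x a y b (u0 (f3 a b c) - u0 (f3 a b c0)) = dz c0 c I J e e' u0 ≠ 0 (d3; the sums reduce to I and J).
qsol (q1) for M u a b = u (f1 a b c0), J, e: functions Y u, v' u continuous at u0, with Y u0 = y, v' u0 = v by quniq; and (q2) X u, w' u for
M u b a = u (f2 a b c0), I, e'. For u near u0: X u a > 0 on I, Y u b > 0 on J, the strict inequalities for a ∉ I, b ∉ J, c ≠ c0 persist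
(finitely many, continuity: ContinuousAt.eventually_lt / Filter.eventually_all), the equalities on I and J hold by qsol, and
0 < u i < 1 for all i (u0 is in the cube and g0, g1). So qback applies and u is in WC: WC is a neighbourhood of u0
(mem_interior_iff_mem_nhds).
-/

set_option linter.unusedVariables false
set_option linter.style.longLine false
set_option autoImplicit false

namespace Pool.Agent.Work.MP_9d4f6b_lc.AG

open Filter Topology

private theorem qi_ne {A : Type} [Fintype A] {x : A → ℝ} (x1 : ∑ a, x a = 1) [DecidableEq A] :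
    (Finset.univ.filter fun a => x a ≠ 0).Nonempty := by
  by_contra h
  rw [Finset.not_nonempty_iff_eq_empty, Finset.filter_eq_empty_iff] at h
  have h1 : ∑ a, x a = 0 := Finset.sum_eq_zero fun a ha => by
    have := h ha
    push Not at this
    exact this
  rw [x1] at h1
  exact one_ne_zero h1

private theorem qi_side {ι A B : Type} [Fintype ι] [Fintype A] [Fintype B] [DecidableEq A] [DecidableEq B]
    (F : A → B → ι) (u0 : ι → ℝ) (I : Finset A) (J : Finset B) (e : {b // b ∈ J} → A)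
    (heI : ∀ a, a ∈ I ↔ ∃ j, e j = a)
    (hdet : (QM J e (fun a b => u0 (F a b))).det ≠ 0) (hJ : J.Nonempty) (y : B → ℝ) (v : ℝ)
    (y0 : ∀ b, 0 ≤ y b) (hyJ : ∀ b, b ∈ J ↔ y b ≠ 0) (y1 : ∑ b, y b = 1)
    (hv : ∀ a, ∑ b, u0 (F a b) * y b ≤ v) (hI : ∀ a, a ∈ I ↔ ∑ b, u0 (F a b) * y b = v) :
    ∃ (Y : (ι → ℝ) → B → ℝ) (v' : (ι → ℝ) → ℝ), (∀ b, ContinuousAt (fun u => Y u b) u0) ∧
      Y u0 = y ∧ ∀ᶠ u in 𝓝 u0, (∀ b, 0 ≤ Y u b) ∧ ∑ b, Y u b = 1 ∧
        (∀ b, Y u b ≠ 0 → b ∈ J) ∧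
        (∀ a, ∑ b, u (F a b) * Y u b ≤ v' u) ∧ (∀ a, a ∈ I → ∑ b, u (F a b) * Y u b = v' u) := by
  obtain ⟨Y, v', hY, hv', hev⟩ := qsol J e (fun (u : ι → ℝ) a b => u (F a b))
    (fun a b => continuous_apply _) u0 hdet
  have h0 := hev.self_of_nhds
  have hu := quniq J e (fun a b => u0 (F a b)) hdet (Y u0) y (v' u0) v h0.1 h0.2.1 h0.2.2
    (fun b hb => by
      by_contra h
      exact hb ((hyJ b).2 h)) y1 (fun j => (hI _).1 ((heI _).2 ⟨j, rfl⟩)) hJ
  refine ⟨Y, v', hY, hu.1, ?_⟩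
  have hpos : ∀ᶠ u in 𝓝 u0, ∀ b, b ∈ J → 0 < Y u b := by
    refine eventually_all.2 fun b => ?_
    by_cases hb : b ∈ J
    · have h1 : 0 < Y u0 b := by
        rw [hu.1]
        exact lt_of_le_of_ne (y0 b) (Ne.symm ((hyJ b).1 hb))
      filter_upwards [(hY b).eventually_const_lt h1] with u h _
      exact h
    · exact Eventually.of_forall fun u h => absurd h hb
  have hlt : ∀ᶠ u in 𝓝 u0, ∀ a, a ∉ I → ∑ b, u (F a b) * Y u b < v' u := by
    refine eventually_all.2 fun a => ?_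
    by_cases ha : a ∈ I
    · exact Eventually.of_forall fun u h => absurd ha h
    · have h1 : ∑ b, u0 (F a b) * Y u0 b < v' u0 := by
        rw [hu.1, hu.2]
        exact lt_of_le_of_ne (hv a) fun h => ha ((hI a).2 h)
      have hc : ContinuousAt (fun u : ι → ℝ => ∑ b, u (F a b) * Y u b) u0 :=
        tendsto_finsetSum _ fun b _ => ((continuous_apply (F a b)).continuousAt.mul (hY b))
      filter_upwards [hc.eventually_lt hv' h1] with u h _
      exact h
  filter_upwards [hev, hpos, hlt] with u h1 h2 h3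
  have hsup : ∀ b, Y u b ≠ 0 → b ∈ J := by
    intro b hb
    by_contra h
    exact hb (h1.1 b h)
  have heq : ∀ a, a ∈ I → ∑ b, u (F a b) * Y u b = v' u := by
    intro a ha
    obtain ⟨j, rfl⟩ := (heI a).1 ha
    exact h1.2.2 j
  refine ⟨fun b => ?_, h1.2.1, hsup, fun a => ?_, heq⟩
  · by_cases hb : b ∈ J
    · exact (h2 b hb).le
    · rw [h1.1 b hb]
  · by_cases ha : a ∈ I
    · exact (heq a ha).le
    · exact (h3 a ha).le

theorem qint {ι A B C : Type} [Fintype ι] [Fintype A] [Fintype B] [Fintype C] [DecidableEq A]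
    [DecidableEq B] [DecidableEq C] (f1 f2 f3 : A → B → C → ι) (u0 : ι → ℝ)
    (hg : Gen f1 f2 f3 u0) (hu : u0 ∈ WC f1 f2 f3) : u0 ∈ interior (WC f1 f2 f3) := by
  obtain ⟨hcube, x, y, z, hN, c0, hz⟩ := hu
  obtain ⟨v, w, hv, sv, hw, sw, h3⟩ := qfwd hN hz
  obtain ⟨k1, k2, k3⟩ := qker (fun a b => u0 (f1 a b c0)) (fun b a => u0 (f2 a b c0))
    (hg.r1 c0) (hg.r2 c0) x y hN.x1 hN.y1 v w sv sw
  have hI := qi_ne hN.x1
  have hJ := qi_ne hN.y1
  have hmI : ∀ a, a ∈ (Finset.univ.filter fun a => x a ≠ 0) ↔ x a ≠ 0 := fun a => by simp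
  have hmJ : ∀ b, b ∈ (Finset.univ.filter fun b => y b ≠ 0) ↔ y b ≠ 0 := fun b => by simp
  revert k3 hI hJ hmI hmJ
  generalize (Finset.univ.filter fun a => x a ≠ 0) = I
  generalize (Finset.univ.filter fun b => y b ≠ 0) = J
  intro k3 hI hJ hmI hmJ
  obtain ⟨E⟩ : Nonempty ({b // b ∈ J} ≃ {a // a ∈ I}) := ⟨Finset.equivOfCardEq k3.symm⟩
  obtain ⟨e, he⟩ : ∃ e : {b // b ∈ J} → A, e = fun j => (E j).1 := ⟨_, rfl⟩
  obtain ⟨e', he'⟩ : ∃ e' : {a // a ∈ I} → B, e' = fun i => (E.symm i).1 := ⟨_, rfl⟩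
  have hei : Function.Injective e := by
    rw [he]
    exact fun a b h => E.injective (Subtype.ext h)
  have hei' : Function.Injective e' := by
    rw [he']
    exact fun a b h => E.symm.injective (Subtype.ext h)
  have heI : ∀ a, a ∈ I ↔ ∃ j, e j = a := by
    intro a
    rw [he]
    constructor
    · intro ha
      exact ⟨E.symm ⟨a, ha⟩, by simp⟩
    · rintro ⟨j, rfl⟩
      exact (E j).2
  have heJ : ∀ b, b ∈ J ↔ ∃ i, e' i = b := by
    intro b
    rw [he']
    constructor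
    · intro hb
      exact ⟨E ⟨b, hb⟩, by simp⟩
    · rintro ⟨j, rfl⟩
      exact (E.symm j).2
  have hd1 := hg.q1 c0 J e hJ hei
  have hd2 := hg.q2 c0 I e' hI hei'
  obtain ⟨Y, v', hYc, hY0, hYe⟩ := qi_side (fun a b => f1 a b c0) u0 I J e heI hd1 hJ y v hN.y0 hmJ
    hN.y1 hv (fun a => (hmI a).trans (k1 a))
  obtain ⟨X, w', hXc, hX0, hXe⟩ := qi_side (fun b a => f2 a b c0) u0 J I e' heJ hd2 hI x w hN.x0 hmI
    hN.x1 hw (fun b => (hmJ b).trans (k2 b))
  have hstr : ∀ c, c ≠ c0 → ∑ a, ∑ b, x a * y b * u0 (f3 a b c) < ∑ a, ∑ b, x a * y b * u0 (f3 a b c0) := by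
    intro c hc
    refine lt_of_le_of_ne (h3 c) fun heq => ?_
    refine hg.d3 c0 c I J e e' hc.symm hI hJ hei hei' ?_
    unfold dz
    have h4 : ∀ (a : {a // a ∈ I}) (b : {b // b ∈ J}),
        ya I e' (fun b a => u0 (f2 a b c0)) a * ya J e (fun a b => u0 (f1 a b c0)) b *
          (u0 (f3 a.1 b.1 c) - u0 (f3 a.1 b.1 c0)) =
        ((QM I e' (fun b a => u0 (f2 a b c0))).det * (QM J e (fun a b => u0 (f1 a b c0))).det) *
          (x a.1 * y b.1 * (u0 (f3 a.1 b.1 c) - u0 (f3 a.1 b.1 c0))) := by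
      intro a b
      rw [← qcram I e' (fun b a => u0 (f2 a b c0)) x w (fun a ha => by
          by_contra h
          exact ha ((hmI a).2 h)) hN.x1 (fun j => (k2 _).1 ((hmJ _).1 ((heJ _).2 ⟨j, rfl⟩))) a,
        ← qcram J e (fun a b => u0 (f1 a b c0)) y v (fun b hb => by
          by_contra h
          exact hb ((hmJ b).2 h)) hN.y1 (fun j => (k1 _).1 ((hmI _).1 ((heI _).2 ⟨j, rfl⟩))) b]
      ring
    rw [Finset.sum_congr rfl fun a _ => Finset.sum_congr rfl fun b _ => h4 a b]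
    simp only [← Finset.mul_sum]
    have h5 : ∑ a : {a // a ∈ I}, ∑ b : {b // b ∈ J},
        x a.1 * y b.1 * (u0 (f3 a.1 b.1 c) - u0 (f3 a.1 b.1 c0)) = 0 := by
      have h6 : ∀ a : A, ∑ b : {b // b ∈ J}, x a * y b.1 * (u0 (f3 a b.1 c) - u0 (f3 a b.1 c0)) =
          ∑ b, x a * y b * (u0 (f3 a b c) - u0 (f3 a b c0)) := by
        intro a
        rw [Finset.sum_coe_sort J fun b => x a * y b * (u0 (f3 a b c) - u0 (f3 a b c0))]
        refine Finset.sum_subset (Finset.subset_univ J) fun b _ hb => ?_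
        have h7 : y b = 0 := by
          by_contra h
          exact hb ((hmJ b).2 h)
        rw [h7, mul_zero, zero_mul]
      have h8 : ∑ a : {a // a ∈ I}, ∑ b : {b // b ∈ J},
          x a.1 * y b.1 * (u0 (f3 a.1 b.1 c) - u0 (f3 a.1 b.1 c0)) =
          ∑ a : {a // a ∈ I}, ∑ b, x a.1 * y b * (u0 (f3 a.1 b c) - u0 (f3 a.1 b c0)) :=
        Finset.sum_congr rfl fun a _ => h6 a.1
      rw [h8, Finset.sum_coe_sort I fun a => ∑ b, x a * y b * (u0 (f3 a b c) - u0 (f3 a b c0))]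
      have h9 : ∑ a ∈ I, ∑ b, x a * y b * (u0 (f3 a b c) - u0 (f3 a b c0)) =
          ∑ a, ∑ b, x a * y b * (u0 (f3 a b c) - u0 (f3 a b c0)) := by
        refine Finset.sum_subset (Finset.subset_univ I) fun a _ ha => ?_
        have h7 : x a = 0 := by
          by_contra h
          exact ha ((hmI a).2 h)
        refine Finset.sum_eq_zero fun b _ => ?_
        rw [h7, zero_mul, zero_mul]
      rw [h9]
      simp only [mul_sub, Finset.sum_sub_distrib]
      exact sub_eq_zero.2 heq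
    rw [h5, mul_zero]
  have hfc : ∀ c, ContinuousAt (fun u : ι → ℝ => ∑ a, ∑ b, X u a * Y u b * u (f3 a b c)) u0 := by
    intro c
    exact tendsto_finsetSum _ fun a _ => tendsto_finsetSum _ fun b _ =>
      ((hXc a).mul (hYc b)).mul (continuous_apply (f3 a b c)).continuousAt
  have h5 : ∀ᶠ u in 𝓝 u0, ∀ c, c ≠ c0 → ∑ a, ∑ b, X u a * Y u b * u (f3 a b c) <
      ∑ a, ∑ b, X u a * Y u b * u (f3 a b c0) := by
    refine eventually_all.2 fun c => ?_
    by_cases hc : c = c0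
    · exact Eventually.of_forall fun u h => absurd hc h
    · have h1 : ∑ a, ∑ b, X u0 a * Y u0 b * u0 (f3 a b c) <
          ∑ a, ∑ b, X u0 a * Y u0 b * u0 (f3 a b c0) := by
        rw [hX0, hY0]
        exact hstr c hc
      filter_upwards [(hfc c).eventually_lt (hfc c0) h1] with u h _
      exact h
  have h6 : ∀ᶠ u in 𝓝 u0, ∀ i, 0 < u i ∧ u i < 1 := by
    refine eventually_all.2 fun i => ?_
    have h1 : 0 < u0 i := lt_of_le_of_ne (hcube i).1 (Ne.symm (hg.g0 i))
    have h2 : u0 i < 1 := lt_of_le_of_ne (hcube i).2 (hg.g1 i)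
    have hc : ContinuousAt (fun u : ι → ℝ => u i) u0 := (continuous_apply i).continuousAt
    filter_upwards [hc.eventually_const_lt h1, hc.eventually_lt_const h2] with u h3 h4
    exact ⟨h3, h4⟩
  rw [mem_interior_iff_mem_nhds]
  filter_upwards [hYe, hXe, h5, h6] with u hy hx h7 h8
  refine ⟨fun i => ⟨(h8 i).1.le, (h8 i).2.le⟩, X u, Y u, Pi.single c0 1, ?_, c0, Pi.single_eq_same c0 1⟩
  refine qback hx.1 hx.2.1 hy.1 hy.2.1 c0 (v' u) (w' u) hy.2.2.2.1
    (fun a ha => hy.2.2.2.2 a (hx.2.2.1 a ha)) hx.2.2.2.1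
    (fun b hb => hx.2.2.2.2 b (hy.2.2.1 b hb)) (fun c => ?_)
  by_cases hc : c = c0
  · rw [hc]
  · exact (h7 c hc).le

end Pool.Agent.Work.MP_9d4f6b_lc.AG
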