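import Pool.Agent.Work.MP_9d4f6b_lc.AG.QZ
import Pool.Agent.Work.MP_9d4f6b_lc.AG.QInt
import Pool.Agent.Work.MP_9d4f6b_lc.AG.QCl

/-!
MODULE QFR (size M). The boundary of WS has volume 0.

PROOF. WS is the union of three sets WC: W3 = WC f1 f2 f3 with A, B, C = Fin l, Fin m, Fin n, fi a b c = (i, a, b, c); W2 = WC with the roles
(A, B, C) = (Fin l, Fin n, Fin m), f1 a c b = (0, a, b, c), f2 a c b = (2, a, b, c), f3 a c b = (1, a, b, c); W1 with
(Fin n, Fin m, Fin l), f1 c b a = (2, a, b, c), f2 c b a = (1, a, b, c), f3 c b a = (0, a, b, c) (NEG is symmetric under exchanging the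
players: reorder the finite sums, Finset.sum_comm). Cor holds in the three cases. WS is closed (qcl), so
frontier WS = WS \ interior WS. If u in WS is generic for all three triples then u is in some WC and by qint in the interior of that WC,
hence of WS (interior_mono). So frontier WS is contained in the union of three null sets (qz).
-/

set_option linter.unusedVariables false
set_option linter.style.longLine false
set_option autoImplicit false

namespace Pool.Agent.Work.MP_9d4f6b_lc.AG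

open MeasureTheory

section
variable {A B C : Type} [Fintype A] [Fintype B] [Fintype C]

private theorem qf_s23 (x : A → ℝ) (y : B → ℝ) (z : C → ℝ) (p : A → B → C → ℝ) :
    ∑ a, ∑ b, ∑ c, x a * y b * z c * p a b c = ∑ a, ∑ c, ∑ b, x a * z c * y b * p a b c := by
  refine Finset.sum_congr rfl fun a _ => ?_
  rw [Finset.sum_comm]
  refine Finset.sum_congr rfl fun c _ => Finset.sum_congr rfl fun b _ => ?_
  ring

private theorem qf_s13 (x : A → ℝ) (y : B → ℝ) (z : C → ℝ) (p : A → B → C → ℝ) :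
    ∑ a, ∑ b, ∑ c, x a * y b * z c * p a b c = ∑ c, ∑ b, ∑ a, z c * y b * x a * p a b c := by
  have h1 : ∀ a, ∑ b, ∑ c, x a * y b * z c * p a b c = ∑ c, ∑ b, x a * y b * z c * p a b c :=
    fun a => Finset.sum_comm
  rw [Finset.sum_congr rfl fun a _ => h1 a, Finset.sum_comm]
  refine Finset.sum_congr rfl fun c _ => ?_
  rw [Finset.sum_comm]
  refine Finset.sum_congr rfl fun b _ => Finset.sum_congr rfl fun a _ => ?_
  ring

private theorem qf_w23 {p1 p2 p3 : A → B → C → ℝ} {x : A → ℝ} {y : B → ℝ} {z : C → ℝ}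
    (h : NEG p1 p2 p3 x y z) :
    NEG (fun a c b => p1 a b c) (fun a c b => p3 a b c) (fun a c b => p2 a b c) x z y where
  x0 := h.x0
  x1 := h.x1
  y0 := h.z0
  y1 := h.z1
  z0 := h.y0
  z1 := h.y1
  n1 := fun a₀ => by
    have h1 := h.n1 a₀
    rw [qf_s23] at h1
    refine le_trans (le_of_eq ?_) h1
    rw [Finset.sum_comm]
    refine Finset.sum_congr rfl fun b _ => Finset.sum_congr rfl fun c _ => ?_
    ring
  n2 := fun c₀ => by
    have h1 := h.n3 c₀
    rw [qf_s23] at h1
    exact h1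
  n3 := fun b₀ => by
    have h1 := h.n2 b₀
    rw [qf_s23] at h1
    exact h1

private theorem qf_w13 {p1 p2 p3 : A → B → C → ℝ} {x : A → ℝ} {y : B → ℝ} {z : C → ℝ}
    (h : NEG p1 p2 p3 x y z) :
    NEG (fun c b a => p3 a b c) (fun c b a => p2 a b c) (fun c b a => p1 a b c) z y x where
  x0 := h.z0
  x1 := h.z1
  y0 := h.y0
  y1 := h.y1
  z0 := h.x0
  z1 := h.x1
  n1 := fun c₀ => by
    have h1 := h.n3 c₀
    rw [qf_s13] at h1
    refine le_trans (le_of_eq ?_) h1
    rw [Finset.sum_comm]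
    refine Finset.sum_congr rfl fun b _ => Finset.sum_congr rfl fun c _ => ?_
    ring
  n2 := fun b₀ => by
    have h1 := h.n2 b₀
    rw [qf_s13] at h1
    refine le_trans (le_of_eq ?_) h1
    rw [Finset.sum_comm]
    refine Finset.sum_congr rfl fun b _ => Finset.sum_congr rfl fun c _ => ?_
    ring
  n3 := fun a₀ => by
    have h1 := h.n1 a₀
    rw [qf_s13] at h1
    refine le_trans (le_of_eq ?_) h1
    rw [Finset.sum_comm]
    refine Finset.sum_congr rfl fun b _ => Finset.sum_congr rfl fun c _ => ?_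
    ring

end

theorem qfr (l m n : ℕ) : volume (frontier (WS l m n)) = 0 := by
  let F1 : Fin l → Fin m → Fin n → Ix l m n := fun a b c => (0, a, b, c)
  let F2 : Fin l → Fin m → Fin n → Ix l m n := fun a b c => (1, a, b, c)
  let F3 : Fin l → Fin m → Fin n → Ix l m n := fun a b c => (2, a, b, c)
  let G1 : Fin l → Fin n → Fin m → Ix l m n := fun a c b => (0, a, b, c)
  let G2 : Fin l → Fin n → Fin m → Ix l m n := fun a c b => (2, a, b, c)
  let G3 : Fin l → Fin n → Fin m → Ix l m n := fun a c b => (1, a, b, c)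
  let K1 : Fin n → Fin m → Fin l → Ix l m n := fun c b a => (2, a, b, c)
  let K2 : Fin n → Fin m → Fin l → Ix l m n := fun c b a => (1, a, b, c)
  let K3 : Fin n → Fin m → Fin l → Ix l m n := fun c b a => (0, a, b, c)
  have cF : Cor F1 F2 F3 := by
    constructor
    · rintro ⟨a, b, c⟩ ⟨a', b', c'⟩ h
      simpa [F1] using h
    · rintro ⟨a, b, c⟩ ⟨a', b', c'⟩ h
      simpa [F2] using h
    · rintro ⟨a, b, c⟩ ⟨a', b', c'⟩ h
      simpa [F3] using h
    · intro a b c a' b' c' h
      exact absurd (show (0 : Fin 3) = 1 from congrArg Prod.fst h) (by decide)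
    · intro a b c a' b' c' h
      exact absurd (show (0 : Fin 3) = 2 from congrArg Prod.fst h) (by decide)
    · intro a b c a' b' c' h
      exact absurd (show (1 : Fin 3) = 2 from congrArg Prod.fst h) (by decide)
  have cG : Cor G1 G2 G3 := by
    constructor
    · rintro ⟨a, b, c⟩ ⟨a', b', c'⟩ h
      simp only [G1, Prod.mk.injEq, true_and] at h ⊢
      tauto
    · rintro ⟨a, b, c⟩ ⟨a', b', c'⟩ h
      simp only [G2, Prod.mk.injEq, true_and] at h ⊢
      tauto
    · rintro ⟨a, b, c⟩ ⟨a', b', c'⟩ h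
      simp only [G3, Prod.mk.injEq, true_and] at h ⊢
      tauto
    · intro a b c a' b' c' h
      exact absurd (show (0 : Fin 3) = 2 from congrArg Prod.fst h) (by decide)
    · intro a b c a' b' c' h
      exact absurd (show (0 : Fin 3) = 1 from congrArg Prod.fst h) (by decide)
    · intro a b c a' b' c' h
      exact absurd (show (2 : Fin 3) = 1 from congrArg Prod.fst h) (by decide)
  have cK : Cor K1 K2 K3 := by
    constructor
    · rintro ⟨a, b, c⟩ ⟨a', b', c'⟩ h
      simp only [K1, Prod.mk.injEq, true_and] at h ⊢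
      tauto
    · rintro ⟨a, b, c⟩ ⟨a', b', c'⟩ h
      simp only [K2, Prod.mk.injEq, true_and] at h ⊢
      tauto
    · rintro ⟨a, b, c⟩ ⟨a', b', c'⟩ h
      simp only [K3, Prod.mk.injEq, true_and] at h ⊢
      tauto
    · intro a b c a' b' c' h
      exact absurd (show (2 : Fin 3) = 1 from congrArg Prod.fst h) (by decide)
    · intro a b c a' b' c' h
      exact absurd (show (2 : Fin 3) = 0 from congrArg Prod.fst h) (by decide)
    · intro a b c a' b' c' h
      exact absurd (show (1 : Fin 3) = 0 from congrArg Prod.fst h) (by decide)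
  have sF : WC F1 F2 F3 ⊆ WS l m n := by
    rintro u ⟨h0, x, y, z, h1, h2⟩
    exact ⟨h0, x, y, z, h1, Or.inr (Or.inr h2)⟩
  have sG : WC G1 G2 G3 ⊆ WS l m n := by
    rintro u ⟨h0, x, z, y, h1, h2⟩
    exact ⟨h0, x, y, z, qf_w23 h1, Or.inr (Or.inl h2)⟩
  have sK : WC K1 K2 K3 ⊆ WS l m n := by
    rintro u ⟨h0, z, y, x, h1, h2⟩
    exact ⟨h0, x, y, z, qf_w13 h1, Or.inl h2⟩
  have hcov : WS l m n ⊆ WC F1 F2 F3 ∪ WC G1 G2 G3 ∪ WC K1 K2 K3 := by
    rintro u ⟨h0, x, y, z, h1, h2 | h2 | h2⟩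
    · right
      exact ⟨h0, z, y, x, qf_w13 h1, h2⟩
    · left; right
      exact ⟨h0, x, z, y, qf_w23 h1, h2⟩
    · left; left
      exact ⟨h0, x, y, z, h1, h2⟩
  have hcl : IsClosed (WS l m n) := (qcl l m n).isClosed
  have hsub : frontier (WS l m n) ⊆ {u | ¬ Gen F1 F2 F3 u} ∪ {u | ¬ Gen G1 G2 G3 u} ∪
      {u | ¬ Gen K1 K2 K3 u} := by
    intro u hu
    rw [hcl.frontier_eq] at hu
    by_contra hn
    simp only [Set.mem_union, Set.mem_ofPred_eq, not_or, not_not] at hn
    obtain ⟨⟨g1, g2⟩, g3⟩ := hn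
    refine hu.2 ?_
    rcases hcov hu.1 with (h | h) | h
    · exact interior_mono sF (qint F1 F2 F3 u g1 h)
    · exact interior_mono sG (qint G1 G2 G3 u g2 h)
    · exact interior_mono sK (qint K1 K2 K3 u g3 h)
  refine measure_mono_null hsub ?_
  rw [measure_union_null_iff, measure_union_null_iff]
  exact ⟨⟨qz F1 F2 F3 cF, qz G1 G2 G3 cG⟩, qz K1 K2 K3 cK⟩

end Pool.Agent.Work.MP_9d4f6b_lc.AG
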