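import Pool.Agent.Work.MP_9d4f6b_lc.AG.QDefs

/-!
MODULE QKER (size M). In a generic bimatrix game the supports are the sets of best replies and have the same size.

PROOF. key: for J = support of y and R = {a | ∑ b, M1 a b * y b = v} we have card R ≤ card J: otherwise there is an injective map
e : J ⊕ Unit → R (Function.Embedding.nonempty_of_card_le, Fintype.card_sum), and w = Sum.elim (fun j => y j) (fun _ => v) satisfies
RM J e M1 *ᵥ w = 0 (row r: ∑ j in J, M1 (e r) j y j - v = 0; the sum over J is the sum over B) and w ≠ 0 (∑ y = 1, so some y j ≠ 0),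
contradicting det ≠ 0 (Matrix.exists_mulVec_eq_zero_iff or eq_zero_of_mulVec_eq_zero). In the same way card R' ≤ card I with
R' = {b | ∑ a, M2 b a * x a = w}, I = support of x. Now I ⊆ R (s1), J ⊆ R' (s2):
card I ≤ card R ≤ card J ≤ card R' ≤ card I. So all are equal, I = R and J = R' (Finset.eq_of_subset_of_card_le).
-/

set_option linter.unusedVariables false
set_option linter.style.longLine false
set_option autoImplicit false

namespace Pool.Agent.Work.MP_9d4f6b_lc.AG

private theorem qk_key {A B : Type} [Fintype A] [Fintype B] [DecidableEq A] [DecidableEq B]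
    (M1 : A → B → ℝ)
    (h1 : ∀ (J : Finset B) (e : {b // b ∈ J} ⊕ Unit → A), Function.Injective e → (RM J e M1).det ≠ 0)
    (y : B → ℝ) (y1 : ∑ b, y b = 1) (v : ℝ) :
    (Finset.univ.filter fun a => ∑ b, M1 a b * y b = v).card ≤
      (Finset.univ.filter fun b => y b ≠ 0).card := by
  by_contra hlt
  push Not at hlt
  set J := Finset.univ.filter fun b => y b ≠ 0 with hJ
  set R := Finset.univ.filter fun a => ∑ b, M1 a b * y b = v with hR
  have hc : Fintype.card ({b // b ∈ J} ⊕ Unit) ≤ Fintype.card {a // a ∈ R} := by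
    rw [Fintype.card_sum, Fintype.card_coe, Fintype.card_coe, Fintype.card_unit]
    exact hlt
  obtain ⟨f⟩ := Function.Embedding.nonempty_of_card_le hc
  let e : {b // b ∈ J} ⊕ Unit → A := fun r => (f r).1
  have he : Function.Injective e := fun r s hrs => f.injective (Subtype.ext hrs)
  refine h1 J e he ?_
  refine Matrix.exists_mulVec_eq_zero_iff.1 ⟨Sum.elim (fun j => y j.1) (fun _ => v), ?_, ?_⟩
  · intro h0
    have h2 : ∀ b, y b = 0 := by
      intro b
      by_contra hb
      have hbJ : b ∈ J := Finset.mem_filter.2 ⟨Finset.mem_univ _, hb⟩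
      exact hb (congrFun h0 (Sum.inl ⟨b, hbJ⟩))
    rw [Finset.sum_eq_zero fun b _ => h2 b] at y1
    exact zero_ne_one y1
  · funext r
    show ∑ s, RM J e M1 r s * (Sum.elim (fun j => y j.1) (fun _ => v) : _ → ℝ) s = 0
    rw [Fintype.sum_sum_type]
    simp only [RM, Sum.elim_inl, Sum.elim_inr, Finset.univ_unique, Finset.sum_singleton]
    have h3 : ∑ j : {b // b ∈ J}, M1 (e r) j.1 * y j.1 = ∑ b, M1 (e r) b * y b := by
      rw [Finset.sum_coe_sort J (fun b => M1 (e r) b * y b)]
      refine Finset.sum_subset (Finset.subset_univ _) fun b _ hb => ?_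
      have : y b = 0 := by
        by_contra h4
        exact hb (Finset.mem_filter.2 ⟨Finset.mem_univ _, h4⟩)
      rw [this, mul_zero]
    have h4 : ∑ b, M1 (e r) b * y b = v := (Finset.mem_filter.1 (f r).2).2
    rw [h3, h4]
    ring

theorem qker {A B : Type} [Fintype A] [Fintype B] [DecidableEq A] [DecidableEq B]
    (M1 : A → B → ℝ) (M2 : B → A → ℝ)
    (h1 : ∀ (J : Finset B) (e : {b // b ∈ J} ⊕ Unit → A), Function.Injective e → (RM J e M1).det ≠ 0)
    (h2 : ∀ (I : Finset A) (e : {a // a ∈ I} ⊕ Unit → B), Function.Injective e → (RM I e M2).det ≠ 0)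
    (x : A → ℝ) (y : B → ℝ) (x1 : ∑ a, x a = 1) (y1 : ∑ b, y b = 1) (v w : ℝ)
    (s1 : ∀ a, x a ≠ 0 → ∑ b, M1 a b * y b = v) (s2 : ∀ b, y b ≠ 0 → ∑ a, M2 b a * x a = w) :
    (∀ a, x a ≠ 0 ↔ ∑ b, M1 a b * y b = v) ∧ (∀ b, y b ≠ 0 ↔ ∑ a, M2 b a * x a = w) ∧
      (Finset.univ.filter fun a => x a ≠ 0).card = (Finset.univ.filter fun b => y b ≠ 0).card := by
  have k1 := qk_key M1 h1 y y1 v
  have k2 := qk_key M2 h2 x x1 w
  have i1 : (Finset.univ.filter fun a => x a ≠ 0) ⊆
      (Finset.univ.filter fun a => ∑ b, M1 a b * y b = v) := fun a ha =>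
    Finset.mem_filter.2 ⟨Finset.mem_univ _, s1 a (Finset.mem_filter.1 ha).2⟩
  have i2 : (Finset.univ.filter fun b => y b ≠ 0) ⊆
      (Finset.univ.filter fun b => ∑ a, M2 b a * x a = w) := fun b hb =>
    Finset.mem_filter.2 ⟨Finset.mem_univ _, s2 b (Finset.mem_filter.1 hb).2⟩
  have c1 := Finset.card_le_card i1
  have c2 := Finset.card_le_card i2
  have e1 := Finset.eq_of_subset_of_card_le i1 (by omega)
  have e2 := Finset.eq_of_subset_of_card_le i2 (by omega)
  refine ⟨fun a => ⟨s1 a, fun h => ?_⟩, fun b => ⟨s2 b, fun h => ?_⟩, by omega⟩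
  · have : a ∈ Finset.univ.filter fun a => x a ≠ 0 := by
      rw [e1]
      exact Finset.mem_filter.2 ⟨Finset.mem_univ _, h⟩
    exact (Finset.mem_filter.1 this).2
  · have : b ∈ Finset.univ.filter fun b => y b ≠ 0 := by
      rw [e2]
      exact Finset.mem_filter.2 ⟨Finset.mem_univ _, h⟩
    exact (Finset.mem_filter.1 this).2

end Pool.Agent.Work.MP_9d4f6b_lc.AG
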