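import Pool.Agent.Work.MP_9d4f6b_lc.AG.QCram

/-!
MODULE QMAT (size M). The determinants at special matrices.

PROOF. rm_one: the assumption says that RM is the block matrix with blocks 1, -1 (column), 0 (row), -1
(Matrix.fromBlocks): its determinant is det 1 * det (-1) = -1 (Matrix.det_fromBlocks_zero₂₁; ext on the four blocks).
qm_one: QM is fromBlocks 1 (-1) 1 0, det = det (0 - (row of 1) * (column of -1)) = card J (Matrix.det_fromBlocks_one₁₁,
det of a 1 x 1 matrix Matrix.det_unique). ya_one: y b = 1 / card J on J (0 outside), v = 1 / card J solve the system (J nonempty),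
so by qcram ya = det * (1 / card J) = 1.
-/

set_option linter.unusedVariables false
set_option linter.style.longLine false
set_option autoImplicit false

namespace Pool.Agent.Work.MP_9d4f6b_lc.AG

theorem rm_one {A B : Type} [DecidableEq B] (J : Finset B) (e : {b // b ∈ J} ⊕ Unit → A)
    (M : A → B → ℝ) (h : ∀ (j j' : {b // b ∈ J}), M (e (Sum.inl j)) j'.1 = if j = j' then 1 else 0)
    (h' : ∀ j' : {b // b ∈ J}, M (e (Sum.inr ())) j'.1 = 0) : (RM J e M).det ≠ 0 := by
  have h1 : RM J e M = Matrix.fromBlocks (1 : Matrix {b // b ∈ J} {b // b ∈ J} ℝ)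
      (fun _ _ => -1) 0 (fun _ _ => -1 : Matrix Unit Unit ℝ) := by
    funext r s
    rcases r with j | ⟨⟩ <;> rcases s with j' | ⟨⟩
    · show M (e (Sum.inl j)) j'.1 = (1 : Matrix {b // b ∈ J} {b // b ∈ J} ℝ) j j'
      rw [h, Matrix.one_apply]
    · rfl
    · exact h' j'
    · rfl
  rw [h1, Matrix.det_fromBlocks_zero₂₁, Matrix.det_one, Matrix.det_unique]
  norm_num

theorem qm_one {A B : Type} [DecidableEq B] (J : Finset B) (hJ : J.Nonempty) (e : {b // b ∈ J} → A)
    (M : A → B → ℝ) (h : ∀ (j j' : {b // b ∈ J}), M (e j) j'.1 = if j = j' then 1 else 0) :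
    (QM J e M).det = J.card := by
  have h1 : QM J e M = Matrix.fromBlocks (1 : Matrix {b // b ∈ J} {b // b ∈ J} ℝ)
      (fun _ _ => -1 : Matrix {b // b ∈ J} Unit ℝ) (fun _ _ => 1 : Matrix Unit {b // b ∈ J} ℝ)
      (0 : Matrix Unit Unit ℝ) := by
    funext r s
    rcases r with j | ⟨⟩ <;> rcases s with j' | ⟨⟩
    · show M (e j) j'.1 = (1 : Matrix {b // b ∈ J} {b // b ∈ J} ℝ) j j'
      rw [h, Matrix.one_apply]
    · rfl
    · rfl
    · rfl
  rw [h1, Matrix.det_fromBlocks_one₁₁, Matrix.det_unique]
  simp [Matrix.mul_apply]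

theorem ya_one {A B : Type} [Fintype B] [DecidableEq B] (J : Finset B) (hJ : J.Nonempty)
    (e : {b // b ∈ J} → A) (M : A → B → ℝ)
    (h : ∀ (j j' : {b // b ∈ J}), M (e j) j'.1 = if j = j' then 1 else 0) (j : {b // b ∈ J}) :
    ya J e M j = 1 := by
  have hc : (J.card : ℝ) ≠ 0 := by
    have := Finset.card_pos.2 hJ
    positivity
  have h1 := qcram J e M (fun b => if b ∈ J then 1 / (J.card : ℝ) else 0) (1 / (J.card : ℝ))
    (fun b hb => if_neg hb) (by
      rw [Finset.sum_ite_mem, Finset.univ_inter, Finset.sum_const, nsmul_eq_mul]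
      field_simp) (fun i => by
      have h2 : ∀ b, M (e i) b * (if b ∈ J then 1 / (J.card : ℝ) else 0) =
          if b = i.1 then 1 / (J.card : ℝ) else 0 := by
        intro b
        by_cases hb : b ∈ J
        · rw [if_pos hb]
          have h3 := h i ⟨b, hb⟩
          by_cases hbi : b = i.1
          · rw [if_pos hbi]
            rw [if_pos (Subtype.ext hbi.symm)] at h3
            have h4 : M (e i) b = 1 := h3
            rw [h4, one_mul]
          · rw [if_neg hbi]
            rw [if_neg fun hh => hbi (by rw [hh])] at h3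
            have h4 : M (e i) b = 0 := h3
            rw [h4, zero_mul]
        · rw [if_neg hb, mul_zero, if_neg]
          rintro rfl
          exact hb i.2
      rw [Finset.sum_congr rfl fun b _ => h2 b, Finset.sum_ite_eq', if_pos (Finset.mem_univ _)]) j
  rw [← h1, qm_one J hJ e M h]
  show (J.card : ℝ) * (if j.1 ∈ J then 1 / (J.card : ℝ) else 0) = 1
  rw [if_pos j.2]
  field_simp

end Pool.Agent.Work.MP_9d4f6b_lc.AG
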