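import Pool.Agent.Work.MP_9d4f6b_lc.AG.QDefs

/-!
MODULE QNULL (size M-L). The zero set of a nonzero polynomial has volume 0.

PROOF. First ι = Fin n, by induction on n, for every P ≠ 0 (a polynomial which is nonzero at x0 is ≠ 0, and conversely
P ≠ 0 has a point with P x ≠ 0 since ℝ is infinite: MvPolynomial.funext). n = 0: P is a nonzero constant, the set is
empty. n + 1: Q = MvPolynomial.finSuccEquiv ℝ n P ≠ 0 has a nonzero coefficient c_k (Polynomial.leadingCoeff). By induction
the zero set Z of c_k in ℝ^n is null. For s not in Z the polynomial Q_s = Q.map (eval s) in one variable is nonzero and has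
finitely many roots t, a null set; eval (Fin.cons t s) P = eval t Q_s (MvPolynomial.eval_eq_eval_mv_eval'). Fubini:
MeasureTheory.Measure.measure_prod_null for ℝ × ℝ^n (exchange the factors first, measure_prod_null wants almost
every first coordinate; or use Measure.ae_ae_of_ae_prod-like lemmas), and the measurable equivalence
MeasurableEquiv.piFinSuccAbove (fun _ => ℝ) 0, volume_preserving_piFinSuccAbove. General ι: transfer by
e = Fintype.equivFin ι: MvPolynomial.rename e P, eval_rename, and volume_measurePreserving_piCongrLeft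
(or volume_preserving_piCongrLeft). The zero set is closed (measurable): MvPolynomial.continuous_eval.
-/

set_option linter.unusedVariables false
set_option linter.style.longLine false
set_option autoImplicit false

namespace Pool.Agent.Work.MP_9d4f6b_lc.AG

open MeasureTheory

private theorem pnull_fin (n : ℕ) : ∀ P : MvPolynomial (Fin n) ℝ, P ≠ 0 →
    volume {x : Fin n → ℝ | MvPolynomial.eval x P = 0} = 0 := by
  induction n with
  | zero =>
    intro P hP
    have h : {x : Fin 0 → ℝ | MvPolynomial.eval x P = 0} = ∅ := by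
      rw [Set.eq_empty_iff_forall_notMem]
      intro x hx
      refine hP (MvPolynomial.funext fun y => ?_)
      rw [map_zero, Subsingleton.elim y x]
      exact hx
    rw [h, measure_empty]
  | succ n ih =>
    intro P hP
    obtain ⟨Q, hQ⟩ : ∃ Q, Q = MvPolynomial.finSuccEquiv ℝ n P := ⟨_, rfl⟩
    have hQ0 : Q ≠ 0 := by
      rw [hQ]
      exact (map_ne_zero_iff _ (MvPolynomial.finSuccEquiv ℝ n).injective).2 hP
    have hev : ∀ (t : ℝ) (s : Fin n → ℝ), MvPolynomial.eval (Fin.cons t s : Fin (n + 1) → ℝ) P =
        MvPolynomial.eval s (Q.eval (MvPolynomial.C t)) := by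
      intro t s
      rw [MvPolynomial.eval_eq_eval_mv_eval', ← hQ, Polynomial.eval_map,
        ← Polynomial.eval₂_at_apply, MvPolynomial.eval_C]
    obtain ⟨Z, hZ⟩ : ∃ Z : Set (Fin (n + 1) → ℝ), Z = {x | MvPolynomial.eval x P = 0} := ⟨_, rfl⟩
    have hZm : MeasurableSet Z := by
      rw [hZ]
      exact (isClosed_singleton.preimage (MvPolynomial.continuous_eval P)).measurableSet
    have hE := volume_preserving_piFinSuccAbove (fun _ : Fin (n + 1) => ℝ) 0
    have hvol := hE.symm.measure_preimage_equiv Z
    rw [← hZ, ← hvol]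
    refine Measure.measure_prod_null_of_ae_null
      ((MeasurableEquiv.piFinSuccAbove (fun _ : Fin (n + 1) => ℝ) 0).symm.measurable hZm) ?_
    have hfin : {t : ℝ | Q.eval (MvPolynomial.C t) = 0}.Finite :=
      (Polynomial.finite_setOfPred_isRoot hQ0).preimage
        (fun a _ b _ h => MvPolynomial.C_injective _ _ h)
    have hae : ∀ᵐ t : ℝ, Q.eval (MvPolynomial.C t) ≠ 0 :=
      measure_eq_zero_iff_ae_notMem.1 (hfin.measure_zero volume)
    filter_upwards [hae] with t ht
    have h1 := ih _ ht
    rw [Pi.zero_apply, ← h1]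
    congr 1
    ext s
    show _ ∈ Z ↔ _
    rw [hZ]
    show MvPolynomial.eval _ P = 0 ↔ MvPolynomial.eval s _ = 0
    rw [← hev]
    have h2 : (MeasurableEquiv.piFinSuccAbove (fun _ : Fin (n + 1) => ℝ) 0).symm (t, s) =
        Fin.cons t s := by
      show Fin.insertNth (α := fun _ : Fin (n + 1) => ℝ) 0 t s = _
      rw [Fin.insertNth_zero]
      rfl
    rw [h2]

theorem pnull {ι : Type} [Fintype ι] (P : MvPolynomial ι ℝ) (x0 : ι → ℝ)
    (h : MvPolynomial.eval x0 P ≠ 0) :
    volume {x : ι → ℝ | MvPolynomial.eval x P = 0} = 0 := by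
  have e := Fintype.equivFin ι
  have hP : MvPolynomial.rename e P ≠ 0 := by
    intro h0
    apply h
    have h1 : MvPolynomial.eval (x0 ∘ e.symm) (MvPolynomial.rename e P) = 0 := by
      rw [h0, map_zero]
    rw [MvPolynomial.eval_rename] at h1
    rw [← h1]
    congr 2
    funext i
    simp
  have h2 := pnull_fin _ _ hP
  have hE := volume_measurePreserving_piCongrLeft (fun _ : Fin (Fintype.card ι) => ℝ) e
  have h3 := hE.measure_preimage_equiv
    {x : Fin (Fintype.card ι) → ℝ | MvPolynomial.eval x (MvPolynomial.rename e P) = 0}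
  rw [h2] at h3
  rw [← h3]
  congr 1
  ext x
  show _ ↔ MvPolynomial.eval _ _ = 0
  rw [MvPolynomial.eval_rename]
  have h4 : (MeasurableEquiv.piCongrLeft (fun _ : Fin (Fintype.card ι) => ℝ) e) x ∘ e = x := by
    funext i
    exact Equiv.piCongrLeft_apply_apply (fun _ : Fin (Fintype.card ι) => ℝ) e x i
  rw [h4]
  rfl

end Pool.Agent.Work.MP_9d4f6b_lc.AG
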