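import Pool.Agent.Work.MP_9d4f6b_lc.AG.QNull

/-!
MODULE QPF (size M). Polynomial functions.

PROOF. const: MvPolynomial.C; coord: MvPolynomial.X; add, sub, mul: + - * of the polynomials (map_add, map_mul, ...); sum, prod:
induction on the Finset. det: Matrix.det_apply is a finite sum of signed finite products. adj: Matrix.adjugate_apply is the
determinant of M.updateRow j (Pi.single i 1), whose entries are polynomial functions (constants in the row j);
convert with Matrix.updateRow_apply. cont: MvPolynomial.continuous_eval (Function.funext). null: pnull.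
-/

set_option linter.unusedVariables false
set_option linter.style.longLine false
set_option autoImplicit false

namespace Pool.Agent.Work.MP_9d4f6b_lc.AG

open MeasureTheory

section
variable {ι : Type}

theorem PF.const (c : ℝ) : PF (fun _ : ι → ℝ => c) :=
  ⟨MvPolynomial.C c, fun x => by rw [MvPolynomial.eval_C]⟩

theorem PF.coord (i : ι) : PF (fun u : ι → ℝ => u i) :=
  ⟨MvPolynomial.X i, fun x => by rw [MvPolynomial.eval_X]⟩

theorem PF.add {f g : (ι → ℝ) → ℝ} (hf : PF f) (hg : PF g) : PF (fun u => f u + g u) := by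
  obtain ⟨P, hP⟩ := hf
  obtain ⟨Q, hQ⟩ := hg
  exact ⟨P + Q, fun x => by rw [map_add, ← hP, ← hQ]⟩

theorem PF.sub {f g : (ι → ℝ) → ℝ} (hf : PF f) (hg : PF g) : PF (fun u => f u - g u) := by
  obtain ⟨P, hP⟩ := hf
  obtain ⟨Q, hQ⟩ := hg
  exact ⟨P - Q, fun x => by rw [map_sub, ← hP, ← hQ]⟩

theorem PF.mul {f g : (ι → ℝ) → ℝ} (hf : PF f) (hg : PF g) : PF (fun u => f u * g u) := by
  obtain ⟨P, hP⟩ := hf
  obtain ⟨Q, hQ⟩ := hg
  exact ⟨P * Q, fun x => by rw [map_mul, ← hP, ← hQ]⟩

theorem PF.sum {κ : Type} (s : Finset κ) {f : κ → (ι → ℝ) → ℝ} (hf : ∀ k ∈ s, PF (f k)) :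
    PF (fun u => ∑ k ∈ s, f k u) := by
  classical
  choose! P hP using hf
  refine ⟨∑ k ∈ s, P k, fun x => ?_⟩
  rw [map_sum]
  exact Finset.sum_congr rfl fun k hk => hP k hk x

private theorem qpf_prod {κ : Type} (s : Finset κ) {f : κ → (ι → ℝ) → ℝ} (hf : ∀ k ∈ s, PF (f k)) :
    PF (fun u => ∏ k ∈ s, f k u) := by
  classical
  choose! P hP using hf
  refine ⟨∏ k ∈ s, P k, fun x => ?_⟩
  rw [map_prod]
  exact Finset.prod_congr rfl fun k hk => hP k hk x

theorem PF.det {κ : Type} [Fintype κ] [DecidableEq κ] {M : (ι → ℝ) → Matrix κ κ ℝ}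
    (hM : ∀ i j, PF (fun u => M u i j)) : PF (fun u => (M u).det) := by
  have h : (fun u => (M u).det) = fun u => ∑ σ : Equiv.Perm κ,
      ((Equiv.Perm.sign σ : ℤ) : ℝ) * ∏ i, M u (σ i) i := by
    funext u
    rw [Matrix.det_apply']
  rw [h]
  exact PF.sum _ fun σ _ => PF.mul (PF.const _) (qpf_prod _ fun i _ => hM (σ i) i)

theorem PF.adj {κ : Type} [Fintype κ] [DecidableEq κ] {M : (ι → ℝ) → Matrix κ κ ℝ}
    (hM : ∀ i j, PF (fun u => M u i j)) (i j : κ) : PF (fun u => (M u).adjugate i j) := by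
  have h : (fun u => (M u).adjugate i j) = fun u => ((M u).updateRow j (Pi.single i 1)).det := by
    funext u
    rw [Matrix.adjugate_apply]
  rw [h]
  refine PF.det fun a b => ?_
  by_cases ha : a = j
  · subst ha
    have h2 : (fun u => (M u).updateRow a (Pi.single i 1) a b) = fun _ => (Pi.single i 1 : κ → ℝ) b := by
      funext u
      rw [Matrix.updateRow_self]
    rw [h2]
    exact PF.const _
  · have h2 : (fun u => (M u).updateRow j (Pi.single i 1) a b) = fun u => M u a b := by
      funext u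
      rw [Matrix.updateRow_ne ha]
    rw [h2]
    exact hM a b

theorem PF.cont [Finite ι] {f : (ι → ℝ) → ℝ} (hf : PF f) : Continuous f := by
  obtain ⟨P, hP⟩ := hf
  have h : f = fun x => MvPolynomial.eval x P := funext hP
  rw [h]
  exact MvPolynomial.continuous_eval P

theorem PF.null [Fintype ι] {f : (ι → ℝ) → ℝ} (hf : PF f) {x0 : ι → ℝ} (h : f x0 ≠ 0) :
    volume {u : ι → ℝ | f u = 0} = 0 := by
  obtain ⟨P, hP⟩ := hf
  have h1 : f = fun x => MvPolynomial.eval x P := funext hP
  rw [h1] at h ⊢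
  exact pnull P x0 h

end

end Pool.Agent.Work.MP_9d4f6b_lc.AG
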