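import Pool.Agent.Work.MP_9d4f6b_lc.AG.QDefs
import Pool.Agent.Work.MP_9d4f6b_lc.AG.Crit

/-!
MODULE QREL (size M). Good games: rational equilibria and the set WS.

PROOF. H ≥ 1. (→) A rational equilibrium, cast to ℝ, is a real equilibrium NE with rational probabilities, so by crit some player is pure. The
inequalities of NE divided by H are those of NEG for the payoffs c / H (all sums are linear in the payoffs). 0 ≤ c i / H ≤ 1.
(←) An equilibrium for c / H with a pure player is, multiplied by H, a real equilibrium of c; by crit its probabilities are rational;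
choose the rational numbers and descend to ℚ (the inequalities are casts).
-/

set_option linter.unusedVariables false
set_option linter.style.longLine false
set_option autoImplicit false

namespace Pool.Agent.Work.MP_9d4f6b_lc.AG

private theorem neg_iff {l m n H : ℕ} (hH : 1 ≤ H) (u : Ix l m n → ℕ) (x : Fin l → ℝ)
    (y : Fin m → ℝ) (z : Fin n → ℝ) :
    NEG (fun a b c => ((u (0, a, b, c) : ℕ) : ℝ) / H) (fun a b c => ((u (1, a, b, c) : ℕ) : ℝ) / H)
      (fun a b c => ((u (2, a, b, c) : ℕ) : ℝ) / H) x y z ↔ NE u x y z := by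
  have hH' : (0 : ℝ) < H := by exact_mod_cast hH
  constructor
  · intro h
    obtain ⟨h1, h2, h3, h4, h5, h6, h7, h8, h9⟩ := h
    refine ⟨h1, h2, h3, h4, h5, h6, fun a => ?_, fun a => ?_, fun a => ?_⟩
    · have h := h7 a
      simp only [mul_div_assoc', ← Finset.sum_div] at h
      exact (div_le_div_iff_of_pos_right hH').mp h
    · have h := h8 a
      simp only [mul_div_assoc', ← Finset.sum_div] at h
      exact (div_le_div_iff_of_pos_right hH').mp h
    · have h := h9 a
      simp only [mul_div_assoc', ← Finset.sum_div] at h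
      exact (div_le_div_iff_of_pos_right hH').mp h
  · intro h
    obtain ⟨h1, h2, h3, h4, h5, h6, h7, h8, h9⟩ := h
    refine ⟨h1, h2, h3, h4, h5, h6, fun a => ?_, fun a => ?_, fun a => ?_⟩
    · have h := h7 a
      simp only [mul_div_assoc', ← Finset.sum_div]
      exact (div_le_div_iff_of_pos_right hH').mpr h
    · have h := h8 a
      simp only [mul_div_assoc', ← Finset.sum_div]
      exact (div_le_div_iff_of_pos_right hH').mpr h
    · have h := h9 a
      simp only [mul_div_assoc', ← Finset.sum_div]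
      exact (div_le_div_iff_of_pos_right hH').mpr h

private theorem ne_cast {l m n : ℕ} (u : Ix l m n → ℕ) (x : Fin l → ℚ)
    (y : Fin m → ℚ) (z : Fin n → ℚ) :
    NE u x y z ↔ NE u (fun a => (x a : ℝ)) (fun a => (y a : ℝ)) (fun a => (z a : ℝ)) := by
  constructor
  · intro h
    obtain ⟨h1, h2, h3, h4, h5, h6, h7, h8, h9⟩ := h
    refine ⟨fun a => by exact_mod_cast h1 a, by exact_mod_cast h2, fun a => by exact_mod_cast h3 a,
      by exact_mod_cast h4, fun a => by exact_mod_cast h5 a, by exact_mod_cast h6,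
      fun a => by exact_mod_cast h7 a, fun a => by exact_mod_cast h8 a,
      fun a => by exact_mod_cast h9 a⟩
  · intro h
    obtain ⟨h1, h2, h3, h4, h5, h6, h7, h8, h9⟩ := h
    refine ⟨fun a => by exact_mod_cast h1 a, by exact_mod_cast h2, fun a => by exact_mod_cast h3 a,
      by exact_mod_cast h4, fun a => by exact_mod_cast h5 a, by exact_mod_cast h6,
      fun a => by exact_mod_cast h7 a, fun a => by exact_mod_cast h8 a,
      fun a => by exact_mod_cast h9 a⟩

theorem qrel {l m n S H : ℕ} (hH : 1 ≤ H) (c : Ix l m n → Fin (H + 1))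
    (hg : Gd S (fun i => (c i : ℕ))) :
    (∃ (x : Fin l → ℚ) (y : Fin m → ℚ) (z : Fin n → ℚ), NE (fun i => (c i : ℕ)) x y z) ↔
      (fun i => ((c i : ℕ) : ℝ) / H) ∈ WS l m n := by
  have hH' : (0 : ℝ) < H := by exact_mod_cast hH
  constructor
  · rintro ⟨x, y, z, h⟩
    have h1 := (ne_cast _ x y z).mp h
    have h2 := (crit hg h1).mp ⟨fun a => ⟨x a, rfl⟩, fun a => ⟨y a, rfl⟩, fun a => ⟨z a, rfl⟩⟩
    refine ⟨fun i => ⟨by positivity, ?_⟩, fun a => (x a : ℝ), fun a => (y a : ℝ),
      fun a => (z a : ℝ), ?_, h2⟩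
    · show ((c i : ℕ) : ℝ) / H ≤ 1
      rw [div_le_one hH']
      have h3 : (c i : ℕ) ≤ H := Nat.lt_succ_iff.mp (c i).isLt
      exact_mod_cast h3
    · exact (neg_iff hH (fun i => (c i : ℕ)) _ _ _).mpr h1
  · rintro ⟨-, x, y, z, h, hp⟩
    have h1 : NE (fun i => (c i : ℕ)) x y z := (neg_iff hH (fun i => (c i : ℕ)) _ _ _).mp h
    obtain ⟨hx, hy, hz⟩ := (crit hg h1).mpr hp
    choose x' hx' using hx
    choose y' hy' using hy
    choose z' hz' using hz
    have ex : x = fun a => (x' a : ℝ) := funext hx'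
    have ey : y = fun a => (y' a : ℝ) := funext hy'
    have ez : z = fun a => (z' a : ℝ) := funext hz'
    rw [ex, ey, ez] at h1
    exact ⟨x', y', z', (ne_cast _ _ _ _).mpr h1⟩

end Pool.Agent.Work.MP_9d4f6b_lc.AG
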