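import Pool.Agent.Work.MP_9d4f6b_lc.AG.QPf
import Pool.Agent.Work.MP_9d4f6b_lc.AG.QMat

/-!
MODULE QZ (size M-L). Almost all points are generic.

PROOF. ¬ Gen u is a finite disjunction of conditions f u = 0 with polynomial functions f (PF.coord, PF.sub with PF.const, PF.det,
PF.adj, PF.sum, PF.mul; the entries of RM, QM are coordinates or constants), each not identically zero (PF.null), so the set is a
finite union of null sets (measure_iUnion_null for the finite = countable types of the parameters, measure_union_null). Nonvanishing points: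
g0: u = 1; g1: u = 0; r1: given c0, J, e injective let u (f1 a b c0) = 1 if a = e (inl j), b = j for some j in J, and 0 otherwise, all other
coordinates 0 (define u on the range of f1 by Function.extend / i1): then rm_one applies (e injective gives the if-formula). q1: the
same with QM and qm_one (card J ≠ 0). r2, q2: the same for f2. d3: u on f1 as for q1 (J, e), on f2 as for q2 (I, e'), and
u (f3 a b c) = 1 if c = c1 and 0 otherwise (the coordinates are different by Cor: d12, d13, d23): all ya are 1 (ya_one), so dz = card I * card J.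
-/

set_option linter.unusedVariables false
set_option linter.style.longLine false
set_option autoImplicit false

namespace Pool.Agent.Work.MP_9d4f6b_lc.AG

open MeasureTheory

private theorem qz_pt {ι A B : Type} (F : A → B → ι) (J : Finset B) [DecidableEq B]
    (g : {b // b ∈ J} → A) (hg : Function.Injective g) (S : Set ι)
    (hS : ∀ a b, F a b ∈ S ↔ ∃ j : {b // b ∈ J}, a = g j ∧ b = j.1) (j j' : {b // b ∈ J}) :
    S.indicator (fun _ => (1 : ℝ)) (F (g j) j'.1) = if j = j' then 1 else 0 := by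
  by_cases h : j = j'
  · subst h
    rw [if_pos rfl, Set.indicator_of_mem ((hS _ _).2 ⟨j, rfl, rfl⟩)]
  · rw [if_neg h, Set.indicator_of_notMem]
    intro h1
    obtain ⟨k, h2, h3⟩ := (hS _ _).1 h1
    exact h ((hg h2).trans (Subtype.ext h3).symm)

private theorem qz_ae {ι : Type} [Fintype ι] {f : (ι → ℝ) → ℝ} (hf : PF f)
    (h : ∃ x0 : ι → ℝ, f x0 ≠ 0) : ∀ᵐ u : ι → ℝ, f u ≠ 0 := by
  obtain ⟨x0, hx0⟩ := h
  exact measure_eq_zero_iff_ae_notMem.1 (PF.null hf hx0)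

private theorem qz_RM {ι A B : Type} (J : Finset B) (e : {b // b ∈ J} ⊕ Unit → A)
    (F : A → B → ι) (i j : {b // b ∈ J} ⊕ Unit) :
    PF (fun u : ι → ℝ => RM J e (fun a b => u (F a b)) i j) := by
  rcases j with j | j
  · exact PF.coord _
  · exact PF.const _

private theorem qz_QM {ι A B : Type} (J : Finset B) (e : {b // b ∈ J} → A)
    (F : A → B → ι) (i j : {b // b ∈ J} ⊕ Unit) :
    PF (fun u : ι → ℝ => QM J e (fun a b => u (F a b)) i j) := by
  rcases i with i | i <;> rcases j with j | j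
  · exact PF.coord _
  · exact PF.const _
  · exact PF.const _
  · exact PF.const _

private theorem qz_r {ι A B : Type} [DecidableEq B] (F : A → B → ι)
    (hF : ∀ a b a' b', F a b = F a' b' → a = a' ∧ b = b') (J : Finset B)
    (e : {b // b ∈ J} ⊕ Unit → A) (he : Function.Injective e) :
    ∃ u : ι → ℝ, (RM J e (fun a b => u (F a b))).det ≠ 0 := by
  obtain ⟨S, hS⟩ : ∃ S : Set ι, S = {i | ∃ j : {b // b ∈ J}, i = F (e (Sum.inl j)) j.1} := ⟨_, rfl⟩
  have hS1 : ∀ a b, F a b ∈ S ↔ ∃ j : {b // b ∈ J}, a = e (Sum.inl j) ∧ b = j.1 := by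
    intro a b
    rw [hS]
    constructor
    · rintro ⟨j, hj⟩
      exact ⟨j, hF _ _ _ _ hj⟩
    · rintro ⟨j, rfl, rfl⟩
      exact ⟨j, rfl⟩
  refine ⟨S.indicator (fun _ => (1 : ℝ)), rm_one J e _ (fun j j' => ?_) (fun j' => ?_)⟩
  · exact qz_pt F J (fun j => e (Sum.inl j)) (fun a b h => Sum.inl_injective (he h)) S hS1 j j'
  · refine Set.indicator_of_notMem ?_ _
    intro h
    obtain ⟨k, h1, -⟩ := (hS1 _ _).1 h
    exact Sum.inr_ne_inl (he h1)

private theorem qz_q {ι A B : Type} [DecidableEq B] (F : A → B → ι)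
    (hF : ∀ a b a' b', F a b = F a' b' → a = a' ∧ b = b') (J : Finset B) (hJ : J.Nonempty)
    (e : {b // b ∈ J} → A) (he : Function.Injective e) :
    ∃ u : ι → ℝ, (QM J e (fun a b => u (F a b))).det ≠ 0 := by
  obtain ⟨S, hS⟩ : ∃ S : Set ι, S = {i | ∃ j : {b // b ∈ J}, i = F (e j) j.1} := ⟨_, rfl⟩
  have hS1 : ∀ a b, F a b ∈ S ↔ ∃ j : {b // b ∈ J}, a = e j ∧ b = j.1 := by
    intro a b
    rw [hS]
    constructor
    · rintro ⟨j, hj⟩
      exact ⟨j, hF _ _ _ _ hj⟩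
    · rintro ⟨j, rfl, rfl⟩
      exact ⟨j, rfl⟩
  refine ⟨S.indicator (fun _ => (1 : ℝ)), ?_⟩
  have h1 := qm_one J hJ e (fun a b => S.indicator (fun _ => (1 : ℝ)) (F a b))
    (fun j j' => qz_pt F J e he S hS1 j j')
  rw [h1]
  have := Finset.card_pos.2 hJ
  positivity

private theorem qz_d {ι A B C : Type} [Fintype A] [Fintype B] [DecidableEq A]
    [DecidableEq B] (f1 f2 f3 : A → B → C → ι)
    (hc : Cor f1 f2 f3) (c0 c1 : C) (I : Finset A) (J : Finset B) (e : {b // b ∈ J} → A)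
    (e' : {a // a ∈ I} → B) (hcc : c0 ≠ c1) (hI : I.Nonempty) (hJ : J.Nonempty)
    (he : Function.Injective e) (he' : Function.Injective e') :
    ∃ u : ι → ℝ, dz f1 f2 f3 c0 c1 I J e e' u ≠ 0 := by
  obtain ⟨S, hS⟩ : ∃ S : Set ι, S = {i | (∃ j : {b // b ∈ J}, i = f1 (e j) j.1 c0) ∨
      (∃ j : {a // a ∈ I}, i = f2 j.1 (e' j) c0) ∨ ∃ a b, i = f3 a b c1} := ⟨_, rfl⟩
  have hS1 : ∀ a b, f1 a b c0 ∈ S ↔ ∃ j : {b // b ∈ J}, a = e j ∧ b = j.1 := by
    intro a b
    rw [hS]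
    constructor
    · rintro (⟨j, hj⟩ | ⟨j, hj⟩ | ⟨a', b', hj⟩)
      · have h1 := hc.i1 (a₁ := (a, b, c0)) (a₂ := (e j, j.1, c0)) hj
        exact ⟨j, congrArg Prod.fst h1, congrArg (fun q : A × B × C => q.2.1) h1⟩
      · exact absurd hj (hc.d12 _ _ _ _ _ _)
      · exact absurd hj (hc.d13 _ _ _ _ _ _)
    · rintro ⟨j, rfl, rfl⟩
      exact Or.inl ⟨j, rfl⟩
  have hS2 : ∀ b a, f2 a b c0 ∈ S ↔ ∃ j : {a // a ∈ I}, b = e' j ∧ a = j.1 := by
    intro b a
    rw [hS]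
    constructor
    · rintro (⟨j, hj⟩ | ⟨j, hj⟩ | ⟨a', b', hj⟩)
      · exact absurd hj.symm (hc.d12 _ _ _ _ _ _)
      · have h1 := hc.i2 (a₁ := (a, b, c0)) (a₂ := (j.1, e' j, c0)) hj
        exact ⟨j, congrArg (fun q : A × B × C => q.2.1) h1, congrArg Prod.fst h1⟩
      · exact absurd hj (hc.d23 _ _ _ _ _ _)
    · rintro ⟨j, rfl, rfl⟩
      exact Or.inr (Or.inl ⟨j, rfl⟩)
  have hS3 : ∀ a b, f3 a b c1 ∈ S := by
    intro a b
    rw [hS]
    exact Or.inr (Or.inr ⟨a, b, rfl⟩)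
  have hS4 : ∀ a b, f3 a b c0 ∉ S := by
    intro a b
    rw [hS]
    rintro (⟨j, hj⟩ | ⟨j, hj⟩ | ⟨a', b', hj⟩)
    · exact absurd hj.symm (hc.d13 _ _ _ _ _ _)
    · exact absurd hj.symm (hc.d23 _ _ _ _ _ _)
    · have h1 := hc.i3 (a₁ := (a, b, c0)) (a₂ := (a', b', c1)) hj
      exact hcc (congrArg (fun q : A × B × C => q.2.2) h1)
  refine ⟨S.indicator (fun _ => (1 : ℝ)), ?_⟩
  have h1 : ∀ a : {a // a ∈ I}, ya I e' (fun b a => S.indicator (fun _ => (1 : ℝ)) (f2 a b c0)) a = 1 :=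
    fun a => ya_one I hI e' _ (fun j j' => qz_pt (fun b a => f2 a b c0) I e' he' S hS2 j j') a
  have h2 : ∀ b : {b // b ∈ J}, ya J e (fun a b => S.indicator (fun _ => (1 : ℝ)) (f1 a b c0)) b = 1 :=
    fun b => ya_one J hJ e _ (fun j j' => qz_pt (fun a b => f1 a b c0) J e he S hS1 j j') b
  have h3 : dz f1 f2 f3 c0 c1 I J e e' (S.indicator (fun _ => (1 : ℝ))) =
      ∑ a : {a // a ∈ I}, ∑ b : {b // b ∈ J}, (1 : ℝ) := by
    unfold dz
    refine Finset.sum_congr rfl fun a _ => Finset.sum_congr rfl fun b _ => ?_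
    rw [h1, h2, Set.indicator_of_mem (hS3 _ _), Set.indicator_of_notMem (hS4 _ _)]
    norm_num
  rw [h3]
  have hIc := Finset.card_pos.2 hI
  have hJc := Finset.card_pos.2 hJ
  simp only [Finset.sum_const, Finset.card_univ, Fintype.card_coe, nsmul_eq_mul, mul_one]
  positivity

theorem qz {ι A B C : Type} [Fintype ι] [Fintype A] [Fintype B] [Fintype C] [DecidableEq A]
    [DecidableEq B] [DecidableEq C] [DecidableEq ι] (f1 f2 f3 : A → B → C → ι)
    (hc : Cor f1 f2 f3) : volume {u : ι → ℝ | ¬ Gen f1 f2 f3 u} = 0 := by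
  have hF1 : ∀ (c0 : C) a b a' b', f1 a b c0 = f1 a' b' c0 → a = a' ∧ b = b' := by
    intro c0 a b a' b' h
    have h1 := hc.i1 (a₁ := (a, b, c0)) (a₂ := (a', b', c0)) h
    exact ⟨congrArg Prod.fst h1, congrArg (fun q : A × B × C => q.2.1) h1⟩
  have hF2 : ∀ (c0 : C) b a b' a', f2 a b c0 = f2 a' b' c0 → b = b' ∧ a = a' := by
    intro c0 b a b' a' h
    have h1 := hc.i2 (a₁ := (a, b, c0)) (a₂ := (a', b', c0)) h
    exact ⟨congrArg (fun q : A × B × C => q.2.1) h1, congrArg Prod.fst h1⟩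
  have e0 : ∀ᵐ u : ι → ℝ, ∀ i, u i ≠ 0 := by
    refine ae_all_iff.2 fun i => ?_
    exact qz_ae (PF.coord i) ⟨fun _ => 1, one_ne_zero⟩
  have e1 : ∀ᵐ u : ι → ℝ, ∀ i, u i ≠ 1 := by
    refine ae_all_iff.2 fun i => ?_
    filter_upwards [qz_ae (PF.sub (PF.coord i) (PF.const 1)) ⟨fun _ => 0, by norm_num⟩] with u hu h
    exact hu (sub_eq_zero.2 h)
  have er1 : ∀ᵐ u : ι → ℝ, ∀ (c0 : C) (J : Finset B) (e : {b // b ∈ J} ⊕ Unit → A),
      Function.Injective e → (RM J e (fun a b => u (f1 a b c0))).det ≠ 0 := by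
    refine ae_all_iff.2 fun c0 => ae_all_iff.2 fun J => ae_all_iff.2 fun e => ae_all_iff.2 fun he => ?_
    exact qz_ae (PF.det (qz_RM J e (fun a b => f1 a b c0))) (qz_r (fun a b => f1 a b c0) (hF1 c0) J e he)
  have er2 : ∀ᵐ u : ι → ℝ, ∀ (c0 : C) (I : Finset A) (e : {a // a ∈ I} ⊕ Unit → B),
      Function.Injective e → (RM I e (fun b a => u (f2 a b c0))).det ≠ 0 := by
    refine ae_all_iff.2 fun c0 => ae_all_iff.2 fun J => ae_all_iff.2 fun e => ae_all_iff.2 fun he => ?_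
    exact qz_ae (PF.det (qz_RM J e (fun b a => f2 a b c0))) (qz_r (fun b a => f2 a b c0) (hF2 c0) J e he)
  have eq1 : ∀ᵐ u : ι → ℝ, ∀ (c0 : C) (J : Finset B) (e : {b // b ∈ J} → A), J.Nonempty →
      Function.Injective e → (QM J e (fun a b => u (f1 a b c0))).det ≠ 0 := by
    refine ae_all_iff.2 fun c0 => ae_all_iff.2 fun J => ae_all_iff.2 fun e => ae_all_iff.2 fun hJ =>
      ae_all_iff.2 fun he => ?_
    exact qz_ae (PF.det (qz_QM J e (fun a b => f1 a b c0))) (qz_q (fun a b => f1 a b c0) (hF1 c0) J hJ e he)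
  have eq2 : ∀ᵐ u : ι → ℝ, ∀ (c0 : C) (I : Finset A) (e : {a // a ∈ I} → B), I.Nonempty →
      Function.Injective e → (QM I e (fun b a => u (f2 a b c0))).det ≠ 0 := by
    refine ae_all_iff.2 fun c0 => ae_all_iff.2 fun J => ae_all_iff.2 fun e => ae_all_iff.2 fun hJ =>
      ae_all_iff.2 fun he => ?_
    exact qz_ae (PF.det (qz_QM J e (fun b a => f2 a b c0))) (qz_q (fun b a => f2 a b c0) (hF2 c0) J hJ e he)
  have ed : ∀ᵐ u : ι → ℝ, ∀ (c0 c1 : C) (I : Finset A) (J : Finset B) (e : {b // b ∈ J} → A)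
      (e' : {a // a ∈ I} → B), c0 ≠ c1 → I.Nonempty → J.Nonempty → Function.Injective e →
      Function.Injective e' → dz f1 f2 f3 c0 c1 I J e e' u ≠ 0 := by
    refine ae_all_iff.2 fun c0 => ae_all_iff.2 fun c1 => ae_all_iff.2 fun I => ae_all_iff.2 fun J =>
      ae_all_iff.2 fun e => ae_all_iff.2 fun e' => ae_all_iff.2 fun hcc => ae_all_iff.2 fun hI =>
      ae_all_iff.2 fun hJ => ae_all_iff.2 fun he => ae_all_iff.2 fun he' => ?_
    refine qz_ae ?_ (qz_d f1 f2 f3 hc c0 c1 I J e e' hcc hI hJ he he')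
    unfold dz
    refine PF.sum _ fun a _ => PF.sum _ fun b _ => PF.mul (PF.mul ?_ ?_) (PF.sub (PF.coord _) (PF.coord _))
    · exact PF.adj (qz_QM I e' (fun b a => f2 a b c0)) _ _
    · exact PF.adj (qz_QM J e (fun a b => f1 a b c0)) _ _
  have hG : ∀ᵐ u : ι → ℝ, Gen f1 f2 f3 u := by
    filter_upwards [e0, e1, er1, er2, eq1, eq2, ed] with u h0 h1 h2 h3 h4 h5 h6
    exact ⟨h0, h1, h2, h3, h4, h5, h6⟩
  exact ae_iff.1 hG

end Pool.Agent.Work.MP_9d4f6b_lc.AG
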