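import Pool.Agent.Work.MP_9d4f6b_lc.AG.Defs
import Pool.Agent.Work.MP_9d4f6b_lc.Poly

/-!
MODULE SEL (size M). Small common denominator of the solution of an integral system with a left inverse (Cramer's rule).

PROOF. Let A' = A over ℚ, L A' = 1. The rows of A' span ℚ^B (each unit vector e_b = row b of L times A'), so card B of
them are linearly independent and form a basis: there is f : B → E with det (A'.submatrix f id) ≠ 0. [For
instance: choose a linearly independent subfamily of the rows which spans (exists_linearIndependent, or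
Submodule.exists_fun_fin_finrank_span_eq / Module.Basis.ofSpan ...), its size is finrank = card B. Or: by the Cauchy-Binet
type argument det 1 = det (L A') is a sum over f : B → E of (∏ b, L b (f b)) det (A'.submatrix f id)
(Matrix.det_apply, Finset.prod_univ_sum; the determinant is multilinear in the rows:
MultilinearMap.map_sum for detRowAlternating), so one of these determinants is nonzero. This second way is short.]
Let W = A.submatrix f id (integral), W y = r ∘ f, det W * y = adjugate W (r ∘ f) (Matrix.adjugate_mul), an integral vector.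
D = |det W| ≤ detB K (card B) by abs_det_le (Poly.lean), D > 0.
-/

set_option linter.unusedVariables false
set_option linter.style.longLine false
set_option autoImplicit false

namespace Pool.Agent.Work.MP_9d4f6b_lc.AG

private theorem exists_minor {E B : Type} [Fintype E] [Fintype B] [DecidableEq E] [DecidableEq B]
    (A : Matrix E B ℚ) (L : Matrix B E ℚ) (hL : L * A = 1) :
    ∃ f : B → E, (A.submatrix f id).det ≠ 0 := by
  by_contra hne
  push Not at hne
  have h1 : (L * A).det = 1 := by rw [hL, Matrix.det_one]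
  have h2 : (L * A) = Matrix.of (fun b => ∑ e, L b e • A e) := by
    ext b b'
    rw [Matrix.mul_apply, Matrix.of_apply, Finset.sum_apply]
    rfl
  have h3 : (L * A).det = ∑ f : B → E, (∏ b, L b (f b)) * (A.submatrix f id).det := by
    rw [h2]
    have h4 := MultilinearMap.map_sum (Matrix.detRowAlternating (n := B) (R := ℚ)).toMultilinearMap
      (fun (b : B) (e : E) => L b e • A e)
    refine Eq.trans h4 ?_
    refine Finset.sum_congr rfl (fun f _ => ?_)
    have h5 := MultilinearMap.map_smul_univ (Matrix.detRowAlternating (n := B) (R := ℚ)).toMultilinearMap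
      (fun b => L b (f b)) (fun b => A (f b))
    refine Eq.trans h5 ?_
    rfl
  rw [h3, Finset.sum_eq_zero] at h1
  · exact zero_ne_one h1
  · intro f _
    rw [hne f, mul_zero]

theorem sel {E B : Type} [Fintype E] [Fintype B] [DecidableEq E] [DecidableEq B] (A : Matrix E B ℤ)
    (L : Matrix B E ℚ) (hL : L * A.map (fun k : ℤ => (k : ℚ)) = 1) (K : ℕ)
    (hK : ∀ e b, |A e b| ≤ (K : ℤ)) (y : B → ℚ) (r : E → ℤ)
    (hy : (A.map (fun k : ℤ => (k : ℚ))).mulVec y = fun e => (r e : ℚ)) :
    ∃ D : ℕ, 0 < D ∧ D ≤ detB K (Fintype.card B) ∧ ∀ b, ∃ k : ℤ, (D : ℚ) * y b = k := by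
  obtain ⟨f, hf⟩ := exists_minor _ L hL
  set W : Matrix B B ℤ := A.submatrix f id with hW
  have hmap : (A.map (fun k : ℤ => (k : ℚ))).submatrix f id = W.map (fun k : ℤ => (k : ℚ)) := rfl
  rw [hmap] at hf
  have hdet : (W.map (fun k : ℤ => (k : ℚ))).det = (W.det : ℚ) := by
    have := RingHom.map_det (Int.castRingHom ℚ) W
    exact this.symm
  have hadj : (W.map (fun k : ℤ => (k : ℚ))).adjugate = W.adjugate.map (fun k : ℤ => (k : ℚ)) := by
    have := RingHom.map_adjugate (Int.castRingHom ℚ) W
    exact this.symm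
  rw [hdet] at hf
  have hW0 : W.det ≠ 0 := by
    intro h
    rw [h] at hf
    exact hf Int.cast_zero
  have hval : (W.map (fun k : ℤ => (k : ℚ))).mulVec y = fun b => (r (f b) : ℚ) := by
    funext b
    exact congrFun hy (f b)
  have hmain : ∀ b, (W.det : ℚ) * y b = ((∑ b', W.adjugate b b' * r (f b') : ℤ) : ℚ) := by
    intro b
    have h1 : ((W.map (fun k : ℤ => (k : ℚ))).adjugate).mulVec
        ((W.map (fun k : ℤ => (k : ℚ))).mulVec y) = (W.det : ℚ) • y := by
      rw [Matrix.mulVec_mulVec, Matrix.adjugate_mul, hdet, Matrix.smul_mulVec, Matrix.one_mulVec]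
    have h2 := congrFun h1 b
    rw [hval, hadj] at h2
    rw [Pi.smul_apply, smul_eq_mul] at h2
    rw [← h2]
    push_cast
    rfl
  refine ⟨W.det.natAbs, Int.natAbs_pos.2 hW0, ?_, ?_⟩
  · have h1 := abs_det_le (K := K) (W := W) (fun i j => hK (f i) j)
    have h2 : ((W.det.natAbs : ℕ) : ℤ) = |W.det| := Int.natCast_natAbs _
    exact_mod_cast h2 ▸ h1
  · intro b
    have h2 : ((W.det.natAbs : ℕ) : ℚ) = ((|W.det| : ℤ) : ℚ) := by
      rw [← Int.natCast_natAbs]
      rfl
    rcases abs_choice W.det with h3 | h3
    · refine ⟨∑ b', W.adjugate b b' * r (f b'), ?_⟩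
      rw [h2, h3, hmain b]
    · refine ⟨-∑ b', W.adjugate b b' * r (f b'), ?_⟩
      rw [h2, h3, Int.cast_neg, neg_mul, hmain b, Int.cast_neg]

end Pool.Agent.Work.MP_9d4f6b_lc.AG
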