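import Pool.Agent.Work.MP_9d4f6b_lc.AG.Defs

/-!
MODULE SIEVE (size M-L). Chinese remainder theorem in a box.

PROOF. Let M = ∏ p in S, p, N = card ι, V = {r : ι → Fin M (or ZMod M) | ∀ p in S, B p (r mod p)}.
(1) card V = ∏ p in S, card {v // B p v} ≤ θ^|S| M^N: the ring isomorphism ZMod M ≃ ∏ p in S, ZMod p
(ZMod.prodEquivPi or Nat.chineseRemainder; the primes are pairwise coprime) gives a bijection of
ι → ZMod M with the families (v_p : ι → ZMod p). An injection is enough: r ↦ (r mod p)_p is injective because M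
divides a difference which is divisible by all p in S. Induction on S is also possible.
(2) c ↦ (c / M, c mod M) is an injection of the set on the left into (ι → Fin (H / M + 1)) × V; so
card ≤ (H / M + 1)^N * θ^|S| M^N ≤ θ^|S| (H + M)^N.
-/

set_option linter.unusedVariables false
set_option linter.style.longLine false
set_option autoImplicit false

namespace Pool.Agent.Work.MP_9d4f6b_lc.AG

/-- residue vectors which are bad modulo all primes in S -/
private def VS {ι : Type} (S : Finset ℕ) (B : ∀ p : ℕ, (ι → ZMod p) → Prop) (M : ℕ) : Type :=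
  {r : ι → Fin M // ∀ p ∈ S, B p (fun i => ((r i : ℕ) : ZMod p))}

private theorem sv_dvd (S : Finset ℕ) (hS : ∀ p ∈ S, p.Prime) (n : ℤ) (h : ∀ p ∈ S, (p : ℤ) ∣ n) :
    ((∏ p ∈ S, p : ℕ) : ℤ) ∣ n := by
  rw [Nat.cast_prod]
  refine Finset.prod_dvd_of_coprime ?_ h
  intro p hp p' hp' hne
  have h1 : Nat.Coprime p p' := (Nat.coprime_primes (hS p hp) (hS p' hp')).2 hne
  exact Nat.isCoprime_iff_coprime.2 h1

private theorem sv_card {ι : Type} [Fintype ι] (S : Finset ℕ) (hS : ∀ p ∈ S, p.Prime)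
    (B : ∀ p : ℕ, (ι → ZMod p) → Prop) (θ : ℝ) (hθ : 0 ≤ θ)
    (hB : ∀ p ∈ S, (Nat.card {v : ι → ZMod p // B p v} : ℝ) ≤ θ * (p : ℝ) ^ Fintype.card ι) :
    (Nat.card (VS S B (∏ p ∈ S, p)) : ℝ) ≤
      θ ^ S.card * ((∏ p ∈ S, p : ℕ) : ℝ) ^ Fintype.card ι := by
  have hfin : ∀ p : {p // p ∈ S}, Finite {v : ι → ZMod p.1 // B p.1 v} := fun p => by
    haveI : NeZero p.1 := ⟨(hS p.1 p.2).ne_zero⟩
    infer_instance
  have h1 : Nat.card (VS S B (∏ p ∈ S, p)) ≤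
      Nat.card (∀ p : {p // p ∈ S}, {v : ι → ZMod p.1 // B p.1 v}) := by
    refine Nat.card_le_card_of_injective
      (fun r p => ⟨fun i => ((r.1 i : ℕ) : ZMod p.1), r.2 p.1 p.2⟩) fun r r' h => ?_
    refine Subtype.ext (funext fun i => Fin.ext ?_)
    have h2 : ∀ p ∈ S, (p : ℤ) ∣ ((r.1 i : ℕ) : ℤ) - ((r'.1 i : ℕ) : ℤ) := by
      intro p hp
      have h3 := congrFun (Subtype.ext_iff.1 (congrFun h ⟨p, hp⟩)) i
      have h4 : ((r.1 i : ℕ) : ZMod p) = ((r'.1 i : ℕ) : ZMod p) := h3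
      rw [← ZMod.intCast_zmod_eq_zero_iff_dvd]
      push_cast
      rw [h4, sub_self]
    have h5 := sv_dvd S hS _ h2
    have h6 : |((r.1 i : ℕ) : ℤ) - ((r'.1 i : ℕ) : ℤ)| < ((∏ p ∈ S, p : ℕ) : ℤ) := by
      have a1 := (r.1 i).2
      have a2 := (r'.1 i).2
      rw [abs_lt]
      constructor <;> omega
    have h7 := Int.eq_zero_of_abs_lt_dvd h5 h6
    omega
  have h2 : Nat.card (∀ p : {p // p ∈ S}, {v : ι → ZMod p.1 // B p.1 v}) =
      ∏ p : {p // p ∈ S}, Nat.card {v : ι → ZMod p.1 // B p.1 v} := Nat.card_pi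
  have h3 : ((∏ p : {p // p ∈ S}, Nat.card {v : ι → ZMod p.1 // B p.1 v} : ℕ) : ℝ) ≤
      ∏ p : {p // p ∈ S}, (θ * ((p.1 : ℕ) : ℝ) ^ Fintype.card ι) := by
    rw [Nat.cast_prod]
    exact Finset.prod_le_prod (fun p _ => Nat.cast_nonneg _) fun p _ => hB p.1 p.2
  have h4 : ∏ p : {p // p ∈ S}, (θ * ((p.1 : ℕ) : ℝ) ^ Fintype.card ι) =
      θ ^ S.card * ((∏ p ∈ S, p : ℕ) : ℝ) ^ Fintype.card ι := by
    rw [Finset.prod_mul_distrib, Finset.prod_const, Finset.card_univ, Fintype.card_coe,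
      Finset.prod_pow, Nat.cast_prod, Finset.prod_coe_sort S (fun p => ((p : ℕ) : ℝ))]
  calc (Nat.card (VS S B (∏ p ∈ S, p)) : ℝ) ≤
        ((∏ p : {p // p ∈ S}, Nat.card {v : ι → ZMod p.1 // B p.1 v} : ℕ) : ℝ) := by
        rw [← h2]
        exact_mod_cast h1
    _ ≤ _ := h3
    _ = _ := h4

theorem sieve {ι : Type} [Fintype ι] (S : Finset ℕ) (hS : ∀ p ∈ S, p.Prime)
    (B : ∀ p : ℕ, (ι → ZMod p) → Prop) (θ : ℝ) (hθ : 0 ≤ θ)
    (hB : ∀ p ∈ S, (Nat.card {v : ι → ZMod p // B p v} : ℝ) ≤ θ * (p : ℝ) ^ Fintype.card ι) (H : ℕ) :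
    (Nat.card {c : ι → Fin (H + 1) // ∀ p ∈ S, B p (fun i => ((c i : ℕ) : ZMod p))} : ℝ) ≤
      θ ^ S.card * ((H : ℝ) + 1 + ((∏ p ∈ S, p : ℕ) : ℝ)) ^ Fintype.card ι := by
  set M := ∏ p ∈ S, p with hM
  have hM0 : 0 < M := Finset.prod_pos fun p hp => (hS p hp).pos
  have hfin : Finite (VS S B M) := by
    unfold VS
    infer_instance
  have h1 : Nat.card {c : ι → Fin (H + 1) // ∀ p ∈ S, B p (fun i => ((c i : ℕ) : ZMod p))} ≤
      Nat.card ((ι → Fin (H / M + 1)) × VS S B M) := by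
    refine Nat.card_le_card_of_injective (fun c =>
      (fun i => ⟨(c.1 i : ℕ) / M, ?_⟩, ⟨fun i => ⟨(c.1 i : ℕ) % M, Nat.mod_lt _ hM0⟩, ?_⟩))
      fun c c' h => ?_
    · have := (c.1 i).2
      exact Nat.lt_succ_of_le (Nat.div_le_div_right (by omega))
    · intro p hp
      have h2 : (fun i => (((c.1 i : ℕ) % M : ℕ) : ZMod p)) = fun i => ((c.1 i : ℕ) : ZMod p) := by
        funext i
        have h3 : p ∣ M := Finset.dvd_prod_of_mem _ hp
        rw [ZMod.natCast_eq_natCast_iff']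
        exact Nat.mod_mod_of_dvd _ h3
      have h4 := c.2 p hp
      rw [← h2] at h4
      exact h4
    · refine Subtype.ext (funext fun i => Fin.ext ?_)
      have e1 : (c.1 i : ℕ) / M = (c'.1 i : ℕ) / M :=
        congrArg Fin.val (congrFun (congrArg Prod.fst h) i)
      have e2 : (c.1 i : ℕ) % M = (c'.1 i : ℕ) % M :=
        congrArg Fin.val (congrFun (Subtype.ext_iff.1 (congrArg Prod.snd h)) i)
      rw [← Nat.div_add_mod (c.1 i : ℕ) M, ← Nat.div_add_mod (c'.1 i : ℕ) M, e1, e2]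
  rw [Nat.card_prod, Nat.card_fun, Nat.card_eq_fintype_card (α := ι),
    Nat.card_eq_fintype_card (α := Fin (H / M + 1)), Fintype.card_fin] at h1
  have h5 := sv_card S hS B θ hθ hB
  rw [← hM] at h5
  have h6 : (((H / M + 1 : ℕ) : ℝ)) * (M : ℝ) ≤ (H : ℝ) + 1 + M := by
    have h7 : (H / M + 1) * M ≤ H + 1 + M := by
      have := Nat.div_mul_le_self H M
      nlinarith
    exact_mod_cast h7
  calc (Nat.card {c : ι → Fin (H + 1) // ∀ p ∈ S, B p (fun i => ((c i : ℕ) : ZMod p))} : ℝ)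
      ≤ ((H / M + 1 : ℕ) : ℝ) ^ Fintype.card ι * (Nat.card (VS S B M) : ℝ) := by
        exact_mod_cast h1
    _ ≤ ((H / M + 1 : ℕ) : ℝ) ^ Fintype.card ι * (θ ^ S.card * (M : ℝ) ^ Fintype.card ι) :=
        mul_le_mul_of_nonneg_left h5 (by positivity)
    _ = θ ^ S.card * (((H / M + 1 : ℕ) : ℝ) * (M : ℝ)) ^ Fintype.card ι := by
        rw [mul_pow]
        ring
    _ ≤ θ ^ S.card * ((H : ℝ) + 1 + M) ^ Fintype.card ι := by
        refine mul_le_mul_of_nonneg_left ?_ (pow_nonneg hθ _)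
        exact pow_le_pow_left₀ (by positivity) h6 _

end Pool.Agent.Work.MP_9d4f6b_lc.AG
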