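import Pool.Agent.Work.MP_9d4f6b_lc.AG.Lmk
import Pool.Agent.Work.MP_9d4f6b_lc.AG.Sel

/-!
MODULE WTS (size M). Small integral weights for a mixed strategy in a pure-third-player equilibrium.

PROOF. (One matrix) J nonempty, |I| = |J|: GLin gives p with ¬ LinS (M mod p) I J, lm_left the left inverse of LM, lm_val the
system LM y = (0, 0, 1) over ℚ, lm_abs the bound T + 1 of the entries; sel: D with 0 < D ≤ detB (T + 1) (card B) and D y b
integers; they are ≥ 0 and ≤ D since 0 ≤ y b ≤ 1 (y b ≤ ∑ y = 1). Y b = (D y b).toNat.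
-/

set_option linter.unusedVariables false
set_option linter.style.longLine false
set_option autoImplicit false

namespace Pool.Agent.Work.MP_9d4f6b_lc.AG

theorem wts {S T : ℕ} {A B : Type} [Fintype A] [Fintype B] [DecidableEq A] [DecidableEq B]
    (M : A → B → ℕ) (g : GLin S M) (hT : ∀ a b, M a b ≤ T) (I : Finset A) (J : Finset B)
    (hIJ : I.card = J.card) (y : B → ℚ) (y0 : ∀ b, 0 ≤ y b) (y1 : ∑ b, y b = 1)
    (hy : ∀ b, b ∈ J ↔ y b ≠ 0) (c : Cst I (fun a => ∑ b, (M a b : ℚ) * y b)) :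
    ∃ (D : ℕ) (Y : B → ℕ), 0 < D ∧ (∀ b, Y b ≤ detB (T + 1) (Fintype.card B)) ∧
      ∀ b, (Y b : ℚ) = D * y b := by
  have hJ : J.Nonempty := by
    by_contra hne
    rw [Finset.not_nonempty_iff_eq_empty] at hne
    have h0 : ∀ b, y b = 0 := by
      intro b
      by_contra hb
      have := (hy b).2 hb
      rw [hne] at this
      exact absurd this (Finset.notMem_empty b)
    rw [Finset.sum_eq_zero (fun b _ => h0 b)] at y1
    exact zero_ne_one y1
  obtain ⟨p, hp, -, hL⟩ := g I J hJ hIJ.ge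
  obtain ⟨L, hL⟩ := lm_left M I J p hp hL
  have h1 : ∀ b, b ∉ J → y b = 0 := by
    intro b hb
    by_contra hb2
    exact hb ((hy b).2 hb2)
  have hv := lm_val M I J hIJ y h1 y1 c
  obtain ⟨D, hD0, hDle, hk⟩ := sel (LM M I J) L hL (T + 1) (lm_abs M I J T hT) y _ hv
  choose k hk using hk
  have hD0' : (0 : ℚ) < D := by exact_mod_cast hD0
  have hle : ∀ b, y b ≤ 1 := by
    intro b
    rw [← y1]
    exact Finset.single_le_sum (fun i _ => y0 i) (Finset.mem_univ b)
  have hk0 : ∀ b, 0 ≤ k b := by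
    intro b
    have : (0 : ℚ) ≤ (k b : ℚ) := by
      rw [← hk b]
      exact mul_nonneg hD0'.le (y0 b)
    exact_mod_cast this
  have hkD : ∀ b, k b ≤ (D : ℤ) := by
    intro b
    have : (k b : ℚ) ≤ ((D : ℤ) : ℚ) := by
      rw [← hk b]
      push_cast
      nlinarith [hle b, y0 b]
    exact_mod_cast this
  refine ⟨D, fun b => (k b).toNat, hD0, ?_, ?_⟩
  · intro b
    have := hkD b
    have := hk0 b
    show (k b).toNat ≤ _
    omega
  · intro b
    show (((k b).toNat : ℕ) : ℚ) = _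
    rw [hk b]
    have : (((k b).toNat : ℕ) : ℤ) = k b := Int.toNat_of_nonneg (hk0 b)
    exact_mod_cast this

end Pool.Agent.Work.MP_9d4f6b_lc.AG
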