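import Pool.Agent.Work.MP_9d4f6b_lc.AG.Crit
import Pool.Agent.Work.MP_9d4f6b_lc.AG.Wts

/-!
MODULE SMW (size M-L). A good game with a rational equilibrium has one with small integral weights.

PROOF. Cast x, y, z to ℝ: a real equilibrium with rational probabilities, so by crit some player is pure. Let z c₀ = 1 (the other
two cases are the same with exchanged roles). Let I, J be the supports of x, y. red3 (over ℚ) gives the two
indifference conditions, two (over ℝ) gives |I| = |J|. wts for (u (0,·,·,c₀), I, J, y) and for (u (1,·,·,c₀) transposed, J, I, x) give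
D, Y with Y = D y and D', X with X = D' x, and Z = the indicator of c₀ = 1 * z (1 ≤ detB (T+1) n as T + 1 ≥ 1:
one_le_detB in Poly.lean). HNE for X = D' x, Y = D y, Z = z with D, D' > 0: multiply the inequalities of NE by D D' (all sums
are homogeneous: ∑ X = D'; the left side of n1 is D' * (D * ...) ), and cast from ℚ to ℕ. The general scaling statement
[NE u x y z, X = r x, Y = s y, Z = t z with r, s, t > 0 → HNE] should be a private lemma; compare sol_scale / hne_of_sol in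
Game2.lean.
-/

set_option linter.unusedVariables false
set_option linter.style.longLine false
set_option autoImplicit false

namespace Pool.Agent.Work.MP_9d4f6b_lc.AG

private theorem sc2 {B C : Type} [Fintype B] [Fintype C] (Y : B → ℕ) (Z : C → ℕ) (y : B → ℚ)
    (z : C → ℚ) (s t : ℚ) (hY : ∀ b, (Y b : ℚ) = s * y b) (hZ : ∀ c, (Z c : ℚ) = t * z c)
    (f : B → C → ℚ) :
    ∑ b, ∑ c, (Y b : ℚ) * Z c * f b c = s * t * ∑ b, ∑ c, y b * z c * f b c := by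
  rw [Finset.mul_sum]
  refine Finset.sum_congr rfl (fun b _ => ?_)
  rw [Finset.mul_sum]
  refine Finset.sum_congr rfl (fun c _ => ?_)
  rw [hY, hZ]
  ring

private theorem sc3 {A B C : Type} [Fintype A] [Fintype B] [Fintype C] (X : A → ℕ) (Y : B → ℕ)
    (Z : C → ℕ) (x : A → ℚ) (y : B → ℚ) (z : C → ℚ) (r s t : ℚ) (hX : ∀ a, (X a : ℚ) = r * x a)
    (hY : ∀ b, (Y b : ℚ) = s * y b) (hZ : ∀ c, (Z c : ℚ) = t * z c) (f : A → B → C → ℚ) :
    ∑ a, ∑ b, ∑ c, (X a : ℚ) * Y b * Z c * f a b c =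
      r * s * t * ∑ a, ∑ b, ∑ c, x a * y b * z c * f a b c := by
  rw [Finset.mul_sum]
  refine Finset.sum_congr rfl (fun a _ => ?_)
  rw [Finset.mul_sum]
  refine Finset.sum_congr rfl (fun b _ => ?_)
  rw [Finset.mul_sum]
  refine Finset.sum_congr rfl (fun c _ => ?_)
  rw [hX, hY, hZ]
  ring

private theorem sum_sc {A : Type} [Fintype A] (X : A → ℕ) (x : A → ℚ) (r : ℚ)
    (hX : ∀ a, (X a : ℚ) = r * x a) (x1 : ∑ a, x a = 1) : ∑ a, (X a : ℚ) = r := by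
  rw [Finset.sum_congr rfl (fun a _ => hX a), ← Finset.mul_sum, x1, mul_one]

private theorem hne_scale {l m n : ℕ} {u : Ix l m n → ℕ}
    {x : Fin l → ℚ} {y : Fin m → ℚ} {z : Fin n → ℚ} (h : NE u x y z) (X : Fin l → ℕ) (Y : Fin m → ℕ)
    (Z : Fin n → ℕ) (r s t : ℚ) (hr : 0 < r) (hs : 0 < s) (ht : 0 < t)
    (hX : ∀ a, (X a : ℚ) = r * x a) (hY : ∀ b, (Y b : ℚ) = s * y b) (hZ : ∀ c, (Z c : ℚ) = t * z c) :
    HNE (fun a b c => u (0, a, b, c)) (fun a b c => u (1, a, b, c)) (fun a b c => u (2, a, b, c))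
        X Y Z := by
  have sX := sum_sc X x r hX h.x1
  have sY := sum_sc Y y s hY h.y1
  have sZ := sum_sc Z z t hZ h.z1
  have hrst : 0 ≤ r * s * t := by positivity
  refine ⟨?_, ?_, ?_, ?_, ?_, ?_⟩
  · have : (0 : ℚ) < ((∑ a, X a : ℕ) : ℚ) := by
      push_cast
      rw [sX]
      exact hr
    exact_mod_cast this
  · have : (0 : ℚ) < ((∑ a, Y a : ℕ) : ℚ) := by
      push_cast
      rw [sY]
      exact hs
    exact_mod_cast this
  · have : (0 : ℚ) < ((∑ a, Z a : ℕ) : ℚ) := by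
      push_cast
      rw [sZ]
      exact ht
    exact_mod_cast this
  · intro a₀
    have h1 := mul_le_mul_of_nonneg_left (h.n1 a₀) hrst
    have h2 := sc2 Y Z y z s t hY hZ (fun b c => (u (0, a₀, b, c) : ℚ))
    have h3 := sc3 X Y Z x y z r s t hX hY hZ (fun a b c => (u (0, a, b, c) : ℚ))
    have h4 : (∑ a, (X a : ℚ)) * ∑ b, ∑ c, (Y b : ℚ) * Z c * (u (0, a₀, b, c) : ℚ) ≤
        ∑ a, ∑ b, ∑ c, (X a : ℚ) * Y b * Z c * (u (0, a, b, c) : ℚ) := by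
      rw [sX, h2, h3]
      calc _ = r * s * t * ∑ b, ∑ c, y b * z c * (u (0, a₀, b, c) : ℚ) := by ring
        _ ≤ _ := h1
    exact_mod_cast h4
  · intro b₀
    have h1 := mul_le_mul_of_nonneg_left (h.n2 b₀) hrst
    have h2 := sc2 X Z x z r t hX hZ (fun a c => (u (1, a, b₀, c) : ℚ))
    have h3 := sc3 X Y Z x y z r s t hX hY hZ (fun a b c => (u (1, a, b, c) : ℚ))
    have h4 : (∑ b, (Y b : ℚ)) * ∑ a, ∑ c, (X a : ℚ) * Z c * (u (1, a, b₀, c) : ℚ) ≤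
        ∑ a, ∑ b, ∑ c, (X a : ℚ) * Y b * Z c * (u (1, a, b, c) : ℚ) := by
      rw [sY, h2, h3]
      calc _ = r * s * t * ∑ a, ∑ c, x a * z c * (u (1, a, b₀, c) : ℚ) := by ring
        _ ≤ _ := h1
    exact_mod_cast h4
  · intro c₀
    have h1 := mul_le_mul_of_nonneg_left (h.n3 c₀) hrst
    have h2 := sc2 X Y x y r s hX hY (fun a b => (u (2, a, b, c₀) : ℚ))
    have h3 := sc3 X Y Z x y z r s t hX hY hZ (fun a b c => (u (2, a, b, c) : ℚ))
    have h4 : (∑ c, (Z c : ℚ)) * ∑ a, ∑ b, (X a : ℚ) * Y b * (u (2, a, b, c₀) : ℚ) ≤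
        ∑ a, ∑ b, ∑ c, (X a : ℚ) * Y b * Z c * (u (2, a, b, c) : ℚ) := by
      rw [sZ, h2, h3]
      calc _ = r * s * t * ∑ a, ∑ b, x a * y b * (u (2, a, b, c₀) : ℚ) := by ring
        _ ≤ _ := h1
    exact_mod_cast h4

private theorem cst_cast {A B : Type} [Fintype B] (I : Finset A) (M : A → B → ℕ) (y : B → ℚ)
    (c : Cst I (fun a => ∑ b, (M a b : ℚ) * y b)) :
    Cst I (fun a => ∑ b, (M a b : ℝ) * (y b : ℝ)) := by
  intro a ha a' ha'
  have h := c a ha a' ha'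
  simp only at h ⊢
  exact_mod_cast h

private theorem pairw {S T : ℕ} {A B : Type} [Fintype A] [Fintype B] [DecidableEq A] [DecidableEq B]
    (x : A → ℚ) (y : B → ℚ) (x0 : ∀ a, 0 ≤ x a) (y0 : ∀ b, 0 ≤ y b) (x1 : ∑ a, x a = 1)
    (y1 : ∑ b, y b = 1) (M1 : A → B → ℕ) (M2 : B → A → ℕ)
    (c1 : Cst (Finset.univ.filter fun a => x a ≠ 0) (fun a => ∑ b, (M1 a b : ℚ) * y b))
    (c2 : Cst (Finset.univ.filter fun b => y b ≠ 0) (fun b => ∑ a, (M2 b a : ℚ) * x a))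
    (g1 : GLin S M1) (g2 : GLin S M2) (t1 : ∀ a b, M1 a b ≤ T) (t2 : ∀ b a, M2 b a ≤ T) :
    ∃ (r s : ℚ) (X : A → ℕ) (Y : B → ℕ), 0 < r ∧ 0 < s ∧ (∀ a, (X a : ℚ) = r * x a) ∧
      (∀ b, (Y b : ℚ) = s * y b) ∧ (∀ a, X a ≤ detB (T + 1) (Fintype.card A)) ∧
      ∀ b, Y b ≤ detB (T + 1) (Fintype.card B) := by
  have hx : ∀ a, a ∈ (Finset.univ.filter fun a => x a ≠ 0) ↔ x a ≠ 0 := fun a => by simp
  have hy : ∀ b, b ∈ (Finset.univ.filter fun b => y b ≠ 0) ↔ y b ≠ 0 := fun b => by simp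
  have hx' : ∀ a, a ∈ (Finset.univ.filter fun a => x a ≠ 0) ↔ (x a : ℝ) ≠ 0 := fun a => by simp
  have hy' : ∀ b, b ∈ (Finset.univ.filter fun b => y b ≠ 0) ↔ (y b : ℝ) ≠ 0 := fun b => by simp
  have hc := (two (fun a => (x a : ℝ)) (fun b => (y b : ℝ)) _ _ hx' hy' (by exact_mod_cast x1)
    (by exact_mod_cast y1) M1 M2 (cst_cast _ M1 y c1) (cst_cast _ M2 x c2) g1 g2).1
  obtain ⟨D, Y, hD, hY, hYD⟩ := wts M1 g1 t1 _ _ hc y y0 y1 hy c1
  obtain ⟨D', X, hD', hX, hXD⟩ := wts M2 g2 t2 _ _ hc.symm x x0 x1 hx c2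
  exact ⟨D', D, X, Y, by exact_mod_cast hD', by exact_mod_cast hD, hXD, hYD, hX, hY⟩

private theorem one_le_det (T n : ℕ) : 1 ≤ detB (T + 1) n := by
  unfold detB
  rcases Nat.eq_zero_or_pos n with h | h
  · subst h
    simp
  · exact Nat.one_le_iff_ne_zero.2 (by positivity)

private theorem pureZ {n : ℕ} (T : ℕ) (z : Fin n → ℚ) (z0 : ∀ c, 0 ≤ z c) (z1 : ∑ c, z c = 1)
    (c₀ : Fin n) (hc : z c₀ = 1) :
    ∃ Z : Fin n → ℕ, (∀ c, (Z c : ℚ) = 1 * z c) ∧ ∀ c, Z c ≤ detB (T + 1) n := by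
  refine ⟨fun c => if c = c₀ then 1 else 0, ?_, ?_⟩
  · intro c
    by_cases h : c = c₀
    · simp [h, hc]
    · have h1 := Finset.add_sum_erase Finset.univ z (Finset.mem_univ c₀)
      rw [z1, hc] at h1
      have h2 : ∑ x ∈ Finset.univ.erase c₀, z x = 0 := by linarith
      have h3 := (Finset.sum_eq_zero_iff_of_nonneg (fun i _ => z0 i)).mp h2 c
        (Finset.mem_erase.mpr ⟨h, Finset.mem_univ c⟩)
      simp [h, h3]
  · intro c
    have := one_le_det T n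
    show (if c = c₀ then 1 else 0) ≤ _
    split_ifs <;> omega

theorem smw {S T : ℕ} {l m n : ℕ} {u : Ix l m n → ℕ} (hg : Gd S u) (hT : ∀ i, u i ≤ T)
    {x : Fin l → ℚ} {y : Fin m → ℚ} {z : Fin n → ℚ} (h : NE u x y z) :
    ∃ (X : Fin l → ℕ) (Y : Fin m → ℕ) (Z : Fin n → ℕ),
      HNE (fun a b c => u (0, a, b, c)) (fun a b c => u (1, a, b, c)) (fun a b c => u (2, a, b, c))
        X Y Z ∧
      (∀ a, X a ≤ detB (T + 1) l) ∧ (∀ b, Y b ≤ detB (T + 1) m) ∧ ∀ c, Z c ≤ detB (T + 1) n := by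
  have hR : NE u (fun a => (x a : ℝ)) (fun b => (y b : ℝ)) (fun c => (z c : ℝ)) :=
    { x0 := fun a => by exact_mod_cast h.x0 a
      x1 := by exact_mod_cast h.x1
      y0 := fun a => by exact_mod_cast h.y0 a
      y1 := by exact_mod_cast h.y1
      z0 := fun a => by exact_mod_cast h.z0 a
      z1 := by exact_mod_cast h.z1
      n1 := fun a => by exact_mod_cast h.n1 a
      n2 := fun a => by exact_mod_cast h.n2 a
      n3 := fun a => by exact_mod_cast h.n3 a }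
  rcases (crit hg hR).1 ⟨fun a => ⟨x a, rfl⟩, fun a => ⟨y a, rfl⟩, fun a => ⟨z a, rfl⟩⟩ with
    ⟨a₀, ha⟩ | ⟨b₀, hb⟩ | ⟨c₀, hc⟩
  · have ha' : x a₀ = 1 := by exact_mod_cast ha
    obtain ⟨c1, c2⟩ := red1 h a₀ ha'
    obtain ⟨s, t, Y, Z, hs, ht, hY, hZ, bY, bZ⟩ := pairw y z h.y0 h.z0 h.y1 h.z1
      (fun b c => u (1, a₀, b, c)) (fun c b => u (2, a₀, b, c)) c1 c2 (hg.h23 a₀) (hg.h32 a₀)
      (fun _ _ => hT _) (fun _ _ => hT _)
    obtain ⟨X, hX, bX⟩ := pureZ T x h.x0 h.x1 a₀ ha'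
    rw [Fintype.card_fin] at bY bZ
    exact ⟨X, Y, Z, hne_scale h X Y Z 1 s t one_pos hs ht hX hY hZ, bX, bY, bZ⟩
  · have hb' : y b₀ = 1 := by exact_mod_cast hb
    obtain ⟨c1, c2⟩ := red2 h b₀ hb'
    obtain ⟨r, t, X, Z, hr, ht, hX, hZ, bX, bZ⟩ := pairw x z h.x0 h.z0 h.x1 h.z1
      (fun a c => u (0, a, b₀, c)) (fun c a => u (2, a, b₀, c)) c1 c2 (hg.h13 b₀) (hg.h31 b₀)
      (fun _ _ => hT _) (fun _ _ => hT _)
    obtain ⟨Y, hY, bY⟩ := pureZ T y h.y0 h.y1 b₀ hb'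
    rw [Fintype.card_fin] at bX bZ
    exact ⟨X, Y, Z, hne_scale h X Y Z r 1 t hr one_pos ht hX hY hZ, bX, bY, bZ⟩
  · have hc' : z c₀ = 1 := by exact_mod_cast hc
    obtain ⟨c1, c2⟩ := red3 h c₀ hc'
    obtain ⟨r, s, X, Y, hr, hs, hX, hY, bX, bY⟩ := pairw x y h.x0 h.y0 h.x1 h.y1
      (fun a b => u (0, a, b, c₀)) (fun b a => u (1, a, b, c₀)) c1 c2 (hg.h12 c₀) (hg.h21 c₀)
      (fun _ _ => hT _) (fun _ _ => hT _)
    obtain ⟨Z, hZ, bZ⟩ := pureZ T z h.z0 h.z1 c₀ hc'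
    rw [Fintype.card_fin] at bX bY
    exact ⟨X, Y, Z, hne_scale h X Y Z r s 1 hr hs one_pos hX hY hZ, bX, bY, bZ⟩

end Pool.Agent.Work.MP_9d4f6b_lc.AG
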