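import Pool.Agent.Work.MP_9d4f6b_lc.AG.Defs

/-!
MODULE SUP (size M). In an equilibrium all strategies which are played are equally good.

PROOF. Let U a = ∑ b, ∑ c, y b * z c * u (0, a, b, c) and V = ∑ a, x a * U a = the right side of n1 (rearrange the sums;
see fac3 in Pool/Agent/Work/MP_9d4f6b_lc/Sym.lean). By n1, U a ≤ V for all a, and ∑ x a (V - U a) = V - V = 0 with all
terms ≥ 0, so x a ≠ 0 implies U a = V. So U is constant on the support. Same for the other players.
-/

set_option linter.unusedVariables false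
set_option linter.style.longLine false
set_option autoImplicit false

namespace Pool.Agent.Work.MP_9d4f6b_lc.AG

private theorem cst_aux {R : Type} [Field R] [LinearOrder R] [IsStrictOrderedRing R] {l : ℕ}
    {x : Fin l → R} (x0 : ∀ a, 0 ≤ x a) (x1 : ∑ a, x a = 1) (U : Fin l → R)
    (h : ∀ a, U a ≤ ∑ a', x a' * U a') :
    Cst (Finset.univ.filter fun a => x a ≠ 0) U := by
  have h1 : ∑ a, x a * ((∑ a', x a' * U a') - U a) = 0 := by
    simp only [mul_sub, Finset.sum_sub_distrib]
    rw [← Finset.sum_mul, x1, one_mul, sub_self]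
  have h2 : ∀ a, x a ≠ 0 → U a = ∑ a', x a' * U a' := by
    intro a ha
    have h3 := (Finset.sum_eq_zero_iff_of_nonneg (fun a _ =>
      mul_nonneg (x0 a) (sub_nonneg.2 (h a)))).1 h1 a (Finset.mem_univ _)
    rcases mul_eq_zero.1 h3 with h4 | h4
    · exact absurd h4 ha
    · exact (sub_eq_zero.1 h4).symm
  intro i hi i' hi'
  rw [h2 i (Finset.mem_filter.1 hi).2, h2 i' (Finset.mem_filter.1 hi').2]


theorem ne_cst {R : Type} [Field R] [LinearOrder R] [IsStrictOrderedRing R] {l m n : ℕ}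
    {u : Ix l m n → ℕ} {x : Fin l → R} {y : Fin m → R} {z : Fin n → R} (h : NE u x y z) :
    Cst (Finset.univ.filter fun a => x a ≠ 0)
      (fun a => ∑ b, ∑ c, (u (0, a, b, c) : R) * (y b * z c)) ∧
    Cst (Finset.univ.filter fun b => y b ≠ 0)
      (fun b => ∑ a, ∑ c, (u (1, a, b, c) : R) * (x a * z c)) ∧
    Cst (Finset.univ.filter fun c => z c ≠ 0)
      (fun c => ∑ a, ∑ b, (u (2, a, b, c) : R) * (x a * y b)) := by
  refine ⟨cst_aux h.x0 h.x1 _ fun a₀ => ?_, cst_aux h.y0 h.y1 _ fun b₀ => ?_, cst_aux h.z0 h.z1 _ fun c₀ => ?_⟩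
  · have h1 := h.n1 a₀
    have h2 : ∑ b, ∑ c, (u (0, a₀, b, c) : R) * (y b * z c) = ∑ b, ∑ c, y b * z c * (u (0, a₀, b, c) : R) :=
      Finset.sum_congr rfl fun b _ => Finset.sum_congr rfl fun c _ => by ring
    have h3 : ∑ a, x a * ∑ b, ∑ c, (u (0, a, b, c) : R) * (y b * z c) =
        ∑ a, ∑ b, ∑ c, x a * y b * z c * (u (0, a, b, c) : R) := by
      refine Finset.sum_congr rfl fun a _ => ?_
      rw [Finset.mul_sum]
      refine Finset.sum_congr rfl fun b _ => ?_
      rw [Finset.mul_sum]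
      exact Finset.sum_congr rfl fun c _ => by ring
    rw [h2, h3]
    exact h1
  · have h1 := h.n2 b₀
    have h2 : ∑ a, ∑ c, (u (1, a, b₀, c) : R) * (x a * z c) = ∑ a, ∑ c, x a * z c * (u (1, a, b₀, c) : R) :=
      Finset.sum_congr rfl fun b _ => Finset.sum_congr rfl fun c _ => by ring
    have h3 : ∑ b, y b * ∑ a, ∑ c, (u (1, a, b, c) : R) * (x a * z c) =
        ∑ a, ∑ b, ∑ c, x a * y b * z c * (u (1, a, b, c) : R) := by
      rw [Finset.sum_comm]
      refine Finset.sum_congr rfl fun b _ => ?_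
      rw [Finset.mul_sum]
      refine Finset.sum_congr rfl fun a _ => ?_
      rw [Finset.mul_sum]
      exact Finset.sum_congr rfl fun c _ => by ring
    rw [h2, h3]
    exact h1
  · have h1 := h.n3 c₀
    have h2 : ∑ a, ∑ b, (u (2, a, b, c₀) : R) * (x a * y b) = ∑ a, ∑ b, x a * y b * (u (2, a, b, c₀) : R) :=
      Finset.sum_congr rfl fun b _ => Finset.sum_congr rfl fun c _ => by ring
    have h3 : ∑ c, z c * ∑ a, ∑ b, (u (2, a, b, c) : R) * (x a * y b) =
        ∑ a, ∑ b, ∑ c, x a * y b * z c * (u (2, a, b, c) : R) := by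
      have h4 : ∑ a, ∑ b, ∑ c, x a * y b * z c * (u (2, a, b, c) : R) =
          ∑ c, ∑ a, ∑ b, x a * y b * z c * (u (2, a, b, c) : R) := by
        rw [Finset.sum_congr rfl fun a _ => Finset.sum_comm, Finset.sum_comm]
      rw [h4]
      refine Finset.sum_congr rfl fun c _ => ?_
      rw [Finset.mul_sum]
      refine Finset.sum_congr rfl fun a _ => ?_
      rw [Finset.mul_sum]
      exact Finset.sum_congr rfl fun b _ => by ring
    rw [h2, h3]
    exact h1

end Pool.Agent.Work.MP_9d4f6b_lc.AG
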