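import Pool.Agent.Work.MP_9d4f6b_lc.AG.Defs

/-!
MODULE TENS (size S-M). A criterion for the linear independence of tensors y_t ⊗ z_t.

PROOF. Let ∑ t, c t * (y t j * z t k) = 0 for all j, k (Fintype.linearIndependent_iff). Fix t₀ and its
functionals f, g. Write f v = ∑ j, f (e_j) * v j, g likewise (LinearMap.pi_apply_eq_sum_univ). Multiply the relation
by f (e_j) * g (e_k) and sum over j, k: 0 = ∑ t, c t * (f (y t) * g (z t)) = c t₀ * (f (y t₀) * g (z t₀)), so c t₀ = 0.
-/

set_option linter.unusedVariables false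
set_option linter.style.longLine false
set_option autoImplicit false

namespace Pool.Agent.Work.MP_9d4f6b_lc.AG

theorem tens {F : Type} [Field F] {J K τ : Type} [Fintype J] [Fintype K] [Fintype τ]
    (y : τ → J → F) (z : τ → K → F)
    (h : ∀ t : τ, ∃ (f : (J → F) →ₗ[F] F) (g : (K → F) →ₗ[F] F), f (y t) * g (z t) ≠ 0 ∧
      ∀ s : τ, s ≠ t → f (y s) * g (z s) = 0) :
    LinearIndependent F (fun (t : τ) (p : J × K) => y t p.1 * z t p.2) := by
  classical
  rw [Fintype.linearIndependent_iff]
  intro c hc t₀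
  obtain ⟨f, g, h1, h2⟩ := h t₀
  obtain ⟨cf, hf⟩ : ∃ cf : J → F, ∀ v, f v = ∑ j, v j * cf j :=
    ⟨fun i => f fun j => if i = j then 1 else 0, fun v => LinearMap.pi_apply_eq_sum_univ f v⟩
  obtain ⟨cg, hg⟩ : ∃ cg : K → F, ∀ v, g v = ∑ k, v k * cg k :=
    ⟨fun i => g fun j => if i = j then 1 else 0, fun v => LinearMap.pi_apply_eq_sum_univ g v⟩
  have h3 : ∑ t, c t * (f (y t) * g (z t)) = 0 := by
    have h4 : ∀ j k, ∑ t, c t * (y t j * z t k) = 0 := fun j k => by
      have := congrFun hc (j, k)
      simpa [Finset.sum_apply, smul_eq_mul] using this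
    calc ∑ t, c t * (f (y t) * g (z t))
        = ∑ t, ∑ j, ∑ k, c t * (y t j * z t k) * (cf j * cg k) := by
          refine Finset.sum_congr rfl fun t _ => ?_
          rw [hf (y t), hg (z t), Finset.sum_mul_sum, Finset.mul_sum]
          refine Finset.sum_congr rfl fun j _ => ?_
          rw [Finset.mul_sum]
          refine Finset.sum_congr rfl fun k _ => ?_
          ring
      _ = ∑ j, ∑ k, (∑ t, c t * (y t j * z t k)) * (cf j * cg k) := by
          rw [Finset.sum_comm]
          refine Finset.sum_congr rfl fun j _ => ?_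
          rw [Finset.sum_comm]
          refine Finset.sum_congr rfl fun k _ => ?_
          rw [Finset.sum_mul]
      _ = 0 := by
          refine Finset.sum_eq_zero fun j _ => Finset.sum_eq_zero fun k _ => ?_
          rw [h4, zero_mul]
  rw [Finset.sum_eq_single t₀ (fun s _ hs => by rw [h2 s hs, mul_zero])
    (fun hn => absurd (Finset.mem_univ _) hn)] at h3
  rcases mul_eq_zero.1 h3 with h5 | h5
  · exact h5
  · exact absurd h5 h1

end Pool.Agent.Work.MP_9d4f6b_lc.AG
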